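import Mathlib

set_option autoImplicit false

universe u

open Set Filter Topology MeasureTheory ContDiff
open scoped ENNReal

noncomputable section

namespace Pool.Agent.Steklov

/-- The closed half-cube `[0,r] × {‖x‖ ≤ r}` (sup norm). -/
def Q (d : ℕ) (r : ℝ) : Set (ℝ × (Fin d → ℝ)) := Icc 0 r ×ˢ Metric.closedBall 0 r

/-- The open half-cube `(0,r) × {‖x‖ < r}`. -/
def Qo (d : ℕ) (r : ℝ) : Set (ℝ × (Fin d → ℝ)) := Ioo 0 r ×ˢ Metric.ball 0 r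

/-- Abstract data: volume measure `v`, boundary measure `s`, space `F` of smooth functions,
carre du champ `Γ`. -/
structure StekData (d : ℕ) (Ω : Type u) [TopologicalSpace Ω] [MeasurableSpace Ω] where
  v : Measure Ω
  s : Measure Ω
  F : Submodule ℝ (Ω → ℝ)
  Γ : (Ω → ℝ) → (Ω → ℝ) → Ω → ℝ
  v_fin : v univ ≠ ⊤
  s_fin : s univ ≠ ⊤
  F_cont : ∀ f ∈ F, Continuous f
  F_const : ∀ c : ℝ, (fun _ => c) ∈ F
  Γ_cont : ∀ f ∈ F, ∀ h ∈ F, Continuous (Γ f h)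
  Γ_add : ∀ f ∈ F, ∀ h ∈ F, ∀ k ∈ F, Γ (f + h) k = Γ f k + Γ h k
  Γ_smul : ∀ (a : ℝ), ∀ f ∈ F, ∀ h ∈ F, Γ (a • f) h = a • Γ f h
  Γ_symm : ∀ f ∈ F, ∀ h ∈ F, Γ f h = Γ h f
  Γ_nonneg : ∀ f ∈ F, ∀ p, 0 ≤ Γ f f p
  Γ_local : ∀ f ∈ F, ∀ h ∈ F, ∀ U : Set Ω, IsOpen U → EqOn f h U → EqOn (Γ f f) (Γ h h) U
  Γ_one : ∀ x, Γ (fun _ => 1) (fun _ => 1) x = 0

variable {d : ℕ} {Ω : Type u} [TopologicalSpace Ω] [MeasurableSpace Ω]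

/-- A chart at a boundary point, with comparison constants. -/
structure HalfChart (D : StekData d Ω) where
  Ψ : ℝ × (Fin d → ℝ) → Ω
  R : ℝ
  c : ℝ
  C : ℝ
  R_pos : 0 < R
  c_pos : 0 < c
  C_pos : 0 < C
  inj : InjOn Ψ (Q d R)
  cont : ContinuousOn Ψ (Q d R)
  open_image : ∀ r, 0 < r → r ≤ R → IsOpen (Ψ '' (Ico 0 r ×ˢ Metric.ball 0 r))
  restr : ∀ f ∈ D.F, ContDiffOn ℝ ∞ (f ∘ Ψ) (Q d R)
  glue : ∀ f ∈ D.F, ∀ u : Ω → ℝ, ∀ r, r < R → (∀ p, p ∉ Ψ '' (Q d r) → u p = f p) →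
    ContDiffOn ℝ ∞ (u ∘ Ψ) (Q d R) → u ∈ D.F
  energy_lower : ∀ f ∈ D.F, ∀ z ∈ Qo d R, c * ‖fderiv ℝ (f ∘ Ψ) z‖ ^ 2 ≤ D.Γ f f (Ψ z)
  energy_upper : ∀ f ∈ D.F, ∀ z ∈ Qo d R, D.Γ f f (Ψ z) ≤ C * ‖fderiv ℝ (f ∘ Ψ) z‖ ^ 2
  vol_lower : ENNReal.ofReal c • ((volume : Measure (ℝ × (Fin d → ℝ))).restrict (Q d R)).map Ψ ≤ D.v
  vol_upper : D.v.restrict (Ψ '' (Q d R)) ≤
    ENNReal.ofReal C • ((volume : Measure (ℝ × (Fin d → ℝ))).restrict (Q d R)).map Ψ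
  bd_lower : ENNReal.ofReal c • ((volume : Measure (Fin d → ℝ)).restrict
    (Metric.closedBall 0 R)).map (fun x => Ψ (0, x)) ≤ D.s
  bd_upper : D.s.restrict (Ψ '' (Q d R)) ≤ ENNReal.ofReal C • ((volume : Measure (Fin d → ℝ)).restrict
    (Metric.closedBall 0 R)).map (fun x => Ψ (0, x))

/-- A chart at an interior point, with comparison constants. -/
structure BoxChart (D : StekData d Ω) where
  Ψ : ℝ × (Fin d → ℝ) → Ω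
  R : ℝ
  c : ℝ
  C : ℝ
  R_pos : 0 < R
  c_pos : 0 < c
  C_pos : 0 < C
  cont : ContinuousOn Ψ (Metric.closedBall 0 R)
  open_image : IsOpen (Ψ '' (Metric.ball 0 R))
  restr : ∀ f ∈ D.F, ContDiffOn ℝ ∞ (f ∘ Ψ) (Metric.closedBall 0 R)
  energy_lower : ∀ f ∈ D.F, ∀ z ∈ Metric.ball (0 : ℝ × (Fin d → ℝ)) R,
    c * ‖fderiv ℝ (f ∘ Ψ) z‖ ^ 2 ≤ D.Γ f f (Ψ z)
  vol_lower : ENNReal.ofReal c • ((volume : Measure (ℝ × (Fin d → ℝ))).restrict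
    (Metric.closedBall 0 R)).map Ψ ≤ D.v
  vol_upper : D.v.restrict (Ψ '' (Metric.closedBall 0 R)) ≤
    ENNReal.ofReal C • ((volume : Measure (ℝ × (Fin d → ℝ))).restrict
      (Metric.closedBall 0 R)).map Ψ

namespace StekData

variable (D : StekData d Ω)

/-- Weighted Dirichlet energy (metric `ρ² g`). -/
def E (ρ : Ω → ℝ) (f : Ω → ℝ) : ℝ := ∫ x, ρ x ^ (d - 1) * D.Γ f f x ∂D.v

/-- Weighted boundary mass (metric `ρ² g`). -/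
def M (ρ : Ω → ℝ) (f : Ω → ℝ) : ℝ := ∫ x, ρ x ^ d * f x ^ 2 ∂D.s

/-- Volume of `ρ² g`. -/
def V (ρ : Ω → ℝ) : ℝ := ∫ x, ρ x ^ (d + 1) ∂D.v

/-- Boundary volume of `ρ² g`. -/
def L (ρ : Ω → ℝ) : ℝ := ∫ x, ρ x ^ d ∂D.s

/-- Admissible conformal factors. -/
def Pos (ρ : Ω → ℝ) : Prop := ρ ∈ D.F ∧ ∀ x, 0 < ρ x

/-- A `(k+1)`-dimensional space of test functions nondegenerate on the boundary. -/
def IsTest (S : Set Ω) (k : ℕ) (W : Submodule ℝ (Ω → ℝ)) : Prop :=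
  W ≤ D.F ∧ Module.finrank ℝ W = k + 1 ∧ ∀ f ∈ W, (∀ x ∈ S, f x = 0) → f = 0

/-- The `k`-th eigenvalue of `ρ² g`. -/
def sig (S : Set Ω) (ρ : Ω → ℝ) (k : ℕ) : ℝ≥0∞ :=
  ⨅ (W : Submodule ℝ (Ω → ℝ)) (_ : D.IsTest S k W), ⨆ (f : Ω → ℝ) (_ : f ∈ W) (_ : f ≠ 0),
    ENNReal.ofReal (D.E ρ f) / ENNReal.ofReal (D.M ρ f)

/-- The normalised eigenvalue. -/
def sigBar (S : Set Ω) (ρ : Ω → ℝ) (k : ℕ) : ℝ≥0∞ :=
  D.sig S ρ k * (ENNReal.ofReal (D.V ρ)) ^ ((1 - (d : ℝ)) / ((d : ℝ) + 1)) * ENNReal.ofReal (D.L ρ)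

/-- The conformal eigenvalue. -/
def conf (S : Set Ω) (k : ℕ) : ℝ≥0∞ := ⨆ (ρ : Ω → ℝ) (_ : D.Pos ρ), D.sigBar S ρ k

end StekData

end Pool.Agent.Steklov
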