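import Mathlib

set_option autoImplicit false

universe u

open Set Filter Topology MeasureTheory Manifold ContDiff Bundle
open scoped ENNReal

noncomputable section

namespace Pool.Agent.Steklov

/-- The model space of dimension `d + 1`. -/
abbrev EE (d : ℕ) : Type := EuclideanSpace ℝ (Fin (d + 1))

variable (d : ℕ) (Ω : Type u) [TopologicalSpace Ω] [ChartedSpace (EuclideanHalfSpace (d + 1)) Ω]
  [IsManifold (𝓡∂ (d + 1)) ∞ Ω]

/-- Smooth Riemannian metrics on the manifold with boundary `Ω` of dimension `d + 1`. -/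
abbrev RMetric : Type u :=
  ContMDiffRiemannianMetric (𝓡∂ (d + 1)) ∞ (EE d) (fun x : Ω => TangentSpace (𝓡∂ (d + 1)) x)

variable {d Ω}

/-- The `i`-th coordinate vector field of the chart at `x₀`, at the point with coordinates `y`. -/
def coordVec (x₀ : Ω) (y : EE d) (i : Fin (d + 1)) :
    TangentSpace (𝓡∂ (d + 1)) ((extChartAt (𝓡∂ (d + 1)) x₀).symm y) :=
  mfderivWithin 𝓘(ℝ, EE d) (𝓡∂ (d + 1)) (extChartAt (𝓡∂ (d + 1)) x₀).symm
    (range (𝓡∂ (d + 1))) y (EuclideanSpace.single i (1 : ℝ))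

/-- The Gram matrix `g_{ij}` of the metric in the chart at `x₀`, at the point with
coordinates `y`. -/
def gram (g : RMetric d Ω) (x₀ : Ω) (y : EE d) : Matrix (Fin (d + 1)) (Fin (d + 1)) ℝ :=
  fun i j => g.inner ((extChartAt (𝓡∂ (d + 1)) x₀).symm y) (coordVec x₀ y i) (coordVec x₀ y j)

/-- The boundary point `(0, y')` of the half-space. -/
def bdPoint (y' : EuclideanSpace ℝ (Fin d)) : EE d :=
  WithLp.toLp 2 (Fin.cons 0 y'.ofLp : Fin (d + 1) → ℝ)

variable [MeasurableSpace Ω]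

/-- The Riemannian volume in the chart at `x₀`: the measure `√det(g_{ij}) dy` on the image of the
chart, carried to `Ω`. -/
def localVol (g : RMetric d Ω) (x₀ : Ω) : Measure Ω :=
  (((volume : Measure (EE d)).restrict (extChartAt (𝓡∂ (d + 1)) x₀).target).withDensity
    (fun y => ENNReal.ofReal (Real.sqrt (gram g x₀ y).det))).map
      (extChartAt (𝓡∂ (d + 1)) x₀).symm

/-- The Riemannian volume of the boundary in the chart at `x₀`: the measure
`√det(g_{ij})_{i,j ≥ 1} dy'` on the part `{(0, y')}` of the image of the chart, carried to `Ω`. -/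
def localBd (g : RMetric d Ω) (x₀ : Ω) : Measure Ω :=
  (((volume : Measure (EuclideanSpace ℝ (Fin d))).restrict
      {y' | bdPoint y' ∈ (extChartAt (𝓡∂ (d + 1)) x₀).target}).withDensity
    (fun y' => ENNReal.ofReal
      (Real.sqrt ((gram g x₀ (bdPoint y')).submatrix Fin.succ Fin.succ).det))).map
      (fun y' => (extChartAt (𝓡∂ (d + 1)) x₀).symm (bdPoint y'))

/-- The Riemannian volume measure of `(Ω, g)`. -/
def riemVol (g : RMetric d Ω) : Measure Ω := ⨆ x₀ : Ω, localVol g x₀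

/-- The Riemannian volume measure of the boundary of `(Ω, g)`, as a measure on `Ω`. -/
def riemBd (g : RMetric d Ω) : Measure Ω := ⨆ x₀ : Ω, localBd g x₀

/-- The Riemannian gradient of `f` at `x`: the tangent vector `v` such that
`g(v, w) = df(w)` for all `w`. -/
def grad (g : RMetric d Ω) (f : Ω → ℝ) (x : Ω) : TangentSpace (𝓡∂ (d + 1)) x :=
  Classical.epsilon fun v => ∀ w, g.inner x v w = mfderiv (𝓡∂ (d + 1)) 𝓘(ℝ, ℝ) f x w

/-- Dirichlet energy. -/
def energy (g : RMetric d Ω) (f : Ω → ℝ) : ℝ≥0∞ :=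
  ∫⁻ x, ENNReal.ofReal (g.inner x (grad g f x) (grad g f x)) ∂(riemVol g)

/-- The squared `L²` norm on the boundary. -/
def bdMass (g : RMetric d Ω) (f : Ω → ℝ) : ℝ≥0∞ :=
  ∫⁻ x, ENNReal.ofReal (f x ^ 2) ∂(riemBd g)

/-- Admissible spaces of test functions for the `k`-th Steklov eigenvalue: subspaces of
dimension `k + 1` of `C^∞(Ω)`, whose nonzero elements do not vanish identically on the boundary. -/
def IsTestSpace (d : ℕ) {Ω : Type u} [TopologicalSpace Ω]
    [ChartedSpace (EuclideanHalfSpace (d + 1)) Ω] (k : ℕ) (V : Submodule ℝ (Ω → ℝ)) : Prop :=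
  (∀ f ∈ V, ContMDiff (𝓡∂ (d + 1)) 𝓘(ℝ, ℝ) ∞ f) ∧ Module.finrank ℝ V = k + 1 ∧
    ∀ f ∈ V, (∀ x ∈ (𝓡∂ (d + 1)).boundary Ω, f x = 0) → f = 0

/-- The `k`-th Steklov eigenvalue, by the min-max principle. -/
def steklov (g : RMetric d Ω) (k : ℕ) : ℝ≥0∞ :=
  ⨅ (V : Submodule ℝ (Ω → ℝ)) (_ : IsTestSpace d k V), ⨆ (f : Ω → ℝ) (_ : f ∈ V) (_ : f ≠ 0),
    energy g f / bdMass g f

/-- The normalised Steklov eigenvalue `σ_k |Ω|^{(1-d)/(d+1)} |∂Ω|`. -/
def steklovBar (g : RMetric d Ω) (k : ℕ) : ℝ≥0∞ :=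
  steklov g k * (riemVol g univ) ^ ((1 - (d : ℝ)) / ((d : ℝ) + 1)) * riemBd g univ

/-- `h` is conformal to `g`: `h = ρ² g` for a smooth positive function `ρ`. -/
def IsConformalTo (g h : RMetric d Ω) : Prop :=
  ∃ ρ : Ω → ℝ, ContMDiff (𝓡∂ (d + 1)) 𝓘(ℝ, ℝ) ∞ ρ ∧ (∀ x, 0 < ρ x) ∧
    ∀ x v w, h.inner x v w = ρ x ^ 2 * g.inner x v w

/-- The conformal Steklov eigenvalue of the conformal class of `g`. -/
def confSteklov (g : RMetric d Ω) (k : ℕ) : ℝ≥0∞ :=
  ⨆ (h : RMetric d Ω) (_ : IsConformalTo g h), steklovBar h k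

end Pool.Agent.Steklov
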