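import Mathlib
import Pool.Agent.Lib.MP_4838e0_gt.Defs

set_option autoImplicit false

universe u

open Set Filter Topology MeasureTheory Manifold ContDiff

noncomputable section

namespace Pool.Agent.Steklov

variable {d : ℕ} {Ω : Type u} [TopologicalSpace Ω] [ChartedSpace (EuclideanHalfSpace (d + 1)) Ω]
  [IsManifold (𝓡∂ (d + 1)) ∞ Ω]

/-- Identification of `ℝ × (Fin d → ℝ)` with `EuclideanSpace ℝ (Fin (d + 1))`. -/
def zToE (z : ℝ × (Fin d → ℝ)) : EE d := WithLp.toLp 2 (Fin.cons z.1 z.2 : Fin (d + 1) → ℝ)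

/-- The inverse chart at `p`, centred at `p`, in the coordinates `ℝ × (Fin d → ℝ)`. -/
def chartMap (p : Ω) (z : ℝ × (Fin d → ℝ)) : Ω :=
  (extChartAt (𝓡∂ (d + 1)) p).symm (extChartAt (𝓡∂ (d + 1)) p p + zToE z)

end Pool.Agent.Steklov
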