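import Mathlib
import Pool.Agent.Lib.MP_4838e0_gt.Defs
import Pool.Agent.Lib.MP_4838e0_gt.ChartMap

set_option autoImplicit false

universe u

open Set Filter Topology MeasureTheory Manifold ContDiff Bundle

noncomputable section

namespace Pool.Agent.Steklov.PA

variable {d : ℕ} {Ω : Type u} [TopologicalSpace Ω] [ChartedSpace (EuclideanHalfSpace (d + 1)) Ω]
  [IsManifold (𝓡∂ (d + 1)) ∞ Ω]

/-- The metric read in the chart at `x₀`. -/
def gch (g : RMetric d Ω) (x₀ b : Ω) : EE d →L[ℝ] EE d →L[ℝ] ℝ :=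
  ContinuousLinearMap.inCoordinates (EE d) (fun x : Ω => TangentSpace (𝓡∂ (d + 1)) x)
    (EE d →L[ℝ] ℝ) (fun x : Ω => TangentSpace (𝓡∂ (d + 1)) x →L[ℝ] ℝ) x₀ b x₀ b (g.inner b)

/-- The inverse of the trivialisation of the tangent bundle given by the chart at `x₀`. -/
def iL (x₀ b : Ω) : EE d →L[ℝ] TangentSpace (𝓡∂ (d + 1)) b :=
  (trivializationAt (EE d) (TangentSpace (𝓡∂ (d + 1))) x₀).symmL ℝ b

lemma gch_apply (g : RMetric d Ω) (x₀ b : Ω)
    (hb : b ∈ (chartAt (EuclideanHalfSpace (d + 1)) x₀).source) (v w : EE d) :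
    gch g x₀ b v w = g.inner b (iL x₀ b v) (iL x₀ b w) := by
  unfold gch iL
  rw [inCoordinates_apply_eq₂ (by simpa using hb) (by simpa using hb)
    (Set.mem_univ _)]
  rw [Trivialization.symmL_apply _ (by simpa using hb),
    Trivialization.symmL_apply _ (by simpa using hb)]
  simp

lemma gch_contMDiffAt (g : RMetric d Ω) (x₀ b : Ω)
    (hb : b ∈ (chartAt (EuclideanHalfSpace (d + 1)) x₀).source) :
    ContMDiffAt (𝓡∂ (d + 1)) 𝓘(ℝ, EE d →L[ℝ] EE d →L[ℝ] ℝ) ∞ (gch g x₀) b := by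
  exact ((trivializationAt (EE d →L[ℝ] EE d →L[ℝ] ℝ)
    (fun x : Ω => TangentSpace (𝓡∂ (d + 1)) x →L[ℝ] TangentSpace (𝓡∂ (d + 1)) x →L[ℝ] ℝ)
    x₀).contMDiffAt_section_iff (by simpa using hb)).1 (g.contMDiff b)

lemma iL_eq (x₀ : Ω) {y : EE d} (hy : y ∈ (extChartAt (𝓡∂ (d + 1)) x₀).target) :
    iL x₀ ((extChartAt (𝓡∂ (d + 1)) x₀).symm y) =
      mfderivWithin 𝓘(ℝ, EE d) (𝓡∂ (d + 1)) (extChartAt (𝓡∂ (d + 1)) x₀).symm
        (range (𝓡∂ (d + 1))) y := by
  have : IsManifold (𝓡∂ (d + 1)) 1 Ω := IsManifold.of_le (m := 1) (n := ∞) (by exact_mod_cast le_top)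
  have hx : (extChartAt (𝓡∂ (d + 1)) x₀).symm y ∈
      (chartAt (EuclideanHalfSpace (d + 1)) x₀).source := by
    rw [← extChartAt_source (I := 𝓡∂ (d + 1))]
    exact (extChartAt (𝓡∂ (d + 1)) x₀).map_target hy
  unfold iL
  rw [TangentBundle.symmL_trivializationAt hx, (extChartAt (𝓡∂ (d + 1)) x₀).right_inv hy]

omit [IsManifold (𝓡∂ (d + 1)) ∞ Ω] in
lemma symm_mem_source (x₀ : Ω) {y : EE d} (hy : y ∈ (extChartAt (𝓡∂ (d + 1)) x₀).target) :
    (extChartAt (𝓡∂ (d + 1)) x₀).symm y ∈ (chartAt (EuclideanHalfSpace (d + 1)) x₀).source := by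
  rw [← extChartAt_source (I := 𝓡∂ (d + 1))]
  exact (extChartAt (𝓡∂ (d + 1)) x₀).map_target hy

lemma coordVec_eq (x₀ : Ω) {y : EE d} (hy : y ∈ (extChartAt (𝓡∂ (d + 1)) x₀).target)
    (i : Fin (d + 1)) :
    coordVec x₀ y i = iL x₀ ((extChartAt (𝓡∂ (d + 1)) x₀).symm y)
      (EuclideanSpace.single i (1 : ℝ)) := by
  rw [iL_eq x₀ hy]
  rfl

lemma gram_eq (g : RMetric d Ω) (x₀ : Ω) {y : EE d}
    (hy : y ∈ (extChartAt (𝓡∂ (d + 1)) x₀).target) (i j : Fin (d + 1)) :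
    gram g x₀ y i j = gch g x₀ ((extChartAt (𝓡∂ (d + 1)) x₀).symm y)
      (EuclideanSpace.single i (1 : ℝ)) (EuclideanSpace.single j (1 : ℝ)) := by
  unfold gram
  rw [coordVec_eq x₀ hy, coordVec_eq x₀ hy, gch_apply _ _ _ (symm_mem_source x₀ hy)]

lemma gch_contMDiffOn (g : RMetric d Ω) (x₀ : Ω) :
    ContMDiffOn (𝓡∂ (d + 1)) 𝓘(ℝ, EE d →L[ℝ] EE d →L[ℝ] ℝ) ∞ (gch g x₀)
      (chartAt (EuclideanHalfSpace (d + 1)) x₀).source :=
  fun b hb => (gch_contMDiffAt g x₀ b hb).contMDiffWithinAt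

lemma gch_symm_contDiffOn (g : RMetric d Ω) (x₀ : Ω) :
    ContDiffOn ℝ ∞ (fun y => gch g x₀ ((extChartAt (𝓡∂ (d + 1)) x₀).symm y))
      (extChartAt (𝓡∂ (d + 1)) x₀).target := by
  rw [← contMDiffOn_iff_contDiffOn]
  exact (gch_contMDiffOn g x₀).comp (contMDiffOn_extChartAt_symm x₀)
    (fun y hy => symm_mem_source x₀ hy)

lemma gram_contDiffOn (g : RMetric d Ω) (x₀ : Ω) (i j : Fin (d + 1)) :
    ContDiffOn ℝ ∞ (fun y => gram g x₀ y i j) (extChartAt (𝓡∂ (d + 1)) x₀).target := by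
  have h1 := gch_symm_contDiffOn g x₀
  have h2 : ContDiffOn ℝ ∞ (fun y => gch g x₀ ((extChartAt (𝓡∂ (d + 1)) x₀).symm y)
      (EuclideanSpace.single i (1 : ℝ)) (EuclideanSpace.single j (1 : ℝ)))
      (extChartAt (𝓡∂ (d + 1)) x₀).target :=
    (h1.clm_apply contDiffOn_const).clm_apply contDiffOn_const
  exact h2.congr fun y hy => gram_eq g x₀ hy i j

/-- The Gram matrix is continuous on the image of the chart. -/
lemma gram_continuousOn (g : RMetric d Ω) (p : Ω) :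
    ContinuousOn (gram g p) (extChartAt (𝓡∂ (d + 1)) p).target := by
  refine continuousOn_pi.2 fun i => continuousOn_pi.2 fun j => ?_
  exact (gram_contDiffOn g p i j).continuousOn

lemma iL_injective (x₀ b : Ω) (hb : b ∈ (chartAt (EuclideanHalfSpace (d + 1)) x₀).source) :
    Function.Injective (iL (d := d) x₀ b) := by
  intro v w h
  have h1 := congrArg ((trivializationAt (EE d) (TangentSpace (𝓡∂ (d + 1))) x₀).continuousLinearMapAt
    ℝ b) h
  unfold iL at h1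
  rwa [Trivialization.continuousLinearMapAt_symmL _ (by simpa using hb),
    Trivialization.continuousLinearMapAt_symmL _ (by simpa using hb)] at h1

lemma iL_surjective (x₀ b : Ω) (hb : b ∈ (chartAt (EuclideanHalfSpace (d + 1)) x₀).source) :
    Function.Surjective (iL (d := d) x₀ b) := by
  intro v
  refine ⟨(trivializationAt (EE d) (TangentSpace (𝓡∂ (d + 1))) x₀).continuousLinearMapAt
    ℝ b v, ?_⟩
  unfold iL
  exact Trivialization.symmL_continuousLinearMapAt _ (by simpa using hb) v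

lemma gch_pos (g : RMetric d Ω) (x₀ b : Ω)
    (hb : b ∈ (chartAt (EuclideanHalfSpace (d + 1)) x₀).source) (v : EE d) (hv : v ≠ 0) :
    0 < gch g x₀ b v v := by
  rw [gch_apply g x₀ b hb]
  refine g.pos b _ fun h => hv ?_
  apply iL_injective x₀ b hb
  rw [h, map_zero]

lemma gch_symm (g : RMetric d Ω) (x₀ b : Ω)
    (hb : b ∈ (chartAt (EuclideanHalfSpace (d + 1)) x₀).source) (v w : EE d) :
    gch g x₀ b v w = gch g x₀ b w v := by
  rw [gch_apply g x₀ b hb, gch_apply g x₀ b hb, g.symm]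

/-- The Gram matrix is positive definite on the image of the chart. -/
lemma gram_posDef (g : RMetric d Ω) (p : Ω) {y : EE d}
    (hy : y ∈ (extChartAt (𝓡∂ (d + 1)) p).target) : (gram g p y).PosDef := by
  have hb := symm_mem_source p hy
  refine Matrix.PosDef.of_dotProduct_mulVec_pos ?_ ?_
  · ext i j
    rw [Matrix.conjTranspose_apply, gram_eq g p hy, gram_eq g p hy, gch_symm g p _ hb]
    rfl
  · intro x hx
    have h1 : (WithLp.toLp 2 x : EE d) = ∑ i, x i • EuclideanSpace.single i (1 : ℝ) := by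
      ext j
      simp [Finset.sum_apply, Pi.single_apply]
    have h2 : star x ⬝ᵥ (gram g p y).mulVec x =
        gch g p ((extChartAt (𝓡∂ (d + 1)) p).symm y) (WithLp.toLp 2 x) (WithLp.toLp 2 x) := by
      rw [h1]
      simp only [map_sum, map_smul, FunLike.coe_sum, Finset.sum_apply,
        FunLike.coe_smul, Pi.smul_apply, smul_eq_mul, dotProduct, Matrix.mulVec,
        gram_eq g p hy, star_trivial, Finset.mul_sum]
      rw [Finset.sum_comm]
      refine Finset.sum_congr rfl fun i _ => Finset.sum_congr rfl fun j _ => ?_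
      ring
    rw [h2]
    refine gch_pos g p _ hb _ fun h => hx ?_
    exact (WithLp.toLp_eq_zero 2).1 h

end Pool.Agent.Steklov.PA
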