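import Mathlib
import Pool.Agent.Lib.MP_4838e0_gt.Defs
import Pool.Agent.Lib.MP_4838e0_gt.ChartMap
import Pool.Agent.Lib.MP_4838e0_gt.BridgeA0

set_option autoImplicit false

universe u
set_option linter.unusedVariables false

open Set Filter Topology MeasureTheory Manifold ContDiff Bundle

noncomputable section

namespace Pool.Agent.Steklov

open PA

variable {d : ℕ} {Ω : Type u} [TopologicalSpace Ω] [ChartedSpace (EuclideanHalfSpace (d + 1)) Ω]
  [IsManifold (𝓡∂ (d + 1)) ∞ Ω]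

/-- carre du champ of the metric -/
def GG (g : RMetric d Ω) (f h : Ω → ℝ) (x : Ω) : ℝ := g.inner x (grad g f x) (grad g h x)

abbrev Sm (f : Ω → ℝ) : Prop := ContMDiff (𝓡∂ (d + 1)) 𝓘(ℝ, ℝ) ∞ f

instance PA.instFinDimTangent (x : Ω) : FiniteDimensional ℝ (TangentSpace (𝓡∂ (d + 1)) x) :=
  inferInstanceAs (FiniteDimensional ℝ (EE d))

/-- Riesz representation for the metric. -/
lemma PA.exists_riesz (g : RMetric d Ω) (x : Ω) (φ : TangentSpace (𝓡∂ (d + 1)) x →L[ℝ] ℝ) :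
    ∃ v, ∀ w, g.inner x v w = φ w := by
  let B : TangentSpace (𝓡∂ (d + 1)) x →ₗ[ℝ] TangentSpace (𝓡∂ (d + 1)) x →ₗ[ℝ] ℝ :=
    LinearMap.mk₂ ℝ (fun v w => g.inner x v w) (by intros; simp) (by intros; simp)
      (by intros; simp) (by intros; simp)
  have hB : LinearMap.ker B = ⊥ := by
    rw [LinearMap.ker_eq_bot']
    intro v hv
    by_contra hne
    have h1 := g.pos x v hne
    have h2 : B v v = 0 := by rw [hv]; rfl
    exact h1.ne' h2
  have hsurj : Function.Surjective B := by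
    rw [← LinearMap.injective_iff_surjective_of_finrank_eq_finrank]
    · exact LinearMap.ker_eq_bot.1 hB
    · exact (Subspace.dual_finrank_eq).symm
  obtain ⟨v, hv⟩ := hsurj (φ : TangentSpace (𝓡∂ (d + 1)) x →ₗ[ℝ] ℝ)
  exact ⟨v, fun w => LinearMap.congr_fun hv w⟩

/-- existence and characterisation of the gradient -/
lemma grad_spec (g : RMetric d Ω) (f : Ω → ℝ) (x : Ω) (w : TangentSpace (𝓡∂ (d + 1)) x) :
    g.inner x (grad g f x) w = mfderiv (𝓡∂ (d + 1)) 𝓘(ℝ, ℝ) f x w := by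
  have h := exists_riesz g x (mfderiv (𝓡∂ (d + 1)) 𝓘(ℝ, ℝ) f x)
  exact Classical.epsilon_spec h w

lemma PA.eq_grad (g : RMetric d Ω) (f : Ω → ℝ) (x : Ω) (v : TangentSpace (𝓡∂ (d + 1)) x)
    (hv : ∀ w, g.inner x v w = mfderiv (𝓡∂ (d + 1)) 𝓘(ℝ, ℝ) f x w) : v = grad g f x := by
  by_contra hne
  have h1 : v - grad g f x ≠ 0 := sub_ne_zero.2 hne
  have h2 := g.pos x _ h1
  have h3 : g.inner x (v - grad g f x) (v - grad g f x) = 0 := by
    rw [map_sub (g.inner x)]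
    rw [sub_apply, hv, grad_spec, sub_self]
  exact h2.ne' h3

lemma PA.GG_eq (g : RMetric d Ω) (f h : Ω → ℝ) (x : Ω) :
    GG g f h x = mfderiv (𝓡∂ (d + 1)) 𝓘(ℝ, ℝ) f x (grad g h x) := grad_spec g f x _

lemma GG_symm (g : RMetric d Ω) (f h : Ω → ℝ) : GG g f h = GG g h f := by
  funext x
  exact g.symm x _ _

lemma GG_nonneg (g : RMetric d Ω) (f : Ω → ℝ) (x : Ω) : 0 ≤ GG g f f x := by
  unfold GG
  by_cases h : grad g f x = 0
  · rw [h, map_zero]
  · exact (g.pos x _ h).le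

lemma GG_add (g : RMetric d Ω) {f h k : Ω → ℝ} (hf : Sm (d := d) f) (hh : Sm (d := d) h)
    (hk : Sm (d := d) k) : GG g (f + h) k = GG g f k + GG g h k := by
  funext x
  rw [Pi.add_apply, GG_eq, GG_eq, GG_eq]
  rw [mfderiv_add (hf.mdifferentiableAt (by simp)) (hh.mdifferentiableAt (by simp))]
  rfl

lemma GG_smul (g : RMetric d Ω) (a : ℝ) {f h : Ω → ℝ} (hf : Sm (d := d) f) (hh : Sm (d := d) h) :
    GG g (a • f) h = a • GG g f h := by
  funext x
  rw [Pi.smul_apply, GG_eq, GG_eq]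
  rw [const_smul_mfderiv (hf.mdifferentiableAt (by simp))]
  rfl

lemma PA.grad_congr (g : RMetric d Ω) {f h : Ω → ℝ} {x : Ω} (hfh : f =ᶠ[𝓝 x] h) :
    grad g f x = grad g h x := by
  unfold grad
  rw [Filter.EventuallyEq.mfderiv_eq hfh]
  rfl

lemma GG_local (g : RMetric d Ω) (f h : Ω → ℝ) (U : Set Ω) (hU : IsOpen U) (hfh : EqOn f h U) :
    EqOn (GG g f f) (GG g h h) U := by
  intro x hx
  have h1 : f =ᶠ[𝓝 x] h := hfh.eventuallyEq_of_mem (hU.mem_nhds hx)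
  unfold GG
  rw [grad_congr g h1]

/-- conformal change of the carre du champ -/
lemma GG_conformal (g h : RMetric d Ω) (ρ : Ω → ℝ) (hpos : ∀ x, 0 < ρ x)
    (hgh : ∀ x v w, h.inner x v w = ρ x ^ 2 * g.inner x v w) (f : Ω → ℝ) (x : Ω) :
    GG h f f x = (ρ x ^ 2)⁻¹ * GG g f f x := by
  have hρ : ρ x ^ 2 ≠ 0 := (pow_pos (hpos x) 2).ne'
  have h1 : (ρ x ^ 2)⁻¹ • grad g f x = grad h f x := by
    apply eq_grad
    intro w
    rw [hgh, map_smul, smul_apply, grad_spec, smul_eq_mul, ← mul_assoc,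
      mul_inv_cancel₀ hρ, one_mul]
  rw [GG_eq, GG_eq, ← h1, map_smul]
  rfl

end Pool.Agent.Steklov
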