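import Mathlib
import Pool.Agent.Lib.MP_4838e0_gt.Defs
import Pool.Agent.Lib.MP_4838e0_gt.ChartMap
import Pool.Agent.Lib.MP_4838e0_gt.BridgeA0
import Pool.Agent.Lib.MP_4838e0_gt.BridgeA1

set_option autoImplicit false

universe u
set_option linter.unusedVariables false

open Set Filter Topology MeasureTheory Manifold ContDiff Bundle

noncomputable section

namespace Pool.Agent.Steklov

open PA

variable {d : ℕ} {Ω : Type u} [TopologicalSpace Ω] [ChartedSpace (EuclideanHalfSpace (d + 1)) Ω]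
  [IsManifold (𝓡∂ (d + 1)) ∞ Ω]

/-- The metric `ρ² g`. -/
def PA.confMetric (g : RMetric d Ω) (ρ : Ω → ℝ)
    (hρ : ContMDiff (𝓡∂ (d + 1)) 𝓘(ℝ, ℝ) ∞ ρ) (hpos : ∀ x, 0 < ρ x) : RMetric d Ω where
  inner x := ρ x ^ 2 • g.inner x
  symm x v w := by
    rw [smul_apply, smul_apply, smul_apply, smul_apply, g.symm]
  pos x v hv := by
    rw [smul_apply, smul_apply, smul_eq_mul]
    exact mul_pos (pow_pos (hpos x) 2) (g.pos x v hv)
  isVonNBounded x := by
    have h := (g.isVonNBounded x).image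
      ((ρ x)⁻¹ • ContinuousLinearMap.id ℝ (TangentSpace (𝓡∂ (d + 1)) x))
    refine h.subset ?_
    intro v hv
    refine ⟨ρ x • v, ?_, ?_⟩
    · have h1 : ρ x ^ 2 * g.inner x v v < 1 := by
        simpa [smul_apply] using hv
      have h2 : g.inner x (ρ x • v) (ρ x • v) = ρ x ^ 2 * g.inner x v v := by
        rw [map_smul, map_smul, smul_apply, smul_eq_mul, smul_eq_mul]
        ring
      show g.inner x (ρ x • v) (ρ x • v) < 1
      rw [h2]
      exact h1
    · show (ρ x)⁻¹ • (ρ x • v) = v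
      rw [smul_smul, inv_mul_cancel₀ (hpos x).ne', one_smul]
  contMDiff := by
    have h2 : ContMDiff (𝓡∂ (d + 1)) 𝓘(ℝ, ℝ) ∞ (fun x => ρ x ^ 2) := hρ.pow 2
    exact h2.smul_section g.contMDiff

/-- every smooth positive function is the conformal factor of a metric. -/
theorem exists_conformal_metric (g : RMetric d Ω) (ρ : Ω → ℝ)
    (hρ : ContMDiff (𝓡∂ (d + 1)) 𝓘(ℝ, ℝ) ∞ ρ) (hpos : ∀ x, 0 < ρ x) :
    ∃ h : RMetric d Ω, ∀ x v w, h.inner x v w = ρ x ^ 2 * g.inner x v w :=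
  ⟨confMetric g ρ hρ hpos, fun x v w => by
    show (ρ x ^ 2 • g.inner x) v w = _
    rw [smul_apply, smul_apply, smul_eq_mul]⟩

end Pool.Agent.Steklov
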