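import Mathlib
import Pool.Agent.Lib.MP_4838e0_gt.Defs
import Pool.Agent.Lib.MP_4838e0_gt.ChartMap
import Pool.Agent.Lib.MP_4838e0_gt.Abstract
import Pool.Agent.Lib.MP_4838e0_gt.BridgeA0
import Pool.Agent.Lib.MP_4838e0_gt.BridgeA1

set_option autoImplicit false

universe u
set_option linter.unusedVariables false
set_option linter.unusedSectionVars false

open Set Filter Topology MeasureTheory Manifold ContDiff Bundle

noncomputable section

namespace Pool.Agent.Steklov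

open PA

/-! ### The linear identification -/

/-- `zToE` as a continuous linear equivalence. -/
def PA.zL (d : ℕ) : (ℝ × (Fin d → ℝ)) ≃L[ℝ] EE d :=
  (Fin.consEquivL ℝ (fun _ : Fin (d + 1) => ℝ)).trans (PiLp.continuousLinearEquiv 2 ℝ _).symm

lemma PA.zL_apply {d : ℕ} (z : ℝ × (Fin d → ℝ)) : zL d z = zToE z := rfl

lemma PA.zToE_zero_coord {d : ℕ} (z : ℝ × (Fin d → ℝ)) : (zToE z) 0 = z.1 := rfl

lemma PA.zToE_continuous {d : ℕ} : Continuous (zToE : ℝ × (Fin d → ℝ) → EE d) :=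
  (zL d).continuous

lemma PA.zToE_injective {d : ℕ} : Function.Injective (zToE : ℝ × (Fin d → ℝ) → EE d) :=
  (zL d).injective

lemma PA.zToE_zero {d : ℕ} : zToE (0 : ℝ × (Fin d → ℝ)) = 0 := (zL d).map_zero

lemma PA.Q_subset_closedBall {d : ℕ} (r : ℝ) : Q d r ⊆ Metric.closedBall 0 r := by
  rintro ⟨t, x⟩ ⟨ht, hx⟩
  rw [← closedBall_prod_same]
  refine ⟨?_, hx⟩
  show t ∈ Metric.closedBall (0 : ℝ) r
  rw [Metric.mem_closedBall, dist_zero_right, Real.norm_eq_abs, abs_le]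
  exact ⟨by linarith [ht.1, ht.2], ht.2⟩

lemma PA.Q_isCompact {d : ℕ} (r : ℝ) : IsCompact (Q d r) :=
  isCompact_Icc.prod (isCompact_closedBall 0 r)

lemma PA.Qo_subset_Q {d : ℕ} (r : ℝ) : Qo d r ⊆ Q d r :=
  Set.prod_mono Ioo_subset_Icc_self Metric.ball_subset_closedBall

lemma PA.Qo_isOpen {d : ℕ} (r : ℝ) : IsOpen (Qo d r) := isOpen_Ioo.prod Metric.isOpen_ball

variable {d : ℕ} {Ω : Type u} [TopologicalSpace Ω] [ChartedSpace (EuclideanHalfSpace (d + 1)) Ω]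
  [IsManifold (𝓡∂ (d + 1)) ∞ Ω]

/-- The affine part of `chartMap`. -/
def PA.aff (p : Ω) (z : ℝ × (Fin d → ℝ)) : EE d := extChartAt (𝓡∂ (d + 1)) p p + zToE z

lemma PA.chartMap_eq (p : Ω) (z : ℝ × (Fin d → ℝ)) :
    chartMap (d := d) p z = (extChartAt (𝓡∂ (d + 1)) p).symm (aff p z) := rfl

lemma PA.aff_continuous (p : Ω) : Continuous (aff (d := d) p) :=
  continuous_const.add zToE_continuous

lemma PA.aff_contDiff (p : Ω) : ContDiff ℝ ∞ (aff (d := d) p) :=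
  contDiff_const.add (zL d).contDiff

lemma PA.aff_injective (p : Ω) : Function.Injective (aff (d := d) p) := by
  intro z w h
  exact zToE_injective (add_left_cancel h)

lemma PA.aff_hasFDerivAt (p : Ω) (z : ℝ × (Fin d → ℝ)) :
    HasFDerivAt (aff (d := d) p) ((zL d : (ℝ × (Fin d → ℝ)) →L[ℝ] EE d)) z :=
  ((zL d).hasFDerivAt (x := z)).const_add _

lemma PA.aff_coord (p : Ω) (z : ℝ × (Fin d → ℝ)) :
    (aff p z) 0 = (extChartAt (𝓡∂ (d + 1)) p p) 0 + z.1 := rfl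

lemma PA.mem_boundary_iff (p : Ω) :
    p ∈ (𝓡∂ (d + 1)).boundary Ω ↔ (extChartAt (𝓡∂ (d + 1)) p p) 0 = 0 := by
  show extChartAt (𝓡∂ (d + 1)) p p ∈ frontier (range (𝓡∂ (d + 1))) ↔ _
  rw [frontier_range_modelWithCornersEuclideanHalfSpace]
  exact eq_comm

lemma PA.mem_target_nonneg (p : Ω) {y : EE d} (hy : y ∈ (extChartAt (𝓡∂ (d + 1)) p).target) :
    0 ≤ y 0 := by
  have h := extChartAt_target_subset_range (I := 𝓡∂ (d + 1)) p hy
  rw [range_modelWithCornersEuclideanHalfSpace] at h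
  exact h

lemma PA.notMem_boundary_iff (p : Ω) :
    p ∉ (𝓡∂ (d + 1)).boundary Ω ↔ 0 < (extChartAt (𝓡∂ (d + 1)) p p) 0 := by
  rw [mem_boundary_iff]
  have h := mem_target_nonneg p (mem_extChartAt_target (I := 𝓡∂ (d + 1)) p)
  exact ⟨fun h1 => lt_of_le_of_ne h (Ne.symm h1), fun h1 => h1.ne'⟩

/-- Small points with nonnegative first coordinate are in the image of the chart. -/
lemma PA.exists_aff_mem_target (p : Ω) :
    ∃ R₀ > 0, ∀ z : ℝ × (Fin d → ℝ), z ∈ Metric.closedBall 0 R₀ → 0 ≤ (aff p z) 0 →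
      aff p z ∈ (extChartAt (𝓡∂ (d + 1)) p).target := by
  have h := extChartAt_target_mem_nhdsWithin (I := 𝓡∂ (d + 1)) p
  rw [mem_nhdsWithin_iff_exists_mem_nhds_inter] at h
  obtain ⟨U, hU, hUt⟩ := h
  have h1 : ∀ᶠ z in 𝓝 (0 : ℝ × (Fin d → ℝ)), aff p z ∈ U := by
    have h2 : Tendsto (aff (d := d) p) (𝓝 0) (𝓝 (aff p 0)) := (aff_continuous p).continuousAt
    have h3 : aff p (0 : ℝ × (Fin d → ℝ)) = extChartAt (𝓡∂ (d + 1)) p p := by
      unfold aff; rw [zToE_zero, add_zero]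
    rw [h3] at h2
    exact h2 hU
  obtain ⟨ε, hε, hball⟩ := Metric.eventually_nhds_iff_ball.1 h1
  refine ⟨ε / 2, by linarith, fun z hz h0 => hUt ⟨hball z ?_, ?_⟩⟩
  · exact Metric.closedBall_subset_ball (by linarith) hz
  · rw [range_modelWithCornersEuclideanHalfSpace]
    exact h0

/-! ### Regularity in the chart -/

lemma PA.comp_symm_contDiffOn {f : Ω → ℝ} (hf : Sm (d := d) f) (p : Ω) :
    ContDiffOn ℝ ∞ (f ∘ (extChartAt (𝓡∂ (d + 1)) p).symm)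
      (extChartAt (𝓡∂ (d + 1)) p).target := by
  rw [← contMDiffOn_iff_contDiffOn]
  exact hf.comp_contMDiffOn (contMDiffOn_extChartAt_symm p)

lemma PA.comp_chartMap_contDiffOn {f : Ω → ℝ} (hf : Sm (d := d) f) (p : Ω)
    {s : Set (ℝ × (Fin d → ℝ))} (hs : MapsTo (aff p) s (extChartAt (𝓡∂ (d + 1)) p).target) :
    ContDiffOn ℝ ∞ (f ∘ chartMap (d := d) p) s :=
  (comp_symm_contDiffOn hf p).comp (aff_contDiff p).contDiffOn hs

lemma PA.chartMap_continuousOn (p : Ω)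
    {s : Set (ℝ × (Fin d → ℝ))} (hs : MapsTo (aff p) s (extChartAt (𝓡∂ (d + 1)) p).target) :
    ContinuousOn (chartMap (d := d) p) s :=
  (continuousOn_extChartAt_symm p).comp (aff_continuous p).continuousOn hs

lemma PA.chartMap_injOn (p : Ω)
    {s : Set (ℝ × (Fin d → ℝ))} (hs : MapsTo (aff p) s (extChartAt (𝓡∂ (d + 1)) p).target) :
    InjOn (chartMap (d := d) p) s := by
  intro z hz w hw h
  exact aff_injective p ((extChartAt (𝓡∂ (d + 1)) p).symm.injOn (hs hz) (hs hw) h)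

/-- The derivative of `f` in the chart. -/
def PA.DD (f : Ω → ℝ) (p x : Ω) : EE d →L[ℝ] ℝ :=
  (mfderiv (𝓡∂ (d + 1)) 𝓘(ℝ, ℝ) f x : TangentSpace (𝓡∂ (d + 1)) x →L[ℝ] ℝ) ∘L (iL p x)

lemma PA.hasFDerivAt_comp_chartMap {f : Ω → ℝ} (hf : Sm (d := d) f) (p : Ω)
    {z : ℝ × (Fin d → ℝ)} (hz : aff p z ∈ (extChartAt (𝓡∂ (d + 1)) p).target)
    (hz0 : 0 < (aff p z) 0) :
    HasFDerivAt (f ∘ chartMap (d := d) p)
      (DD f p (chartMap p z) ∘L (zL d : (ℝ × (Fin d → ℝ)) →L[ℝ] EE d)) z := by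
  have hI : IsManifold (𝓡∂ (d + 1)) 1 Ω :=
    IsManifold.of_le (m := 1) (n := ∞) (by exact_mod_cast le_top)
  have h1 : HasMFDerivWithinAt 𝓘(ℝ, EE d) (𝓡∂ (d + 1)) (extChartAt (𝓡∂ (d + 1)) p).symm
      (range (𝓡∂ (d + 1))) (aff p z) (mfderivWithin 𝓘(ℝ, EE d) (𝓡∂ (d + 1))
        (extChartAt (𝓡∂ (d + 1)) p).symm (range (𝓡∂ (d + 1))) (aff p z)) :=
    (mdifferentiableWithinAt_extChartAt_symm hz).hasMFDerivWithinAt
  have h2 : HasMFDerivAt (𝓡∂ (d + 1)) 𝓘(ℝ, ℝ) f ((extChartAt (𝓡∂ (d + 1)) p).symm (aff p z))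
      (mfderiv (𝓡∂ (d + 1)) 𝓘(ℝ, ℝ) f ((extChartAt (𝓡∂ (d + 1)) p).symm (aff p z))) :=
    (hf.mdifferentiableAt (by simp)).hasMFDerivAt
  have h3 := h2.comp_hasMFDerivWithinAt (aff p z) h1
  rw [hasMFDerivWithinAt_iff_hasFDerivWithinAt] at h3
  have h4 : range (𝓡∂ (d + 1)) ∈ 𝓝 (aff p z) := by
    rw [mem_nhds_iff]
    refine ⟨interior (range (𝓡∂ (d + 1))), interior_subset, isOpen_interior, ?_⟩
    rw [interior_range_modelWithCornersEuclideanHalfSpace]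
    exact hz0
  have h5 := h3.hasFDerivAt h4
  have h6 := h5.comp z (aff_hasFDerivAt p z)
  have h7 : DD f p (chartMap p z) =
      (mfderiv (𝓡∂ (d + 1)) 𝓘(ℝ, ℝ) f ((extChartAt (𝓡∂ (d + 1)) p).symm (aff p z))).comp
      (mfderivWithin 𝓘(ℝ, EE d) (𝓡∂ (d + 1)) (extChartAt (𝓡∂ (d + 1)) p).symm
        (range (𝓡∂ (d + 1))) (aff p z)) := by
    unfold DD
    rw [chartMap_eq, iL_eq p hz]
    rfl
  rw [h7]
  exact h6

/-! ### Bounds for the metric in the chart -/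

lemma PA.exists_metric_bounds (g : RMetric d Ω) (p : Ω) {K : Set (EE d)} (hK : IsCompact K)
    (hKt : K ⊆ (extChartAt (𝓡∂ (d + 1)) p).target) :
    ∃ c > 0, ∃ C > 0, ∀ y ∈ K, ∀ v : EE d,
      c * ‖v‖ ^ 2 ≤ gch g p ((extChartAt (𝓡∂ (d + 1)) p).symm y) v v ∧
      gch g p ((extChartAt (𝓡∂ (d + 1)) p).symm y) v v ≤ C * ‖v‖ ^ 2 := by
  have hcont : ContinuousOn (fun y => gch g p ((extChartAt (𝓡∂ (d + 1)) p).symm y)) K :=
    (gch_symm_contDiffOn g p).continuousOn.mono hKt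
  have hKS : IsCompact (K ×ˢ Metric.sphere (0 : EE d) 1) := hK.prod (isCompact_sphere 0 1)
  have hcont2 : ContinuousOn (fun q : EE d × EE d =>
      gch g p ((extChartAt (𝓡∂ (d + 1)) p).symm q.1) q.2 q.2) (K ×ˢ Metric.sphere (0 : EE d) 1) := by
    have h1 : ContinuousOn (fun q : EE d × EE d =>
        gch g p ((extChartAt (𝓡∂ (d + 1)) p).symm q.1)) (K ×ˢ Metric.sphere (0 : EE d) 1) :=
      hcont.comp continuousOn_fst (fun q hq => hq.1)
    exact (h1.clm_apply continuousOn_snd).clm_apply continuousOn_snd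
  have hlow : ∃ c > 0, ∀ q ∈ K ×ˢ Metric.sphere (0 : EE d) 1,
      c ≤ gch g p ((extChartAt (𝓡∂ (d + 1)) p).symm q.1) q.2 q.2 := by
    rcases (K ×ˢ Metric.sphere (0 : EE d) 1).eq_empty_or_nonempty with he | hne
    · exact ⟨1, one_pos, fun q hq => by rw [he] at hq; exact hq.elim⟩
    · obtain ⟨q₀, hq₀, hmin⟩ := hKS.exists_isMinOn hne hcont2
      refine ⟨_, gch_pos g p _ (symm_mem_source p (hKt hq₀.1)) q₀.2 ?_, fun q hq => hmin hq⟩
      intro h0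
      have := hq₀.2
      rw [h0] at this
      simp at this
  have hup : ∃ C > 0, ∀ q ∈ K ×ˢ Metric.sphere (0 : EE d) 1,
      gch g p ((extChartAt (𝓡∂ (d + 1)) p).symm q.1) q.2 q.2 ≤ C := by
    obtain ⟨C, hC⟩ := (hKS.bddAbove_image hcont2)
    refine ⟨max C 1, lt_max_of_lt_right one_pos, fun q hq => le_max_of_le_left ?_⟩
    exact hC ⟨q, hq, rfl⟩
  obtain ⟨c, hc, hlow⟩ := hlow
  obtain ⟨C, hC, hup⟩ := hup
  refine ⟨c, hc, C, hC, fun y hy v => ?_⟩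
  rcases eq_or_ne v 0 with rfl | hv
  · simp
  · have hv' : 0 < ‖v‖ := norm_pos_iff.2 hv
    have hu : ((‖v‖)⁻¹ • v) ∈ Metric.sphere (0 : EE d) 1 := by
      rw [mem_sphere_zero_iff_norm, norm_smul, norm_inv, norm_norm, inv_mul_cancel₀ hv'.ne']
    have h1 := hlow (y, (‖v‖)⁻¹ • v) ⟨hy, hu⟩
    have h2 := hup (y, (‖v‖)⁻¹ • v) ⟨hy, hu⟩
    have h3 : gch g p ((extChartAt (𝓡∂ (d + 1)) p).symm y) ((‖v‖)⁻¹ • v) ((‖v‖)⁻¹ • v) =
        (‖v‖ ^ 2)⁻¹ * gch g p ((extChartAt (𝓡∂ (d + 1)) p).symm y) v v := by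
      rw [map_smul, map_smul, smul_apply, smul_eq_mul, smul_eq_mul]
      ring
    simp only at h1 h2
    rw [h3] at h1 h2
    have hv2 : 0 < ‖v‖ ^ 2 := by positivity
    constructor
    · rw [inv_mul_eq_div, le_div_iff₀ hv2] at h1
      exact h1
    · rw [inv_mul_eq_div, div_le_iff₀ hv2] at h2
      exact h2

lemma PA.GG_eq_chart (g : RMetric d Ω) (f : Ω → ℝ) (p x : Ω)
    (hx : x ∈ (chartAt (EuclideanHalfSpace (d + 1)) p).source) :
    ∃ u : EE d, (∀ v, gch g p x u v = DD f p x v) ∧ GG g f f x = gch g p x u u := by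
  obtain ⟨u, hu⟩ := iL_surjective p x hx (grad g f x)
  refine ⟨u, fun v => ?_, ?_⟩
  · rw [gch_apply g p x hx, hu, grad_spec]
    rfl
  · rw [gch_apply g p x hx, hu]
    rfl

lemma PA.gch_cauchy_schwarz (g : RMetric d Ω) (p x : Ω)
    (hx : x ∈ (chartAt (EuclideanHalfSpace (d + 1)) p).source) (u v : EE d) :
    (gch g p x u v) ^ 2 ≤ gch g p x u u * gch g p x v v := by
  let B : LinearMap.BilinForm ℝ (EE d) :=
    LinearMap.mk₂ ℝ (fun v w => gch g p x v w) (by intros; simp) (by intros; simp)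
      (by intros; simp) (by intros; simp)
  have hs : ∀ v, 0 ≤ B v v := by
    intro v
    rcases eq_or_ne v 0 with rfl | hv
    · simp
    · exact (gch_pos g p x hx v hv).le
  have hB : LinearMap.IsSymm B := ⟨fun v w => gch_symm g p x hx v w⟩
  exact B.apply_sq_le_of_symm hs hB u v

lemma PA.GG_bounds (g : RMetric d Ω) (f : Ω → ℝ) (p x : Ω)
    (hx : x ∈ (chartAt (EuclideanHalfSpace (d + 1)) p).source) {c C : ℝ} (hc : 0 < c) (hC : 0 < C)
    (hb : ∀ v : EE d, c * ‖v‖ ^ 2 ≤ gch g p x v v ∧ gch g p x v v ≤ C * ‖v‖ ^ 2) :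
    ‖DD (d := d) f p x‖ ^ 2 ≤ C * GG g f f x ∧ c * GG g f f x ≤ ‖DD (d := d) f p x‖ ^ 2 := by
  obtain ⟨u, hu, hG⟩ := GG_eq_chart g f p x hx
  have hG0 : 0 ≤ GG g f f x := GG_nonneg g f x
  constructor
  · have h1 : ‖DD (d := d) f p x‖ ≤ Real.sqrt (C * GG g f f x) := by
      refine ContinuousLinearMap.opNorm_le_bound _ (Real.sqrt_nonneg _) fun v => ?_
      rw [← hu v, Real.norm_eq_abs]
      have h2 := gch_cauchy_schwarz g p x hx u v
      have h3 : gch g p x u u * gch g p x v v ≤ (C * GG g f f x) * ‖v‖ ^ 2 := by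
        rw [← hG]
        nlinarith [(hb v).2, hG0]
      rw [← Real.sqrt_sq (norm_nonneg v), ← Real.sqrt_mul (by positivity)]
      exact Real.abs_le_sqrt (h2.trans h3)
    calc ‖DD (d := d) f p x‖ ^ 2 ≤ (Real.sqrt (C * GG g f f x)) ^ 2 := by gcongr
      _ = C * GG g f f x := Real.sq_sqrt (by positivity)
  · have h1 : GG g f f x ≤ ‖DD (d := d) f p x‖ * ‖u‖ := by
      rw [hG, hu u]
      exact (Real.le_norm_self _).trans ((DD (d := d) f p x).le_opNorm u)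
    have h2 : c * ‖u‖ ^ 2 ≤ GG g f f x := by rw [hG]; exact (hb u).1
    rcases eq_or_lt_of_le (norm_nonneg u) with h0 | h0
    · rw [← h0, mul_zero] at h1
      have : GG g f f x = 0 := le_antisymm h1 hG0
      rw [this, mul_zero]
      positivity
    · have h3 : c * ‖u‖ ≤ ‖DD (d := d) f p x‖ := by
        have : c * ‖u‖ * ‖u‖ ≤ ‖DD (d := d) f p x‖ * ‖u‖ := by nlinarith
        exact le_of_mul_le_mul_right this h0
      calc c * GG g f f x ≤ c * (‖DD (d := d) f p x‖ * ‖u‖) := by gcongr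
        _ = ‖DD (d := d) f p x‖ * (c * ‖u‖) := by ring
        _ ≤ ‖DD (d := d) f p x‖ * ‖DD (d := d) f p x‖ := by gcongr
        _ = ‖DD (d := d) f p x‖ ^ 2 := by ring

/-- Comparison of the carre du champ with the squared norm of the derivative in the chart. -/
lemma PA.exists_energy_bounds (g : RMetric d Ω) (p : Ω) {K : Set (ℝ × (Fin d → ℝ))}
    (hK : IsCompact K) (hKt : MapsTo (aff p) K (extChartAt (𝓡∂ (d + 1)) p).target) :
    ∃ c > 0, ∃ C > 0, ∀ f : Ω → ℝ, Sm (d := d) f → ∀ z ∈ K, 0 < (aff p z) 0 →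
      c * ‖fderiv ℝ (f ∘ chartMap (d := d) p) z‖ ^ 2 ≤ GG g f f (chartMap (d := d) p z) ∧
      GG g f f (chartMap (d := d) p z) ≤ C * ‖fderiv ℝ (f ∘ chartMap (d := d) p) z‖ ^ 2 := by
  obtain ⟨c, hc, C, hC, hb⟩ := exists_metric_bounds g p (hK.image (aff_continuous p))
    (by rintro _ ⟨z, hz, rfl⟩; exact hKt hz)
  set N := ‖((zL d : (ℝ × (Fin d → ℝ)) →L[ℝ] EE d))‖ with hN
  set N' := ‖(((zL d).symm : EE d →L[ℝ] (ℝ × (Fin d → ℝ))))‖ with hN'
  have hN0 : 0 ≤ N := norm_nonneg _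
  have hN0' : 0 ≤ N' := norm_nonneg _
  refine ⟨(N ^ 2 * C + 1)⁻¹, by positivity, N' ^ 2 / c + 1, by positivity, ?_⟩
  intro f hf z hz hz0
  have hzt := hKt hz
  have h1 := (hasFDerivAt_comp_chartMap hf p hzt hz0).fderiv
  rw [h1]
  have h2 := GG_bounds g f p (chartMap p z) (symm_mem_source p hzt) hc hC
    (fun v => hb _ ⟨z, hz, rfl⟩ v)
  set D := DD (d := d) f p (chartMap p z) with hD
  set G := GG g f f (chartMap p z) with hG
  have hG0 : 0 ≤ G := GG_nonneg g f _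
  have h3 : ‖D ∘L (zL d : (ℝ × (Fin d → ℝ)) →L[ℝ] EE d)‖ ≤ ‖D‖ * N :=
    ContinuousLinearMap.opNorm_comp_le _ _
  have h4 : ‖D‖ ≤ ‖D ∘L (zL d : (ℝ × (Fin d → ℝ)) →L[ℝ] EE d)‖ * N' := by
    have h5 : D = (D ∘L (zL d : (ℝ × (Fin d → ℝ)) →L[ℝ] EE d)) ∘L
        ((zL d).symm : EE d →L[ℝ] (ℝ × (Fin d → ℝ))) := by
      ext v
      simp
    calc ‖D‖ = ‖(D ∘L (zL d : (ℝ × (Fin d → ℝ)) →L[ℝ] EE d)) ∘L
        ((zL d).symm : EE d →L[ℝ] (ℝ × (Fin d → ℝ)))‖ := by rw [← h5]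
      _ ≤ _ := ContinuousLinearMap.opNorm_comp_le _ _
  constructor
  · rw [inv_mul_le_iff₀ (by positivity)]
    calc ‖D ∘L (zL d : (ℝ × (Fin d → ℝ)) →L[ℝ] EE d)‖ ^ 2 ≤ (‖D‖ * N) ^ 2 := by gcongr
      _ = N ^ 2 * ‖D‖ ^ 2 := by ring
      _ ≤ N ^ 2 * (C * G) := by gcongr; exact h2.1
      _ ≤ (N ^ 2 * C + 1) * G := by nlinarith
  · have h6 : G ≤ ‖D‖ ^ 2 / c := by
      rw [le_div_iff₀ hc, mul_comm]
      exact h2.2
    calc G ≤ ‖D‖ ^ 2 / c := h6
      _ ≤ (‖D ∘L (zL d : (ℝ × (Fin d → ℝ)) →L[ℝ] EE d)‖ * N') ^ 2 / c := by gcongr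
      _ = (N' ^ 2 / c) * ‖D ∘L (zL d : (ℝ × (Fin d → ℝ)) →L[ℝ] EE d)‖ ^ 2 := by ring
      _ ≤ (N' ^ 2 / c + 1) * ‖D ∘L (zL d : (ℝ × (Fin d → ℝ)) →L[ℝ] EE d)‖ ^ 2 := by
        gcongr
        linarith

/-! ### The chart structures -/

/-- the part of `HalfChart` that does not involve measures, for the map `chartMap p` -/
structure HalfChartA (g : RMetric d Ω) (p : Ω) (R c C : ℝ) : Prop where
  R_pos : 0 < R
  c_pos : 0 < c
  C_pos : 0 < C
  inj : InjOn (chartMap (d := d) p) (Q d R)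
  cont : ContinuousOn (chartMap (d := d) p) (Q d R)
  open_image : ∀ r, 0 < r → r ≤ R → IsOpen (chartMap (d := d) p '' (Ico 0 r ×ˢ Metric.ball 0 r))
  restr : ∀ f : Ω → ℝ, Sm (d := d) f → ContDiffOn ℝ ∞ (f ∘ chartMap (d := d) p) (Q d R)
  glue : ∀ f : Ω → ℝ, Sm (d := d) f → ∀ u : Ω → ℝ, ∀ r, r < R →
    (∀ q, q ∉ chartMap (d := d) p '' (Q d r) → u q = f q) →
    ContDiffOn ℝ ∞ (u ∘ chartMap (d := d) p) (Q d R) → Sm (d := d) u
  energy_lower : ∀ f : Ω → ℝ, Sm (d := d) f → ∀ z ∈ Qo d R,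
    c * ‖fderiv ℝ (f ∘ chartMap (d := d) p) z‖ ^ 2 ≤ GG g f f (chartMap (d := d) p z)
  energy_upper : ∀ f : Ω → ℝ, Sm (d := d) f → ∀ z ∈ Qo d R,
    GG g f f (chartMap (d := d) p z) ≤ C * ‖fderiv ℝ (f ∘ chartMap (d := d) p) z‖ ^ 2

/-- The inverse of `aff p`. -/
def PA.affInv (p : Ω) (y : EE d) : ℝ × (Fin d → ℝ) :=
  (zL d).symm (y - extChartAt (𝓡∂ (d + 1)) p p)

lemma PA.aff_affInv (p : Ω) (y : EE d) : aff p (affInv p y) = y := by
  unfold aff affInv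
  rw [← zL_apply, ContinuousLinearEquiv.apply_symm_apply, add_sub_cancel]

lemma PA.affInv_aff (p : Ω) (z : ℝ × (Fin d → ℝ)) : affInv p (aff p z) = z :=
  aff_injective p (aff_affInv p _)

lemma PA.affInv_continuous (p : Ω) : Continuous (affInv (d := d) p) :=
  (zL d).symm.continuous.comp (continuous_id.sub continuous_const)

lemma PA.affInv_contDiff (p : Ω) : ContDiff ℝ ∞ (affInv (d := d) p) :=
  (zL d).symm.contDiff.comp (contDiff_id.sub contDiff_const)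

lemma PA.affInv_fst (p : Ω) (y : EE d) :
    (affInv p y).1 = y 0 - (extChartAt (𝓡∂ (d + 1)) p p) 0 := by
  have h := congrArg (fun y : EE d => y 0) (aff_affInv p y)
  simp only [aff_coord] at h
  linarith

/-- image of a set under `chartMap` as a preimage under the chart. -/
lemma PA.chartMap_image_eq (p : Ω) {s : Set (ℝ × (Fin d → ℝ))}
    (hs : MapsTo (aff p) s (extChartAt (𝓡∂ (d + 1)) p).target) :
    chartMap (d := d) p '' s = (extChartAt (𝓡∂ (d + 1)) p).source ∩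
      {q | affInv p (extChartAt (𝓡∂ (d + 1)) p q) ∈ s} := by
  ext q
  constructor
  · rintro ⟨z, hz, rfl⟩
    refine ⟨(extChartAt (𝓡∂ (d + 1)) p).map_target (hs hz), ?_⟩
    show affInv p (extChartAt (𝓡∂ (d + 1)) p (chartMap p z)) ∈ s
    rw [chartMap_eq, (extChartAt (𝓡∂ (d + 1)) p).right_inv (hs hz), affInv_aff]
    exact hz
  · rintro ⟨hq, hqs⟩
    refine ⟨_, hqs, ?_⟩
    rw [chartMap_eq, aff_affInv, (extChartAt (𝓡∂ (d + 1)) p).left_inv hq]

lemma PA.chartMap_image_isOpen (p : Ω) {s U : Set (ℝ × (Fin d → ℝ))}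
    (hs : MapsTo (aff p) s (extChartAt (𝓡∂ (d + 1)) p).target) (hU : IsOpen U)
    (hUs : ∀ y ∈ (extChartAt (𝓡∂ (d + 1)) p).target, affInv p y ∈ U ↔ affInv p y ∈ s) :
    IsOpen (chartMap (d := d) p '' s) := by
  rw [chartMap_image_eq p hs]
  have h : (extChartAt (𝓡∂ (d + 1)) p).source ∩
      {q | affInv p (extChartAt (𝓡∂ (d + 1)) p q) ∈ s} =
      (extChartAt (𝓡∂ (d + 1)) p).source ∩
        (extChartAt (𝓡∂ (d + 1)) p) ⁻¹' ((affInv p) ⁻¹' U) := by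
    ext q
    constructor
    · rintro ⟨h1, h2⟩
      exact ⟨h1, (hUs _ ((extChartAt (𝓡∂ (d + 1)) p).map_source h1)).2 h2⟩
    · rintro ⟨h1, h2⟩
      exact ⟨h1, (hUs _ ((extChartAt (𝓡∂ (d + 1)) p).map_source h1)).1 h2⟩
  rw [h]
  exact (continuousOn_extChartAt p).isOpen_inter_preimage (isOpen_extChartAt_source p)
    (hU.preimage (affInv_continuous p))

lemma PA.contMDiffOn_of_comp_chartMap (p : Ω) {s : Set (ℝ × (Fin d → ℝ))}
    (hs : MapsTo (aff p) s (extChartAt (𝓡∂ (d + 1)) p).target) {u : Ω → ℝ}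
    (hu : ContDiffOn ℝ ∞ (u ∘ chartMap (d := d) p) s) :
    ContMDiffOn (𝓡∂ (d + 1)) 𝓘(ℝ, ℝ) ∞ u (chartMap (d := d) p '' s) := by
  have h1 : ContMDiffOn (𝓡∂ (d + 1)) 𝓘(ℝ, ℝ × (Fin d → ℝ)) ∞
      (fun q => affInv p (extChartAt (𝓡∂ (d + 1)) p q)) (chartMap (d := d) p '' s) := by
    refine (affInv_contDiff p).contMDiff.comp_contMDiffOn ?_
    refine (contMDiffOn_extChartAt (I := 𝓡∂ (d + 1)) (x := p) (n := ∞)).mono ?_
    rintro _ ⟨z, hz, rfl⟩
    exact symm_mem_source p (hs hz)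
  have h2 : ContMDiffOn 𝓘(ℝ, ℝ × (Fin d → ℝ)) 𝓘(ℝ, ℝ) ∞ (u ∘ chartMap (d := d) p) s :=
    contMDiffOn_iff_contDiffOn.2 hu
  refine (h2.comp h1 ?_).congr ?_
  · rintro _ ⟨z, hz, rfl⟩
    show affInv p (extChartAt (𝓡∂ (d + 1)) p (chartMap p z)) ∈ s
    rw [chartMap_eq, (extChartAt (𝓡∂ (d + 1)) p).right_inv (hs hz), affInv_aff]
    exact hz
  · rintro _ ⟨z, hz, rfl⟩
    show u (chartMap p z) = u (chartMap p (affInv p (extChartAt (𝓡∂ (d + 1)) p (chartMap p z))))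
    rw [chartMap_eq p z, (extChartAt (𝓡∂ (d + 1)) p).right_inv (hs hz), affInv_aff]
    rfl

lemma PA.contMDiff_glue [T2Space Ω] (p : Ω) {K W : Set (ℝ × (Fin d → ℝ))}
    {f u : Ω → ℝ} (hf : Sm (d := d) f)
    (hWt : MapsTo (aff p) W (extChartAt (𝓡∂ (d + 1)) p).target)
    (hK : IsCompact K) (hKW : K ⊆ W) (hW : IsOpen (chartMap (d := d) p '' W))
    (huf : ∀ q, q ∉ chartMap (d := d) p '' K → u q = f q)
    (hu : ContDiffOn ℝ ∞ (u ∘ chartMap (d := d) p) W) : Sm (d := d) u := by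
  intro q
  by_cases hq : q ∈ chartMap (d := d) p '' K
  · have h1 : q ∈ chartMap (d := d) p '' W := image_mono hKW hq
    exact (contMDiffOn_of_comp_chartMap p hWt hu).contMDiffAt (hW.mem_nhds h1)
  · have hc : IsClosed (chartMap (d := d) p '' K) :=
      (hK.image_of_continuousOn (chartMap_continuousOn p (hWt.mono_left hKW))).isClosed
    have h1 : u =ᶠ[𝓝 q] f := by
      filter_upwards [hc.isOpen_compl.mem_nhds hq] with q' hq'
      exact huf q' hq'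
    exact (hf q).congr_of_eventuallyEq h1

theorem exists_halfChartA [T2Space Ω] (g : RMetric d Ω) (p : Ω)
    (hp : p ∈ (𝓡∂ (d + 1)).boundary Ω) :
    ∃ R₀ > 0, ∀ R, 0 < R → R ≤ R₀ → ∃ c C, HalfChartA g p R c C := by
  obtain ⟨R₀, hR₀, ht⟩ := exists_aff_mem_target (d := d) p
  rw [mem_boundary_iff] at hp
  refine ⟨R₀, hR₀, fun R hR hRR => ?_⟩
  have hQt : ∀ r, r ≤ R → MapsTo (aff p) (Q d r) (extChartAt (𝓡∂ (d + 1)) p).target := by
    intro r hr z hz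
    refine ht z (Metric.closedBall_subset_closedBall (hr.trans hRR) (Q_subset_closedBall r hz)) ?_
    rw [aff_coord, hp, zero_add]
    exact hz.1.1
  have hcoord : ∀ z ∈ Qo d R, 0 < (aff p z) 0 := by
    intro z hz
    rw [aff_coord, hp, zero_add]
    exact hz.1.1
  obtain ⟨c, hc, C, hC, hb⟩ := exists_energy_bounds g p (Q_isCompact R) (hQt R le_rfl)
  have hsub : ∀ r, r ≤ R → (Ico 0 r ×ˢ Metric.ball 0 r : Set (ℝ × (Fin d → ℝ))) ⊆ Q d R := by
    intro r hr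
    exact (Set.prod_mono (Ico_subset_Icc_self.trans (Icc_subset_Icc le_rfl hr))
      (Metric.ball_subset_closedBall.trans (Metric.closedBall_subset_closedBall hr)))
  have hopen : ∀ r, 0 < r → r ≤ R →
      IsOpen (chartMap (d := d) p '' (Ico 0 r ×ˢ Metric.ball 0 r)) := by
    intro r hr hrR
    refine chartMap_image_isOpen p (U := Iio r ×ˢ Metric.ball 0 r)
      ((hQt R le_rfl).mono_left (hsub r hrR)) (isOpen_Iio.prod Metric.isOpen_ball) ?_
    intro y hy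
    have h0 : 0 ≤ (affInv p y).1 := by
      rw [affInv_fst, hp, sub_zero]
      exact mem_target_nonneg p hy
    constructor
    · rintro ⟨h1, h2⟩
      exact ⟨⟨h0, h1⟩, h2⟩
    · rintro ⟨h1, h2⟩
      exact ⟨h1.2, h2⟩
  refine ⟨c, C, ⟨hR, hc, hC, chartMap_injOn p (hQt R le_rfl),
    chartMap_continuousOn p (hQt R le_rfl), hopen,
    fun f hf => comp_chartMap_contDiffOn hf p (hQt R le_rfl), ?_, ?_, ?_⟩⟩
  · intro f hf u r hr huf hu
    have hsub' : Q d r ⊆ (Ico 0 R ×ˢ Metric.ball 0 R : Set (ℝ × (Fin d → ℝ))) := by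
      rintro ⟨t, x⟩ ⟨h1, h2⟩
      exact ⟨⟨h1.1, lt_of_le_of_lt h1.2 hr⟩, Metric.closedBall_subset_ball hr h2⟩
    exact contMDiff_glue p hf ((hQt R le_rfl).mono_left (hsub R le_rfl)) (Q_isCompact r) hsub'
      (hopen R hR le_rfl) huf (hu.mono (hsub R le_rfl))
  · exact fun f hf z hz => (hb f hf z (Qo_subset_Q R hz) (hcoord z hz)).1
  · exact fun f hf z hz => (hb f hf z (Qo_subset_Q R hz) (hcoord z hz)).2

/-- the part of `BoxChart` that does not involve measures -/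
structure BoxChartA (g : RMetric d Ω) (p : Ω) (R c : ℝ) : Prop where
  R_pos : 0 < R
  c_pos : 0 < c
  cont : ContinuousOn (chartMap (d := d) p) (Metric.closedBall 0 R)
  open_image : IsOpen (chartMap (d := d) p '' (Metric.ball 0 R))
  restr : ∀ f : Ω → ℝ, Sm (d := d) f →
    ContDiffOn ℝ ∞ (f ∘ chartMap (d := d) p) (Metric.closedBall 0 R)
  energy_lower : ∀ f : Ω → ℝ, Sm (d := d) f → ∀ z ∈ Metric.ball (0 : ℝ × (Fin d → ℝ)) R,
    c * ‖fderiv ℝ (f ∘ chartMap (d := d) p) z‖ ^ 2 ≤ GG g f f (chartMap (d := d) p z)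

theorem exists_boxChartA (g : RMetric d Ω) (p : Ω)
    (hp : p ∉ (𝓡∂ (d + 1)).boundary Ω) :
    ∃ R₀ > 0, ∀ R, 0 < R → R ≤ R₀ → ∃ c, BoxChartA g p R c := by
  obtain ⟨R₀, hR₀, ht⟩ := exists_aff_mem_target (d := d) p
  rw [notMem_boundary_iff] at hp
  set t := (extChartAt (𝓡∂ (d + 1)) p p) 0 with htdef
  refine ⟨min R₀ (t / 2), lt_min hR₀ (by linarith), fun R hR hRR => ?_⟩
  have hcoord : ∀ z ∈ Metric.closedBall (0 : ℝ × (Fin d → ℝ)) R, 0 < (aff p z) 0 := by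
    intro z hz
    rw [aff_coord]
    have h1 : ‖z.1‖ ≤ R := (norm_fst_le z).trans (by simpa using hz)
    rw [Real.norm_eq_abs, abs_le] at h1
    have h2 := hRR.trans (min_le_right _ _)
    linarith [h1.1]
  have hQt : MapsTo (aff p) (Metric.closedBall 0 R) (extChartAt (𝓡∂ (d + 1)) p).target := by
    intro z hz
    exact ht z (Metric.closedBall_subset_closedBall (hRR.trans (min_le_left _ _)) hz)
      (hcoord z hz).le
  obtain ⟨c, hc, C, hC, hb⟩ := exists_energy_bounds g p (isCompact_closedBall 0 R) hQt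
  refine ⟨c, ⟨hR, hc, chartMap_continuousOn p hQt, ?_,
    fun f hf => comp_chartMap_contDiffOn hf p hQt, ?_⟩⟩
  · exact chartMap_image_isOpen p (U := Metric.ball 0 R)
      (hQt.mono_left Metric.ball_subset_closedBall) Metric.isOpen_ball (fun y hy => Iff.rfl)
  · intro f hf z hz
    exact (hb f hf z (Metric.ball_subset_closedBall hz)
      (hcoord z (Metric.ball_subset_closedBall hz))).1

end Pool.Agent.Steklov
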