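import Mathlib
import Pool.Agent.Lib.MP_4838e0_gt.Defs
import Pool.Agent.Lib.MP_4838e0_gt.ChartMap
import Pool.Agent.Lib.MP_4838e0_gt.Abstract
import Pool.Agent.Lib.MP_4838e0_gt.BridgeA0
import Pool.Agent.Lib.MP_4838e0_gt.BridgeA1
import Pool.Agent.Lib.MP_4838e0_gt.BridgeA3

set_option autoImplicit false

universe u
set_option linter.unusedVariables false
set_option linter.unusedSectionVars false

open Set Filter Topology MeasureTheory Manifold ContDiff Bundle

noncomputable section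

namespace Pool.Agent.Steklov

open PA

variable {d : ℕ} {Ω : Type u} [TopologicalSpace Ω] [ChartedSpace (EuclideanHalfSpace (d + 1)) Ω]
  [IsManifold (𝓡∂ (d + 1)) ∞ Ω]

lemma PA.DD_eq_fderivWithin {f : Ω → ℝ} (hf : Sm (d := d) f) (p : Ω) {y : EE d}
    (hy : y ∈ (extChartAt (𝓡∂ (d + 1)) p).target) :
    DD (d := d) f p ((extChartAt (𝓡∂ (d + 1)) p).symm y) =
      fderivWithin ℝ (f ∘ (extChartAt (𝓡∂ (d + 1)) p).symm)
        (extChartAt (𝓡∂ (d + 1)) p).target y := by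
  have hI : IsManifold (𝓡∂ (d + 1)) 1 Ω :=
    IsManifold.of_le (m := 1) (n := ∞) (by exact_mod_cast le_top)
  have h1 : HasMFDerivWithinAt 𝓘(ℝ, EE d) (𝓡∂ (d + 1)) (extChartAt (𝓡∂ (d + 1)) p).symm
      (range (𝓡∂ (d + 1))) y (mfderivWithin 𝓘(ℝ, EE d) (𝓡∂ (d + 1))
        (extChartAt (𝓡∂ (d + 1)) p).symm (range (𝓡∂ (d + 1))) y) :=
    (mdifferentiableWithinAt_extChartAt_symm hy).hasMFDerivWithinAt
  have h2 : HasMFDerivAt (𝓡∂ (d + 1)) 𝓘(ℝ, ℝ) f ((extChartAt (𝓡∂ (d + 1)) p).symm y)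
      (mfderiv (𝓡∂ (d + 1)) 𝓘(ℝ, ℝ) f ((extChartAt (𝓡∂ (d + 1)) p).symm y)) :=
    (hf.mdifferentiableAt (by simp)).hasMFDerivAt
  have h3 := h2.comp_hasMFDerivWithinAt y h1
  rw [hasMFDerivWithinAt_iff_hasFDerivWithinAt] at h3
  have h5 : DD f p ((extChartAt (𝓡∂ (d + 1)) p).symm y) =
      (mfderiv (𝓡∂ (d + 1)) 𝓘(ℝ, ℝ) f ((extChartAt (𝓡∂ (d + 1)) p).symm y)).comp
      (mfderivWithin 𝓘(ℝ, EE d) (𝓡∂ (d + 1)) (extChartAt (𝓡∂ (d + 1)) p).symm
        (range (𝓡∂ (d + 1))) y) := by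
    unfold DD
    rw [iL_eq p hy]
    rfl
  have h4 : HasFDerivWithinAt (f ∘ (extChartAt (𝓡∂ (d + 1)) p).symm)
      (DD (d := d) f p ((extChartAt (𝓡∂ (d + 1)) p).symm y))
      (extChartAt (𝓡∂ (d + 1)) p).target y := by
    rw [h5]
    exact h3.mono (extChartAt_target_subset_range (I := 𝓡∂ (d + 1)) p)
  have hu : UniqueDiffWithinAt ℝ (extChartAt (𝓡∂ (d + 1)) p).target y :=
    uniqueDiffOn_extChartAt_target (I := 𝓡∂ (d + 1)) p y hy
  exact (h4.fderivWithin hu).symm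

lemma PA.DD_continuousOn {f : Ω → ℝ} (hf : Sm (d := d) f) (p : Ω) :
    ContinuousOn (fun x => DD (d := d) f p x) (extChartAt (𝓡∂ (d + 1)) p).source := by
  have h1 : ContinuousOn (fun y => fderivWithin ℝ (f ∘ (extChartAt (𝓡∂ (d + 1)) p).symm)
      (extChartAt (𝓡∂ (d + 1)) p).target y) (extChartAt (𝓡∂ (d + 1)) p).target :=
    (comp_symm_contDiffOn hf p).continuousOn_fderivWithin (uniqueDiffOn_extChartAt_target p)
      (by simp)
  have h2 := h1.comp (continuousOn_extChartAt (I := 𝓡∂ (d + 1)) p)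
    (extChartAt (𝓡∂ (d + 1)) p).mapsTo
  refine h2.congr fun x hx => ?_
  have h3 := DD_eq_fderivWithin hf p ((extChartAt (𝓡∂ (d + 1)) p).map_source hx)
  rw [(extChartAt (𝓡∂ (d + 1)) p).left_inv hx] at h3
  exact h3

lemma PA.gch_exists_equiv (g : RMetric d Ω) (p x : Ω)
    (hx : x ∈ (chartAt (EuclideanHalfSpace (d + 1)) p).source) :
    ∃ e : EE d ≃L[ℝ] (EE d →L[ℝ] ℝ), (e : EE d →L[ℝ] (EE d →L[ℝ] ℝ)) = gch g p x := by
  have hinj : Function.Injective (gch g p x : EE d →ₗ[ℝ] (EE d →L[ℝ] ℝ)) := by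
    rw [← LinearMap.ker_eq_bot, LinearMap.ker_eq_bot']
    intro v hv
    by_contra hne
    have h1 := gch_pos g p x hx v hne
    have h2 : gch g p x v = 0 := hv
    rw [h2] at h1
    simp at h1
  have hsurj : Function.Surjective (gch g p x : EE d →ₗ[ℝ] (EE d →L[ℝ] ℝ)) := by
    rw [← LinearMap.injective_iff_surjective_of_finrank_eq_finrank]
    · exact hinj
    · rw [← (LinearMap.toContinuousLinearMap (𝕜 := ℝ) (E := EE d) (F' := ℝ)).finrank_eq]
      exact (Subspace.dual_finrank_eq).symm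
  refine ⟨(LinearEquiv.ofBijective (gch g p x : EE d →ₗ[ℝ] (EE d →L[ℝ] ℝ))
    ⟨hinj, hsurj⟩).toContinuousLinearEquiv, ?_⟩
  ext v w
  rfl

lemma PA.GG_eq_inverse (g : RMetric d Ω) (f h : Ω → ℝ) (p x : Ω)
    (hx : x ∈ (chartAt (EuclideanHalfSpace (d + 1)) p).source) :
    GG g f h x = DD (d := d) h p x ((gch g p x).inverse (DD (d := d) f p x)) := by
  obtain ⟨u, hu⟩ := iL_surjective p x hx (grad g f x)
  have h1 : gch g p x u = DD (d := d) f p x := by
    ext v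
    rw [gch_apply g p x hx, hu, grad_spec]
    rfl
  obtain ⟨e, he⟩ := gch_exists_equiv g p x hx
  have h2 : (gch g p x).inverse (DD (d := d) f p x) = u := by
    rw [← h1, ← he, ContinuousLinearMap.inverse_equiv]
    exact e.symm_apply_apply u
  rw [h2, GG_symm, GG_eq, ← hu]
  rfl

lemma GG_cont (g : RMetric d Ω) {f h : Ω → ℝ} (hf : Sm (d := d) f) (hh : Sm (d := d) h) :
    Continuous (GG g f h) := by
  rw [continuous_iff_continuousAt]
  intro p
  have hs : (extChartAt (𝓡∂ (d + 1)) p).source ∈ 𝓝 p := extChartAt_source_mem_nhds p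
  have hs' : (chartAt (EuclideanHalfSpace (d + 1)) p).source = (extChartAt (𝓡∂ (d + 1)) p).source :=
    (extChartAt_source (I := 𝓡∂ (d + 1)) p).symm
  have hp : p ∈ (chartAt (EuclideanHalfSpace (d + 1)) p).source := mem_chart_source _ p
  have h1 : ContinuousAt (fun x => DD (d := d) f p x) p := (DD_continuousOn hf p).continuousAt hs
  have h2 : ContinuousAt (fun x => DD (d := d) h p x) p := (DD_continuousOn hh p).continuousAt hs
  have h3 : ContinuousAt (gch g p) p := (gch_contMDiffAt g p p hp).continuousAt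
  obtain ⟨e, he⟩ := gch_exists_equiv g p p hp
  have h4 : ContinuousAt (ContinuousLinearMap.inverse :
      (EE d →L[ℝ] (EE d →L[ℝ] ℝ)) → ((EE d →L[ℝ] ℝ) →L[ℝ] EE d)) (gch g p p) := by
    rw [← he]
    exact (contDiffAt_map_inverse (n := 0) e).continuousAt
  have h5 : ContinuousAt (fun x => (gch g p x).inverse) p := h4.comp h3
  have h6 : ContinuousAt (fun x => DD (d := d) h p x
      ((gch g p x).inverse (DD (d := d) f p x))) p := h2.clm_apply (h5.clm_apply h1)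
  refine h6.congr ?_
  filter_upwards [hs] with x hx
  exact (GG_eq_inverse g f h p x (by rw [hs']; exact hx)).symm

end Pool.Agent.Steklov
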