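import Pool.Agent.Lib.MP_4838e0_gt.BridgeA0
import Pool.Agent.Lib.MP_4838e0_gt.BridgeA1
import Pool.Agent.Lib.MP_4838e0_gt.BridgeA2
import Pool.Agent.Lib.MP_4838e0_gt.BridgeA3
import Pool.Agent.Lib.MP_4838e0_gt.BridgeA4

/-! Part A of the bridge (no measures): gradient, carre du champ, charts, conformal metrics. -/
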