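import Mathlib

set_option autoImplicit false

open Set Filter Topology MeasureTheory
open scoped ENNReal

noncomputable section

namespace Pool.Agent.Steklov.PB

/-! ## Part B1: abstract lemmas on measures defined in charts -/

section Sup

variable {X : Type*} [MeasurableSpace X]

/-- If the measures `ν i`, concentrated on `U i`, agree on the overlaps, then the supremum
restricts to `ν p` on `U p`. -/
lemma iSup_restrict_eq {ι : Type*} (ν : ι → Measure X) (U : ι → Set X)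
    (hU : ∀ i, MeasurableSet (U i)) (hν : ∀ i, ν i (U i)ᶜ = 0)
    (hag : ∀ i j, (ν i).restrict (U i ∩ U j) ≤ ν j) (p : ι) :
    (⨆ i, ν i).restrict (U p) = ν p := by
  have hself : ∀ i, (ν i).restrict (U i) = ν i := by
    intro i
    apply Measure.restrict_eq_self_of_ae_mem
    rw [ae_iff]
    exact hν i
  apply le_antisymm
  · have key : (⨆ i, ν i) ≤ ν p + (⨆ i, ν i).restrict (U p)ᶜ := by
      apply iSup_le
      intro i
      calc ν i = (ν i).restrict (U p) + (ν i).restrict (U p)ᶜ :=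
            (Measure.restrict_add_restrict_compl (hU p)).symm
        _ ≤ ν p + (⨆ i, ν i).restrict (U p)ᶜ := by
            apply add_le_add
            · have h1 : (ν i).restrict (U p) = (ν i).restrict (U i ∩ U p) := by
                conv_lhs => rw [← hself i]
                rw [Measure.restrict_restrict (hU p), inter_comm]
              rw [h1]
              exact hag i p
            · exact Measure.restrict_mono le_rfl (le_iSup ν i)
    calc (⨆ i, ν i).restrict (U p) ≤ (ν p + (⨆ i, ν i).restrict (U p)ᶜ).restrict (U p) :=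
          Measure.restrict_mono le_rfl key
      _ = ν p := by
          rw [Measure.restrict_add, hself p, Measure.restrict_restrict (hU p),
            inter_compl_self, Measure.restrict_empty, add_zero]
  · calc ν p = (ν p).restrict (U p) := (hself p).symm
      _ ≤ (⨆ i, ν i).restrict (U p) := Measure.restrict_mono le_rfl (le_iSup ν p)

end Sup

section Chart

variable {X : Type*} [MeasurableSpace X]

/-- The measure `ρ μ` on `T`, pushed forward by `ψ`. -/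
def chartMeas {E : Type*} [MeasurableSpace E] (μ : Measure E) (T : Set E) (ρ : E → ℝ≥0∞)
    (ψ : E → X) : Measure X :=
  ((μ.restrict T).withDensity ρ).map ψ

lemma chartMeas_apply {E : Type*} [MeasurableSpace E] (μ : Measure E) [SFinite μ] {T : Set E}
    (hT : MeasurableSet T) (ρ : E → ℝ≥0∞) {ψ : E → X} (hψ : AEMeasurable ψ (μ.restrict T))
    {A : Set X} (hA : MeasurableSet A) :
    chartMeas μ T ρ ψ A = ∫⁻ z in T ∩ ψ ⁻¹' A, ρ z ∂μ := by
  rw [chartMeas, Measure.map_apply_of_aemeasurable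
    (hψ.mono_ac (withDensity_absolutelyContinuous _ _)) hA, withDensity_apply' _ _,
    Measure.restrict_restrict' hT, inter_comm]

/-- Change of variables between two charts. -/
lemma chartMeas_agree {E : Type*} [NormedAddCommGroup E] [NormedSpace ℝ E]
    [FiniteDimensional ℝ E] [MeasurableSpace E] [BorelSpace E] (μ : Measure E)
    [μ.IsAddHaarMeasure] {T₁ T₂ : Set E} (hT₁ : MeasurableSet T₁) (hT₂ : MeasurableSet T₂)
    {ψ₁ ψ₂ : E → X} (hψ₁ : AEMeasurable ψ₁ (μ.restrict T₁)) (hψ₂ : AEMeasurable ψ₂ (μ.restrict T₂))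
    (inj₁ : InjOn ψ₁ T₁) (inj₂ : InjOn ψ₂ T₂) (ρ₁ ρ₂ : E → ℝ≥0∞) (τ : E → E) (τ' : E → E →L[ℝ] E)
    (hτ : ∀ z ∈ T₁, ψ₁ z ∈ ψ₂ '' T₂ → τ z ∈ T₂ ∧ ψ₂ (τ z) = ψ₁ z)
    (hτ' : ∀ z ∈ T₁, ψ₁ z ∈ ψ₂ '' T₂ →
      HasFDerivWithinAt τ (τ' z) (T₁ ∩ ψ₁ ⁻¹' (ψ₂ '' T₂)) z)
    (hρ : ∀ z ∈ T₁, ψ₁ z ∈ ψ₂ '' T₂ → ρ₁ z = ENNReal.ofReal |(τ' z).det| * ρ₂ (τ z))
    {A : Set X} (hA : MeasurableSet A) (hAm : MeasurableSet (T₁ ∩ ψ₁ ⁻¹' A))
    (hA1 : A ⊆ ψ₁ '' T₁) (hA2 : A ⊆ ψ₂ '' T₂) :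
    chartMeas μ T₁ ρ₁ ψ₁ A = chartMeas μ T₂ ρ₂ ψ₂ A := by
  rw [chartMeas_apply μ hT₁ ρ₁ hψ₁ hA, chartMeas_apply μ hT₂ ρ₂ hψ₂ hA]
  set s := T₁ ∩ ψ₁ ⁻¹' A with hs
  have hs2 : ∀ z ∈ s, ψ₁ z ∈ ψ₂ '' T₂ := fun z hz => hA2 hz.2
  have himg : τ '' s = T₂ ∩ ψ₂ ⁻¹' A := by
    ext w
    constructor
    · rintro ⟨z, hz, rfl⟩
      obtain ⟨h1, h2⟩ := hτ z hz.1 (hs2 z hz)
      exact ⟨h1, by rw [mem_preimage, h2]; exact hz.2⟩
    · rintro ⟨hw, hwA⟩
      obtain ⟨z, hz, hzw⟩ := hA1 hwA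
      have hzs : z ∈ s := ⟨hz, by rw [mem_preimage, hzw]; exact hwA⟩
      obtain ⟨h1, h2⟩ := hτ z hz (hs2 z hzs)
      exact ⟨z, hzs, inj₂ h1 hw (by rw [h2, hzw])⟩
  have hinj : InjOn τ s := by
    intro z hz z' hz' h
    have e1 := (hτ z hz.1 (hs2 z hz)).2
    have e2 := (hτ z' hz'.1 (hs2 z' hz')).2
    exact inj₁ hz.1 hz'.1 (by rw [← e1, ← e2, h])
  rw [← himg, lintegral_image_eq_lintegral_abs_det_fderiv_mul μ hAm
    (fun z hz => (hτ' z hz.1 (hs2 z hz)).mono (fun w hw => ⟨hw.1, hA2 hw.2⟩)) hinj]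
  exact setLIntegral_congr_fun hAm (fun z hz => hρ z hz.1 (hs2 z hz))

end Chart

end Pool.Agent.Steklov.PB
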