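import Pool.Agent.Lib.MP_4838e0_gt.Defs
import Pool.Agent.Lib.MP_4838e0_gt.BridgeB1

set_option autoImplicit false

universe u

open Set Filter Topology MeasureTheory Manifold ContDiff Bundle
open scoped ENNReal

noncomputable section

namespace Pool.Agent.Steklov.PB

variable {d : ℕ} {Ω : Type u} [TopologicalSpace Ω] [ChartedSpace (EuclideanHalfSpace (d + 1)) Ω]
  [IsManifold (𝓡∂ (d + 1)) ∞ Ω]

/-! ## Part B2: gram matrices and changes of charts -/

section LinearAlgebra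

/-- Gram matrix of a bilinear form `B` pulled back by `W`, in the standard basis. -/
def gramOf {m n : ℕ} (B : EuclideanSpace ℝ (Fin n) →L[ℝ] EuclideanSpace ℝ (Fin n) →L[ℝ] ℝ)
    (W : EuclideanSpace ℝ (Fin m) →L[ℝ] EuclideanSpace ℝ (Fin n)) : Matrix (Fin m) (Fin m) ℝ :=
  fun i j => B (W (EuclideanSpace.single i 1)) (W (EuclideanSpace.single j 1))

/-- matrix of a linear map in the standard basis -/
def matOf {m : ℕ} (A : EuclideanSpace ℝ (Fin m) →L[ℝ] EuclideanSpace ℝ (Fin m)) :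
    Matrix (Fin m) (Fin m) ℝ :=
  fun k i => A (EuclideanSpace.single i 1) k

lemma det_matOf {m : ℕ} (A : EuclideanSpace ℝ (Fin m) →L[ℝ] EuclideanSpace ℝ (Fin m)) :
    (matOf A).det = A.det := by
  have h : matOf A = LinearMap.toMatrix (EuclideanSpace.basisFun (Fin m) ℝ).toBasis
      (EuclideanSpace.basisFun (Fin m) ℝ).toBasis (A : EuclideanSpace ℝ (Fin m) →ₗ[ℝ] _) := by
    ext k i
    simp [matOf, LinearMap.toMatrix_apply]
  rw [h, LinearMap.det_toMatrix]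

lemma apply_single_eq_sum {m : ℕ} (A : EuclideanSpace ℝ (Fin m) →L[ℝ] EuclideanSpace ℝ (Fin m))
    (i : Fin m) : A (EuclideanSpace.single i 1) =
      ∑ k, matOf A k i • EuclideanSpace.single k (1 : ℝ) := by
  ext l
  simp [matOf, Finset.sum_apply, Pi.single_apply]

lemma gramOf_comp {m n : ℕ}
    (B : EuclideanSpace ℝ (Fin n) →L[ℝ] EuclideanSpace ℝ (Fin n) →L[ℝ] ℝ)
    (W : EuclideanSpace ℝ (Fin m) →L[ℝ] EuclideanSpace ℝ (Fin n))
    (A : EuclideanSpace ℝ (Fin m) →L[ℝ] EuclideanSpace ℝ (Fin m)) :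
    gramOf B (W.comp A) = (matOf A).transpose * gramOf B W * matOf A := by
  ext i j
  simp only [gramOf, ContinuousLinearMap.comp_apply, apply_single_eq_sum A, map_sum, map_smul,
    sum_apply, smul_apply, smul_eq_mul,
    Matrix.mul_apply, Matrix.transpose_apply, Finset.sum_mul, Finset.mul_sum]
  refine Finset.sum_congr rfl fun k _ => Finset.sum_congr rfl fun l _ => ?_
  ring

lemma sqrt_det_gramOf_comp {m n : ℕ}
    (B : EuclideanSpace ℝ (Fin n) →L[ℝ] EuclideanSpace ℝ (Fin n) →L[ℝ] ℝ)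
    (W : EuclideanSpace ℝ (Fin m) →L[ℝ] EuclideanSpace ℝ (Fin n))
    (A : EuclideanSpace ℝ (Fin m) →L[ℝ] EuclideanSpace ℝ (Fin m)) :
    ENNReal.ofReal (Real.sqrt (gramOf B (W.comp A)).det) =
      ENNReal.ofReal |A.det| * ENNReal.ofReal (Real.sqrt (gramOf B W).det) := by
  rw [gramOf_comp, Matrix.det_mul, Matrix.det_mul, Matrix.det_transpose, det_matOf,
    ← ENNReal.ofReal_mul (abs_nonneg _)]
  congr 1
  rw [show A.det * (gramOf B W).det * A.det = A.det ^ 2 * (gramOf B W).det by ring,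
    Real.sqrt_mul (sq_nonneg _), Real.sqrt_sq_eq_abs]

end LinearAlgebra

section Charts

/-- the derivative of the inverse chart at `x`, as a linear map of the model space -/
def DD (x : Ω) (z : EE d) : EE d →L[ℝ] EE d :=
  mfderivWithin 𝓘(ℝ, EE d) (𝓡∂ (d + 1)) (extChartAt (𝓡∂ (d + 1)) x).symm
    (range (𝓡∂ (d + 1))) z

/-- the metric, as a bilinear form on the model space -/
def BB (g : RMetric d Ω) (p : Ω) : EE d →L[ℝ] EE d →L[ℝ] ℝ := g.inner p

lemma gram_eq_gramOf (g : RMetric d Ω) (x : Ω) (z : EE d) :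
    gram g x z = gramOf (BB g ((extChartAt (𝓡∂ (d + 1)) x).symm z)) (DD x z) := rfl

/-- transition map -/
def trans (x y : Ω) : EE d → EE d :=
  (extChartAt (𝓡∂ (d + 1)) y) ∘ (extChartAt (𝓡∂ (d + 1)) x).symm

omit [IsManifold (𝓡∂ (d + 1)) ∞ Ω] in
lemma mem_range_ext (y : Ω) (q : Ω) :
    extChartAt (𝓡∂ (d + 1)) y q ∈ range (𝓡∂ (d + 1)) := by
  rw [extChartAt_coe]
  exact mem_range_self _

lemma contDiffWithinAt_trans {x y : Ω} {z : EE d}
    (hz : z ∈ (extChartAt (𝓡∂ (d + 1)) x).target)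
    (hy : (extChartAt (𝓡∂ (d + 1)) x).symm z ∈ (extChartAt (𝓡∂ (d + 1)) y).source) :
    ContDiffWithinAt ℝ ∞ (trans x y) (range (𝓡∂ (d + 1))) z := by
  apply contDiffWithinAt_ext_coord_change
  rw [PartialEquiv.trans_source]
  exact ⟨hz, hy⟩

lemma hasFDerivWithinAt_trans {x y : Ω} {z : EE d}
    (hz : z ∈ (extChartAt (𝓡∂ (d + 1)) x).target)
    (hy : (extChartAt (𝓡∂ (d + 1)) x).symm z ∈ (extChartAt (𝓡∂ (d + 1)) y).source) :
    HasFDerivWithinAt (trans x y) (fderivWithin ℝ (trans x y) (range (𝓡∂ (d + 1))) z)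
      (range (𝓡∂ (d + 1))) z :=
  ((contDiffWithinAt_trans hz hy).differentiableWithinAt (by simp)).hasFDerivWithinAt

lemma DD_comp {x y : Ω} {z : EE d}
    (hz : z ∈ (extChartAt (𝓡∂ (d + 1)) x).target)
    (hy : (extChartAt (𝓡∂ (d + 1)) x).symm z ∈ (extChartAt (𝓡∂ (d + 1)) y).source) :
    DD x z = (DD y (trans x y z)).comp
      (fderivWithin ℝ (trans x y) (range (𝓡∂ (d + 1))) z) := by
  have hzr : z ∈ range (𝓡∂ (d + 1)) := extChartAt_target_subset_range x hz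
  have htz : trans x y z ∈ (extChartAt (𝓡∂ (d + 1)) y).target :=
    (extChartAt (𝓡∂ (d + 1)) y).map_source hy
  have h1 : (extChartAt (𝓡∂ (d + 1)) x).symm =ᶠ[𝓝[range (𝓡∂ (d + 1))] z]
      (extChartAt (𝓡∂ (d + 1)) y).symm ∘ trans x y := by
    have hc : ContinuousWithinAt (extChartAt (𝓡∂ (d + 1)) x).symm (range (𝓡∂ (d + 1))) z := by
      have := (continuousOn_extChartAt_symm (I := 𝓡∂ (d + 1)) x) z hz
      exact this.mono_of_mem_nhdsWithin (extChartAt_target_mem_nhdsWithin_of_mem hz)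
    have hm := hc.preimage_mem_nhdsWithin ((isOpen_extChartAt_source y).mem_nhds hy)
    filter_upwards [hm] with w hw
    exact ((extChartAt (𝓡∂ (d + 1)) y).left_inv hw).symm
  have h2 : mfderivWithin 𝓘(ℝ, EE d) (𝓡∂ (d + 1)) (extChartAt (𝓡∂ (d + 1)) x).symm
      (range (𝓡∂ (d + 1))) z = mfderivWithin 𝓘(ℝ, EE d) (𝓡∂ (d + 1))
      ((extChartAt (𝓡∂ (d + 1)) y).symm ∘ trans x y) (range (𝓡∂ (d + 1))) z :=
    h1.mfderivWithin_eq_of_mem hzr
  have h3 := mfderivWithin_comp z (I := 𝓘(ℝ, EE d)) (I' := 𝓘(ℝ, EE d)) (I'' := 𝓡∂ (d + 1))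
    (f := trans x y) (g := (extChartAt (𝓡∂ (d + 1)) y).symm) (s := range (𝓡∂ (d + 1)))
    (u := range (𝓡∂ (d + 1))) (mdifferentiableWithinAt_extChartAt_symm htz)
    ((contDiffWithinAt_trans hz hy).differentiableWithinAt (by simp)).mdifferentiableWithinAt
    (fun w _ => mem_range_ext y _) ((𝓡∂ (d + 1)).uniqueDiffOn.uniqueMDiffOn z hzr)
  rw [mfderivWithin_eq_fderivWithin] at h3
  exact h2.trans h3

end Charts

end Pool.Agent.Steklov.PB
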