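import Pool.Agent.Lib.MP_4838e0_gt.Defs
import Pool.Agent.Lib.MP_4838e0_gt.BridgeB2

set_option autoImplicit false

universe u

open Set Filter Topology MeasureTheory Manifold ContDiff Bundle
open scoped ENNReal

noncomputable section

namespace Pool.Agent.Steklov.PB

/-! ## Part B3: the local volume measures agree on overlaps -/

lemma measurableSet_inter_preimage_of_continuousOn {E X : Type*} [TopologicalSpace E]
    [MeasurableSpace E] [OpensMeasurableSpace E] [TopologicalSpace X] [MeasurableSpace X]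
    [BorelSpace X] {f : E → X} {T : Set E} (hT : MeasurableSet T) (hf : ContinuousOn f T)
    {A : Set X} (hA : MeasurableSet A) : MeasurableSet (T ∩ f ⁻¹' A) := by
  have h1 : MeasurableSet ((T.domRestrict f) ⁻¹' A) :=
    (continuousOn_iff_continuous_domRestrict.1 hf).measurable hA
  have h2 := hT.subtype_image h1
  have h3 : T ∩ f ⁻¹' A = Subtype.val '' ((T.domRestrict f) ⁻¹' A) := by
    ext z
    constructor
    · rintro ⟨h1, h2⟩
      exact ⟨⟨z, h1⟩, h2, rfl⟩
    · rintro ⟨w, hw, rfl⟩
      exact ⟨w.2, hw⟩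
  rw [h3]
  exact h2

variable {d : ℕ} {Ω : Type u} [TopologicalSpace Ω] [ChartedSpace (EuclideanHalfSpace (d + 1)) Ω]

lemma measurableSet_target (x : Ω) : MeasurableSet (extChartAt (𝓡∂ (d + 1)) x).target := by
  rw [extChartAt_target]
  apply MeasurableSet.inter
  · exact ((chartAt (EuclideanHalfSpace (d + 1)) x).open_target.preimage
      (𝓡∂ (d + 1)).continuous_symm).measurableSet
  · exact (𝓡∂ (d + 1)).isClosed_range.measurableSet

lemma image_symm_target (x : Ω) : (extChartAt (𝓡∂ (d + 1)) x).symm ''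
    (extChartAt (𝓡∂ (d + 1)) x).target = (extChartAt (𝓡∂ (d + 1)) x).source :=
  PartialEquiv.symm_image_target_eq_source _

variable [IsManifold (𝓡∂ (d + 1)) ∞ Ω]

lemma gram_trans (g : RMetric d Ω) {x y : Ω} {z : EE d}
    (hz : z ∈ (extChartAt (𝓡∂ (d + 1)) x).target)
    (hy : (extChartAt (𝓡∂ (d + 1)) x).symm z ∈ (extChartAt (𝓡∂ (d + 1)) y).source) :
    ENNReal.ofReal (Real.sqrt (gram g x z).det) =
      ENNReal.ofReal |(fderivWithin ℝ (trans x y) (range (𝓡∂ (d + 1))) z).det| *
        ENNReal.ofReal (Real.sqrt (gram g y (trans x y z)).det) := by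
  rw [gram_eq_gramOf, gram_eq_gramOf, DD_comp hz hy, sqrt_det_gramOf_comp]
  have h : (extChartAt (𝓡∂ (d + 1)) y).symm (trans x y z) =
      (extChartAt (𝓡∂ (d + 1)) x).symm z := (extChartAt (𝓡∂ (d + 1)) y).left_inv hy
  rw [h]

variable [MeasurableSpace Ω] [BorelSpace Ω]

omit [IsManifold (𝓡∂ (d + 1)) ∞ Ω] in
lemma aemeasurable_ext_symm (x : Ω) : AEMeasurable (extChartAt (𝓡∂ (d + 1)) x).symm
    ((volume : Measure (EE d)).restrict (extChartAt (𝓡∂ (d + 1)) x).target) :=
  (continuousOn_extChartAt_symm x).aemeasurable (measurableSet_target x)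

lemma localVol_agree (g : RMetric d Ω) (x y : Ω) {A : Set Ω} (hA : MeasurableSet A)
    (hA1 : A ⊆ (extChartAt (𝓡∂ (d + 1)) x).source)
    (hA2 : A ⊆ (extChartAt (𝓡∂ (d + 1)) y).source) : localVol g x A = localVol g y A := by
  have hsrc : ∀ z, (extChartAt (𝓡∂ (d + 1)) x).symm z ∈ (extChartAt (𝓡∂ (d + 1)) y).symm ''
      (extChartAt (𝓡∂ (d + 1)) y).target → (extChartAt (𝓡∂ (d + 1)) x).symm z ∈
      (extChartAt (𝓡∂ (d + 1)) y).source := by
    intro z hz
    rwa [image_symm_target] at hz
  refine chartMeas_agree volume (measurableSet_target x) (measurableSet_target y)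
    (aemeasurable_ext_symm x) (aemeasurable_ext_symm y)
    (extChartAt (𝓡∂ (d + 1)) x).symm.injOn (extChartAt (𝓡∂ (d + 1)) y).symm.injOn _ _
    (trans x y) (fun z => fderivWithin ℝ (trans x y) (range (𝓡∂ (d + 1))) z)
    (fun z hz hzy => ?_) (fun z hz hzy => ?_) (fun z hz hzy => ?_) hA
    (measurableSet_inter_preimage_of_continuousOn (measurableSet_target x)
      (continuousOn_extChartAt_symm x) hA) ?_ ?_
  · exact ⟨(extChartAt (𝓡∂ (d + 1)) y).map_source (hsrc z hzy),
      (extChartAt (𝓡∂ (d + 1)) y).left_inv (hsrc z hzy)⟩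
  · exact (hasFDerivWithinAt_trans hz (hsrc z hzy)).mono
      (inter_subset_left.trans (extChartAt_target_subset_range x))
  · exact gram_trans g hz (hsrc z hzy)
  · rwa [image_symm_target]
  · rwa [image_symm_target]

lemma localVol_compl (g : RMetric d Ω) (x : Ω) :
    localVol g x (extChartAt (𝓡∂ (d + 1)) x).sourceᶜ = 0 := by
  have h : localVol g x = chartMeas volume (extChartAt (𝓡∂ (d + 1)) x).target
    (fun y => ENNReal.ofReal (Real.sqrt (gram g x y).det)) (extChartAt (𝓡∂ (d + 1)) x).symm := rfl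
  rw [h, chartMeas_apply volume (measurableSet_target x) _ (aemeasurable_ext_symm x)
    (isOpen_extChartAt_source x).measurableSet.compl]
  have h2 : (extChartAt (𝓡∂ (d + 1)) x).target ∩ (extChartAt (𝓡∂ (d + 1)) x).symm ⁻¹'
      (extChartAt (𝓡∂ (d + 1)) x).sourceᶜ = ∅ := by
    ext z
    simp only [mem_inter_iff, mem_preimage, mem_compl_iff, mem_empty_iff_false, iff_false, not_and,
      not_not]
    exact fun hz => (extChartAt (𝓡∂ (d + 1)) x).map_target hz
  rw [h2, Measure.restrict_empty, lintegral_zero_measure]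

/-- The Riemannian volume in the chart domain is the local volume. -/
theorem riemVol_restrict (g : RMetric d Ω) (p : Ω) :
    (riemVol g).restrict (extChartAt (𝓡∂ (d + 1)) p).source = localVol g p := by
  refine iSup_restrict_eq (localVol g) (fun x => (extChartAt (𝓡∂ (d + 1)) x).source)
    (fun x => (isOpen_extChartAt_source x).measurableSet) (localVol_compl g) (fun x y => ?_) p
  rw [Measure.le_iff]
  intro A hA
  have hU : MeasurableSet ((extChartAt (𝓡∂ (d + 1)) x).source ∩
      (extChartAt (𝓡∂ (d + 1)) y).source) :=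
    (isOpen_extChartAt_source x).measurableSet.inter (isOpen_extChartAt_source y).measurableSet
  rw [Measure.restrict_apply hA, localVol_agree g x y (hA.inter hU)
    (inter_subset_right.trans inter_subset_left) (inter_subset_right.trans inter_subset_right)]
  exact measure_mono inter_subset_left

end Pool.Agent.Steklov.PB
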