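import Pool.Agent.Lib.MP_4838e0_gt.Defs
import Pool.Agent.Lib.MP_4838e0_gt.BridgeB3

set_option autoImplicit false

universe u

open Set Filter Topology MeasureTheory Manifold ContDiff Bundle
open scoped ENNReal

noncomputable section

namespace Pool.Agent.Steklov.PB

/-! ## Part B4: the local boundary measures agree on overlaps -/

section Linear

/-- inclusion of the boundary hyperplane, as a continuous linear map -/
def iota (d : ℕ) : EuclideanSpace ℝ (Fin d) →L[ℝ] EE d :=
  LinearMap.toContinuousLinearMap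
    { toFun := bdPoint
      map_add' := fun a b => by
        ext i
        refine Fin.cases ?_ (fun j => ?_) i <;> simp [bdPoint]
      map_smul' := fun c a => by
        ext i
        refine Fin.cases ?_ (fun j => ?_) i <;> simp [bdPoint] }

/-- projection to the last `d` coordinates -/
def piTail (d : ℕ) : EE d →L[ℝ] EuclideanSpace ℝ (Fin d) :=
  LinearMap.toContinuousLinearMap
    { toFun := fun z => WithLp.toLp 2 (fun i => z i.succ)
      map_add' := fun a b => by ext i; simp
      map_smul' := fun c a => by ext i; simp }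

/-- the first coordinate -/
def proj0 (d : ℕ) : EE d →L[ℝ] ℝ := EuclideanSpace.proj (0 : Fin (d + 1))

variable {d : ℕ}

lemma proj0_apply (z : EE d) : proj0 d z = z 0 := rfl

lemma iota_apply (z : EuclideanSpace ℝ (Fin d)) : iota d z = bdPoint z := rfl

lemma bdPoint_zero (z : EuclideanSpace ℝ (Fin d)) : bdPoint z 0 = 0 := rfl

lemma bdPoint_succ (z : EuclideanSpace ℝ (Fin d)) (i : Fin d) : bdPoint z i.succ = z i := rfl

lemma piTail_apply (z : EE d) (i : Fin d) : piTail d z i = z i.succ := rfl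

lemma piTail_bdPoint (z : EuclideanSpace ℝ (Fin d)) : piTail d (bdPoint z) = z := by
  ext i
  rfl

lemma bdPoint_piTail {z : EE d} (hz : z 0 = 0) : bdPoint (piTail d z) = z := by
  ext i
  refine Fin.cases ?_ (fun j => ?_) i
  · rw [bdPoint_zero, hz]
  · rfl

lemma iota_single (i : Fin d) :
    iota d (EuclideanSpace.single i (1 : ℝ)) = EuclideanSpace.single i.succ (1 : ℝ) := by
  rw [iota_apply]
  ext j
  refine Fin.cases ?_ (fun j => ?_) j
  · simp [bdPoint_zero]
  · simp [bdPoint_succ]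

lemma continuous_bdPoint : Continuous (bdPoint : EuclideanSpace ℝ (Fin d) → EE d) :=
  (iota d).continuous

lemma bdPoint_mem_range (z : EuclideanSpace ℝ (Fin d)) :
    bdPoint z ∈ range (𝓡∂ (d + 1)) := by
  rw [range_modelWithCornersEuclideanHalfSpace]
  exact (bdPoint_zero z).ge

end Linear

variable {d : ℕ} {Ω : Type u} [TopologicalSpace Ω] [ChartedSpace (EuclideanHalfSpace (d + 1)) Ω]

lemma ext_zero_nonneg (x p : Ω) : 0 ≤ (extChartAt (𝓡∂ (d + 1)) x p) 0 := by
  have h := mem_range_ext (d := d) x p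
  rw [range_modelWithCornersEuclideanHalfSpace] at h
  exact h

/-- parametrised part of the boundary hyperplane -/
def bdTarget (x : Ω) : Set (EuclideanSpace ℝ (Fin d)) :=
  {y' | bdPoint y' ∈ (extChartAt (𝓡∂ (d + 1)) x).target}

lemma isOpen_bdTarget (x : Ω) : IsOpen (bdTarget (d := d) x) := by
  have h : bdTarget (d := d) x = (fun y' => (𝓡∂ (d + 1)).symm (bdPoint y')) ⁻¹'
      (chartAt (EuclideanHalfSpace (d + 1)) x).target := by
    ext y'
    simp only [bdTarget, mem_ofPred_eq, extChartAt_target, mem_inter_iff, mem_preimage,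
      bdPoint_mem_range, and_true]
  rw [h]
  exact (chartAt (EuclideanHalfSpace (d + 1)) x).open_target.preimage
    ((𝓡∂ (d + 1)).continuous_symm.comp continuous_bdPoint)

/-- boundary parametrisation -/
def bdPar (x : Ω) (y' : EuclideanSpace ℝ (Fin d)) : Ω :=
  (extChartAt (𝓡∂ (d + 1)) x).symm (bdPoint y')

lemma continuousOn_bdPar (x : Ω) : ContinuousOn (bdPar (d := d) x) (bdTarget x) :=
  (continuousOn_extChartAt_symm x).comp continuous_bdPoint.continuousOn (fun _ h => h)

lemma injOn_bdPar (x : Ω) : InjOn (bdPar (d := d) x) (bdTarget x) := by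
  intro a ha b hb h
  have := (extChartAt (𝓡∂ (d + 1)) x).symm.injOn ha hb h
  rw [← piTail_bdPoint a, ← piTail_bdPoint b, this]

variable [IsManifold (𝓡∂ (d + 1)) ∞ Ω]

lemma mem_boundary_iff {x p : Ω} (hp : p ∈ (extChartAt (𝓡∂ (d + 1)) x).source) :
    p ∈ (𝓡∂ (d + 1)).boundary Ω ↔ (extChartAt (𝓡∂ (d + 1)) x p) 0 = 0 := by
  have hp' : p ∈ (chartAt (EuclideanHalfSpace (d + 1)) x).source := by
    rwa [extChartAt_source] at hp
  have h1 : p ∈ (𝓡∂ (d + 1)).boundary Ω ↔ extChartAt (𝓡∂ (d + 1)) x p ∈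
      frontier (extChartAt (𝓡∂ (d + 1)) x).target :=
    (𝓡∂ (d + 1)).isBoundaryPoint_iff_of_mem_atlas (n := ∞) (by simp)
      (chart_mem_atlas (EuclideanHalfSpace (d + 1)) x) hp'
  have hmem : extChartAt (𝓡∂ (d + 1)) x p ∈ (extChartAt (𝓡∂ (d + 1)) x).target :=
    (extChartAt (𝓡∂ (d + 1)) x).map_source hp
  rw [h1]
  constructor
  · intro h
    by_contra hne
    have hpos : 0 < (extChartAt (𝓡∂ (d + 1)) x p) 0 :=
      lt_of_le_of_ne (ext_zero_nonneg x p) (Ne.symm hne)
    have h2 : extChartAt (𝓡∂ (d + 1)) x p ∈ interior (range (𝓡∂ (d + 1))) := by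
      rw [interior_range_modelWithCornersEuclideanHalfSpace]
      exact hpos
    have h3 := (chartAt (EuclideanHalfSpace (d + 1)) x).mem_interior_extend_target
      (I := 𝓡∂ (d + 1)) (y := chartAt (EuclideanHalfSpace (d + 1)) x p)
      ((chartAt (EuclideanHalfSpace (d + 1)) x).map_source hp') h2
    exact h.2 h3
  · intro h
    refine ⟨subset_closure hmem, fun hint => ?_⟩
    have h2 := OpenPartialHomeomorph.interior_extend_target_subset_interior_range
      (I := 𝓡∂ (d + 1)) (chartAt (EuclideanHalfSpace (d + 1)) x) hint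
    rw [interior_range_modelWithCornersEuclideanHalfSpace] at h2
    exact (ne_of_gt h2) h

lemma image_bdPar (x : Ω) : bdPar (d := d) x '' bdTarget x =
    (extChartAt (𝓡∂ (d + 1)) x).source ∩ (𝓡∂ (d + 1)).boundary Ω := by
  ext p
  constructor
  · rintro ⟨z', hz', rfl⟩
    have hs : bdPar x z' ∈ (extChartAt (𝓡∂ (d + 1)) x).source :=
      (extChartAt (𝓡∂ (d + 1)) x).map_target hz'
    refine ⟨hs, (mem_boundary_iff hs).2 ?_⟩
    rw [bdPar, (extChartAt (𝓡∂ (d + 1)) x).right_inv hz', bdPoint_zero]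
  · rintro ⟨hs, hb⟩
    have h0 := (mem_boundary_iff hs).1 hb
    refine ⟨piTail d (extChartAt (𝓡∂ (d + 1)) x p), ?_, ?_⟩
    · rw [bdTarget, mem_ofPred_eq, bdPoint_piTail h0]
      exact (extChartAt (𝓡∂ (d + 1)) x).map_source hs
    · rw [bdPar, bdPoint_piTail h0, (extChartAt (𝓡∂ (d + 1)) x).left_inv hs]

/-- transition map of the boundary -/
def transBd (x y : Ω) (z' : EuclideanSpace ℝ (Fin d)) : EuclideanSpace ℝ (Fin d) :=
  piTail d (trans x y (bdPoint z'))

/-- its derivative -/
def transBd' (x y : Ω) (z' : EuclideanSpace ℝ (Fin d)) :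
    EuclideanSpace ℝ (Fin d) →L[ℝ] EuclideanSpace ℝ (Fin d) :=
  (piTail d).comp ((fderivWithin ℝ (trans x y) (range (𝓡∂ (d + 1))) (bdPoint z')).comp (iota d))

lemma trans_bdPoint {x y : Ω} {z' : EuclideanSpace ℝ (Fin d)}
    (hz : z' ∈ bdTarget x) (hy : bdPar x z' ∈ (extChartAt (𝓡∂ (d + 1)) y).source) :
    trans x y (bdPoint z') = bdPoint (transBd x y z') := by
  have hb : bdPar x z' ∈ (𝓡∂ (d + 1)).boundary Ω := by
    have : bdPar x z' ∈ bdPar x '' bdTarget x := mem_image_of_mem _ hz
    rw [image_bdPar] at this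
    exact this.2
  have h0 : (trans x y (bdPoint z')) 0 = 0 := (mem_boundary_iff hy).1 hb
  rw [transBd, bdPoint_piTail h0]

lemma hasFDerivAt_trans_bd {x y : Ω} {z' : EuclideanSpace ℝ (Fin d)}
    (hz : z' ∈ bdTarget x) (hy : bdPar x z' ∈ (extChartAt (𝓡∂ (d + 1)) y).source) :
    HasFDerivAt (fun w' => trans x y (bdPoint w'))
      ((fderivWithin ℝ (trans x y) (range (𝓡∂ (d + 1))) (bdPoint z')).comp (iota d)) z' :=
  (hasFDerivWithinAt_trans hz hy).comp_hasFDerivAt z' (iota d).hasFDerivAt
    (Eventually.of_forall fun w => bdPoint_mem_range w)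

lemma hasFDerivAt_transBd {x y : Ω} {z' : EuclideanSpace ℝ (Fin d)}
    (hz : z' ∈ bdTarget x) (hy : bdPar x z' ∈ (extChartAt (𝓡∂ (d + 1)) y).source) :
    HasFDerivAt (transBd x y) (transBd' x y z') z' :=
  (piTail d).hasFDerivAt.comp z' (hasFDerivAt_trans_bd hz hy)

lemma trans'_iota {x y : Ω} {z' : EuclideanSpace ℝ (Fin d)}
    (hz : z' ∈ bdTarget x) (hy : bdPar x z' ∈ (extChartAt (𝓡∂ (d + 1)) y).source) :
    (fderivWithin ℝ (trans x y) (range (𝓡∂ (d + 1))) (bdPoint z')).comp (iota d) =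
      (iota d).comp (transBd' x y z') := by
  have h1 := (proj0 d).hasFDerivAt.comp z' (hasFDerivAt_trans_bd hz hy)
  have h2 : IsLocalMin (proj0 d ∘ (fun w' => trans x y (bdPoint w'))) z' := by
    refine Eventually.of_forall fun w => ?_
    have e1 : (trans x y (bdPoint z')) 0 = 0 := by rw [trans_bdPoint hz hy, bdPoint_zero]
    have e2 : 0 ≤ (trans x y (bdPoint w)) 0 := ext_zero_nonneg y _
    simp only [Function.comp_apply, proj0_apply]
    rw [e1]
    exact e2
  have h3 := h2.hasFDerivAt_eq_zero h1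
  ext1 v
  have h4 : (fderivWithin ℝ (trans x y) (range (𝓡∂ (d + 1))) (bdPoint z') (iota d v)) 0 = 0 := by
    have := DFunLike.congr_fun h3 v
    simpa [proj0_apply] using this
  rw [ContinuousLinearMap.comp_apply, ContinuousLinearMap.comp_apply, iota_apply (transBd' x y z' v)]
  exact (bdPoint_piTail h4).symm

lemma gram_sub_eq (g : RMetric d Ω) (x : Ω) (z' : EuclideanSpace ℝ (Fin d)) :
    (gram g x (bdPoint z')).submatrix Fin.succ Fin.succ =
      gramOf (BB g (bdPar x z')) ((DD x (bdPoint z')).comp (iota d)) := by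
  ext i j
  rw [gram_eq_gramOf]
  simp only [Matrix.submatrix_apply, gramOf, ContinuousLinearMap.comp_apply, iota_single]
  rfl

lemma gram_transBd (g : RMetric d Ω) {x y : Ω} {z' : EuclideanSpace ℝ (Fin d)}
    (hz : z' ∈ bdTarget x) (hy : bdPar x z' ∈ (extChartAt (𝓡∂ (d + 1)) y).source) :
    ENNReal.ofReal (Real.sqrt ((gram g x (bdPoint z')).submatrix Fin.succ Fin.succ).det) =
      ENNReal.ofReal |(transBd' x y z').det| *
        ENNReal.ofReal (Real.sqrt
          ((gram g y (bdPoint (transBd x y z'))).submatrix Fin.succ Fin.succ).det) := by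
  rw [gram_sub_eq, gram_sub_eq, DD_comp hz hy, ContinuousLinearMap.comp_assoc, trans'_iota hz hy,
    ← ContinuousLinearMap.comp_assoc, sqrt_det_gramOf_comp, trans_bdPoint hz hy]
  have h : bdPar y (transBd x y z') = bdPar x z' := by
    rw [bdPar, ← trans_bdPoint hz hy]
    exact (extChartAt (𝓡∂ (d + 1)) y).left_inv hy
  rw [h]

variable [MeasurableSpace Ω] [BorelSpace Ω]

omit [BorelSpace Ω] in
lemma localBd_eq (g : RMetric d Ω) (x : Ω) : localBd g x =
    chartMeas (volume : Measure (EuclideanSpace ℝ (Fin d))) (bdTarget x)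
      (fun y' => ENNReal.ofReal
        (Real.sqrt ((gram g x (bdPoint y')).submatrix Fin.succ Fin.succ).det)) (bdPar x) := rfl

omit [IsManifold (𝓡∂ (d + 1)) ∞ Ω] in
lemma aemeasurable_bdPar (x : Ω) : AEMeasurable (bdPar (d := d) x)
    ((volume : Measure (EuclideanSpace ℝ (Fin d))).restrict (bdTarget x)) :=
  (continuousOn_bdPar x).aemeasurable (isOpen_bdTarget x).measurableSet

lemma localBd_agree (g : RMetric d Ω) (x y : Ω) {A : Set Ω} (hA : MeasurableSet A)
    (hA1 : A ⊆ (extChartAt (𝓡∂ (d + 1)) x).source ∩ (𝓡∂ (d + 1)).boundary Ω)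
    (hA2 : A ⊆ (extChartAt (𝓡∂ (d + 1)) y).source ∩ (𝓡∂ (d + 1)).boundary Ω) :
    localBd g x A = localBd g y A := by
  have hsrc : ∀ z, bdPar x z ∈ bdPar (d := d) y '' bdTarget y →
      bdPar (d := d) x z ∈ (extChartAt (𝓡∂ (d + 1)) y).source := by
    intro z hz
    rw [image_bdPar] at hz
    exact hz.1
  rw [localBd_eq, localBd_eq]
  refine chartMeas_agree volume (isOpen_bdTarget x).measurableSet (isOpen_bdTarget y).measurableSet
    (aemeasurable_bdPar x) (aemeasurable_bdPar y) (injOn_bdPar x) (injOn_bdPar y) _ _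
    (transBd x y) (transBd' x y)
    (fun z hz hzy => ?_) (fun z hz hzy => ?_) (fun z hz hzy => ?_) hA
    (measurableSet_inter_preimage_of_continuousOn (isOpen_bdTarget x).measurableSet
      (continuousOn_bdPar x) hA) ?_ ?_
  · have h := trans_bdPoint hz (hsrc z hzy)
    constructor
    · rw [bdTarget, mem_ofPred_eq, ← h]
      exact (extChartAt (𝓡∂ (d + 1)) y).map_source (hsrc z hzy)
    · rw [bdPar, ← h]
      exact (extChartAt (𝓡∂ (d + 1)) y).left_inv (hsrc z hzy)
  · exact (hasFDerivAt_transBd hz (hsrc z hzy)).hasFDerivWithinAt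
  · exact gram_transBd g hz (hsrc z hzy)
  · rwa [image_bdPar]
  · rwa [image_bdPar]

lemma measurableSet_boundary : MeasurableSet ((𝓡∂ (d + 1)).boundary Ω) :=
  ((𝓡∂ (d + 1)).isClosed_boundary (n := ∞) (by simp)).measurableSet

lemma localBd_compl (g : RMetric d Ω) (x : Ω) :
    localBd g x ((extChartAt (𝓡∂ (d + 1)) x).source ∩ (𝓡∂ (d + 1)).boundary Ω)ᶜ = 0 := by
  rw [localBd_eq, chartMeas_apply volume (isOpen_bdTarget x).measurableSet _ (aemeasurable_bdPar x)
    ((isOpen_extChartAt_source x).measurableSet.inter measurableSet_boundary).compl]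
  have h2 : bdTarget (d := d) x ∩ bdPar x ⁻¹'
      ((extChartAt (𝓡∂ (d + 1)) x).source ∩ (𝓡∂ (d + 1)).boundary Ω)ᶜ = ∅ := by
    ext z
    simp only [mem_inter_iff, mem_preimage, mem_compl_iff, mem_empty_iff_false, iff_false]
    rintro ⟨h1, h2⟩
    apply h2
    have : bdPar x z ∈ bdPar (d := d) x '' bdTarget x := mem_image_of_mem _ h1
    rwa [image_bdPar] at this
  rw [h2, Measure.restrict_empty, lintegral_zero_measure]

theorem riemBd_restrict_inter (g : RMetric d Ω) (p : Ω) :
    (riemBd g).restrict ((extChartAt (𝓡∂ (d + 1)) p).source ∩ (𝓡∂ (d + 1)).boundary Ω) =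
      localBd g p := by
  refine iSup_restrict_eq (localBd g)
    (fun x => (extChartAt (𝓡∂ (d + 1)) x).source ∩ (𝓡∂ (d + 1)).boundary Ω)
    (fun x => (isOpen_extChartAt_source x).measurableSet.inter measurableSet_boundary)
    (localBd_compl g) (fun x y => ?_) p
  rw [Measure.le_iff]
  intro A hA
  have hU : MeasurableSet (((extChartAt (𝓡∂ (d + 1)) x).source ∩ (𝓡∂ (d + 1)).boundary Ω) ∩
      ((extChartAt (𝓡∂ (d + 1)) y).source ∩ (𝓡∂ (d + 1)).boundary Ω)) :=
    ((isOpen_extChartAt_source x).measurableSet.inter measurableSet_boundary).inter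
      ((isOpen_extChartAt_source y).measurableSet.inter measurableSet_boundary)
  rw [Measure.restrict_apply hA, localBd_agree g x y (hA.inter hU)
    (inter_subset_right.trans inter_subset_left) (inter_subset_right.trans inter_subset_right)]
  exact measure_mono inter_subset_left

/-- the boundary measure is concentrated on the boundary -/
lemma riemBd_compl_boundary' (g : RMetric d Ω) : riemBd g ((𝓡∂ (d + 1)).boundary Ω)ᶜ = 0 := by
  have h : riemBd g ≤ (riemBd g).restrict ((𝓡∂ (d + 1)).boundary Ω) := by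
    apply iSup_le
    intro x
    rw [← riemBd_restrict_inter g x]
    exact Measure.restrict_mono inter_subset_right le_rfl
  have h2 := h ((𝓡∂ (d + 1)).boundary Ω)ᶜ
  rw [Measure.restrict_apply measurableSet_boundary.compl] at h2
  simpa using h2

theorem riemBd_restrict (g : RMetric d Ω) (p : Ω) :
    (riemBd g).restrict (extChartAt (𝓡∂ (d + 1)) p).source = localBd g p := by
  rw [← riemBd_restrict_inter g p]
  have h : (riemBd g).restrict ((𝓡∂ (d + 1)).boundary Ω) = riemBd g := by
    apply Measure.restrict_eq_self_of_ae_mem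
    rw [ae_iff]
    exact riemBd_compl_boundary' g
  conv_lhs => rw [← h]
  rw [Measure.restrict_restrict (isOpen_extChartAt_source p).measurableSet]

end Pool.Agent.Steklov.PB
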