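import Pool.Agent.Lib.MP_4838e0_gt.Defs
import Pool.Agent.Lib.MP_4838e0_gt.BridgeB4

set_option autoImplicit false

universe u

open Set Filter Topology MeasureTheory Manifold ContDiff Bundle
open scoped ENNReal

noncomputable section

namespace Pool.Agent.Steklov.PB

/-! ## Part B5: smoothness and positivity of the gram matrices -/

variable {d : ℕ} {Ω : Type u} [TopologicalSpace Ω] [ChartedSpace (EuclideanHalfSpace (d + 1)) Ω]
  [IsManifold (𝓡∂ (d + 1)) ∞ Ω]

lemma coordVec_contMDiffOn (x : Ω) (i : Fin (d + 1)) :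
    ContMDiffOn 𝓘(ℝ, EE d) ((𝓡∂ (d + 1)).prod 𝓘(ℝ, EE d)) ∞
      (fun y : EE d => (TotalSpace.mk' (EE d) ((extChartAt (𝓡∂ (d + 1)) x).symm y)
        (coordVec x y i) : TangentBundle (𝓡∂ (d + 1)) Ω)) (extChartAt (𝓡∂ (d + 1)) x).target := by
  have hU : UniqueMDiffOn 𝓘(ℝ, EE d) (extChartAt (𝓡∂ (d + 1)) x).target :=
    (uniqueDiffOn_extChartAt_target x).uniqueMDiffOn
  have h1 := (contMDiffOn_extChartAt_symm (n := ∞) (I := 𝓡∂ (d + 1)) x).contMDiffOn_tangentMapWithin
    (m := ∞) (by simp) hU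
  have h2 : ContMDiffOn 𝓘(ℝ, EE d) 𝓘(ℝ, EE d).tangent ∞
      (fun y : EE d => (TotalSpace.mk' (EE d) y (EuclideanSpace.single i (1 : ℝ)) :
        TangentBundle 𝓘(ℝ, EE d) (EE d))) (extChartAt (𝓡∂ (d + 1)) x).target := by
    intro y _
    exact (contMDiffWithinAt_vectorSpace_iff_contDiffWithinAt
      (V := fun _ : EE d => (EuclideanSpace.single i (1 : ℝ) : EE d))).2 contDiffWithinAt_const
  have h3 := h1.comp h2 (fun y hy => hy)
  refine h3.congr fun y hy => ?_
  simp only [Function.comp_apply, tangentMapWithin]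
  have h4 : mfderivWithin 𝓘(ℝ, EE d) (𝓡∂ (d + 1)) (extChartAt (𝓡∂ (d + 1)) x).symm
      (extChartAt (𝓡∂ (d + 1)) x).target y = mfderivWithin 𝓘(ℝ, EE d) (𝓡∂ (d + 1))
      (extChartAt (𝓡∂ (d + 1)) x).symm (range (𝓡∂ (d + 1))) y := by
    apply (mdifferentiableWithinAt_extChartAt_symm hy).mfderivWithin_mono_of_mem_nhdsWithin
    · exact hU y hy
    · exact mem_of_superset self_mem_nhdsWithin (extChartAt_target_subset_range x)
  rw [h4]
  rfl

lemma gram_entry_contDiffOn (g : RMetric d Ω) (x : Ω) (i j : Fin (d + 1)) :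
    ContDiffOn ℝ ∞ (fun y => gram g x y i j) (extChartAt (𝓡∂ (d + 1)) x).target := by
  intro y hy
  have hv := coordVec_contMDiffOn x i y hy
  have hw := coordVec_contMDiffOn x j y hy
  have hb : ContMDiffWithinAt 𝓘(ℝ, EE d) (𝓡∂ (d + 1)) ∞ (extChartAt (𝓡∂ (d + 1)) x).symm
      (extChartAt (𝓡∂ (d + 1)) x).target y := contMDiffOn_extChartAt_symm x y hy
  have h : ContMDiffWithinAt 𝓘(ℝ, EE d) ((𝓡∂ (d + 1)).prod 𝓘(ℝ, ℝ)) ∞
      (fun m => TotalSpace.mk' ℝ (E := Bundle.Trivial Ω ℝ) ((extChartAt (𝓡∂ (d + 1)) x).symm m)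
        (g.inner ((extChartAt (𝓡∂ (d + 1)) x).symm m) (coordVec x m i) (coordVec x m j)))
      (extChartAt (𝓡∂ (d + 1)) x).target y := by
    apply ContMDiffWithinAt.clm_bundle_apply₂ (F₁ := EE d) (F₂ := EE d)
    · exact ContMDiffAt.comp_contMDiffWithinAt y g.contMDiff.contMDiffAt hb
    · exact hv
    · exact hw
  simp only [contMDiffWithinAt_totalSpace] at h
  exact h.2.contDiffWithinAt

lemma gram_continuousOn (g : RMetric d Ω) (x : Ω) :
    ContinuousOn (gram g x) (extChartAt (𝓡∂ (d + 1)) x).target :=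
  continuousOn_pi.2 fun i => continuousOn_pi.2 fun j => (gram_entry_contDiffOn g x i j).continuousOn

lemma DD_injective {x : Ω} {y : EE d} (hy : y ∈ (extChartAt (𝓡∂ (d + 1)) x).target) :
    Function.Injective (DD x y) :=
  (isInvertible_mfderivWithin_extChartAt_symm hy).injective

lemma sum_smul_single (c : Fin (d + 1) → ℝ) :
    ∑ i, c i • (EuclideanSpace.single i (1 : ℝ) : EE d) = WithLp.toLp 2 c := by
  ext l
  simp [Finset.sum_apply, Pi.single_apply]

lemma gramOf_quad {m n : ℕ}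
    (B : EuclideanSpace ℝ (Fin n) →L[ℝ] EuclideanSpace ℝ (Fin n) →L[ℝ] ℝ)
    (W : EuclideanSpace ℝ (Fin m) →L[ℝ] EuclideanSpace ℝ (Fin n)) (c : Fin m → ℝ) :
    c ⬝ᵥ ((gramOf B W).mulVec c) = B (W (WithLp.toLp 2 c)) (W (WithLp.toLp 2 c)) := by
  have h : (WithLp.toLp 2 c : EuclideanSpace ℝ (Fin m)) =
      ∑ i, c i • (EuclideanSpace.single i (1 : ℝ) : EuclideanSpace ℝ (Fin m)) := by
    ext l
    simp [Finset.sum_apply, Pi.single_apply]
  rw [h]
  simp only [map_sum, map_smul, sum_apply, smul_apply, smul_eq_mul, dotProduct, Matrix.mulVec,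
    gramOf, Finset.mul_sum]
  rw [Finset.sum_comm]
  refine Finset.sum_congr rfl fun k _ => Finset.sum_congr rfl fun l _ => ?_
  ring

lemma gramOf_posDef {m n : ℕ}
    (B : EuclideanSpace ℝ (Fin n) →L[ℝ] EuclideanSpace ℝ (Fin n) →L[ℝ] ℝ)
    (hsymm : ∀ v w, B v w = B w v) (hpos : ∀ v, v ≠ 0 → 0 < B v v)
    (W : EuclideanSpace ℝ (Fin m) →L[ℝ] EuclideanSpace ℝ (Fin n)) (hW : Function.Injective W) :
    (gramOf B W).PosDef := by
  rw [Matrix.posDef_iff_dotProduct_mulVec]
  refine ⟨?_, ?_⟩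
  · ext i j
    simp only [Matrix.conjTranspose_apply, star_trivial, gramOf]
    exact hsymm _ _
  · intro c hc
    have h2 : (star c : Fin m → ℝ) = c := by
      ext i
      simp
    rw [h2, gramOf_quad]
    apply hpos
    intro h0
    apply hc
    have h3 : (WithLp.toLp 2 c : EuclideanSpace ℝ (Fin m)) = 0 :=
      hW (by rw [h0, map_zero])
    ext i
    have := congrArg (fun v : EuclideanSpace ℝ (Fin m) => v i) h3
    simpa using this

lemma gram_posDef (g : RMetric d Ω) {x : Ω} {y : EE d}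
    (hy : y ∈ (extChartAt (𝓡∂ (d + 1)) x).target) : (gram g x y).PosDef := by
  rw [gram_eq_gramOf]
  exact gramOf_posDef _ (fun v w => g.symm _ v w) (fun v hv => g.pos _ v hv) _ (DD_injective hy)

lemma gram_sub_posDef (g : RMetric d Ω) {x : Ω} {z' : EuclideanSpace ℝ (Fin d)}
    (hy : z' ∈ bdTarget x) : ((gram g x (bdPoint z')).submatrix Fin.succ Fin.succ).PosDef := by
  rw [gram_sub_eq]
  refine gramOf_posDef _ (fun v w => g.symm _ v w) (fun v hv => g.pos _ v hv) _ ?_
  intro a b hab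
  have h := DD_injective hy (by simpa using hab : DD x (bdPoint z') (iota d a) = DD x (bdPoint z') (iota d b))
  rw [← piTail_bdPoint a, ← piTail_bdPoint b, ← iota_apply, ← iota_apply, h]

lemma sqrt_det_gram_continuousOn (g : RMetric d Ω) (x : Ω) :
    ContinuousOn (fun y => Real.sqrt (gram g x y).det) (extChartAt (𝓡∂ (d + 1)) x).target :=
  Real.continuous_sqrt.comp_continuousOn
    ((Continuous.matrix_det continuous_id).comp_continuousOn (gram_continuousOn g x))

lemma sqrt_det_gram_pos (g : RMetric d Ω) {x : Ω} {y : EE d}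
    (hy : y ∈ (extChartAt (𝓡∂ (d + 1)) x).target) : 0 < Real.sqrt (gram g x y).det :=
  Real.sqrt_pos.2 (gram_posDef g hy).det_pos

lemma sqrt_det_gram_sub_continuousOn (g : RMetric d Ω) (x : Ω) :
    ContinuousOn (fun z' => Real.sqrt ((gram g x (bdPoint z')).submatrix Fin.succ Fin.succ).det)
      (bdTarget (d := d) x) := by
  have h1 : ContinuousOn (fun z' => gram g x (bdPoint z')) (bdTarget (d := d) x) :=
    (gram_continuousOn g x).comp continuous_bdPoint.continuousOn (fun _ h => h)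
  have h2 : Continuous (fun M : Matrix (Fin (d + 1)) (Fin (d + 1)) ℝ =>
      (M.submatrix Fin.succ Fin.succ).det) :=
    Continuous.matrix_det (continuous_id.matrix_submatrix _ _)
  exact Real.continuous_sqrt.comp_continuousOn (h2.comp_continuousOn h1)

lemma sqrt_det_gram_sub_pos (g : RMetric d Ω) {x : Ω} {z' : EuclideanSpace ℝ (Fin d)}
    (hy : z' ∈ bdTarget x) :
    0 < Real.sqrt ((gram g x (bdPoint z')).submatrix Fin.succ Fin.succ).det :=
  Real.sqrt_pos.2 (gram_sub_posDef g hy).det_pos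

end Pool.Agent.Steklov.PB
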