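import Pool.Agent.Lib.MP_4838e0_gt.Defs
import Pool.Agent.Lib.MP_4838e0_gt.BridgeB1

set_option autoImplicit false

open Set Filter Topology MeasureTheory
open scoped ENNReal

noncomputable section

namespace Pool.Agent.Steklov.PB

/-! ## Part B6: more abstract lemmas on measures defined in charts -/

section ChartMore

variable {X E : Type*} [MeasurableSpace X] [MeasurableSpace E]

lemma chartMeas_restrict_image (μ : Measure E) [SFinite μ] {T T' : Set E} (hT : MeasurableSet T)
    (hT' : MeasurableSet T') (hsub : T' ⊆ T) (ρ : E → ℝ≥0∞) {ψ : E → X}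
    (hψ : AEMeasurable ψ (μ.restrict T)) (inj : InjOn ψ T) (him : MeasurableSet (ψ '' T')) :
    (chartMeas μ T ρ ψ).restrict (ψ '' T') = chartMeas μ T' ρ ψ := by
  ext A hA
  have hψ' : AEMeasurable ψ (μ.restrict T') := hψ.mono_measure (Measure.restrict_mono hsub le_rfl)
  rw [Measure.restrict_apply hA, chartMeas_apply μ hT ρ hψ (hA.inter him),
    chartMeas_apply μ hT' ρ hψ' hA]
  congr 2
  ext z
  constructor
  · rintro ⟨h1, h2, w, hw, hwz⟩
    have : w = z := inj (hsub hw) h1 hwz
    exact ⟨this ▸ hw, h2⟩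
  · rintro ⟨h1, h2⟩
    exact ⟨hsub h1, h2, z, h1, rfl⟩

lemma chartMeas_le (μ : Measure E) {T : Set E} (hT : MeasurableSet T) {ρ : E → ℝ≥0∞} {ψ : E → X}
    (hψ : AEMeasurable ψ (μ.restrict T)) {C : ℝ≥0∞} (hC : ∀ z ∈ T, ρ z ≤ C) :
    chartMeas μ T ρ ψ ≤ C • (μ.restrict T).map ψ := by
  have h1 : (μ.restrict T).withDensity ρ ≤ C • μ.restrict T := by
    rw [← withDensity_const]
    exact withDensity_mono (ae_restrict_of_forall_mem hT hC)
  calc chartMeas μ T ρ ψ ≤ (C • μ.restrict T).map ψ :=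
        Measure.map_mono_of_aemeasurable h1 (hψ.smul_measure C)
    _ = C • (μ.restrict T).map ψ := Measure.map_smul ..

lemma le_chartMeas (μ : Measure E) {T : Set E} (hT : MeasurableSet T) {ρ : E → ℝ≥0∞} {ψ : E → X}
    (hψ : AEMeasurable ψ (μ.restrict T)) {c : ℝ≥0∞} (hc : ∀ z ∈ T, c ≤ ρ z) :
    c • (μ.restrict T).map ψ ≤ chartMeas μ T ρ ψ := by
  have h1 : c • μ.restrict T ≤ (μ.restrict T).withDensity ρ := by
    rw [← withDensity_const]
    exact withDensity_mono (ae_restrict_of_forall_mem hT hc)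
  calc c • (μ.restrict T).map ψ = (c • μ.restrict T).map ψ := (Measure.map_smul ..).symm
    _ ≤ chartMeas μ T ρ ψ :=
        Measure.map_mono_of_aemeasurable h1 (hψ.mono_ac (withDensity_absolutelyContinuous _ _))

lemma map_withDensity_comp (μ : Measure E) [SFinite μ] {ψ : E → X} (hψ : AEMeasurable ψ μ)
    {F : X → ℝ≥0∞} (hF : Measurable F) :
    (μ.map ψ).withDensity F = (μ.withDensity (F ∘ ψ)).map ψ := by
  ext A hA
  rw [withDensity_apply _ hA, Measure.map_apply_of_aemeasurable
    (hψ.mono_ac (withDensity_absolutelyContinuous _ _)) hA, withDensity_apply']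
  rw [← lintegral_indicator hA, lintegral_map' (hF.indicator hA).aemeasurable hψ]
  have h0 : NullMeasurableSet (ψ ⁻¹' A) μ := hψ.nullMeasurableSet_preimage hA
  rw [← lintegral_indicator₀ h0]
  rfl

lemma chartMeas_withDensity (μ : Measure E) [SFinite μ] {T : Set E} {ρ : E → ℝ≥0∞}
    (hρ : AEMeasurable ρ (μ.restrict T)) {ψ : E → X}
    (hψ : AEMeasurable ψ (μ.restrict T)) {F : X → ℝ≥0∞} (hF : Measurable F) :
    (chartMeas μ T ρ ψ).withDensity F = chartMeas μ T (fun z => F (ψ z) * ρ z) ψ := by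
  rw [chartMeas, map_withDensity_comp _ (hψ.mono_ac (withDensity_absolutelyContinuous _ _)) hF,
    chartMeas]
  congr 1
  have h := withDensity_mul₀ hρ (hF.comp_aemeasurable hψ)
  rw [← h]
  congr 1
  ext z
  simp only [Pi.mul_apply, Function.comp_apply]
  exact mul_comm _ _

lemma chartMeas_congr (μ : Measure E) {T : Set E} (hT : MeasurableSet T) {ρ ρ' : E → ℝ≥0∞}
    (h : ∀ z ∈ T, ρ z = ρ' z) (ψ : E → X) : chartMeas μ T ρ ψ = chartMeas μ T ρ' ψ := by
  rw [chartMeas, chartMeas]
  congr 1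
  exact withDensity_congr_ae (ae_restrict_of_forall_mem hT h)

lemma chartMeas_image_compact [TopologicalSpace E] [OpensMeasurableSpace E] [T2Space E]
    [TopologicalSpace X] [BorelSpace X] [T2Space X] (μ : Measure E) [SFinite μ]
    [IsFiniteMeasureOnCompacts μ] {T K : Set E} (hT : MeasurableSet T) (hK : IsCompact K)
    (hsub : K ⊆ T) {r : E → ℝ} (hr : ContinuousOn r T) {ψ : E → X} (hψ : ContinuousOn ψ T)
    (inj : InjOn ψ T) :
    chartMeas μ T (fun z => ENNReal.ofReal (r z)) ψ (ψ '' K) < ⊤ := by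
  have him : MeasurableSet (ψ '' K) := (hK.image_of_continuousOn (hψ.mono hsub)).measurableSet
  have hψ1 : AEMeasurable ψ (μ.restrict T) := hψ.aemeasurable hT
  have hψ2 : AEMeasurable ψ (μ.restrict K) := (hψ.mono hsub).aemeasurable hK.measurableSet
  have h1 := chartMeas_restrict_image μ hT hK.measurableSet hsub
    (fun z => ENNReal.ofReal (r z)) hψ1 inj him
  obtain ⟨C, hC⟩ := hK.exists_bound_of_continuousOn (hr.mono hsub)
  have h2 := chartMeas_le μ hK.measurableSet (ρ := fun z => ENNReal.ofReal (r z)) hψ2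
    (C := ENNReal.ofReal C) (fun z hz => ENNReal.ofReal_le_ofReal
      ((le_abs_self _).trans (hC z hz)))
  have h3 : chartMeas μ T (fun z => ENNReal.ofReal (r z)) ψ (ψ '' K) =
      chartMeas μ K (fun z => ENNReal.ofReal (r z)) ψ (ψ '' K) := by
    rw [← h1, Measure.restrict_apply him, inter_self]
  rw [h3]
  refine (h2 _).trans_lt ?_
  rw [Measure.smul_apply, smul_eq_mul, Measure.map_apply_of_aemeasurable hψ2 him]
  refine ENNReal.mul_lt_top ENNReal.ofReal_lt_top ?_
  refine (measure_mono (subset_univ _)).trans_lt ?_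
  rw [Measure.restrict_apply_univ]
  exact hK.measure_lt_top

end ChartMore

end Pool.Agent.Steklov.PB
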