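import Pool.Agent.Lib.MP_4838e0_gt.Defs
import Pool.Agent.Lib.MP_4838e0_gt.ChartMap
import Pool.Agent.Lib.MP_4838e0_gt.BridgeB5
import Pool.Agent.Lib.MP_4838e0_gt.BridgeB6

set_option autoImplicit false

universe u

open Set Filter Topology MeasureTheory Manifold ContDiff Bundle
open scoped ENNReal

noncomputable section

namespace Pool.Agent.Steklov.PB

/-! ## Part B7: finiteness -/

variable {d : ℕ} {Ω : Type u} [TopologicalSpace Ω] [ChartedSpace (EuclideanHalfSpace (d + 1)) Ω]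

/-- small compact neighbourhoods in the chart -/
lemma exists_ball_inter_range (p : Ω) : ∃ ε > 0,
    Metric.closedBall (extChartAt (𝓡∂ (d + 1)) p p) ε ∩ range (𝓡∂ (d + 1)) ⊆
      (extChartAt (𝓡∂ (d + 1)) p).target := by
  have h := extChartAt_target_mem_nhdsWithin (I := 𝓡∂ (d + 1)) p
  rw [Metric.mem_nhdsWithin_iff] at h
  obtain ⟨ε, hε, h⟩ := h
  refine ⟨ε / 2, by positivity, fun z hz => h ⟨?_, hz.2⟩⟩
  exact Metric.closedBall_subset_ball (by linarith) hz.1

/-- the compact set used for local finiteness -/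
def Kc (p : Ω) (ε : ℝ) : Set (EE d) :=
  Metric.closedBall (extChartAt (𝓡∂ (d + 1)) p p) ε ∩ range (𝓡∂ (d + 1))

lemma isCompact_Kc (p : Ω) (ε : ℝ) : IsCompact (Kc (d := d) p ε) :=
  (isCompact_closedBall _ _).inter_right (𝓡∂ (d + 1)).isClosed_range

lemma image_Kc_mem_nhds (p : Ω) {ε : ℝ} (hε : 0 < ε) :
    (extChartAt (𝓡∂ (d + 1)) p).symm '' (Kc (d := d) p ε) ∈ 𝓝 p := by
  have hc := continuousAt_extChartAt (I := 𝓡∂ (d + 1)) p
  have h1 : (extChartAt (𝓡∂ (d + 1)) p) ⁻¹' Metric.closedBall (extChartAt (𝓡∂ (d + 1)) p p) ε ∈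
      𝓝 p := hc (Metric.closedBall_mem_nhds _ hε)
  filter_upwards [h1, extChartAt_source_mem_nhds (I := 𝓡∂ (d + 1)) p] with q hq hq2
  exact ⟨extChartAt (𝓡∂ (d + 1)) p q, ⟨hq, mem_range_ext p q⟩,
    (extChartAt (𝓡∂ (d + 1)) p).left_inv hq2⟩

variable [IsManifold (𝓡∂ (d + 1)) ∞ Ω] [MeasurableSpace Ω] [BorelSpace Ω] [T2Space Ω]

lemma riemVol_locallyFinite (g : RMetric d Ω) (p : Ω) : ∃ N ∈ 𝓝 p, riemVol g N < ⊤ := by
  obtain ⟨ε, hε, hsub⟩ := exists_ball_inter_range (d := d) p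
  have hK := isCompact_Kc (d := d) p ε
  have hfin := chartMeas_image_compact (volume : Measure (EE d)) (measurableSet_target p) hK
    hsub (sqrt_det_gram_continuousOn g p) (continuousOn_extChartAt_symm p)
    (extChartAt (𝓡∂ (d + 1)) p).symm.injOn
  refine ⟨_, image_Kc_mem_nhds (d := d) p hε, ?_⟩
  have him : MeasurableSet ((extChartAt (𝓡∂ (d + 1)) p).symm '' (Kc (d := d) p ε)) :=
    (hK.image_of_continuousOn ((continuousOn_extChartAt_symm p).mono hsub)).measurableSet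
  have hsrc : (extChartAt (𝓡∂ (d + 1)) p).symm '' (Kc (d := d) p ε) ⊆
      (extChartAt (𝓡∂ (d + 1)) p).source := by
    rintro _ ⟨z, hz, rfl⟩
    exact (extChartAt (𝓡∂ (d + 1)) p).map_target (hsub hz)
  have h1 : riemVol g ((extChartAt (𝓡∂ (d + 1)) p).symm '' (Kc (d := d) p ε)) =
      localVol g p ((extChartAt (𝓡∂ (d + 1)) p).symm '' (Kc (d := d) p ε)) := by
    rw [← riemVol_restrict g p, Measure.restrict_apply him, inter_eq_left.2 hsrc]
  rw [h1]
  exact hfin

/-- the part of the compact set in the boundary hyperplane -/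
def Kb (p : Ω) (ε : ℝ) : Set (EuclideanSpace ℝ (Fin d)) := bdPoint ⁻¹' (Kc (d := d) p ε)

lemma norm_bdPoint (z : EuclideanSpace ℝ (Fin d)) : ‖bdPoint z‖ = ‖z‖ := by
  rw [EuclideanSpace.norm_eq, EuclideanSpace.norm_eq, Fin.sum_univ_succ]
  simp [bdPoint_zero, bdPoint_succ]

omit [T2Space Ω] [IsManifold (𝓡∂ (d + 1)) ∞ Ω] [MeasurableSpace Ω] [BorelSpace Ω] in
lemma isCompact_Kb (p : Ω) (ε : ℝ) : IsCompact (Kb (d := d) p ε) := by
  refine Metric.isCompact_of_isClosed_isBounded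
    ((isCompact_Kc (d := d) p ε).isClosed.preimage continuous_bdPoint) ?_
  obtain ⟨C, hC⟩ := (isCompact_Kc (d := d) p ε).isBounded.exists_norm_le
  refine isBounded_iff_forall_norm_le.2 ⟨C, fun z hz => ?_⟩
  rw [← norm_bdPoint]
  exact hC _ hz

lemma riemBd_locallyFinite (g : RMetric d Ω) (p : Ω) : ∃ N ∈ 𝓝 p, riemBd g N < ⊤ := by
  obtain ⟨ε, hε, hsub⟩ := exists_ball_inter_range (d := d) p
  have hK := isCompact_Kc (d := d) p ε
  have hKb := isCompact_Kb (d := d) p ε
  have hsubb : Kb (d := d) p ε ⊆ bdTarget p := fun z hz => hsub hz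
  have hfin := chartMeas_image_compact (volume : Measure (EuclideanSpace ℝ (Fin d)))
    (isOpen_bdTarget p).measurableSet hKb hsubb (sqrt_det_gram_sub_continuousOn g p)
    (continuousOn_bdPar p) (injOn_bdPar p)
  refine ⟨_, image_Kc_mem_nhds (d := d) p hε, ?_⟩
  have him : MeasurableSet ((extChartAt (𝓡∂ (d + 1)) p).symm '' (Kc (d := d) p ε)) :=
    (hK.image_of_continuousOn ((continuousOn_extChartAt_symm p).mono hsub)).measurableSet
  have hsrc : (extChartAt (𝓡∂ (d + 1)) p).symm '' (Kc (d := d) p ε) ⊆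
      (extChartAt (𝓡∂ (d + 1)) p).source := by
    rintro _ ⟨z, hz, rfl⟩
    exact (extChartAt (𝓡∂ (d + 1)) p).map_target (hsub hz)
  have h1 : riemBd g ((extChartAt (𝓡∂ (d + 1)) p).symm '' (Kc (d := d) p ε)) =
      localBd g p ((extChartAt (𝓡∂ (d + 1)) p).symm '' (Kc (d := d) p ε)) := by
    rw [← riemBd_restrict g p, Measure.restrict_apply him, inter_eq_left.2 hsrc]
  have h2 : localBd g p ((extChartAt (𝓡∂ (d + 1)) p).symm '' (Kc (d := d) p ε)) =
      localBd g p (bdPar p '' Kb (d := d) p ε) := by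
    have himb : MeasurableSet (bdPar p '' Kb (d := d) p ε) :=
      (hKb.image_of_continuousOn ((continuousOn_bdPar p).mono hsubb)).measurableSet
    rw [localBd_eq, chartMeas_apply volume (isOpen_bdTarget p).measurableSet _
      (aemeasurable_bdPar p) him, chartMeas_apply volume (isOpen_bdTarget p).measurableSet _
      (aemeasurable_bdPar p) himb]
    congr 2
    ext z
    constructor
    · rintro ⟨h1, w, hw, hwz⟩
      refine ⟨h1, z, ?_, rfl⟩
      have : w = bdPoint z := (extChartAt (𝓡∂ (d + 1)) p).symm.injOn (hsub hw) h1 hwz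
      rw [Kb, mem_preimage, ← this]
      exact hw
    · rintro ⟨h1, w, hw, hwz⟩
      exact ⟨h1, bdPoint w, hw, hwz⟩
  rw [h1, h2]
  exact hfin

variable [CompactSpace Ω]

lemma riemVol_finite' (g : RMetric d Ω) : riemVol g univ ≠ ⊤ := by
  have : IsLocallyFiniteMeasure (riemVol g) := ⟨fun p => by
    obtain ⟨N, hN, h⟩ := riemVol_locallyFinite g p
    exact ⟨N, hN, h⟩⟩
  exact (isCompact_univ.measure_lt_top).ne

lemma riemBd_finite' (g : RMetric d Ω) : riemBd g univ ≠ ⊤ := by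
  have : IsLocallyFiniteMeasure (riemBd g) := ⟨fun p => by
    obtain ⟨N, hN, h⟩ := riemBd_locallyFinite g p
    exact ⟨N, hN, h⟩⟩
  exact (isCompact_univ.measure_lt_top).ne

end Pool.Agent.Steklov.PB
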