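import Pool.Agent.Lib.MP_4838e0_gt.Defs
import Pool.Agent.Lib.MP_4838e0_gt.Abstract
import Pool.Agent.Lib.MP_4838e0_gt.ChartMap
import Pool.Agent.Lib.MP_4838e0_gt.BridgeB7

set_option autoImplicit false

universe u

open Set Filter Topology MeasureTheory Manifold ContDiff Bundle
open scoped ENNReal

noncomputable section

namespace Pool.Agent.Steklov.PB

/-! ## Part B8: comparison with Lebesgue measure -/

section Abstract

variable {P E X : Type*} [MeasurableSpace X] [MeasurableSpace E] [MeasurableSpace P]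
  [TopologicalSpace P] [TopologicalSpace E] [TopologicalSpace X]
  [BorelSpace X] [T2Space X] [OpensMeasurableSpace E] [T2Space E]

/-- two-sided comparison of a measure with continuous positive density in a chart with the push
forward of the reference measure -/
lemma compare_chart (μP : Measure P) (μ : Measure E) [SFinite μ] {A : P → E}
    (hA : MeasurePreserving A μP μ)
    (hAe : MeasurableEmbedding A) (hAc : Continuous A) {S : Set P} (hS : IsCompact S)
    {T : Set E} (hT : MeasurableSet T) (hsub : A '' S ⊆ T) {r : E → ℝ} (hr : ContinuousOn r T)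
    (hr0 : ∀ z ∈ T, 0 < r z) {ψ : E → X} (hψ : ContinuousOn ψ T) (inj : InjOn ψ T) :
    ∃ c > 0, ∃ C > 0,
      (ENNReal.ofReal c • (μP.restrict S).map (fun z => ψ (A z)) ≤
        chartMeas μ T (fun z => ENNReal.ofReal (r z)) ψ) ∧
      ((chartMeas μ T (fun z => ENNReal.ofReal (r z)) ψ).restrict ((fun z => ψ (A z)) '' S) ≤
        ENNReal.ofReal C • (μP.restrict S).map (fun z => ψ (A z))) := by
  have hK : IsCompact (A '' S) := hS.image hAc
  have hKm : MeasurableSet (A '' S) := hK.measurableSet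
  obtain ⟨C, hC⟩ := hK.exists_bound_of_continuousOn (hr.mono hsub)
  obtain ⟨c, hc0, hc⟩ : ∃ c > 0, ∀ z ∈ A '' S, c ≤ r z := by
    rcases (A '' S).eq_empty_or_nonempty with h | h
    · exact ⟨1, one_pos, by simp [h]⟩
    · obtain ⟨z, hz, hmin⟩ := hK.exists_isMinOn h (hr.mono hsub)
      exact ⟨r z, hr0 z (hsub hz), fun w hw => hmin hw⟩
  have hψ1 : AEMeasurable ψ (μ.restrict T) := hψ.aemeasurable hT
  have hψ2 : AEMeasurable ψ (μ.restrict (A '' S)) := (hψ.mono hsub).aemeasurable hKm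
  have himg : (fun z => ψ (A z)) '' S = ψ '' (A '' S) := by rw [image_image]
  have him : MeasurableSet (ψ '' (A '' S)) :=
    (hK.image_of_continuousOn (hψ.mono hsub)).measurableSet
  have hmp := (hA.restrict_image_emb hAe S).map_eq
  have hmap : (μP.restrict S).map (fun z => ψ (A z)) = (μ.restrict (A '' S)).map ψ := by
    rw [← hmp, AEMeasurable.map_map_of_aemeasurable (by rw [hmp]; exact hψ2)
      hA.measurable.aemeasurable]
    rfl
  have hres := chartMeas_restrict_image μ hT hKm hsub (fun z => ENNReal.ofReal (r z)) hψ1 inj him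
  refine ⟨c, hc0, max C 1, lt_max_of_lt_right one_pos, ?_, ?_⟩
  · rw [hmap]
    calc ENNReal.ofReal c • (μ.restrict (A '' S)).map ψ ≤
          chartMeas μ (A '' S) (fun z => ENNReal.ofReal (r z)) ψ :=
          le_chartMeas μ hKm hψ2 (fun z hz => ENNReal.ofReal_le_ofReal (hc z hz))
      _ = (chartMeas μ T (fun z => ENNReal.ofReal (r z)) ψ).restrict (ψ '' (A '' S)) := hres.symm
      _ ≤ chartMeas μ T (fun z => ENNReal.ofReal (r z)) ψ := Measure.restrict_le_self
  · rw [himg, hres, hmap]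
    exact chartMeas_le μ hKm hψ2 (fun z hz => ENNReal.ofReal_le_ofReal
      (((le_abs_self _).trans (hC z hz)).trans (le_max_left _ _)))

end Abstract

section Coordinates

variable (d : ℕ)

/-- `zToE` as a measurable equivalence -/
def zEquiv : ℝ × (Fin d → ℝ) ≃ᵐ EE d :=
  (MeasurableEquiv.piFinSuccAbove (fun _ : Fin (d + 1) => ℝ) 0).symm.trans
    (MeasurableEquiv.toLp 2 (Fin (d + 1) → ℝ))

variable {d}

lemma zEquiv_apply (z : ℝ × (Fin d → ℝ)) : zEquiv d z = zToE z := by
  ext i
  refine Fin.cases ?_ (fun j => ?_) i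
  · rfl
  · rfl

lemma measurePreserving_zToE :
    MeasurePreserving (zToE (d := d)) (volume : Measure (ℝ × (Fin d → ℝ))) volume := by
  have h1 := (volume_preserving_piFinSuccAbove (fun _ : Fin (d + 1) => ℝ) 0).symm
  have h2 := PiLp.volume_preserving_toLp (Fin (d + 1))
  have h3 := h2.comp h1
  have h4 : (zToE (d := d)) = (WithLp.toLp 2 : (Fin (d + 1) → ℝ) → EE d) ∘
      (MeasurableEquiv.piFinSuccAbove (fun _ : Fin (d + 1) => ℝ) 0).symm := by
    funext z
    rw [← zEquiv_apply]
    rfl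
  rw [h4]
  exact h3

lemma measurableEmbedding_zToE : MeasurableEmbedding (zToE (d := d)) := by
  have h : (zToE (d := d)) = zEquiv d := by
    funext z
    exact (zEquiv_apply z).symm
  rw [h]
  exact (zEquiv d).measurableEmbedding

lemma continuous_zToE : Continuous (zToE (d := d)) := by
  refine (PiLp.continuous_toLp 2 _).comp (continuous_pi fun i => ?_)
  refine Fin.cases ?_ (fun j => ?_) i
  · exact continuous_fst
  · exact (continuous_apply j).comp continuous_snd

lemma zToE_zero_apply (z : ℝ × (Fin d → ℝ)) : zToE z 0 = z.1 := rfl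

lemma zToE_succ_apply (z : ℝ × (Fin d → ℝ)) (i : Fin d) : zToE z i.succ = z.2 i := rfl

lemma zToE_zero : zToE (0 : ℝ × (Fin d → ℝ)) = 0 := by
  ext i
  refine Fin.cases ?_ (fun j => ?_) i
  · rfl
  · rfl

end Coordinates

variable {d : ℕ} {Ω : Type u} [TopologicalSpace Ω] [ChartedSpace (EuclideanHalfSpace (d + 1)) Ω]

/-- affine coordinates centred at `p` -/
def aff (p : Ω) (z : ℝ × (Fin d → ℝ)) : EE d := extChartAt (𝓡∂ (d + 1)) p p + zToE z

lemma chartMap_eq (p : Ω) (z : ℝ × (Fin d → ℝ)) :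
    chartMap (d := d) p z = (extChartAt (𝓡∂ (d + 1)) p).symm (aff p z) := rfl

lemma measurePreserving_aff (p : Ω) :
    MeasurePreserving (aff (d := d) p) (volume : Measure (ℝ × (Fin d → ℝ))) volume :=
  (measurePreserving_add_left volume (extChartAt (𝓡∂ (d + 1)) p p)).comp measurePreserving_zToE

lemma measurableEmbedding_aff (p : Ω) : MeasurableEmbedding (aff (d := d) p) :=
  (measurableEmbedding_addLeft (extChartAt (𝓡∂ (d + 1)) p p)).comp measurableEmbedding_zToE

lemma continuous_aff (p : Ω) : Continuous (aff (d := d) p) :=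
  continuous_const.add continuous_zToE

lemma aff_zero (p : Ω) : aff (d := d) p 0 = extChartAt (𝓡∂ (d + 1)) p p := by
  rw [aff, zToE_zero, add_zero]

/-- affine coordinates of the boundary centred at `p` -/
def affb (p : Ω) (x : Fin d → ℝ) : EuclideanSpace ℝ (Fin d) :=
  piTail d (extChartAt (𝓡∂ (d + 1)) p p) + WithLp.toLp 2 x

lemma measurePreserving_affb (p : Ω) :
    MeasurePreserving (affb (d := d) p) (volume : Measure (Fin d → ℝ)) volume :=
  (measurePreserving_add_left volume (piTail d (extChartAt (𝓡∂ (d + 1)) p p))).comp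
    (PiLp.volume_preserving_toLp (Fin d))

lemma measurableEmbedding_affb (p : Ω) : MeasurableEmbedding (affb (d := d) p) :=
  (measurableEmbedding_addLeft (piTail d (extChartAt (𝓡∂ (d + 1)) p p))).comp
    (MeasurableEquiv.toLp 2 (Fin d → ℝ)).measurableEmbedding

lemma continuous_affb (p : Ω) : Continuous (affb (d := d) p) :=
  continuous_const.add (PiLp.continuous_toLp 2 _)

lemma bdPoint_affb {p : Ω} (hp : extChartAt (𝓡∂ (d + 1)) p p 0 = 0) (x : Fin d → ℝ) :
    bdPoint (affb p x) = aff p (0, x) := by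
  ext i
  refine Fin.cases ?_ (fun j => ?_) i
  · rw [bdPoint_zero, aff, PiLp.add_apply, hp, zToE_zero_apply, add_zero]
  · rw [bdPoint_succ, aff, affb, PiLp.add_apply, PiLp.add_apply, zToE_succ_apply, piTail_apply]

lemma aff_mem_range {p : Ω} {z : ℝ × (Fin d → ℝ)} (hz : 0 ≤ z.1) :
    aff p z ∈ range (𝓡∂ (d + 1)) := by
  rw [range_modelWithCornersEuclideanHalfSpace]
  have h := ext_zero_nonneg (d := d) p p
  show 0 ≤ (aff p z) 0
  rw [aff, PiLp.add_apply, zToE_zero_apply]
  exact add_nonneg h hz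

lemma exists_half_radius (p : Ω) : ∃ R₀ > 0, ∀ R, 0 < R → R ≤ R₀ →
    aff p '' (Q d R) ⊆ (extChartAt (𝓡∂ (d + 1)) p).target := by
  obtain ⟨ε, hε, hsub⟩ := exists_ball_inter_range (d := d) p
  have h1 : aff p ⁻¹' Metric.ball (extChartAt (𝓡∂ (d + 1)) p p) ε ∈
      𝓝 (0 : ℝ × (Fin d → ℝ)) := by
    apply (continuous_aff p).continuousAt.preimage_mem_nhds
    rw [aff_zero]
    exact Metric.ball_mem_nhds _ hε
  obtain ⟨R₀, hR₀, h2⟩ := Metric.nhds_basis_closedBall.mem_iff.1 h1
  refine ⟨R₀, hR₀, fun R hR hR' => ?_⟩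
  rintro _ ⟨z, hz, rfl⟩
  apply hsub
  refine ⟨Metric.ball_subset_closedBall (h2 ?_), aff_mem_range hz.1.1⟩
  rw [mem_closedBall_zero_iff, Prod.norm_def, max_le_iff]
  refine ⟨?_, ?_⟩
  · rw [Real.norm_eq_abs, abs_of_nonneg hz.1.1]
    exact hz.1.2.trans hR'
  · have := hz.2
    rw [mem_closedBall_zero_iff] at this
    exact this.trans hR'

lemma exists_box_radius {p : Ω} (hp : extChartAt (𝓡∂ (d + 1)) p p ∈ interior (range (𝓡∂ (d + 1)))) :
    ∃ R₀ > 0, ∀ R, 0 < R → R ≤ R₀ →
    aff p '' (Metric.closedBall 0 R) ⊆ (extChartAt (𝓡∂ (d + 1)) p).target := by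
  have h0 : (extChartAt (𝓡∂ (d + 1)) p).target ∈ 𝓝 (extChartAt (𝓡∂ (d + 1)) p p) := by
    have h := extChartAt_target_mem_nhdsWithin (I := 𝓡∂ (d + 1)) p
    rwa [nhdsWithin_eq_nhds.2 (mem_interior_iff_mem_nhds.1 hp)] at h
  have h1 : aff p ⁻¹' (extChartAt (𝓡∂ (d + 1)) p).target ∈
      𝓝 (0 : ℝ × (Fin d → ℝ)) := by
    apply (continuous_aff p).continuousAt.preimage_mem_nhds
    rw [aff_zero]
    exact h0
  obtain ⟨R₀, hR₀, h2⟩ := Metric.nhds_basis_closedBall.mem_iff.1 h1
  refine ⟨R₀, hR₀, fun R hR hR' => ?_⟩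
  rintro _ ⟨z, hz, rfl⟩
  exact h2 (Metric.closedBall_subset_closedBall hR' hz)

lemma isCompact_Q (R : ℝ) : IsCompact (Q d R) :=
  isCompact_Icc.prod (isCompact_closedBall _ _)

end Pool.Agent.Steklov.PB
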