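import Pool.Agent.Lib.MP_4838e0_gt.Defs
import Pool.Agent.Lib.MP_4838e0_gt.Abstract
import Pool.Agent.Lib.MP_4838e0_gt.ChartMap
import Pool.Agent.Lib.MP_4838e0_gt.BridgeB8

set_option autoImplicit false

universe u

open Set Filter Topology MeasureTheory Manifold ContDiff Bundle
open scoped ENNReal

noncomputable section

namespace Pool.Agent.Steklov.PB

lemma smul_measure_mono {X : Type*} [MeasurableSpace X] {a b : ℝ≥0∞} (h : a ≤ b)
    (μ : Measure X) : a • μ ≤ b • μ := by
  rw [Measure.le_iff]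
  intro s _
  rw [Measure.smul_apply, Measure.smul_apply, smul_eq_mul, smul_eq_mul]
  gcongr

variable {d : ℕ} {Ω : Type u} [TopologicalSpace Ω] [ChartedSpace (EuclideanHalfSpace (d + 1)) Ω]
  [IsManifold (𝓡∂ (d + 1)) ∞ Ω]

/-! ## Part B (measures) -/

variable [MeasurableSpace Ω] [BorelSpace Ω]

omit [BorelSpace Ω] in
lemma localVol_eq (g : RMetric d Ω) (x : Ω) : localVol g x =
    chartMeas volume (extChartAt (𝓡∂ (d + 1)) x).target
      (fun y => ENNReal.ofReal (Real.sqrt (gram g x y).det)) (extChartAt (𝓡∂ (d + 1)) x).symm := rfl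

variable [T2Space Ω]

lemma riemVol_restrict_image (g : RMetric d Ω) (p : Ω) {S : Set (ℝ × (Fin d → ℝ))}
    (hS : IsCompact S) (hsub : aff p '' S ⊆ (extChartAt (𝓡∂ (d + 1)) p).target) :
    (riemVol g).restrict (chartMap (d := d) p '' S) =
      (localVol g p).restrict (chartMap (d := d) p '' S) := by
  have him : MeasurableSet (chartMap (d := d) p '' S) := by
    have h : chartMap (d := d) p '' S = (extChartAt (𝓡∂ (d + 1)) p).symm '' (aff p '' S) := by
      rw [image_image]
      rfl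
    rw [h]
    exact ((hS.image (continuous_aff p)).image_of_continuousOn
      ((continuousOn_extChartAt_symm p).mono hsub)).measurableSet
  have hsrc : chartMap (d := d) p '' S ⊆ (extChartAt (𝓡∂ (d + 1)) p).source := by
    rintro _ ⟨z, hz, rfl⟩
    exact (extChartAt (𝓡∂ (d + 1)) p).map_target (hsub (mem_image_of_mem _ hz))
  rw [← riemVol_restrict g p, Measure.restrict_restrict him, inter_eq_left.2 hsrc]

lemma riemBd_restrict_image (g : RMetric d Ω) (p : Ω) {S : Set (ℝ × (Fin d → ℝ))}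
    (hS : IsCompact S) (hsub : aff p '' S ⊆ (extChartAt (𝓡∂ (d + 1)) p).target) :
    (riemBd g).restrict (chartMap (d := d) p '' S) =
      (localBd g p).restrict (chartMap (d := d) p '' S) := by
  have him : MeasurableSet (chartMap (d := d) p '' S) := by
    have h : chartMap (d := d) p '' S = (extChartAt (𝓡∂ (d + 1)) p).symm '' (aff p '' S) := by
      rw [image_image]
      rfl
    rw [h]
    exact ((hS.image (continuous_aff p)).image_of_continuousOn
      ((continuousOn_extChartAt_symm p).mono hsub)).measurableSet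
  have hsrc : chartMap (d := d) p '' S ⊆ (extChartAt (𝓡∂ (d + 1)) p).source := by
    rintro _ ⟨z, hz, rfl⟩
    exact (extChartAt (𝓡∂ (d + 1)) p).map_target (hsub (mem_image_of_mem _ hz))
  rw [← riemBd_restrict g p, Measure.restrict_restrict him, inter_eq_left.2 hsrc]

omit [BorelSpace Ω] [T2Space Ω] in
lemma localVol_le (g : RMetric d Ω) (p : Ω) : localVol g p ≤ riemVol g :=
  le_iSup (localVol g) p

omit [BorelSpace Ω] [T2Space Ω] in
lemma localBd_le (g : RMetric d Ω) (p : Ω) : localBd g p ≤ riemBd g :=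
  le_iSup (localBd g) p

lemma compareVol (g : RMetric d Ω) (p : Ω) {S : Set (ℝ × (Fin d → ℝ))}
    (hS : IsCompact S) (hsub : aff p '' S ⊆ (extChartAt (𝓡∂ (d + 1)) p).target) :
    ∃ c > 0, ∃ C > 0,
      (ENNReal.ofReal c • ((volume : Measure (ℝ × (Fin d → ℝ))).restrict S).map
        (chartMap (d := d) p) ≤ riemVol g) ∧
      ((riemVol g).restrict (chartMap (d := d) p '' S) ≤
        ENNReal.ofReal C • ((volume : Measure (ℝ × (Fin d → ℝ))).restrict S).map
          (chartMap (d := d) p)) := by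
  obtain ⟨c, hc, C, hC, h1, h2⟩ := compare_chart (volume : Measure (ℝ × (Fin d → ℝ)))
    (volume : Measure (EE d)) (measurePreserving_aff p) (measurableEmbedding_aff p)
    (continuous_aff p) hS (measurableSet_target p) hsub (sqrt_det_gram_continuousOn g p)
    (fun z hz => sqrt_det_gram_pos g hz) (continuousOn_extChartAt_symm p)
    (extChartAt (𝓡∂ (d + 1)) p).symm.injOn
  refine ⟨c, hc, C, hC, h1.trans (localVol_le g p), ?_⟩
  rw [riemVol_restrict_image g p hS hsub]
  exact h2

/-- the image of a half cube meets the boundary in the image of its face -/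
lemma localBd_restrict_face (g : RMetric d Ω) (p : Ω) (hp : extChartAt (𝓡∂ (d + 1)) p p 0 = 0)
    {R : ℝ} (hR : 0 < R) (hsub : aff p '' (Q d R) ⊆ (extChartAt (𝓡∂ (d + 1)) p).target) :
    (localBd g p).restrict (chartMap (d := d) p '' (Q d R)) =
      (localBd g p).restrict ((fun x => bdPar p (affb p x)) ''
        (Metric.closedBall (0 : Fin d → ℝ) R)) := by
  have hbsub : affb p '' (Metric.closedBall (0 : Fin d → ℝ) R) ⊆ bdTarget p := by
    rintro _ ⟨x, hx, rfl⟩
    rw [bdTarget, mem_ofPred_eq, bdPoint_affb hp]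
    exact hsub ⟨(0, x), ⟨⟨le_rfl, hR.le⟩, hx⟩, rfl⟩
  have him : MeasurableSet (chartMap (d := d) p '' (Q d R)) := by
    have h : chartMap (d := d) p '' (Q d R) =
        (extChartAt (𝓡∂ (d + 1)) p).symm '' (aff p '' (Q d R)) := by
      rw [image_image]
      rfl
    rw [h]
    exact (((isCompact_Q R).image (continuous_aff p)).image_of_continuousOn
      ((continuousOn_extChartAt_symm p).mono hsub)).measurableSet
  have himb : MeasurableSet ((fun x => bdPar p (affb p x)) ''
      (Metric.closedBall (0 : Fin d → ℝ) R)) := by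
    have h : (fun x => bdPar p (affb p x)) '' (Metric.closedBall (0 : Fin d → ℝ) R) =
        bdPar p '' (affb p '' (Metric.closedBall (0 : Fin d → ℝ) R)) := by
      rw [image_image]
    rw [h]
    exact (((isCompact_closedBall _ _).image (continuous_affb p)).image_of_continuousOn
      ((continuousOn_bdPar p).mono hbsub)).measurableSet
  ext A hA
  rw [Measure.restrict_apply hA, Measure.restrict_apply hA, localBd_eq,
    chartMeas_apply volume (isOpen_bdTarget p).measurableSet _ (aemeasurable_bdPar p)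
      (hA.inter him), chartMeas_apply volume (isOpen_bdTarget p).measurableSet _
      (aemeasurable_bdPar p) (hA.inter himb)]
  congr 2
  ext z
  constructor
  · rintro ⟨h1, h2, w, hw, hwz⟩
    refine ⟨h1, h2, w.2, hw.2, ?_⟩
    have e1 : aff p w = bdPoint z :=
      (extChartAt (𝓡∂ (d + 1)) p).symm.injOn (hsub (mem_image_of_mem _ hw)) h1 hwz
    have e2 : w.1 = 0 := by
      have := congrArg (fun v : EE d => v 0) e1
      simp only [bdPoint_zero] at this
      rw [aff, PiLp.add_apply, hp, zToE_zero_apply, zero_add] at this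
      exact this
    have e3 : w = (0, w.2) := by rw [← e2]
    rw [e3, ← bdPoint_affb hp] at e1
    have e4 : affb p w.2 = z := by rw [← piTail_bdPoint (affb p w.2), e1, piTail_bdPoint]
    show bdPar p (affb p w.2) = bdPar p z
    rw [e4]
  · rintro ⟨h1, h2, x, hx, hxz⟩
    refine ⟨h1, h2, (0, x), ⟨⟨le_rfl, hR.le⟩, hx⟩, ?_⟩
    rw [chartMap_eq, ← bdPoint_affb hp]
    exact hxz

lemma compareBd (g : RMetric d Ω) (p : Ω) (hp : extChartAt (𝓡∂ (d + 1)) p p 0 = 0)
    {R : ℝ} (hR : 0 < R) (hsub : aff p '' (Q d R) ⊆ (extChartAt (𝓡∂ (d + 1)) p).target) :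
    ∃ c > 0, ∃ C > 0,
      (ENNReal.ofReal c • ((volume : Measure (Fin d → ℝ)).restrict
        (Metric.closedBall 0 R)).map (fun x => chartMap (d := d) p (0, x)) ≤ riemBd g) ∧
      ((riemBd g).restrict (chartMap (d := d) p '' (Q d R)) ≤
        ENNReal.ofReal C • ((volume : Measure (Fin d → ℝ)).restrict
          (Metric.closedBall 0 R)).map (fun x => chartMap (d := d) p (0, x))) := by
  have hbsub : affb p '' (Metric.closedBall (0 : Fin d → ℝ) R) ⊆ bdTarget p := by
    rintro _ ⟨x, hx, rfl⟩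
    rw [bdTarget, mem_ofPred_eq, bdPoint_affb hp]
    exact hsub ⟨(0, x), ⟨⟨le_rfl, hR.le⟩, hx⟩, rfl⟩
  obtain ⟨c, hc, C, hC, h1, h2⟩ := compare_chart (volume : Measure (Fin d → ℝ))
    (volume : Measure (EuclideanSpace ℝ (Fin d))) (measurePreserving_affb p)
    (measurableEmbedding_affb p) (continuous_affb p) (isCompact_closedBall 0 R)
    (isOpen_bdTarget p).measurableSet hbsub (sqrt_det_gram_sub_continuousOn g p)
    (fun z hz => sqrt_det_gram_sub_pos g hz) (continuousOn_bdPar p) (injOn_bdPar p)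
  have hfun : (fun x => chartMap (d := d) p (0, x)) = fun x => bdPar p (affb p x) := by
    funext x
    rw [chartMap_eq, ← bdPoint_affb hp]
    rfl
  refine ⟨c, hc, C, hC, ?_, ?_⟩
  · rw [hfun]
    exact h1.trans (localBd_le g p)
  · rw [riemBd_restrict_image g p (isCompact_Q R) hsub, localBd_restrict_face g p hp hR hsub, hfun]
    exact h2

omit [MeasurableSpace Ω] [BorelSpace Ω] [T2Space Ω] in
lemma ext_self_zero {p : Ω} (hp : p ∈ (𝓡∂ (d + 1)).boundary Ω) :
    extChartAt (𝓡∂ (d + 1)) p p 0 = 0 :=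
  (mem_boundary_iff (mem_extChartAt_source p)).1 hp

omit [IsManifold (𝓡∂ (d + 1)) ∞ Ω] [MeasurableSpace Ω] [BorelSpace Ω] [T2Space Ω] in
lemma ext_self_interior {p : Ω} (hp : p ∉ (𝓡∂ (d + 1)).boundary Ω) :
    extChartAt (𝓡∂ (d + 1)) p p ∈ interior (range (𝓡∂ (d + 1))) := by
  have h : p ∈ (𝓡∂ (d + 1)).interior Ω := by
    rw [← ModelWithCorners.compl_boundary]
    exact hp
  exact h

variable [CompactSpace Ω]

lemma riemVol_finite (g : RMetric d Ω) : riemVol g univ ≠ ⊤ := riemVol_finite' g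

lemma riemBd_finite (g : RMetric d Ω) : riemBd g univ ≠ ⊤ := riemBd_finite' g

omit [T2Space Ω] [CompactSpace Ω] in
lemma riemBd_compl_boundary (g : RMetric d Ω) : riemBd g ((𝓡∂ (d + 1)).boundary Ω)ᶜ = 0 :=
  riemBd_compl_boundary' g

omit [CompactSpace Ω] in
theorem exists_halfChartB (g : RMetric d Ω) (p : Ω) (hp : p ∈ (𝓡∂ (d + 1)).boundary Ω) :
    ∃ R₀ > 0, ∀ R, 0 < R → R ≤ R₀ → ∃ c > 0, ∃ C > 0,
      (ENNReal.ofReal c • ((volume : Measure (ℝ × (Fin d → ℝ))).restrict (Q d R)).map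
        (chartMap (d := d) p) ≤ riemVol g) ∧
      ((riemVol g).restrict (chartMap (d := d) p '' (Q d R)) ≤
        ENNReal.ofReal C • ((volume : Measure (ℝ × (Fin d → ℝ))).restrict (Q d R)).map
          (chartMap (d := d) p)) ∧
      (ENNReal.ofReal c • ((volume : Measure (Fin d → ℝ)).restrict
        (Metric.closedBall 0 R)).map (fun x => chartMap (d := d) p (0, x)) ≤ riemBd g) ∧
      ((riemBd g).restrict (chartMap (d := d) p '' (Q d R)) ≤
        ENNReal.ofReal C • ((volume : Measure (Fin d → ℝ)).restrict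
          (Metric.closedBall 0 R)).map (fun x => chartMap (d := d) p (0, x))) := by
  obtain ⟨R₀, hR₀, h⟩ := exists_half_radius (d := d) p
  refine ⟨R₀, hR₀, fun R hR hR' => ?_⟩
  have hsub := h R hR hR'
  obtain ⟨c₁, hc₁, C₁, hC₁, h1, h2⟩ := compareVol g p (isCompact_Q R) hsub
  obtain ⟨c₂, hc₂, C₂, hC₂, h3, h4⟩ := compareBd g p (ext_self_zero hp) hR hsub
  refine ⟨min c₁ c₂, lt_min hc₁ hc₂, max C₁ C₂, lt_max_of_lt_left hC₁, ?_, ?_, ?_, ?_⟩
  · refine le_trans ?_ h1
    exact smul_measure_mono (ENNReal.ofReal_le_ofReal (min_le_left _ _)) _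
  · refine h2.trans ?_
    exact smul_measure_mono (ENNReal.ofReal_le_ofReal (le_max_left _ _)) _
  · refine le_trans ?_ h3
    exact smul_measure_mono (ENNReal.ofReal_le_ofReal (min_le_right _ _)) _
  · refine h4.trans ?_
    exact smul_measure_mono (ENNReal.ofReal_le_ofReal (le_max_right _ _)) _

omit [CompactSpace Ω] in
theorem exists_boxChartB (g : RMetric d Ω) (p : Ω) (hp : p ∉ (𝓡∂ (d + 1)).boundary Ω) :
    ∃ R₀ > 0, ∀ R, 0 < R → R ≤ R₀ → ∃ c > 0, ∃ C > 0,
      (ENNReal.ofReal c • ((volume : Measure (ℝ × (Fin d → ℝ))).restrict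
        (Metric.closedBall 0 R)).map (chartMap (d := d) p) ≤ riemVol g) ∧
      ((riemVol g).restrict (chartMap (d := d) p '' (Metric.closedBall 0 R)) ≤
        ENNReal.ofReal C • ((volume : Measure (ℝ × (Fin d → ℝ))).restrict
          (Metric.closedBall 0 R)).map (chartMap (d := d) p)) := by
  obtain ⟨R₀, hR₀, h⟩ := exists_box_radius (ext_self_interior hp)
  exact ⟨R₀, hR₀, fun R hR hR' => compareVol g p (isCompact_closedBall 0 R) (h R hR hR')⟩

/-! ### conformal change of the measures -/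

omit [MeasurableSpace Ω] [BorelSpace Ω] [T2Space Ω] [CompactSpace Ω] in
lemma gram_conformal (g h : RMetric d Ω) (ρ : Ω → ℝ)
    (hgh : ∀ x v w, h.inner x v w = ρ x ^ 2 * g.inner x v w) (x : Ω) (y : EE d) :
    gram h x y = (ρ ((extChartAt (𝓡∂ (d + 1)) x).symm y)) ^ 2 • gram g x y := by
  ext i j
  simp only [gram, Matrix.smul_apply, smul_eq_mul]
  exact hgh _ _ _

lemma sqrt_det_smul {m : ℕ} (M : Matrix (Fin m) (Fin m) ℝ) {a : ℝ} (ha : 0 < a) :
    ENNReal.ofReal (Real.sqrt (a ^ 2 • M).det) =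
      ENNReal.ofReal (a ^ m) * ENNReal.ofReal (Real.sqrt M.det) := by
  rw [Matrix.det_smul, Fintype.card_fin, ← ENNReal.ofReal_mul (by positivity), ← pow_mul,
    mul_comm 2 m, pow_mul, Real.sqrt_mul (sq_nonneg _), Real.sqrt_sq (by positivity)]

omit [T2Space Ω] [CompactSpace Ω] in
lemma localVol_conformal (g h : RMetric d Ω) (ρ : Ω → ℝ)
    (hρ : ContMDiff (𝓡∂ (d + 1)) 𝓘(ℝ, ℝ) ∞ ρ) (hpos : ∀ x, 0 < ρ x)
    (hgh : ∀ x v w, h.inner x v w = ρ x ^ 2 * g.inner x v w) (x : Ω) :
    localVol h x = (localVol g x).withDensity fun x => ENNReal.ofReal (ρ x ^ (d + 1)) := by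
  have hF : Measurable (fun x : Ω => ENNReal.ofReal (ρ x ^ (d + 1))) :=
    (hρ.continuous.pow (d + 1)).measurable.ennreal_ofReal
  rw [localVol_eq, localVol_eq, chartMeas_withDensity volume
    ((sqrt_det_gram_continuousOn g x).aemeasurable (measurableSet_target x)).ennreal_ofReal
    (aemeasurable_ext_symm x) hF]
  refine chartMeas_congr volume (measurableSet_target x) (fun z _ => ?_) _
  rw [gram_conformal g h ρ hgh, sqrt_det_smul _ (hpos _)]

omit [T2Space Ω] [CompactSpace Ω] in
lemma localBd_conformal (g h : RMetric d Ω) (ρ : Ω → ℝ)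
    (hρ : ContMDiff (𝓡∂ (d + 1)) 𝓘(ℝ, ℝ) ∞ ρ) (hpos : ∀ x, 0 < ρ x)
    (hgh : ∀ x v w, h.inner x v w = ρ x ^ 2 * g.inner x v w) (x : Ω) :
    localBd h x = (localBd g x).withDensity fun x => ENNReal.ofReal (ρ x ^ d) := by
  have hF : Measurable (fun x : Ω => ENNReal.ofReal (ρ x ^ d)) :=
    (hρ.continuous.pow d).measurable.ennreal_ofReal
  rw [localBd_eq, localBd_eq, chartMeas_withDensity volume
    ((sqrt_det_gram_sub_continuousOn g x).aemeasurable
      (isOpen_bdTarget x).measurableSet).ennreal_ofReal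
    (aemeasurable_bdPar x) hF]
  refine chartMeas_congr volume (isOpen_bdTarget x).measurableSet (fun z _ => ?_) _
  have hs : (gram h x (bdPoint z)).submatrix Fin.succ Fin.succ =
      (ρ (bdPar x z)) ^ 2 • (gram g x (bdPoint z)).submatrix Fin.succ Fin.succ := by
    rw [gram_conformal g h ρ hgh]
    rfl
  rw [hs, sqrt_det_smul _ (hpos _)]

omit [IsManifold (𝓡∂ (d + 1)) ∞ Ω] [BorelSpace Ω] [T2Space Ω] in
/-- a measure on a compact manifold is determined by its restrictions to chart domains -/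
lemma ext_of_restrict_source {μ ν : Measure Ω}
    (h : ∀ p, μ.restrict (extChartAt (𝓡∂ (d + 1)) p).source =
      ν.restrict (extChartAt (𝓡∂ (d + 1)) p).source) : μ = ν := by
  obtain ⟨t, ht⟩ := isCompact_univ.elim_finite_subcover
    (fun p : Ω => (extChartAt (𝓡∂ (d + 1)) p).source)
    (fun p => isOpen_extChartAt_source p)
    (fun p _ => mem_iUnion.2 ⟨p, mem_extChartAt_source p⟩)
  have hu : ⋃ i : t, (extChartAt (𝓡∂ (d + 1)) (i : Ω)).source = univ := by
    apply eq_univ_of_univ_subset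
    intro q hq
    obtain ⟨p, hp, hq2⟩ := mem_iUnion₂.1 (ht hq)
    exact mem_iUnion.2 ⟨⟨p, hp⟩, hq2⟩
  exact (Measure.ext_iff_of_iUnion_eq_univ hu).2 (fun i => h i)

omit [T2Space Ω] in
/-- conformal change of the measures -/
theorem riemVol_conformal (g h : RMetric d Ω) (ρ : Ω → ℝ)
    (hρ : ContMDiff (𝓡∂ (d + 1)) 𝓘(ℝ, ℝ) ∞ ρ) (hpos : ∀ x, 0 < ρ x)
    (hgh : ∀ x v w, h.inner x v w = ρ x ^ 2 * g.inner x v w) :
    riemVol h = (riemVol g).withDensity fun x => ENNReal.ofReal (ρ x ^ (d + 1)) := by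
  apply ext_of_restrict_source (d := d)
  intro p
  rw [restrict_withDensity (isOpen_extChartAt_source p).measurableSet, riemVol_restrict,
    riemVol_restrict, localVol_conformal g h ρ hρ hpos hgh]

omit [T2Space Ω] in
theorem riemBd_conformal (g h : RMetric d Ω) (ρ : Ω → ℝ)
    (hρ : ContMDiff (𝓡∂ (d + 1)) 𝓘(ℝ, ℝ) ∞ ρ) (hpos : ∀ x, 0 < ρ x)
    (hgh : ∀ x v w, h.inner x v w = ρ x ^ 2 * g.inner x v w) :
    riemBd h = (riemBd g).withDensity fun x => ENNReal.ofReal (ρ x ^ d) := by
  apply ext_of_restrict_source (d := d)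
  intro p
  rw [restrict_withDensity (isOpen_extChartAt_source p).measurableSet, riemBd_restrict,
    riemBd_restrict, localBd_conformal g h ρ hρ hpos hgh]

end Pool.Agent.Steklov.PB
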