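import Pool.Agent.Lib.MP_4838e0_gt.Defs
import Pool.Agent.Lib.MP_4838e0_gt.Abstract
import Pool.Agent.Lib.MP_4838e0_gt.ChartMap
import Pool.Agent.Lib.MP_4838e0_gt.BridgeB9

set_option autoImplicit false

universe u

open Set Filter Topology MeasureTheory Manifold ContDiff Bundle

noncomputable section

namespace Pool.Agent.Steklov

variable {d : ℕ} {Ω : Type u} [TopologicalSpace Ω] [ChartedSpace (EuclideanHalfSpace (d + 1)) Ω]
  [IsManifold (𝓡∂ (d + 1)) ∞ Ω]
variable [MeasurableSpace Ω] [BorelSpace Ω] [T2Space Ω] [CompactSpace Ω]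

lemma riemVol_finite (g : RMetric d Ω) : riemVol g univ ≠ ⊤ :=
  PB.riemVol_finite g

lemma riemBd_finite (g : RMetric d Ω) : riemBd g univ ≠ ⊤ :=
  PB.riemBd_finite g

omit [T2Space Ω] [CompactSpace Ω] in
lemma riemBd_compl_boundary (g : RMetric d Ω) : riemBd g ((𝓡∂ (d + 1)).boundary Ω)ᶜ = 0 :=
  PB.riemBd_compl_boundary g

omit [CompactSpace Ω] in
theorem exists_halfChartB (g : RMetric d Ω) (p : Ω) (hp : p ∈ (𝓡∂ (d + 1)).boundary Ω) :
    ∃ R₀ > 0, ∀ R, 0 < R → R ≤ R₀ → ∃ c > 0, ∃ C > 0,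
      (ENNReal.ofReal c • ((volume : Measure (ℝ × (Fin d → ℝ))).restrict (Q d R)).map
        (chartMap (d := d) p) ≤ riemVol g) ∧
      ((riemVol g).restrict (chartMap (d := d) p '' (Q d R)) ≤
        ENNReal.ofReal C • ((volume : Measure (ℝ × (Fin d → ℝ))).restrict (Q d R)).map
          (chartMap (d := d) p)) ∧
      (ENNReal.ofReal c • ((volume : Measure (Fin d → ℝ)).restrict
        (Metric.closedBall 0 R)).map (fun x => chartMap (d := d) p (0, x)) ≤ riemBd g) ∧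
      ((riemBd g).restrict (chartMap (d := d) p '' (Q d R)) ≤
        ENNReal.ofReal C • ((volume : Measure (Fin d → ℝ)).restrict
          (Metric.closedBall 0 R)).map (fun x => chartMap (d := d) p (0, x))) :=
  PB.exists_halfChartB g p hp

omit [CompactSpace Ω] in
theorem exists_boxChartB (g : RMetric d Ω) (p : Ω) (hp : p ∉ (𝓡∂ (d + 1)).boundary Ω) :
    ∃ R₀ > 0, ∀ R, 0 < R → R ≤ R₀ → ∃ c > 0, ∃ C > 0,
      (ENNReal.ofReal c • ((volume : Measure (ℝ × (Fin d → ℝ))).restrict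
        (Metric.closedBall 0 R)).map (chartMap (d := d) p) ≤ riemVol g) ∧
      ((riemVol g).restrict (chartMap (d := d) p '' (Metric.closedBall 0 R)) ≤
        ENNReal.ofReal C • ((volume : Measure (ℝ × (Fin d → ℝ))).restrict
          (Metric.closedBall 0 R)).map (chartMap (d := d) p)) :=
  PB.exists_boxChartB g p hp

omit [T2Space Ω] in
/-- conformal change of the measures -/
theorem riemVol_conformal (g h : RMetric d Ω) (ρ : Ω → ℝ)
    (hρ : ContMDiff (𝓡∂ (d + 1)) 𝓘(ℝ, ℝ) ∞ ρ) (hpos : ∀ x, 0 < ρ x)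
    (hgh : ∀ x v w, h.inner x v w = ρ x ^ 2 * g.inner x v w) :
    riemVol h = (riemVol g).withDensity fun x => ENNReal.ofReal (ρ x ^ (d + 1)) :=
  PB.riemVol_conformal g h ρ hρ hpos hgh

omit [T2Space Ω] in
theorem riemBd_conformal (g h : RMetric d Ω) (ρ : Ω → ℝ)
    (hρ : ContMDiff (𝓡∂ (d + 1)) 𝓘(ℝ, ℝ) ∞ ρ) (hpos : ∀ x, 0 < ρ x)
    (hgh : ∀ x v w, h.inner x v w = ρ x ^ 2 * g.inner x v w) :
    riemBd h = (riemBd g).withDensity fun x => ENNReal.ofReal (ρ x ^ d) :=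
  PB.riemBd_conformal g h ρ hρ hpos hgh

end Pool.Agent.Steklov
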