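import Mathlib

set_option autoImplicit false
set_option linter.unusedSectionVars false
set_option linter.unusedVariables false

open Set Filter Topology MeasureTheory Metric
open scoped ENNReal ContDiff

noncomputable section

namespace Pool.Agent.Steklov

/-! ### Greedy choice of balls -/

lemma exists_cover (E : Type*) [NormedAddCommGroup E] [NormedSpace ℝ E] [FiniteDimensional ℝ E] :
    ∃ t : Finset E, ∀ (z : E) (r : ℝ), 0 < r →
      closedBall z (4 * r) ⊆ ⋃ p ∈ t, closedBall (z + (r / 2) • p) (r / 2) := by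
  have : ProperSpace E := FiniteDimensional.proper_real E
  obtain ⟨t, _, ht⟩ := (isCompact_closedBall (0 : E) 8).elim_nhds_subcover
    (fun x => ball x 1) fun x _ => ball_mem_nhds x one_pos
  refine ⟨t, fun z r hr x hx => ?_⟩
  have h1 : (2 / r) • (x - z) ∈ closedBall (0 : E) 8 := by
    rw [mem_closedBall_zero_iff, norm_smul, Real.norm_of_nonneg (by positivity)]
    rw [mem_closedBall, dist_eq_norm] at hx
    calc 2 / r * ‖x - z‖ ≤ 2 / r * (4 * r) := by gcongr
      _ = 8 := by field_simp; norm_num
  obtain ⟨p, hp, hxp⟩ := mem_iUnion₂.1 (ht h1)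
  refine mem_iUnion₂.2 ⟨p, hp, ?_⟩
  rw [mem_ball, dist_eq_norm] at hxp
  rw [mem_closedBall, dist_eq_norm]
  have h2 : x - (z + (r / 2) • p) = (r / 2) • ((2 / r) • (x - z) - p) := by
    rw [smul_sub, smul_smul]
    rw [show r / 2 * (2 / r) = 1 by field_simp, one_smul]
    abel
  rw [h2, norm_smul, Real.norm_of_nonneg (by positivity)]
  calc r / 2 * ‖(2 / r) • (x - z) - p‖ ≤ r / 2 * 1 := by gcongr
    _ = r / 2 := mul_one _

section greedy

variable {E : Type*} [NormedAddCommGroup E] [NormedSpace ℝ E] [FiniteDimensional ℝ E]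
  [MeasurableSpace E] [BorelSpace E]

/-- The union of the excluded balls. -/
def Ub (z : ℕ → E) (r : ℕ → ℝ) : ℕ → Set E
  | 0 => ∅
  | j + 1 => Ub z r j ∪ closedBall (z j) (4 * r j)

lemma Ub_congr {z z' : ℕ → E} {r r' : ℕ → ℝ} {j : ℕ} (h : ∀ i < j, z i = z' i ∧ r i = r' i) :
    Ub z r j = Ub z' r' j := by
  induction j with
  | zero => rfl
  | succ j ih =>
    simp only [Ub]
    rw [ih fun i hi => h i (by omega), (h j (by omega)).1, (h j (by omega)).2]

lemma mem_Ub {z : ℕ → E} {r : ℕ → ℝ} {j : ℕ} {x : E} :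
    x ∈ Ub z r j ↔ ∃ i < j, x ∈ closedBall (z i) (4 * r i) := by
  induction j with
  | zero => simp [Ub]
  | succ j ih =>
    simp only [Ub, mem_union, ih]
    constructor
    · rintro (⟨i, hi, hx⟩ | hx)
      · exact ⟨i, by omega, hx⟩
      · exact ⟨j, by omega, hx⟩
    · rintro ⟨i, hi, hx⟩
      rcases Nat.lt_succ_iff_lt_or_eq.1 hi with h | h
      · exact Or.inl ⟨i, h, hx⟩
      · exact Or.inr (h ▸ hx)

/-- The greedy choice. -/
theorem greedy (t : Finset E) (ht : ∀ (z : E) (r : ℝ), 0 < r →
      closedBall z (4 * r) ⊆ ⋃ p ∈ t, closedBall (z + (r / 2) • p) (r / 2))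
    (m : Measure E) [IsFiniteMeasure m] (hm0 : 0 < m.real univ) {R₀ : ℝ} (hR₀ : 0 < R₀)
    (hsupp : m (closedBall (0 : E) R₀)ᶜ = 0) (k : ℕ) {c : ℝ} (hc : 0 < c)
    (hc1 : c ≤ 1 / 2) (hc2 : ((k : ℝ) + 1) * (t.card * c) ≤ 1 / 2)
    (hsmall : ∃ r₀, 0 < r₀ ∧ ∀ z, m.real (closedBall z r₀) < c * m.real univ) :
    ∃ (z : ℕ → E) (r : ℕ → ℝ), ∀ l < k + 1, 0 < r l ∧
      c * m.real univ ≤ m.real (closedBall (z l) (r l) \ Ub z r l) := by
  set M₀ := m.real univ with hM₀
  obtain ⟨r₀, hr₀, hsm⟩ := hsmall
  have key : ∀ j ≤ k + 1, ∃ (z : ℕ → E) (r : ℕ → ℝ), (∀ l < j, 0 < r l ∧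
      c * M₀ ≤ m.real (closedBall (z l) (r l) \ Ub z r l)) ∧
      m.real (Ub z r j) ≤ j * (t.card * c * M₀) := by
    intro j
    induction j with
    | zero =>
      intro _
      exact ⟨fun _ => 0, fun _ => 0, fun l hl => absurd hl (Nat.not_lt_zero l), by simp [Ub]⟩
    | succ j ih =>
      intro hj
      obtain ⟨z, r, hzr, hU⟩ := ih (by omega)
      set V := Ub z r j with hV
      have hjk : (j : ℝ) ≤ k := by exact_mod_cast (by omega : j ≤ k)
      have hV2 : m.real V ≤ M₀ / 2 := by
        refine hU.trans ?_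
        have h1 : (j : ℝ) * (t.card * c * M₀) ≤ ((k : ℝ) + 1) * (t.card * c) * M₀ := by
          have : (0 : ℝ) ≤ t.card * c * M₀ := by positivity
          nlinarith
        nlinarith
      have hA0 : c * M₀ ≤ m.real (closedBall (0 : E) R₀ \ V) := by
        have h1 : (univ : Set E) ⊆ V ∪ (closedBall (0 : E) R₀ \ V) ∪ (closedBall (0 : E) R₀)ᶜ := by
          intro x _
          by_cases h : x ∈ V
          · exact Or.inl (Or.inl h)
          · by_cases h' : x ∈ closedBall (0 : E) R₀
            · exact Or.inl (Or.inr ⟨h', h⟩)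
            · exact Or.inr h'
        have h2 := measureReal_mono (μ := m) h1 (measure_ne_top _ _)
        have h3 := measureReal_union_le (μ := m) (V ∪ (closedBall (0 : E) R₀ \ V))
          (closedBall (0 : E) R₀)ᶜ
        have h4 := measureReal_union_le (μ := m) V (closedBall (0 : E) R₀ \ V)
        have h5 : m.real (closedBall (0 : E) R₀)ᶜ = 0 := by
          rw [Measure.real, hsupp, ENNReal.toReal_zero]
        nlinarith
      -- dyadic radii
      set A : ℕ → Prop := fun i => ∃ z', c * M₀ ≤ m.real (closedBall z' (R₀ * (1 / 2) ^ i) \ V)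
        with hA
      have hA0' : A 0 := ⟨0, by simpa using hA0⟩
      have hAf : ∃ i, ¬ A i := by
        obtain ⟨i, hi⟩ := exists_pow_lt_of_lt_one (div_pos hr₀ hR₀) (by norm_num : (1 / 2 : ℝ) < 1)
        refine ⟨i, ?_⟩
        rintro ⟨z', hz'⟩
        have h1 : R₀ * (1 / 2) ^ i ≤ r₀ := by
          rw [lt_div_iff₀ hR₀] at hi
          linarith
        have h2 : m.real (closedBall z' (R₀ * (1 / 2) ^ i) \ V) ≤ m.real (closedBall z' r₀) :=
          measureReal_mono (sdiff_subset.trans (closedBall_subset_closedBall h1))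
        linarith [hsm z']
      classical
      set i₀ := Nat.find hAf with hi₀
      have hi₀1 : ¬ A i₀ := Nat.find_spec hAf
      have hi₀0 : i₀ ≠ 0 := by
        intro h
        rw [h] at hi₀1
        exact hi₀1 hA0'
      obtain ⟨i, hi⟩ : ∃ i, i₀ = i + 1 := ⟨i₀ - 1, by omega⟩
      have hAi : A i := by
        by_contra hcon
        exact Nat.find_min hAf (show i < Nat.find hAf by omega) hcon
      obtain ⟨z', hz'⟩ := hAi
      set r' : ℝ := R₀ * (1 / 2) ^ i with hr'
      have hr'0 : 0 < r' := by positivity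
      have hhalf : ∀ y, m.real (closedBall y (r' / 2) \ V) < c * M₀ := by
        intro y
        by_contra hcon
        push Not at hcon
        apply hi₀1
        rw [hi]
        refine ⟨y, ?_⟩
        rw [pow_succ, ← mul_assoc, ← hr']
        have : r' * (1 / 2) = r' / 2 := by ring
        rw [this]
        exact hcon
      have hbig : m.real (closedBall z' (4 * r') \ V) ≤ t.card * c * M₀ := by
        have h1 : closedBall z' (4 * r') \ V ⊆
            ⋃ p ∈ t, (closedBall (z' + (r' / 2) • p) (r' / 2) \ V) := by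
          intro x hx
          obtain ⟨p, hp, hxp⟩ := mem_iUnion₂.1 (ht z' r' hr'0 hx.1)
          exact mem_iUnion₂.2 ⟨p, hp, hxp, hx.2⟩
        have h2 := measureReal_mono (μ := m) h1 (measure_ne_top _ _)
        have h3 := measureReal_biUnion_finset_le (μ := m) t
          (fun p => closedBall (z' + (r' / 2) • p) (r' / 2) \ V)
        have h4 : ∑ p ∈ t, m.real (closedBall (z' + (r' / 2) • p) (r' / 2) \ V) ≤
            ∑ _p ∈ t, c * M₀ := Finset.sum_le_sum fun p _ => (hhalf _).le
        rw [Finset.sum_const, nsmul_eq_mul] at h4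
        linarith
      -- update
      set zz := Function.update z j z' with hzz
      set rr := Function.update r j r' with hrr
      have hcongr : ∀ l ≤ j, Ub zz rr l = Ub z r l := by
        intro l hl
        refine Ub_congr fun i hi => ?_
        have : i ≠ j := by omega
        rw [hzz, hrr, Function.update_of_ne this, Function.update_of_ne this]
        exact ⟨rfl, rfl⟩
      have hzj : zz j = z' := by rw [hzz, Function.update_self]
      have hrj : rr j = r' := by rw [hrr, Function.update_self]
      refine ⟨zz, rr, fun l hl => ?_, ?_⟩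
      · rcases Nat.lt_succ_iff_lt_or_eq.1 hl with h | h
        · have hne : l ≠ j := by omega
          rw [hcongr l h.le, hzz, hrr, Function.update_of_ne hne, Function.update_of_ne hne]
          exact hzr l h
        · subst h
          rw [hcongr l le_rfl, hzj, hrj]
          exact ⟨hr'0, hz'⟩
      · simp only [Ub]
        rw [hcongr j le_rfl, hzj, hrj, ← hV]
        have h1 : V ∪ closedBall z' (4 * r') = V ∪ (closedBall z' (4 * r') \ V) := by
          rw [union_sdiff_self]
        rw [h1]
        have h2 := measureReal_union_le (μ := m) V (closedBall z' (4 * r') \ V)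
        push_cast
        linarith
  obtain ⟨z, r, h, _⟩ := key (k + 1) le_rfl
  exact ⟨z, r, h⟩

end greedy

end Pool.Agent.Steklov
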