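import Mathlib
import Pool.Agent.Lib.MP_4838e0_gt.Fin1

set_option autoImplicit false
set_option linter.unusedSectionVars false
set_option linter.unusedVariables false

open Set Filter Topology MeasureTheory Metric
open scoped ENNReal ContDiff

noncomputable section

namespace Pool.Agent.Steklov

section cut

variable {E : Type*} [NormedAddCommGroup E] [NormedSpace ℝ E] [FiniteDimensional ℝ E]
  [MeasurableSpace E] [BorelSpace E]

/-- the reference bump -/
def bmp (E : Type*) [NormedAddCommGroup E] [NormedSpace ℝ E] [FiniteDimensional ℝ E] :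
    ContDiffBump (0 : E) := ⟨1, 2, one_pos, one_lt_two⟩

lemma bmp_contDiff (E : Type*) [NormedAddCommGroup E] [NormedSpace ℝ E]
    [FiniteDimensional ℝ E] : ContDiff ℝ ∞ (bmp E) := (bmp E).contDiff

/-- cut-off equal to `1` on `closedBall z₀ r` and to `0` off `ball z₀ (2r)`. -/
def cut (z₀ : E) (r : ℝ) (z : E) : ℝ := bmp E (r⁻¹ • (z - z₀))

lemma cut_contDiff (z₀ : E) (r : ℝ) : ContDiff ℝ ∞ (cut z₀ r) := by
  unfold cut
  exact (bmp_contDiff E).comp ((contDiff_id.sub contDiff_const).const_smul _)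

lemma cut_nonneg (z₀ : E) (r : ℝ) (z : E) : 0 ≤ cut z₀ r z := (bmp E).nonneg

lemma cut_le_one (z₀ : E) (r : ℝ) (z : E) : cut z₀ r z ≤ 1 := (bmp E).le_one

lemma cut_eq_one {z₀ : E} {r : ℝ} (hr : 0 < r) {z : E} (hz : z ∈ closedBall z₀ r) :
    cut z₀ r z = 1 := by
  unfold cut
  apply (bmp E).one_of_mem_closedBall
  rw [mem_closedBall_zero_iff, norm_smul, norm_inv, Real.norm_of_nonneg hr.le,
    inv_mul_eq_div, div_le_iff₀ hr, ← dist_eq_norm]
  change dist z z₀ ≤ 1 * r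
  rw [one_mul]
  exact hz

lemma cut_eq_zero {z₀ : E} {r : ℝ} (hr : 0 < r) {z : E} (hz : 2 * r ≤ dist z z₀) :
    cut z₀ r z = 0 := by
  unfold cut
  apply (bmp E).zero_of_le_dist
  rw [dist_zero_right, norm_smul, norm_inv, Real.norm_of_nonneg hr.le,
    inv_mul_eq_div, le_div_iff₀ hr, ← dist_eq_norm]
  exact hz

lemma exists_fderiv_bmp_bound (E : Type*) [NormedAddCommGroup E] [NormedSpace ℝ E]
    [FiniteDimensional ℝ E] : ∃ B : ℝ, 0 ≤ B ∧ ∀ z : E, ‖fderiv ℝ (bmp E) z‖ ≤ B := by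
  have h1 : HasCompactSupport (bmp E) := (bmp E).hasCompactSupport
  have h2 : Continuous (fderiv ℝ (bmp E)) :=
    (bmp_contDiff E).continuous_fderiv (by simp)
  obtain ⟨B, hB⟩ := (h1.fderiv (𝕜 := ℝ)).exists_bound_of_continuous h2
  exact ⟨B, (norm_nonneg _).trans (hB 0), hB⟩

lemma exists_cut_energy (μ : Measure E) [μ.IsAddHaarMeasure] :
    ∃ C : ℝ≥0∞, C ≠ ⊤ ∧ ∀ (z₀ : E) (r : ℝ), 0 < r →
      ∫⁻ z, ‖fderiv ℝ (cut z₀ r) z‖ₑ ^ Module.finrank ℝ E ∂μ ≤ C := by
  obtain ⟨B, hB0, hB⟩ := exists_fderiv_bmp_bound E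
  set n := Module.finrank ℝ E with hn
  refine ⟨ENNReal.ofReal ((2 * B) ^ n) * μ (ball (0 : E) 1), ENNReal.mul_ne_top
    ENNReal.ofReal_ne_top measure_ball_lt_top.ne, fun z₀ r hr => ?_⟩
  have hder : ∀ z, ‖fderiv ℝ (cut z₀ r) z‖ ≤ B / r := by
    intro z
    have h1 : HasFDerivAt (bmp E) (fderiv ℝ (bmp E) (r⁻¹ • (z - z₀))) (r⁻¹ • (z - z₀)) :=
      ((bmp_contDiff E).differentiable (by simp) _).hasFDerivAt
    have h2 : HasFDerivAt (fun z : E => r⁻¹ • (z - z₀))
        (r⁻¹ • ContinuousLinearMap.id ℝ E) z :=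
      ((hasFDerivAt_id z).sub_const z₀).const_smul r⁻¹
    have h3 : HasFDerivAt (cut z₀ r) ((fderiv ℝ (bmp E) (r⁻¹ • (z - z₀))).comp
        (r⁻¹ • ContinuousLinearMap.id ℝ E)) z := h1.comp z h2
    rw [h3.fderiv, ContinuousLinearMap.comp_smul, ContinuousLinearMap.comp_id, norm_smul,
      norm_inv, Real.norm_of_nonneg hr.le, inv_mul_eq_div]
    exact div_le_div_of_nonneg_right (hB _) hr.le
  have hzero : ∀ z, z ∉ closedBall z₀ (2 * r) → fderiv ℝ (cut z₀ r) z = 0 := by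
    intro z hz
    have h1 : cut z₀ r =ᶠ[𝓝 z] fun _ => 0 := by
      filter_upwards [isClosed_closedBall.isOpen_compl.mem_nhds hz] with w hw
      apply cut_eq_zero hr
      rw [mem_compl_iff, mem_closedBall, not_le] at hw
      exact hw.le
    rw [h1.fderiv_eq, fderiv_fun_const]
    rfl
  by_cases hn0 : n = 0
  · rw [hn0]
    have hss : Subsingleton E := Module.finrank_zero_iff.1 hn0
    have h1 : (ball (0 : E) 1) = univ := by
      ext x
      simp [Subsingleton.elim x 0]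
    rw [h1]
    simp
  calc ∫⁻ z, ‖fderiv ℝ (cut z₀ r) z‖ₑ ^ n ∂μ
      ≤ ∫⁻ z, (closedBall z₀ (2 * r)).indicator (fun _ => ENNReal.ofReal ((B / r) ^ n)) z ∂μ := by
        refine lintegral_mono fun z => ?_
        by_cases hz : z ∈ closedBall z₀ (2 * r)
        · rw [indicator_of_mem hz, ENNReal.ofReal_pow (by positivity)]
          refine pow_le_pow_left₀ zero_le ?_ _
          rw [← ofReal_norm]
          exact ENNReal.ofReal_le_ofReal (hder z)
        · rw [indicator_of_notMem hz, hzero z hz, ← ofReal_norm, norm_zero, ENNReal.ofReal_zero,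
            zero_pow hn0]
    _ = ENNReal.ofReal ((B / r) ^ n) * μ (closedBall z₀ (2 * r)) := by
        rw [lintegral_indicator isClosed_closedBall.measurableSet, setLIntegral_const]
    _ = ENNReal.ofReal ((B / r) ^ n) * (ENNReal.ofReal ((2 * r) ^ n) * μ (ball (0 : E) 1)) := by
        rw [Measure.addHaar_closedBall _ _ (by positivity)]
    _ = _ := by
        rw [← mul_assoc, ← ENNReal.ofReal_mul (by positivity), ← mul_pow]
        congr 3
        field_simp

/-- Derivative of a product of functions with values in `[0,1]`. -/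
lemma norm_fderiv_prod_le {ι : Type*} (s : Finset ι) (g : ι → E → ℝ)
    (hg : ∀ i, Differentiable ℝ (g i)) (h0 : ∀ i z, 0 ≤ g i z) (h1 : ∀ i z, g i z ≤ 1) (z : E) :
    ‖fderiv ℝ (fun z => ∏ i ∈ s, g i z) z‖ ≤ ∑ i ∈ s, ‖fderiv ℝ (g i) z‖ := by
  classical
  have key : ∀ s : Finset ι, Differentiable ℝ (fun z => ∏ i ∈ s, g i z) := by
    intro s
    induction s using Finset.induction_on with
    | empty => simp
    | insert a s ha ih =>
      have h2 : (fun z => ∏ i ∈ insert a s, g i z) = fun z => g a z * ∏ i ∈ s, g i z := by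
        funext z
        rw [Finset.prod_insert ha]
      rw [h2]
      exact (hg a).mul ih
  induction s using Finset.induction_on with
  | empty => simp
  | insert a s ha ih =>
    have h2 : (fun z => ∏ i ∈ insert a s, g i z) = fun z => g a z * ∏ i ∈ s, g i z := by
      funext z
      rw [Finset.prod_insert ha]
    rw [h2, fderiv_fun_mul (hg a z) (key s z), Finset.sum_insert ha]
    have hp0 : 0 ≤ ∏ i ∈ s, g i z := Finset.prod_nonneg fun i _ => h0 i z
    have hp1 : ∏ i ∈ s, g i z ≤ 1 := Finset.prod_le_one (fun i _ => h0 i z) fun i _ => h1 i z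
    calc ‖g a z • fderiv ℝ (fun z => ∏ i ∈ s, g i z) z + (∏ i ∈ s, g i z) • fderiv ℝ (g a) z‖
        ≤ ‖g a z • fderiv ℝ (fun z => ∏ i ∈ s, g i z) z‖ +
          ‖(∏ i ∈ s, g i z) • fderiv ℝ (g a) z‖ := norm_add_le _ _
      _ ≤ 1 * ‖fderiv ℝ (fun z => ∏ i ∈ s, g i z) z‖ + 1 * ‖fderiv ℝ (g a) z‖ := by
          rw [norm_smul, norm_smul, Real.norm_of_nonneg (h0 a z), Real.norm_of_nonneg hp0]
          gcongr
          exact h1 a z
      _ ≤ _ := by linarith

lemma sum_pow_le {ι : Type*} (s : Finset ι) (a : ι → ℝ≥0∞) (n : ℕ) (hs : s.Nonempty) :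
    (∑ i ∈ s, a i) ^ n ≤ (s.card : ℝ≥0∞) ^ n * ∑ i ∈ s, a i ^ n := by
  obtain ⟨j, hj, hmax⟩ := s.exists_max_image a hs
  calc (∑ i ∈ s, a i) ^ n ≤ (∑ _i ∈ s, a j) ^ n :=
        pow_le_pow_left₀ zero_le (Finset.sum_le_sum hmax) n
    _ = (s.card : ℝ≥0∞) ^ n * a j ^ n := by
        rw [Finset.sum_const, nsmul_eq_mul, mul_pow]
    _ ≤ _ := by
        refine mul_le_mul' le_rfl ?_
        exact Finset.single_le_sum (f := fun i => a i ^ n) (fun i _ => zero_le) hj

/-- The factors of the `j`-th test function. -/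
def fac (R : ℝ) (z : ℕ → E) (r : ℕ → ℝ) (j : ℕ) : ℕ → E → ℝ
  | 0 => cut 0 R
  | 1 => cut (z j) (r j)
  | i + 2 => fun w => 1 - cut (z i) (2 * r i) w

/-- The `j`-th test function. -/
def tst (R : ℝ) (z : ℕ → E) (r : ℕ → ℝ) (j : ℕ) (w : E) : ℝ :=
  ∏ i ∈ Finset.range (j + 2), fac R z r j i w

variable {R : ℝ} {z : ℕ → E} {r : ℕ → ℝ}

lemma fac_contDiff (R : ℝ) (z : ℕ → E) (r : ℕ → ℝ) (j i : ℕ) : ContDiff ℝ ∞ (fac R z r j i) := by
  match i with
  | 0 => exact cut_contDiff _ _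
  | 1 => exact cut_contDiff _ _
  | i + 2 => exact contDiff_const.sub (cut_contDiff _ _)

lemma fac_nonneg (R : ℝ) (z : ℕ → E) (r : ℕ → ℝ) (j i : ℕ) (w : E) : 0 ≤ fac R z r j i w := by
  match i with
  | 0 => exact cut_nonneg _ _ _
  | 1 => exact cut_nonneg _ _ _
  | i + 2 => exact sub_nonneg.2 (cut_le_one _ _ _)

lemma fac_le_one (R : ℝ) (z : ℕ → E) (r : ℕ → ℝ) (j i : ℕ) (w : E) : fac R z r j i w ≤ 1 := by
  match i with
  | 0 => exact cut_le_one _ _ _
  | 1 => exact cut_le_one _ _ _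
  | i + 2 =>
    have := cut_nonneg (z i) (2 * r i) w
    simp only [fac]
    linarith

lemma tst_contDiff (R : ℝ) (z : ℕ → E) (r : ℕ → ℝ) (j : ℕ) : ContDiff ℝ ∞ (tst R z r j) := by
  unfold tst
  exact contDiff_prod fun i _ => fac_contDiff R z r j i

lemma tst_nonneg (R : ℝ) (z : ℕ → E) (r : ℕ → ℝ) (j : ℕ) (w : E) : 0 ≤ tst R z r j w :=
  Finset.prod_nonneg fun i _ => fac_nonneg R z r j i w

lemma tst_zero_of_big (hR : 0 < R) (j : ℕ) {w : E} (hw : 2 * R ≤ ‖w‖) : tst R z r j w = 0 := by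
  unfold tst
  refine Finset.prod_eq_zero (i := 0) (Finset.mem_range.2 (by omega)) ?_
  apply cut_eq_zero hR
  rwa [dist_zero_right]

lemma tst_zero_of_far {j : ℕ} (hr : 0 < r j) {w : E} (hw : 2 * r j ≤ dist w (z j)) :
    tst R z r j w = 0 := by
  unfold tst
  refine Finset.prod_eq_zero (i := 1) (Finset.mem_range.2 (by omega)) ?_
  exact cut_eq_zero hr hw

lemma tst_zero_of_near {j l : ℕ} (hl : l < j) (hr : 0 < r l) {w : E}
    (hw : dist w (z l) ≤ 2 * r l) : tst R z r j w = 0 := by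
  unfold tst
  refine Finset.prod_eq_zero (i := l + 2) (Finset.mem_range.2 (by omega)) ?_
  simp only [fac]
  rw [cut_eq_one (by positivity) (by rw [mem_closedBall]; exact hw)]
  ring

lemma tst_mul_tst {j l : ℕ} (hne : j ≠ l) (hj : 0 < r j) (hl : 0 < r l) (w : E) :
    tst R z r j w * tst R z r l w = 0 := by
  have key : ∀ {j l : ℕ}, l < j → 0 < r l → tst R z r j w * tst R z r l w = 0 := by
    intro j l hlj hl
    rcases le_total (dist w (z l)) (2 * r l) with h | h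
    · rw [tst_zero_of_near hlj hl h, zero_mul]
    · rw [tst_zero_of_far hl h, mul_zero]
  rcases lt_or_gt_of_ne hne with h | h
  · rw [mul_comm]
    exact key h hj
  · exact key h hl

lemma tst_eq_one {j : ℕ} (hR : 0 < R) (hr : ∀ l ≤ j, 0 < r l) {w : E} (hwR : ‖w‖ ≤ R)
    (hw : w ∈ closedBall (z j) (r j) \ Ub z r j) : tst R z r j w = 1 := by
  unfold tst
  refine Finset.prod_eq_one fun i hi => ?_
  rw [Finset.mem_range] at hi
  match i with
  | 0 => exact cut_eq_one hR (by rwa [mem_closedBall, dist_zero_right])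
  | 1 => exact cut_eq_one (hr j le_rfl) hw.1
  | i + 2 =>
    simp only [fac]
    have h1 : w ∉ closedBall (z i) (4 * r i) := by
      intro hcon
      exact hw.2 (mem_Ub.2 ⟨i, by omega, hcon⟩)
    rw [cut_eq_zero (by have := hr i (by omega); positivity), sub_zero]
    rw [mem_closedBall, not_le] at h1
    linarith

/-- Energy of the test functions. -/
lemma exists_tst_energy (μ : Measure E) [μ.IsAddHaarMeasure] (k : ℕ) :
    ∃ C : ℝ≥0∞, C ≠ ⊤ ∧ ∀ (R : ℝ) (z : ℕ → E) (r : ℕ → ℝ), 0 < R → ∀ j ≤ k,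
      (∀ l ≤ j, 0 < r l) →
      ∫⁻ w, ‖fderiv ℝ (tst R z r j) w‖ₑ ^ Module.finrank ℝ E ∂μ ≤ C := by
  obtain ⟨C, hC, h⟩ := exists_cut_energy μ
  set n := Module.finrank ℝ E with hn
  refine ⟨((k + 2 : ℕ) : ℝ≥0∞) ^ n * (((k + 2 : ℕ) : ℝ≥0∞) * C), ENNReal.mul_ne_top
    (ENNReal.pow_ne_top (ENNReal.natCast_ne_top _)) (ENNReal.mul_ne_top
      (ENNReal.natCast_ne_top _) hC), fun R z r hR j hj hr => ?_⟩
  have hfac : ∀ i ∈ Finset.range (j + 2), ∫⁻ w, ‖fderiv ℝ (fac R z r j i) w‖ₑ ^ n ∂μ ≤ C := by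
    intro i hi
    rw [Finset.mem_range] at hi
    match i with
    | 0 => exact h _ _ hR
    | 1 => exact h _ _ (hr j le_rfl)
    | i + 2 =>
      have h1 : ∀ w, fderiv ℝ (fac R z r j (i + 2)) w = -fderiv ℝ (cut (z i) (2 * r i)) w := by
        intro w
        simp only [fac]
        rw [fderiv_const_sub]
      simp only [h1, enorm_neg]
      exact h _ _ (by have := hr i (by omega); positivity)
  have hdiff : ∀ i, Differentiable ℝ (fac R z r j i) := fun i =>
    (fac_contDiff R z r j i).differentiable (by simp)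
  have hcard : (Finset.range (j + 2)).card = j + 2 := Finset.card_range _
  calc ∫⁻ w, ‖fderiv ℝ (tst R z r j) w‖ₑ ^ n ∂μ
      ≤ ∫⁻ w, ((j + 2 : ℕ) : ℝ≥0∞) ^ n *
          ∑ i ∈ Finset.range (j + 2), ‖fderiv ℝ (fac R z r j i) w‖ₑ ^ n ∂μ := by
        refine lintegral_mono fun w => ?_
        have h1 : ‖fderiv ℝ (tst R z r j) w‖ₑ ≤
            ∑ i ∈ Finset.range (j + 2), ‖fderiv ℝ (fac R z r j i) w‖ₑ := by
          have h2 := norm_fderiv_prod_le (Finset.range (j + 2)) (fac R z r j) hdiff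
            (fun i w => fac_nonneg R z r j i w) (fun i w => fac_le_one R z r j i w) w
          simp only [← ofReal_norm]
          rw [← ENNReal.ofReal_sum_of_nonneg fun i _ => norm_nonneg _]
          exact ENNReal.ofReal_le_ofReal h2
        refine (pow_le_pow_left₀ zero_le h1 n).trans ?_
        have h3 := sum_pow_le (Finset.range (j + 2)) (fun i => ‖fderiv ℝ (fac R z r j i) w‖ₑ) n
          ⟨0, Finset.mem_range.2 (by omega)⟩
        rwa [hcard] at h3
    _ = ((j + 2 : ℕ) : ℝ≥0∞) ^ n *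
          ∑ i ∈ Finset.range (j + 2), ∫⁻ w, ‖fderiv ℝ (fac R z r j i) w‖ₑ ^ n ∂μ := by
        rw [lintegral_const_mul' _ _ (ENNReal.pow_ne_top (ENNReal.natCast_ne_top _)),
          lintegral_finsetSum _ fun i _ => ((measurable_fderiv ℝ _).enorm.pow_const n)]
    _ ≤ ((j + 2 : ℕ) : ℝ≥0∞) ^ n * (((j + 2 : ℕ) : ℝ≥0∞) * C) := by
        refine mul_le_mul' le_rfl ((Finset.sum_le_sum hfac).trans_eq ?_)
        rw [Finset.sum_const, hcard, nsmul_eq_mul]
    _ ≤ _ := by
        have h4 : ((j + 2 : ℕ) : ℝ≥0∞) ≤ ((k + 2 : ℕ) : ℝ≥0∞) := by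
          exact_mod_cast (by omega : j + 2 ≤ k + 2)
        exact mul_le_mul' (pow_le_pow_left₀ zero_le h4 n) (mul_le_mul' h4 le_rfl)

end cut

end Pool.Agent.Steklov
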