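import Mathlib
import Pool.Agent.Lib.MP_4838e0_gt.Abstract

set_option autoImplicit false

open Set Filter Topology MeasureTheory
open scoped ENNReal

noncomputable section

namespace Pool.Agent.Steklov

/-- Cauchy-Schwarz for the lower Lebesgue integral. -/
lemma sq_lintegral_mul_le {α : Type*} [MeasurableSpace α] (μ : Measure α) {f g : α → ℝ≥0∞}
    (hf : AEMeasurable f μ) (hg : AEMeasurable g μ) :
    (∫⁻ a, f a * g a ∂μ) ^ 2 ≤ (∫⁻ a, f a ^ 2 ∂μ) * ∫⁻ a, g a ^ 2 ∂μ := by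
  have hpq : (2 : ℝ).HolderConjugate 2 := Real.HolderConjugate.two_two
  have h := ENNReal.lintegral_mul_le_Lp_mul_Lq μ hpq hf hg
  have h2 := pow_le_pow_left₀ zero_le h 2
  refine h2.trans_eq ?_
  rw [mul_pow]
  have h3 : ∀ x : ℝ≥0∞, (x ^ (1 / (2 : ℝ))) ^ 2 = x := by
    intro x
    rw [← ENNReal.rpow_natCast, ← ENNReal.rpow_mul]
    norm_num
  rw [h3, h3]
  congr 1 <;>
  · refine lintegral_congr fun a => ?_
    norm_cast

/-- Jensen: the square of an average is at most the average of the square. -/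
lemma sq_lintegral_le {α : Type*} [MeasurableSpace α] (μ : Measure α) {g : α → ℝ≥0∞}
    (hg : AEMeasurable g μ) :
    (∫⁻ a, g a ∂μ) ^ 2 ≤ μ univ * ∫⁻ a, g a ^ 2 ∂μ := by
  have := sq_lintegral_mul_le μ (f := fun _ => 1) aemeasurable_const hg
  simpa using this

variable {d : ℕ}

/-- `u` is `C^1` on the closed half-cube. -/
def C1 (d : ℕ) (R : ℝ) (u : ℝ × (Fin d → ℝ) → ℝ) : Prop := ContDiffOn ℝ 1 u (Q d R)

lemma Q_mono {r r' : ℝ} (h : r ≤ r') : Q d r ⊆ Q d r' :=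
  prod_mono (Icc_subset_Icc_right h) (Metric.closedBall_subset_closedBall h)

lemma C1.mono {r r' : ℝ} {u : ℝ × (Fin d → ℝ) → ℝ} (hu : C1 d r' u) (h : r ≤ r') : C1 d r u :=
  ContDiffOn.mono hu (Q_mono h)

lemma measurable_enorm_fderiv (u : ℝ × (Fin d → ℝ) → ℝ) :
    Measurable fun z => ‖fderiv ℝ u z‖ₑ := (measurable_fderiv ℝ u).enorm

lemma isOpen_Qo (d : ℕ) (r : ℝ) : IsOpen (Qo d r) := isOpen_Ioo.prod Metric.isOpen_ball

lemma Qo_subset_Q (d : ℕ) (r : ℝ) : Qo d r ⊆ Q d r :=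
  prod_mono Ioo_subset_Icc_self Metric.ball_subset_closedBall

lemma C1.differentiableAt {R : ℝ} {u : ℝ × (Fin d → ℝ) → ℝ} (hu : C1 d R u)
    {z : ℝ × (Fin d → ℝ)} (hz : z ∈ Qo d R) : DifferentiableAt ℝ u z := by
  have h1 : Q d R ∈ 𝓝 z := mem_of_superset ((isOpen_Qo d R).mem_nhds hz) (Qo_subset_Q d R)
  exact ((hu z (Qo_subset_Q d R hz)).differentiableWithinAt one_ne_zero).differentiableAt h1

/-- The vertical line through `x`. -/
lemma C1.vertical {R : ℝ} {u : ℝ × (Fin d → ℝ) → ℝ} (hu : C1 d R u) {x : Fin d → ℝ}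
    (hx : ‖x‖ ≤ R) : ContDiffOn ℝ 1 (fun t : ℝ => u (t, x)) (Icc 0 R) := by
  refine ContDiffOn.comp (t := Q d R) hu ?_ ?_
  · exact (contDiff_id.prodMk contDiff_const).contDiffOn
  · intro t ht
    exact ⟨ht, by simpa using hx⟩

lemma C1.deriv_vertical_le {R : ℝ} {u : ℝ × (Fin d → ℝ) → ℝ} (hu : C1 d R u) {x : Fin d → ℝ}
    (hx : ‖x‖ < R) {t : ℝ} (ht : t ∈ Ioo 0 R) :
    ‖deriv (fun t : ℝ => u (t, x)) t‖ₑ ≤ ‖fderiv ℝ u (t, x)‖ₑ := by
  have h1 : DifferentiableAt ℝ u (t, x) := hu.differentiableAt ⟨ht, by simpa using hx⟩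
  have h2 : HasDerivAt (fun t : ℝ => ((t, x) : ℝ × (Fin d → ℝ))) (1, 0) t :=
    (hasDerivAt_id t).prodMk (hasDerivAt_const t x)
  have h3 := h1.hasFDerivAt.comp_hasDerivAt t h2
  have h4 : deriv (fun t : ℝ => u (t, x)) t = fderiv ℝ u (t, x) (1, 0) := h3.deriv
  rw [h4]
  have h5 := (fderiv ℝ u (t, x)).le_opNorm (1, 0)
  have h6 : ‖((1 : ℝ), (0 : Fin d → ℝ))‖ = 1 := by simp [Prod.norm_def]
  rw [h6, mul_one] at h5
  rw [enorm_le_iff_norm_le]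
  exact h5

/-- Weighted vertical estimate. -/
lemma vertical_weighted {R : ℝ} {u : ℝ × (Fin d → ℝ) → ℝ} (hu : C1 d R u) {x : Fin d → ℝ}
    (hx : ‖x‖ < R) {t : ℝ} (ht0 : 0 ≤ t) (htR : t ≤ R) (θ : ℝ → ℝ) (hθ : Measurable θ)
    (hθpos : ∀ τ ∈ Icc 0 t, 0 < θ τ) :
    ‖u (t, x) - u (0, x)‖ₑ ^ 2 ≤ (∫⁻ τ in Icc 0 t, ENNReal.ofReal (1 / θ τ)) *
      ∫⁻ τ in Icc 0 t, ENNReal.ofReal (θ τ) * ‖fderiv ℝ u (τ, x)‖ₑ ^ 2 := by
  have h1 := enorm_sub_le_lintegral_deriv_of_contDiffOn_Icc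
    ((hu.vertical hx.le).mono (Icc_subset_Icc_right htR)) ht0
  have h2 : ∫⁻ τ in Icc 0 t, ‖deriv (fun t : ℝ => u (t, x)) τ‖ₑ ≤
      ∫⁻ τ in Icc 0 t, ENNReal.ofReal (Real.sqrt (1 / θ τ)) *
        (ENNReal.ofReal (Real.sqrt (θ τ)) * ‖fderiv ℝ u (τ, x)‖ₑ) := by
    refine lintegral_mono_ae ?_
    rw [← restrict_Ioo_eq_restrict_Icc]
    filter_upwards [self_mem_ae_restrict measurableSet_Ioo] with τ hτ
    refine (hu.deriv_vertical_le hx ⟨hτ.1, hτ.2.trans_le htR⟩).trans_eq ?_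
    have hp := hθpos τ ⟨hτ.1.le, hτ.2.le⟩
    rw [← mul_assoc, ← ENNReal.ofReal_mul (Real.sqrt_nonneg _), ← Real.sqrt_mul (by positivity),
      one_div_mul_cancel hp.ne', Real.sqrt_one, ENNReal.ofReal_one, one_mul]
  have hm : Measurable fun τ : ℝ => ‖fderiv ℝ u (τ, x)‖ₑ :=
    (measurable_enorm_fderiv u).comp (measurable_id.prodMk measurable_const)
  have h3 := sq_lintegral_mul_le ((volume : Measure ℝ).restrict (Icc 0 t))
    (f := fun τ => ENNReal.ofReal (Real.sqrt (1 / θ τ)))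
    (g := fun τ => ENNReal.ofReal (Real.sqrt (θ τ)) * ‖fderiv ℝ u (τ, x)‖ₑ)
    (by fun_prop) (by fun_prop)
  refine (pow_le_pow_left₀ zero_le (h1.trans h2) 2).trans (h3.trans ?_)
  refine mul_le_mul' ?_ ?_
  · refine setLIntegral_mono' measurableSet_Icc fun τ hτ => ?_
    have hp := hθpos τ hτ
    rw [← ENNReal.ofReal_pow (Real.sqrt_nonneg _), Real.sq_sqrt (by positivity)]
  · refine setLIntegral_mono' measurableSet_Icc fun τ hτ => ?_
    have hp := hθpos τ hτ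
    rw [mul_pow, ← ENNReal.ofReal_pow (Real.sqrt_nonneg _), Real.sq_sqrt hp.le]

end Pool.Agent.Steklov
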