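import Mathlib
import Pool.Agent.Lib.MP_4838e0_gt.Local1

set_option autoImplicit false

open Set Filter Topology MeasureTheory
open scoped ENNReal

noncomputable section

namespace Pool.Agent.Steklov

variable {E : Type*} [NormedAddCommGroup E] [NormedSpace ℝ E]

lemma segment_sq {u : E → ℝ} {K : Set E} (hKc : Convex ℝ K) (hKo : IsOpen K)
    (hu : ContDiffOn ℝ 1 u K) {x y : E} (hx : x ∈ K) (hy : y ∈ K) [MeasurableSpace E]
    [BorelSpace E] [FiniteDimensional ℝ E] :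
    ‖u x - u y‖ₑ ^ 2 ≤ ‖x - y‖ₑ ^ 2 *
      ∫⁻ t in Icc (0 : ℝ) 1, ‖fderiv ℝ u ((1 - t) • x + t • y)‖ₑ ^ 2 := by
  let γ : ℝ → E := fun t => (1 - t) • x + t • y
  have hγK : ∀ t ∈ Icc (0 : ℝ) 1, γ t ∈ K := fun t ht =>
    hKc hx hy (by linarith [ht.2]) ht.1 (by ring)
  have hγd : ∀ t, HasDerivAt γ (y - x) t := by
    intro t
    have h1 : HasDerivAt (fun t : ℝ => (1 - t) • x) ((-1 : ℝ) • x) t :=
      ((hasDerivAt_id t).const_sub 1).smul_const x
    have h2 : HasDerivAt (fun t : ℝ => t • y) ((1 : ℝ) • y) t := (hasDerivAt_id t).smul_const y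
    have h3 := h1.add h2
    have h4 : (-1 : ℝ) • x + (1 : ℝ) • y = y - x := by
      rw [neg_one_smul, one_smul]
      abel
    rw [h4] at h3
    exact h3
  have hγs : ContDiff ℝ 1 γ := by
    change ContDiff ℝ 1 fun t : ℝ => (1 - t) • x + t • y
    fun_prop
  have h1 : ContDiffOn ℝ 1 (u ∘ γ) (Icc 0 1) := hu.comp hγs.contDiffOn hγK
  have h2 := enorm_sub_le_lintegral_deriv_of_contDiffOn_Icc h1 zero_le_one
  have h3 : ∫⁻ t in Icc (0 : ℝ) 1, ‖deriv (u ∘ γ) t‖ₑ ≤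
      ∫⁻ t in Icc (0 : ℝ) 1, ‖fderiv ℝ u (γ t)‖ₑ * ‖x - y‖ₑ := by
    refine setLIntegral_mono' measurableSet_Icc fun t ht => ?_
    have hd : DifferentiableAt ℝ u (γ t) :=
      (hu.contDiffAt (hKo.mem_nhds (hγK t ht))).differentiableAt one_ne_zero
    have h4 : deriv (u ∘ γ) t = fderiv ℝ u (γ t) (y - x) :=
      (hd.hasFDerivAt.comp_hasDerivAt t (hγd t)).deriv
    rw [h4]
    have h5 := (fderiv ℝ u (γ t)).le_opNorm (y - x)
    rw [← enorm_neg (x - y), neg_sub]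
    rw [← enorm_norm (fderiv ℝ u (γ t)), ← enorm_norm (y - x), ← enorm_mul]
    rw [enorm_le_iff_norm_le]
    rw [Real.norm_of_nonneg (by positivity : 0 ≤ ‖fderiv ℝ u (γ t)‖ * ‖y - x‖)]
    exact h5
  have hm : Measurable fun t : ℝ => ‖fderiv ℝ u (γ t)‖ₑ :=
    (measurable_fderiv ℝ u).enorm.comp hγs.continuous.measurable
  have h6 : ‖u x - u y‖ₑ = ‖(u ∘ γ) 1 - (u ∘ γ) 0‖ₑ := by
    rw [← enorm_neg]
    congr 1
    simp [γ]
  rw [h6]
  calc ‖(u ∘ γ) 1 - (u ∘ γ) 0‖ₑ ^ 2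
      ≤ (∫⁻ t in Icc (0 : ℝ) 1, ‖fderiv ℝ u (γ t)‖ₑ * ‖x - y‖ₑ) ^ 2 :=
        pow_le_pow_left₀ zero_le (h2.trans h3) 2
    _ = ‖x - y‖ₑ ^ 2 * (∫⁻ t in Icc (0 : ℝ) 1, ‖fderiv ℝ u (γ t)‖ₑ) ^ 2 := by
        rw [lintegral_mul_const _ hm, mul_pow, mul_comm]
    _ ≤ ‖x - y‖ₑ ^ 2 * ∫⁻ t in Icc (0 : ℝ) 1, ‖fderiv ℝ u (γ t)‖ₑ ^ 2 := by
        refine mul_le_mul' le_rfl ?_
        have := sq_lintegral_le ((volume : Measure ℝ).restrict (Icc 0 1)) hm.aemeasurable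
        simpa using this

variable [MeasurableSpace E] [BorelSpace E] [FiniteDimensional ℝ E]

lemma lintegral_comp_affine (μ : Measure E) [μ.IsAddHaarMeasure] {G : E → ℝ≥0∞}
    (hG : Measurable G) {c : ℝ} (hc : c ≠ 0) (b : E) :
    ∫⁻ x, G (c • x + b) ∂μ = ENNReal.ofReal |(c ^ Module.finrank ℝ E)⁻¹| * ∫⁻ x, G x ∂μ := by
  have h1 : ∫⁻ x, G (c • x + b) ∂μ = ∫⁻ z, G (z + b) ∂(Measure.map (c • ·) μ) := by
    have h2 : Measurable fun z => G (z + b) := hG.comp (measurable_add_const b)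
    rw [lintegral_map h2 (measurable_const_smul c)]
  rw [h1, Measure.map_addHaar_smul μ hc, lintegral_smul_measure, smul_eq_mul,
    lintegral_add_right_eq_self]

lemma lintegral_swap3 {α β γ : Type*} [MeasurableSpace α] [MeasurableSpace β] [MeasurableSpace γ]
    (μ : Measure α) (ν : Measure β) (τ : Measure γ) [SFinite μ] [SFinite ν] [SFinite τ]
    (H : α → β → γ → ℝ≥0∞) (hH : Measurable fun p : (α × β) × γ => H p.1.1 p.1.2 p.2) :
    ∫⁻ x, ∫⁻ y, ∫⁻ t, H x y t ∂τ ∂ν ∂μ = ∫⁻ t, ∫⁻ x, ∫⁻ y, H x y t ∂ν ∂μ ∂τ := by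
  have h1 : ∀ x, ∫⁻ y, ∫⁻ t, H x y t ∂τ ∂ν = ∫⁻ t, ∫⁻ y, H x y t ∂ν ∂τ := by
    intro x
    refine lintegral_lintegral_swap (f := fun y t => H x y t) (Measurable.aemeasurable ?_)
    exact hH.comp ((measurable_const.prodMk measurable_fst).prodMk measurable_snd)
  simp_rw [h1]
  refine lintegral_lintegral_swap (f := fun x t => ∫⁻ y, H x y t ∂ν) (Measurable.aemeasurable ?_)
  have h2 : Measurable fun q : (α × γ) × β => H q.1.1 q.2 q.1.2 :=
    hH.comp (((measurable_fst.comp measurable_fst).prodMk measurable_snd).prodMk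
      (measurable_snd.comp measurable_fst))
  exact h2.lintegral_prod_right'

lemma lintegral_swap3' {α β γ : Type*} [MeasurableSpace α] [MeasurableSpace β] [MeasurableSpace γ]
    (μ : Measure α) (ν : Measure β) (τ : Measure γ) [SFinite μ] [SFinite ν] [SFinite τ]
    (H : α → β → γ → ℝ≥0∞) (hH : Measurable fun p : (α × β) × γ => H p.1.1 p.1.2 p.2) :
    ∫⁻ x, ∫⁻ y, ∫⁻ t, H x y t ∂τ ∂ν ∂μ = ∫⁻ t, ∫⁻ y, ∫⁻ x, H x y t ∂μ ∂ν ∂τ := by
  rw [lintegral_swap3 μ ν τ H hH]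
  refine lintegral_congr fun t => ?_
  refine lintegral_lintegral_swap (f := fun x y => H x y t) (Measurable.aemeasurable ?_)
  exact hH.comp (measurable_id.prodMk measurable_const)

lemma poincare_convex (μ : Measure E) [μ.IsAddHaarMeasure] {K : Set E} (hKc : Convex ℝ K)
    (hKo : IsOpen K) {l : ℝ} (hl : ∀ x ∈ K, ∀ y ∈ K, ‖x - y‖ ≤ l) {u : E → ℝ}
    (hu : ContDiffOn ℝ 1 u K) {w : E → ℝ≥0∞} (hw : Measurable w)
    (hw1 : ∀ x ∈ K, ∀ y ∈ K, ∀ t ∈ Icc (0 : ℝ) 1, w x * w y ≤ w ((1 - t) • x + t • y)) :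
    ∫⁻ x in K, ∫⁻ y in K, ‖u x - u y‖ₑ ^ 2 * (w x * w y) ∂μ ∂μ ≤
      ENNReal.ofReal (l ^ 2) * (2 ^ Module.finrank ℝ E * μ K *
        ∫⁻ z in K, w z * ‖fderiv ℝ u z‖ₑ ^ 2 ∂μ) := by
  set n := Module.finrank ℝ E with hn
  let G : E → ℝ≥0∞ := K.indicator fun z => w z * ‖fderiv ℝ u z‖ₑ ^ 2
  have hKm : MeasurableSet K := hKo.measurableSet
  have hG : Measurable G :=
    (hw.mul ((measurable_fderiv ℝ u).enorm.pow_const 2)).indicator hKm
  have hGint : ∫⁻ z, G z ∂μ = ∫⁻ z in K, w z * ‖fderiv ℝ u z‖ₑ ^ 2 ∂μ :=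
    lintegral_indicator hKm _
  -- pointwise bound
  have hpt : ∀ x ∈ K, ∀ y ∈ K, ‖u x - u y‖ₑ ^ 2 * (w x * w y) ≤
      ENNReal.ofReal (l ^ 2) * ∫⁻ t in Icc (0 : ℝ) 1, G ((1 - t) • x + t • y) := by
    intro x hx y hy
    have hm : Measurable fun t : ℝ => ‖fderiv ℝ u ((1 - t) • x + t • y)‖ₑ ^ 2 := by
      have : Measurable fun t : ℝ => (1 - t) • x + t • y := by
        apply Continuous.measurable
        fun_prop
      exact ((measurable_fderiv ℝ u).enorm.comp this).pow_const 2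
    calc ‖u x - u y‖ₑ ^ 2 * (w x * w y)
        ≤ (‖x - y‖ₑ ^ 2 * ∫⁻ t in Icc (0 : ℝ) 1, ‖fderiv ℝ u ((1 - t) • x + t • y)‖ₑ ^ 2) *
          (w x * w y) := mul_le_mul' (segment_sq hKc hKo hu hx hy) le_rfl
      _ ≤ (ENNReal.ofReal (l ^ 2) *
          ∫⁻ t in Icc (0 : ℝ) 1, ‖fderiv ℝ u ((1 - t) • x + t • y)‖ₑ ^ 2) *
          (w x * w y) := by
          refine mul_le_mul' (mul_le_mul' ?_ le_rfl) le_rfl
          have h1 := hl x hx y hy
          have h2 : 0 ≤ ‖x - y‖ := norm_nonneg _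
          rw [← ofReal_norm, ← ENNReal.ofReal_pow h2]
          exact ENNReal.ofReal_le_ofReal (pow_le_pow_left₀ h2 h1 2)
      _ = ENNReal.ofReal (l ^ 2) *
          ∫⁻ t in Icc (0 : ℝ) 1, (w x * w y) * ‖fderiv ℝ u ((1 - t) • x + t • y)‖ₑ ^ 2 := by
          rw [lintegral_const_mul _ hm]
          ring
      _ ≤ ENNReal.ofReal (l ^ 2) * ∫⁻ t in Icc (0 : ℝ) 1, G ((1 - t) • x + t • y) := by
          refine mul_le_mul' le_rfl ?_
          refine setLIntegral_mono' measurableSet_Icc fun t ht => ?_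
          have hz : (1 - t) • x + t • y ∈ K := hKc hx hy (by linarith [ht.2]) ht.1 (by ring)
          change _ ≤ K.indicator _ _
          rw [Set.indicator_of_mem hz]
          exact mul_le_mul' (hw1 x hx y hy t ht) le_rfl
  have hH : Measurable fun p : (E × E) × ℝ => G ((1 - p.2) • p.1.1 + p.2 • p.1.2) := by
    refine hG.comp ?_
    apply Continuous.measurable
    fun_prop
  -- half of the integral
  have hA : ∫⁻ x in K, ∫⁻ y in K, (∫⁻ t in Icc (0 : ℝ) (1 / 2), G ((1 - t) • x + t • y)) ∂μ ∂μ ≤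
      ENNReal.ofReal (1 / 2) * (2 ^ n * μ K * ∫⁻ z, G z ∂μ) := by
    have h1 : ∫⁻ x in K, ∫⁻ y in K, (∫⁻ t in Icc (0 : ℝ) (1 / 2), G ((1 - t) • x + t • y)) ∂μ ∂μ
        = ∫⁻ t in Icc (0 : ℝ) (1 / 2), ∫⁻ y in K, ∫⁻ x in K, G ((1 - t) • x + t • y) ∂μ ∂μ := by
      exact lintegral_swap3' _ _ _ (fun x y t => G ((1 - t) • x + t • y)) hH
    rw [h1]
    calc ∫⁻ t in Icc (0 : ℝ) (1 / 2), ∫⁻ y in K, ∫⁻ x in K, G ((1 - t) • x + t • y) ∂μ ∂μ
        ≤ ∫⁻ t in Icc (0 : ℝ) (1 / 2), (2 ^ n * μ K * ∫⁻ z, G z ∂μ) := by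
          refine setLIntegral_mono' measurableSet_Icc fun t ht => ?_
          have h2 : ∀ y, ∫⁻ x in K, G ((1 - t) • x + t • y) ∂μ ≤ 2 ^ n * ∫⁻ z, G z ∂μ := by
            intro y
            refine (setLIntegral_le_lintegral _ _).trans ?_
            have hpos : (0 : ℝ) < 1 - t := by linarith [ht.2]
            rw [lintegral_comp_affine μ hG hpos.ne']
            refine mul_le_mul' ?_ le_rfl
            rw [abs_of_pos (by positivity)]
            have h3 : ((1 - t) ^ n)⁻¹ ≤ 2 ^ n := by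
              rw [← inv_pow]
              refine pow_le_pow_left₀ (by positivity) ?_ n
              rw [inv_le_comm₀ hpos two_pos]
              linarith [ht.2]
            calc ENNReal.ofReal ((1 - t) ^ n)⁻¹ ≤ ENNReal.ofReal (2 ^ n) :=
                  ENNReal.ofReal_le_ofReal h3
              _ = 2 ^ n := by
                  rw [ENNReal.ofReal_pow two_pos.le]; norm_num
          calc ∫⁻ y in K, ∫⁻ x in K, G ((1 - t) • x + t • y) ∂μ ∂μ
              ≤ ∫⁻ y in K, 2 ^ n * ∫⁻ z, G z ∂μ ∂μ := lintegral_mono h2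
            _ = 2 ^ n * μ K * ∫⁻ z, G z ∂μ := by
              rw [setLIntegral_const]; ring
      _ = ENNReal.ofReal (1 / 2) * (2 ^ n * μ K * ∫⁻ z, G z ∂μ) := by
          rw [setLIntegral_const, Real.volume_Icc, sub_zero, mul_comm]
  have hB : ∫⁻ x in K, ∫⁻ y in K, (∫⁻ t in Icc (1 / 2 : ℝ) 1, G ((1 - t) • x + t • y)) ∂μ ∂μ ≤
      ENNReal.ofReal (1 / 2) * (2 ^ n * μ K * ∫⁻ z, G z ∂μ) := by
    have h1 : ∫⁻ x in K, ∫⁻ y in K, (∫⁻ t in Icc (1 / 2 : ℝ) 1, G ((1 - t) • x + t • y)) ∂μ ∂μ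
        = ∫⁻ t in Icc (1 / 2 : ℝ) 1, ∫⁻ x in K, ∫⁻ y in K, G ((1 - t) • x + t • y) ∂μ ∂μ := by
      exact lintegral_swap3 _ _ _ (fun x y t => G ((1 - t) • x + t • y)) hH
    rw [h1]
    calc ∫⁻ t in Icc (1 / 2 : ℝ) 1, ∫⁻ x in K, ∫⁻ y in K, G ((1 - t) • x + t • y) ∂μ ∂μ
        ≤ ∫⁻ t in Icc (1 / 2 : ℝ) 1, (2 ^ n * μ K * ∫⁻ z, G z ∂μ) := by
          refine setLIntegral_mono' measurableSet_Icc fun t ht => ?_
          have h2 : ∀ x, ∫⁻ y in K, G ((1 - t) • x + t • y) ∂μ ≤ 2 ^ n * ∫⁻ z, G z ∂μ := by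
            intro x
            refine (setLIntegral_le_lintegral _ _).trans ?_
            have hpos : (0 : ℝ) < t := by linarith [ht.1]
            have h4 : ∀ y, (1 - t) • x + t • y = t • y + (1 - t) • x := fun y => add_comm _ _
            simp_rw [h4]
            rw [lintegral_comp_affine μ hG hpos.ne']
            refine mul_le_mul' ?_ le_rfl
            rw [abs_of_pos (by positivity)]
            have h3 : (t ^ n)⁻¹ ≤ 2 ^ n := by
              rw [← inv_pow]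
              refine pow_le_pow_left₀ (by positivity) ?_ n
              rw [inv_le_comm₀ hpos two_pos]
              linarith [ht.1]
            calc ENNReal.ofReal (t ^ n)⁻¹ ≤ ENNReal.ofReal (2 ^ n) :=
                  ENNReal.ofReal_le_ofReal h3
              _ = 2 ^ n := by
                  rw [ENNReal.ofReal_pow two_pos.le]; norm_num
          calc ∫⁻ x in K, ∫⁻ y in K, G ((1 - t) • x + t • y) ∂μ ∂μ
              ≤ ∫⁻ x in K, 2 ^ n * ∫⁻ z, G z ∂μ ∂μ := lintegral_mono h2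
            _ = 2 ^ n * μ K * ∫⁻ z, G z ∂μ := by
              rw [setLIntegral_const]; ring
      _ = ENNReal.ofReal (1 / 2) * (2 ^ n * μ K * ∫⁻ z, G z ∂μ) := by
          rw [setLIntegral_const, Real.volume_Icc, mul_comm]
          norm_num
  calc ∫⁻ x in K, ∫⁻ y in K, ‖u x - u y‖ₑ ^ 2 * (w x * w y) ∂μ ∂μ
      ≤ ∫⁻ x in K, ∫⁻ y in K, (ENNReal.ofReal (l ^ 2) *
          (∫⁻ t in Icc (0 : ℝ) 1, G ((1 - t) • x + t • y))) ∂μ ∂μ := by
        refine setLIntegral_mono' hKm fun x hx => ?_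
        exact setLIntegral_mono' hKm fun y hy => hpt x hx y hy
    _ = ENNReal.ofReal (l ^ 2) * ∫⁻ x in K, ∫⁻ y in K,
          (∫⁻ t in Icc (0 : ℝ) 1, G ((1 - t) • x + t • y)) ∂μ ∂μ := by
        have hm1 : Measurable fun p : E × E => ∫⁻ t in Icc (0 : ℝ) 1,
            G ((1 - t) • p.1 + t • p.2) := hH.lintegral_prod_right'
        rw [← lintegral_const_mul _ hm1.lintegral_prod_right']
        refine lintegral_congr fun x => ?_
        have hm2 : Measurable fun y : E => ∫⁻ t in Icc (0 : ℝ) 1, G ((1 - t) • x + t • y) :=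
          hm1.comp (measurable_const.prodMk measurable_id)
        exact lintegral_const_mul _ hm2
    _ ≤ ENNReal.ofReal (l ^ 2) *
        (ENNReal.ofReal (1 / 2) * (2 ^ n * μ K * ∫⁻ z, G z ∂μ) +
          ENNReal.ofReal (1 / 2) * (2 ^ n * μ K * ∫⁻ z, G z ∂μ)) := by
        refine mul_le_mul' le_rfl ?_
        refine le_trans ?_ (add_le_add hA hB)
        have hm1 : Measurable fun p : E × E => ∫⁻ t in Icc (0 : ℝ) (1 / 2),
            G ((1 - t) • p.1 + t • p.2) := hH.lintegral_prod_right'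
        rw [← lintegral_add_left hm1.lintegral_prod_right']
        refine lintegral_mono fun x => ?_
        have hm2 : Measurable fun y : E => ∫⁻ t in Icc (0 : ℝ) (1 / 2), G ((1 - t) • x + t • y) :=
          hm1.comp (measurable_const.prodMk measurable_id)
        refine le_trans ?_ (lintegral_add_left hm2 _).le
        refine lintegral_mono fun y => ?_
        have : Icc (0 : ℝ) 1 = Icc 0 (1 / 2) ∪ Icc (1 / 2) 1 := by
          rw [Icc_union_Icc_eq_Icc] <;> norm_num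
        rw [this]
        exact lintegral_union_le _ _ _
    _ = ENNReal.ofReal (l ^ 2) * (2 ^ n * μ K * ∫⁻ z in K, w z * ‖fderiv ℝ u z‖ₑ ^ 2 ∂μ) := by
        rw [← add_mul, ← ENNReal.ofReal_add (by norm_num) (by norm_num), hGint]
        norm_num

end Pool.Agent.Steklov
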