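import Mathlib
import Pool.Agent.Lib.MP_4838e0_gt.Poincare

set_option autoImplicit false

open Set Filter Topology MeasureTheory
open scoped ENNReal

noncomputable section

namespace Pool.Agent.Steklov

/-- Distance to the mean is controlled by the mean of the squared differences. -/
lemma enorm_sub_average_sq_le {α : Type*} [MeasurableSpace α] (ν : Measure α) [IsFiniteMeasure ν]
    (hν : ν univ ≠ 0) {u : α → ℝ} (hu : Integrable u ν) (a : ℝ) :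
    ‖a - ⨍ y, u y ∂ν‖ₑ ^ 2 ≤ (ν univ)⁻¹ * ∫⁻ y, ‖a - u y‖ₑ ^ 2 ∂ν := by
  have hNe : NeZero ν := ⟨fun h => hν (by rw [h]; simp)⟩
  have h1 : a - ⨍ y, u y ∂ν = ⨍ y, (a - u y) ∂ν := by
    rw [average_eq, average_eq, integral_sub (integrable_const a) hu, integral_const, smul_sub]
    congr 1
    have : (ν.real univ) ≠ 0 := by
      rw [Measure.real, ENNReal.toReal_ne_zero]
      exact ⟨hν, measure_ne_top ν univ⟩
    rw [smul_smul, inv_mul_cancel₀ this, one_smul]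
  have h2 : ‖a - ⨍ y, u y ∂ν‖ₑ ≤ (ν univ)⁻¹ * ∫⁻ y, ‖a - u y‖ₑ ∂ν := by
    rw [h1, average_eq, enorm_smul]
    refine mul_le_mul' ?_ (enorm_integral_le_lintegral_enorm _)
    have hpos : 0 < ν.real univ := by
      rw [Measure.real]
      exact ENNReal.toReal_pos hν (measure_ne_top ν univ)
    rw [Real.enorm_of_nonneg (inv_nonneg.2 hpos.le), ENNReal.ofReal_inv_of_pos hpos, Measure.real,
      ENNReal.ofReal_toReal (measure_ne_top ν univ)]
  have hm : AEMeasurable (fun y => ‖a - u y‖ₑ) ν :=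
    (aestronglyMeasurable_const.sub hu.1).enorm
  calc ‖a - ⨍ y, u y ∂ν‖ₑ ^ 2 ≤ ((ν univ)⁻¹ * ∫⁻ y, ‖a - u y‖ₑ ∂ν) ^ 2 :=
        pow_le_pow_left₀ zero_le h2 2
    _ = (ν univ)⁻¹ ^ 2 * (∫⁻ y, ‖a - u y‖ₑ ∂ν) ^ 2 := mul_pow _ _ _
    _ ≤ (ν univ)⁻¹ ^ 2 * (ν univ * ∫⁻ y, ‖a - u y‖ₑ ^ 2 ∂ν) :=
        mul_le_mul' le_rfl (sq_lintegral_le ν hm)
    _ = (ν univ)⁻¹ * ∫⁻ y, ‖a - u y‖ₑ ^ 2 ∂ν := by
        rw [← mul_assoc, sq, mul_assoc (ν univ)⁻¹ (ν univ)⁻¹ (ν univ),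
          ENNReal.inv_mul_cancel hν (measure_ne_top ν univ), mul_one]

/-- Weighted Poincare inequality with the mean on an open convex set. -/
lemma poincare_mean {E : Type*} [NormedAddCommGroup E] [NormedSpace ℝ E] [MeasurableSpace E]
    [BorelSpace E] [FiniteDimensional ℝ E]
    (μ : Measure E) [μ.IsAddHaarMeasure] {K : Set E} (hKc : Convex ℝ K)
    (hKo : IsOpen K) {l : ℝ} (hl : ∀ x ∈ K, ∀ y ∈ K, ‖x - y‖ ≤ l) {u : E → ℝ}
    (hu : ContDiffOn ℝ 1 u K) {w : E → ℝ≥0∞} (hw : Measurable w)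
    (hw1 : ∀ x ∈ K, ∀ y ∈ K, ∀ t ∈ Icc (0 : ℝ) 1, w x * w y ≤ w ((1 - t) • x + t • y))
    (ν : Measure E) (hν : ν = (μ.restrict K).withDensity w) (hν0 : ν univ ≠ 0)
    [IsFiniteMeasure ν] (hui : Integrable u ν) :
    ∫⁻ x in K, w x * ‖u x - ⨍ y, u y ∂ν‖ₑ ^ 2 ∂μ ≤
      (ν univ)⁻¹ * (ENNReal.ofReal (l ^ 2) * (2 ^ Module.finrank ℝ E * μ K *
        ∫⁻ z in K, w z * ‖fderiv ℝ u z‖ₑ ^ 2 ∂μ)) := by
  have hKm : MeasurableSet K := hKo.measurableSet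
  have hum : AEMeasurable u (μ.restrict K) :=
    (hu.continuousOn.aestronglyMeasurable hKm).aemeasurable
  refine le_trans ?_ (mul_le_mul' le_rfl (poincare_convex μ hKc hKo hl hu hw hw1))
  have hm : AEMeasurable (fun p : E × E => ‖u p.1 - u p.2‖ₑ ^ 2 * (w p.1 * w p.2))
      ((μ.restrict K).prod (μ.restrict K)) := by
    have h1 : AEMeasurable (fun p : E × E => u p.1) ((μ.restrict K).prod (μ.restrict K)) :=
      hum.comp_quasiMeasurePreserving Measure.quasiMeasurePreserving_fst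
    have h2 : AEMeasurable (fun p : E × E => u p.2) ((μ.restrict K).prod (μ.restrict K)) :=
      hum.comp_quasiMeasurePreserving Measure.quasiMeasurePreserving_snd
    exact ((h1.sub h2).enorm.pow_const 2).mul
      ((hw.comp measurable_fst).mul (hw.comp measurable_snd)).aemeasurable
  rw [← lintegral_const_mul'' _ hm.lintegral_prod_right']
  refine lintegral_mono fun x => ?_
  have h1 := enorm_sub_average_sq_le ν hν0 hui (u x)
  have h2 : ∫⁻ y, ‖u x - u y‖ₑ ^ 2 ∂ν = ∫⁻ y in K, w y * ‖u x - u y‖ₑ ^ 2 ∂μ := by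
    rw [hν, lintegral_withDensity_eq_lintegral_mul₀ hw.aemeasurable]
    · rfl
    · exact ((aemeasurable_const.sub hum).enorm).pow_const 2
  rw [h2] at h1
  calc w x * ‖u x - ⨍ y, u y ∂ν‖ₑ ^ 2
      ≤ w x * ((ν univ)⁻¹ * ∫⁻ y in K, w y * ‖u x - u y‖ₑ ^ 2 ∂μ) := mul_le_mul' le_rfl h1
    _ = (ν univ)⁻¹ * ∫⁻ y in K, ‖u x - u y‖ₑ ^ 2 * (w x * w y) ∂μ := by
        rw [← mul_assoc, mul_comm (w x), mul_assoc, ← lintegral_const_mul'' _ (by
          exact (hw.aemeasurable).mul (((aemeasurable_const.sub hum).enorm).pow_const 2))]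
        congr 1
        refine lintegral_congr fun y => ?_
        ring

variable {d : ℕ}

/-- The open box `(a, T) × {‖x‖ < ϱ}`. -/
def Bx (d : ℕ) (a T ϱ : ℝ) : Set (ℝ × (Fin d → ℝ)) := Ioo a T ×ˢ Metric.ball 0 ϱ

lemma isOpen_Bx (a T ϱ : ℝ) : IsOpen (Bx d a T ϱ) := isOpen_Ioo.prod Metric.isOpen_ball

lemma convex_Bx (a T ϱ : ℝ) : Convex ℝ (Bx d a T ϱ) := (convex_Ioo a T).prod (convex_ball 0 ϱ)

lemma volume_ball_zero (d : ℕ) {r : ℝ} (hr : 0 < r) :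
    volume (Metric.ball (0 : Fin d → ℝ) r) = ENNReal.ofReal ((2 * r) ^ d) := by
  rw [Real.volume_pi_ball _ hr, Fintype.card_fin]

lemma Bx_subset_Qo {a T ϱ R : ℝ} (ha : 0 ≤ a) (hT : T ≤ R) (hϱ : ϱ ≤ R) :
    Bx d a T ϱ ⊆ Qo d R :=
  prod_mono (Ioo_subset_Ioo ha hT) (Metric.ball_subset_ball hϱ)

lemma enorm_sq_eq (a : ℝ) : ‖a‖ₑ ^ 2 = ENNReal.ofReal (a ^ 2) := by
  rw [← Real.enorm_abs, Real.enorm_of_nonneg (abs_nonneg a), ← ENNReal.ofReal_pow (abs_nonneg a),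
    sq_abs]

lemma enorm_sub_sq_le (a b c : ℝ) : ‖a - c‖ₑ ^ 2 ≤ 2 * ‖b - a‖ₑ ^ 2 + 2 * ‖b - c‖ₑ ^ 2 := by
  rw [enorm_sq_eq, enorm_sq_eq, enorm_sq_eq]
  have h2 : (2 : ℝ≥0∞) = ENNReal.ofReal 2 := by norm_num
  rw [h2, ← ENNReal.ofReal_mul two_pos.le, ← ENNReal.ofReal_mul two_pos.le,
    ← ENNReal.ofReal_add (by positivity) (by positivity)]
  refine ENNReal.ofReal_le_ofReal ?_
  nlinarith [sq_nonneg (2 * b - a - c)]

/-- Splitting a boundary value into a vertical part and a bulk part. -/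
lemma trace_split {R : ℝ} {u : ℝ × (Fin d → ℝ) → ℝ} (hu : C1 d R u) {T ϱ : ℝ} (hT : 0 < T)
    (hTR : T ≤ R) (hϱR : ϱ ≤ R) (θ : ℝ → ℝ) (hθ : Measurable θ)
    (hθpos : ∀ τ ∈ Icc 0 T, 0 < θ τ) (w : (Fin d → ℝ) → ℝ≥0∞) (hw : Measurable w) (c : ℝ) :
    ∫⁻ x in Metric.ball 0 ϱ, w x * ‖u (0, x) - c‖ₑ ^ 2 ≤
      2 * (∫⁻ τ in Icc 0 T, ENNReal.ofReal (1 / θ τ)) *
        (∫⁻ z in Bx d 0 T ϱ, w z.2 * ENNReal.ofReal (θ z.1) * ‖fderiv ℝ u z‖ₑ ^ 2) +
      ENNReal.ofReal (4 / T) * ∫⁻ z in Bx d (T / 2) T ϱ, w z.2 * ‖u z - c‖ₑ ^ 2 := by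
  set B : Set (Fin d → ℝ) := Metric.ball 0 ϱ with hB
  have hBm : MeasurableSet B := Metric.isOpen_ball.measurableSet
  set A : (Fin d → ℝ) → ℝ≥0∞ := fun x => (∫⁻ τ in Icc 0 T, ENNReal.ofReal (1 / θ τ)) *
      ∫⁻ τ in Icc 0 T, ENNReal.ofReal (θ τ) * ‖fderiv ℝ u (τ, x)‖ₑ ^ 2 with hA
  have hGm : Measurable fun z : ℝ × (Fin d → ℝ) =>
      ENNReal.ofReal (θ z.1) * ‖fderiv ℝ u z‖ₑ ^ 2 :=
    ((hθ.comp measurable_fst).ennreal_ofReal).mul ((measurable_enorm_fderiv u).pow_const 2)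
  have hAm : Measurable A := by
    refine Measurable.const_mul ?_ _
    exact (hGm.comp measurable_swap).lintegral_prod_right' 
  -- pointwise
  have hpt : ∀ x ∈ B, ∀ t ∈ Ioo (T / 2) T,
      ‖u (0, x) - c‖ₑ ^ 2 ≤ 2 * A x + 2 * ‖u (t, x) - c‖ₑ ^ 2 := by
    intro x hx t ht
    have hx' : ‖x‖ < R := by
      rw [hB, mem_ball_zero_iff] at hx
      exact hx.trans_le hϱR
    have h1 := vertical_weighted hu hx' (t := t) (by linarith [ht.1]) (by linarith [ht.2]) θ hθ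
      (fun τ hτ => hθpos τ ⟨hτ.1, hτ.2.trans ht.2.le⟩)
    have h2 : ‖u (t, x) - u (0, x)‖ₑ ^ 2 ≤ A x := by
      refine h1.trans (mul_le_mul' ?_ ?_)
      · exact lintegral_mono_set (Icc_subset_Icc_right ht.2.le)
      · exact lintegral_mono_set (Icc_subset_Icc_right ht.2.le)
    refine (enorm_sub_sq_le (u (0, x)) (u (t, x)) c).trans ?_
    gcongr
  -- integrate in `t`
  have hT2 : volume (Ioo (T / 2) T) = ENNReal.ofReal (T / 2) := by
    rw [Real.volume_Ioo]; congr 1; ring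
  have hpt2 : ∀ x ∈ B, ENNReal.ofReal (T / 2) * ‖u (0, x) - c‖ₑ ^ 2 ≤
      ENNReal.ofReal (T / 2) * (2 * A x) + ∫⁻ t in Ioo (T / 2) T, 2 * ‖u (t, x) - c‖ₑ ^ 2 := by
    intro x hx
    calc ENNReal.ofReal (T / 2) * ‖u (0, x) - c‖ₑ ^ 2
        = ∫⁻ t in Ioo (T / 2) T, ‖u (0, x) - c‖ₑ ^ 2 := by
          rw [setLIntegral_const, hT2, mul_comm]
      _ ≤ ∫⁻ t in Ioo (T / 2) T, (2 * A x + 2 * ‖u (t, x) - c‖ₑ ^ 2) :=
          setLIntegral_mono' measurableSet_Ioo (hpt x hx)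
      _ = _ := by
          rw [lintegral_add_left measurable_const, setLIntegral_const, hT2, mul_comm]
  have hTne : ENNReal.ofReal (T / 2) ≠ 0 := by
    rw [Ne, ENNReal.ofReal_eq_zero, not_le]; positivity
  have hTinv : ENNReal.ofReal (2 / T) * ENNReal.ofReal (T / 2) = 1 := by
    rw [← ENNReal.ofReal_mul (by positivity)]
    rw [show 2 / T * (T / 2) = 1 by field_simp]
    exact ENNReal.ofReal_one
  have hpt3 : ∀ x ∈ B, w x * ‖u (0, x) - c‖ₑ ^ 2 ≤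
      2 * (w x * A x) + ENNReal.ofReal (4 / T) *
        ∫⁻ t in Ioo (T / 2) T, w x * ‖u (t, x) - c‖ₑ ^ 2 := by
    intro x hx
    have hx' : ‖x‖ ≤ R := by
      rw [hB, mem_ball_zero_iff] at hx
      exact hx.le.trans hϱR
    have hcont : ContinuousOn (fun t : ℝ => u (t, x)) (Ioo (T / 2) T) :=
      (hu.vertical hx').continuousOn.mono fun t ht =>
        ⟨by linarith [ht.1], by linarith [ht.2]⟩
    have hmeas : AEMeasurable (fun t : ℝ => ‖u (t, x) - c‖ₑ ^ 2)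
        (volume.restrict (Ioo (T / 2) T)) :=
      (((hcont.aestronglyMeasurable measurableSet_Ioo).aemeasurable.sub_const c).enorm).pow_const 2
    have h1 := mul_le_mul' (le_refl (w x * ENNReal.ofReal (2 / T))) (hpt2 x hx)
    calc w x * ‖u (0, x) - c‖ₑ ^ 2
        = w x * ENNReal.ofReal (2 / T) * (ENNReal.ofReal (T / 2) * ‖u (0, x) - c‖ₑ ^ 2) := by
          rw [mul_assoc, ← mul_assoc (ENNReal.ofReal (2 / T)), hTinv, one_mul]
      _ ≤ w x * ENNReal.ofReal (2 / T) * (ENNReal.ofReal (T / 2) * (2 * A x) +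
            ∫⁻ t in Ioo (T / 2) T, 2 * ‖u (t, x) - c‖ₑ ^ 2) := h1
      _ = 2 * (w x * A x) + ENNReal.ofReal (4 / T) *
        ∫⁻ t in Ioo (T / 2) T, w x * ‖u (t, x) - c‖ₑ ^ 2 := by
          rw [mul_add]
          congr 1
          · rw [mul_assoc, ← mul_assoc (ENNReal.ofReal (2 / T)), hTinv, one_mul]
            ring
          · rw [lintegral_const_mul'' _ hmeas, lintegral_const_mul'' _ hmeas]
            have : ENNReal.ofReal (4 / T) = ENNReal.ofReal (2 / T) * 2 := by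
              rw [show (4 : ℝ) / T = 2 / T * 2 by ring, ENNReal.ofReal_mul (by positivity)]
              norm_num
            rw [this]
            ring
  have hucont : ContinuousOn u (Bx d (T / 2) T ϱ) :=
    hu.continuousOn.mono ((Bx_subset_Qo (by positivity) hTR hϱR).trans (Qo_subset_Q d R))
  have hwm : AEMeasurable (fun z : ℝ × (Fin d → ℝ) => w z.2 * ‖u z - c‖ₑ ^ 2)
      (((volume : Measure ℝ).restrict (Ioo (T / 2) T)).prod (volume.restrict B)) := by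
    rw [Measure.prod_restrict, ← Measure.volume_eq_prod]
    exact ((hw.comp measurable_snd).aemeasurable).mul
      ((((hucont.aestronglyMeasurable (isOpen_Bx _ _ _).measurableSet).aemeasurable.sub_const
        c).enorm).pow_const 2)
  calc ∫⁻ x in B, w x * ‖u (0, x) - c‖ₑ ^ 2
      ≤ ∫⁻ x in B, (2 * (w x * A x) + ENNReal.ofReal (4 / T) *
        ∫⁻ t in Ioo (T / 2) T, w x * ‖u (t, x) - c‖ₑ ^ 2) := setLIntegral_mono' hBm hpt3
    _ = 2 * (∫⁻ x in B, w x * A x) + ENNReal.ofReal (4 / T) *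
        ∫⁻ x in B, ∫⁻ t in Ioo (T / 2) T, w x * ‖u (t, x) - c‖ₑ ^ 2 := by
        rw [lintegral_add_left (by fun_prop), lintegral_const_mul _ (by fun_prop)]
        congr 1
        exact lintegral_const_mul'' _ hwm.lintegral_prod_left'
    _ = _ := by
        congr 1
        · rw [mul_assoc]
          congr 1
          have h5 : ∫⁻ z in Bx d 0 T ϱ, w z.2 * ENNReal.ofReal (θ z.1) * ‖fderiv ℝ u z‖ₑ ^ 2 =
              ∫⁻ x in B, ∫⁻ τ in Icc 0 T, w x * (ENNReal.ofReal (θ τ) *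
                ‖fderiv ℝ u (τ, x)‖ₑ ^ 2) := by
            rw [Bx, Measure.volume_eq_prod, ← Measure.prod_restrict, lintegral_prod_symm']
            · rw [restrict_Ioo_eq_restrict_Icc]
              refine lintegral_congr fun x => lintegral_congr fun τ => ?_
              ring
            · exact ((hw.comp measurable_snd).mul
                ((hθ.comp measurable_fst).ennreal_ofReal)).mul
                  ((measurable_enorm_fderiv u).pow_const 2)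
          have h6 : Measurable fun x : Fin d → ℝ => ∫⁻ τ in Icc 0 T, w x * (ENNReal.ofReal (θ τ) *
                ‖fderiv ℝ u (τ, x)‖ₑ ^ 2) := by
            have : Measurable fun q : (Fin d → ℝ) × ℝ => w q.1 * (ENNReal.ofReal (θ q.2) *
                ‖fderiv ℝ u (q.2, q.1)‖ₑ ^ 2) :=
              (hw.comp measurable_fst).mul (hGm.comp measurable_swap)
            exact this.lintegral_prod_right'
          rw [h5, ← lintegral_const_mul _ h6]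
          refine lintegral_congr fun x => ?_
          have hm : Measurable fun τ : ℝ => ENNReal.ofReal (θ τ) * ‖fderiv ℝ u (τ, x)‖ₑ ^ 2 :=
            hGm.comp (measurable_id.prodMk measurable_const)
          rw [lintegral_const_mul _ hm, hA]
          ring
        · congr 1
          rw [Bx, Measure.volume_eq_prod, ← Measure.prod_restrict, lintegral_prod_symm _ hwm]

lemma volume_Bx {a T ϱ : ℝ} (hϱ : 0 < ϱ) :
    volume (Bx d a T ϱ) = ENNReal.ofReal (T - a) * ENNReal.ofReal ((2 * ϱ) ^ d) := by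
  rw [Bx, Measure.volume_eq_prod, Measure.prod_prod, Real.volume_Ioo, volume_ball_zero d hϱ]

/-- The measure used for the mean: density `w(x)` on the bulk box. -/
def nu (d : ℕ) (T ϱ : ℝ) (w : (Fin d → ℝ) → ℝ≥0∞) : Measure (ℝ × (Fin d → ℝ)) :=
  (volume.restrict (Bx d (T / 2) T ϱ)).withDensity fun z => w z.2

lemma nu_le (T ϱ : ℝ) {w : (Fin d → ℝ) → ℝ≥0∞} (hw1 : ∀ x, w x ≤ 1) :
    nu d T ϱ w ≤ volume.restrict (Bx d (T / 2) T ϱ) := by
  rw [nu]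
  conv_rhs => rw [← withDensity_one (μ := volume.restrict (Bx d (T / 2) T ϱ))]
  exact withDensity_mono (Eventually.of_forall fun z => hw1 z.2)

lemma nu_univ_ge {T ϱ : ℝ} (hϱ : 0 < ϱ) {w : (Fin d → ℝ) → ℝ≥0∞}
    (hwlow : ∀ x, ‖x‖ < ϱ / 2 → 1 ≤ w x) :
    ENNReal.ofReal (T / 2) * ENNReal.ofReal (ϱ ^ d) ≤ nu d T ϱ w univ := by
  have h1 : volume (Bx d (T / 2) T (ϱ / 2)) = ENNReal.ofReal (T / 2) * ENNReal.ofReal (ϱ ^ d) := by
    rw [volume_Bx (by positivity)]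
    congr 2
    · ring
    · ring
  rw [← h1, nu, withDensity_apply _ MeasurableSet.univ, Measure.restrict_univ]
  have hsub : Bx d (T / 2) T (ϱ / 2) ⊆ Bx d (T / 2) T ϱ :=
    prod_mono subset_rfl (Metric.ball_subset_ball (by linarith))
  calc volume (Bx d (T / 2) T (ϱ / 2)) = ∫⁻ z in Bx d (T / 2) T (ϱ / 2), 1 := by
        rw [setLIntegral_const, one_mul]
    _ ≤ ∫⁻ z in Bx d (T / 2) T (ϱ / 2), w z.2 := by
        refine setLIntegral_mono' (isOpen_Bx _ _ _).measurableSet fun z hz => hwlow _ ?_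
        simpa using hz.2
    _ ≤ ∫⁻ z in Bx d (T / 2) T ϱ, w z.2 := lintegral_mono_set hsub

lemma nu_finite (T : ℝ) {ϱ : ℝ} (hϱ : 0 < ϱ) {w : (Fin d → ℝ) → ℝ≥0∞} (hw1 : ∀ x, w x ≤ 1) :
    IsFiniteMeasure (nu d T ϱ w) := by
  constructor
  refine lt_of_le_of_lt (nu_le T ϱ hw1 univ) ?_
  rw [Measure.restrict_apply_univ, volume_Bx hϱ]
  exact ENNReal.mul_lt_top ENNReal.ofReal_lt_top ENNReal.ofReal_lt_top

lemma isCompact_Qd (d : ℕ) (r : ℝ) : IsCompact (Q d r) :=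
  isCompact_Icc.prod (isCompact_closedBall 0 r)

lemma integrable_nu {R : ℝ} {u : ℝ × (Fin d → ℝ) → ℝ} (hu : ContinuousOn u (Q d R)) {T ϱ : ℝ}
    (hT : 0 < T) (hTR : T ≤ R) (hϱR : ϱ ≤ R) {w : (Fin d → ℝ) → ℝ≥0∞} (hw1 : ∀ x, w x ≤ 1) :
    Integrable u (nu d T ϱ w) := by
  refine Integrable.mono_measure ?_ (nu_le T ϱ hw1)
  have h1 : IntegrableOn u (Q d R) volume := hu.integrableOn_compact (isCompact_Qd d R)
  exact h1.mono_set ((Bx_subset_Qo (by positivity) hTR hϱR).trans (Qo_subset_Q d R))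

instance instHaarProd (d : ℕ) : (volume : Measure (ℝ × (Fin d → ℝ))).IsAddHaarMeasure := by
  rw [Measure.volume_eq_prod]
  infer_instance

/-- The weighted trace inequality. -/
lemma trace_ineq {R : ℝ} {u : ℝ × (Fin d → ℝ) → ℝ} (hu : C1 d R u) {T ϱ : ℝ} (hT : 0 < T)
    (hTR : T ≤ R) (hϱ : 0 < ϱ) (hϱR : ϱ ≤ R) (θ : ℝ → ℝ) (hθ : Measurable θ)
    (hθpos : ∀ τ ∈ Icc 0 T, 0 < θ τ) {θ₁ : ℝ} (hθ₁ : 0 < θ₁) (hθ₁' : ∀ τ ∈ Ioo (T / 2) T, θ₁ ≤ θ τ)
    (w : (Fin d → ℝ) → ℝ≥0∞) (hw : Measurable w) (hw1 : ∀ x, w x ≤ 1)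
    (hwlow : ∀ x, ‖x‖ < ϱ / 2 → 1 ≤ w x)
    (hwstar : ∀ x y, ∀ t ∈ Icc (0 : ℝ) 1, w x * w y ≤ w ((1 - t) • x + t • y)) :
    ∫⁻ x in Metric.ball 0 ϱ, w x * ‖u (0, x) - ⨍ y, u y ∂(nu d T ϱ w)‖ₑ ^ 2 ≤
      (2 * (∫⁻ τ in Icc 0 T, ENNReal.ofReal (1 / θ τ)) +
        ENNReal.ofReal (4 / T * (2 ^ (2 * d + 1) * (T + 2 * ϱ) ^ 2) / θ₁)) *
        (∫⁻ z in Bx d 0 T ϱ, w z.2 * ENNReal.ofReal (θ z.1) * ‖fderiv ℝ u z‖ₑ ^ 2) := by
  have hfin := nu_finite (d := d) T hϱ hw1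
  have hge := nu_univ_ge (T := T) hϱ hwlow
  have hpos : (0 : ℝ≥0∞) < ENNReal.ofReal (T / 2) * ENNReal.ofReal (ϱ ^ d) := by
    refine ENNReal.mul_pos ?_ ?_
    · rw [Ne, ENNReal.ofReal_eq_zero, not_le]; positivity
    · rw [Ne, ENNReal.ofReal_eq_zero, not_le]; positivity
  have hν0 : nu d T ϱ w univ ≠ 0 := (hpos.trans_le hge).ne'
  have h1 := trace_split hu hT hTR hϱR θ hθ hθpos w hw (⨍ y, u y ∂(nu d T ϱ w))
  refine h1.trans ?_
  rw [add_mul]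
  refine add_le_add le_rfl ?_
  have hKsub : Bx d (T / 2) T ϱ ⊆ Q d R :=
    (Bx_subset_Qo (by positivity) hTR hϱR).trans (Qo_subset_Q d R)
  have h2 := poincare_mean (volume : Measure (ℝ × (Fin d → ℝ))) (K := Bx d (T / 2) T ϱ)
    (convex_Bx _ _ _) (isOpen_Bx _ _ _) (l := T + 2 * ϱ) (by
      rintro ⟨t, x⟩ ⟨ht, hx⟩ ⟨t', x'⟩ ⟨ht', hx'⟩
      rw [Prod.norm_def]
      simp only [Prod.fst_sub, Prod.snd_sub]
      refine max_le ?_ ?_
      · rw [Real.norm_eq_abs, abs_le]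
        constructor <;> linarith [ht.1, ht.2, ht'.1, ht'.2]
      · refine (norm_sub_le _ _).trans ?_
        rw [mem_ball_zero_iff] at hx hx'
        simp only at hx hx'
        linarith)
    (ContDiffOn.mono hu hKsub) (w := fun z => w z.2) (hw.comp measurable_snd) (by
      intro x _ y _ t ht
      exact hwstar x.2 y.2 t ht) (nu d T ϱ w) rfl hν0
    (integrable_nu hu.continuousOn hT hTR hϱR hw1)
  refine (mul_le_mul' le_rfl h2).trans ?_
  have hfr : Module.finrank ℝ (ℝ × (Fin d → ℝ)) = d + 1 := by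
    rw [Module.finrank_prod, Module.finrank_self, Module.finrank_fin_fun, add_comm]
  rw [hfr]
  -- the volume ratio
  have hratio : (nu d T ϱ w univ)⁻¹ * volume (Bx d (T / 2) T ϱ) ≤ 2 ^ d := by
    have h3 : volume (Bx d (T / 2) T ϱ) = 2 ^ d * (ENNReal.ofReal (T / 2) * ENNReal.ofReal (ϱ ^ d)) := by
      rw [volume_Bx hϱ, mul_pow, ENNReal.ofReal_mul (by positivity),
        ENNReal.ofReal_pow two_pos.le]
      rw [show T - T / 2 = T / 2 by ring]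
      norm_num
      ring
    rw [h3]
    calc (nu d T ϱ w univ)⁻¹ * (2 ^ d * (ENNReal.ofReal (T / 2) * ENNReal.ofReal (ϱ ^ d)))
        ≤ (nu d T ϱ w univ)⁻¹ * (2 ^ d * nu d T ϱ w univ) := by gcongr
      _ = 2 ^ d := by
        rw [mul_comm (2 ^ d), ← mul_assoc, ENNReal.inv_mul_cancel hν0 (measure_ne_top _ _),
          one_mul]
  have hbulk : ∫⁻ z in Bx d (T / 2) T ϱ, w z.2 * ‖fderiv ℝ u z‖ₑ ^ 2 ≤ ENNReal.ofReal (1 / θ₁) *
      ∫⁻ z in Bx d 0 T ϱ, w z.2 * ENNReal.ofReal (θ z.1) * ‖fderiv ℝ u z‖ₑ ^ 2 := by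
    have hm : Measurable fun z : ℝ × (Fin d → ℝ) =>
        w z.2 * ENNReal.ofReal (θ z.1) * ‖fderiv ℝ u z‖ₑ ^ 2 :=
      ((hw.comp measurable_snd).mul ((hθ.comp measurable_fst).ennreal_ofReal)).mul
        ((measurable_enorm_fderiv u).pow_const 2)
    rw [← lintegral_const_mul _ hm]
    refine le_trans ?_ (lintegral_mono_set (s := Bx d (T / 2) T ϱ) ?_)
    · refine setLIntegral_mono' (isOpen_Bx _ _ _).measurableSet fun z hz => ?_
      have h4 : (1 : ℝ≥0∞) ≤ ENNReal.ofReal (1 / θ₁) * ENNReal.ofReal (θ z.1) := by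
        rw [← ENNReal.ofReal_mul (by positivity), ← ENNReal.ofReal_one]
        refine ENNReal.ofReal_le_ofReal ?_
        have := hθ₁' z.1 hz.1
        rw [one_div, inv_mul_eq_div, le_div_iff₀ hθ₁, one_mul]
        exact this
      calc w z.2 * ‖fderiv ℝ u z‖ₑ ^ 2 = 1 * (w z.2 * ‖fderiv ℝ u z‖ₑ ^ 2) := (one_mul _).symm
        _ ≤ (ENNReal.ofReal (1 / θ₁) * ENNReal.ofReal (θ z.1)) * (w z.2 * ‖fderiv ℝ u z‖ₑ ^ 2) := by
            gcongr
        _ = _ := by ring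
    · exact prod_mono (Ioo_subset_Ioo_left (by positivity)) subset_rfl
  set I := ∫⁻ z in Bx d 0 T ϱ, w z.2 * ENNReal.ofReal (θ z.1) * ‖fderiv ℝ u z‖ₑ ^ 2 with hI
  calc ENNReal.ofReal (4 / T) * ((nu d T ϱ w univ)⁻¹ * (ENNReal.ofReal ((T + 2 * ϱ) ^ 2) *
        (2 ^ (d + 1) * volume (Bx d (T / 2) T ϱ) *
          ∫⁻ z in Bx d (T / 2) T ϱ, w z.2 * ‖fderiv ℝ u z‖ₑ ^ 2)))
      = ENNReal.ofReal (4 / T) * (ENNReal.ofReal ((T + 2 * ϱ) ^ 2) * 2 ^ (d + 1)) *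
        ((nu d T ϱ w univ)⁻¹ * volume (Bx d (T / 2) T ϱ)) *
          ∫⁻ z in Bx d (T / 2) T ϱ, w z.2 * ‖fderiv ℝ u z‖ₑ ^ 2 := by ring
    _ ≤ ENNReal.ofReal (4 / T) * (ENNReal.ofReal ((T + 2 * ϱ) ^ 2) * 2 ^ (d + 1)) *
        2 ^ d * (ENNReal.ofReal (1 / θ₁) * I) := by gcongr
    _ = ENNReal.ofReal (4 / T * (2 ^ (2 * d + 1) * (T + 2 * ϱ) ^ 2) / θ₁) * I := by
        have h2p : ∀ m : ℕ, (2 : ℝ≥0∞) ^ m = ENNReal.ofReal (2 ^ m) := by
          intro m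
          rw [ENNReal.ofReal_pow two_pos.le]; norm_num
        rw [h2p, h2p, ← mul_assoc _ (ENNReal.ofReal (1 / θ₁)) I]
        congr 1
        rw [← ENNReal.ofReal_mul (by positivity), ← ENNReal.ofReal_mul (by positivity),
          ← ENNReal.ofReal_mul (by positivity), ← ENNReal.ofReal_mul (by positivity)]
        congr 1
        rw [show 2 * d + 1 = (d + 1) + d by ring, pow_add]
        ring

end Pool.Agent.Steklov
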