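import Mathlib
import Pool.Agent.Lib.MP_4838e0_gt.Trace

set_option autoImplicit false

open Set Filter Topology MeasureTheory
open scoped ENNReal ContDiff

noncomputable section

namespace Pool.Agent.Steklov

/-! ### Cut-off functions -/

/-- A smooth function on `ℝ`, `1` on `[-1,1]`, `0` off `(-2,2)`. -/
def kap (t : ℝ) : ℝ := Real.smoothTransition (2 - t) * Real.smoothTransition (2 + t)

lemma kap_contDiff : ContDiff ℝ ∞ kap := by
  unfold kap
  exact (Real.smoothTransition.contDiff.comp (contDiff_const.sub contDiff_id)).mul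
    (Real.smoothTransition.contDiff.comp (contDiff_const.add contDiff_id))

lemma kap_nonneg (t : ℝ) : 0 ≤ kap t :=
  mul_nonneg (Real.smoothTransition.nonneg _) (Real.smoothTransition.nonneg _)

lemma kap_le_one (t : ℝ) : kap t ≤ 1 :=
  mul_le_one₀ (Real.smoothTransition.le_one _) (Real.smoothTransition.nonneg _)
    (Real.smoothTransition.le_one _)

lemma kap_eq_one {t : ℝ} (h : |t| ≤ 1) : kap t = 1 := by
  rw [abs_le] at h
  unfold kap
  rw [Real.smoothTransition.one_of_one_le (by linarith [h.2]),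
    Real.smoothTransition.one_of_one_le (by linarith [h.1]), one_mul]

lemma kap_eq_zero {t : ℝ} (h : 2 ≤ |t|) : kap t = 0 := by
  unfold kap
  rcases le_abs.1 h with h | h
  · rw [Real.smoothTransition.zero_of_nonpos (by linarith), zero_mul]
  · rw [Real.smoothTransition.zero_of_nonpos (x := 2 + t) (by linarith), mul_zero]

lemma smoothTransition_mono : Monotone Real.smoothTransition := by
  intro x y hxy
  unfold Real.smoothTransition
  have h1 : ∀ z, 0 < expNegInvGlue z + expNegInvGlue (1 - z) := Real.smoothTransition.pos_denom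
  rw [div_le_div_iff₀ (h1 x) (h1 y)]
  have h2 : expNegInvGlue x ≤ expNegInvGlue y := expNegInvGlue.monotone hxy
  have h3 : expNegInvGlue (1 - y) ≤ expNegInvGlue (1 - x) := expNegInvGlue.monotone (by linarith)
  have h4 := expNegInvGlue.nonneg x
  have h5 := expNegInvGlue.nonneg y
  have h6 := expNegInvGlue.nonneg (1 - x)
  have h7 := expNegInvGlue.nonneg (1 - y)
  nlinarith

/-- `κ(x)κ(y) ≤ κ(z)` for `z` between `x` and `y`. -/
lemma kap_star {x y z : ℝ} (h1 : min x y ≤ z) (h2 : z ≤ max x y) : kap x * kap y ≤ kap z := by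
  have key : ∀ x y z : ℝ, x ≤ z → z ≤ y → kap x * kap y ≤ kap z := by
    intro x y z hxz hzy
    unfold kap
    have a1 : Real.smoothTransition (2 + x) ≤ Real.smoothTransition (2 + z) :=
      smoothTransition_mono (by linarith)
    have a2 : Real.smoothTransition (2 - y) ≤ Real.smoothTransition (2 - z) :=
      smoothTransition_mono (by linarith)
    have b1 := Real.smoothTransition.nonneg (2 - x)
    have b2 := Real.smoothTransition.le_one (2 - x)
    have b3 := Real.smoothTransition.nonneg (2 + y)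
    have b4 := Real.smoothTransition.le_one (2 + y)
    have c1 := Real.smoothTransition.nonneg (2 + x)
    have c2 := Real.smoothTransition.nonneg (2 - y)
    calc Real.smoothTransition (2 - x) * Real.smoothTransition (2 + x) *
          (Real.smoothTransition (2 - y) * Real.smoothTransition (2 + y))
        = (Real.smoothTransition (2 - x) * Real.smoothTransition (2 + y)) *
          (Real.smoothTransition (2 + x) * Real.smoothTransition (2 - y)) := by ring
      _ ≤ 1 * (Real.smoothTransition (2 + x) * Real.smoothTransition (2 - y)) := by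
          refine mul_le_mul_of_nonneg_right ?_ (mul_nonneg c1 c2)
          exact mul_le_one₀ b2 b3 b4
      _ ≤ Real.smoothTransition (2 - z) * Real.smoothTransition (2 + z) := by
          rw [one_mul, mul_comm]
          exact mul_le_mul a2 a1 c1 (Real.smoothTransition.nonneg _)
  rcases le_total x y with h | h
  · rw [min_eq_left h] at h1; rw [max_eq_right h] at h2
    exact key x y z h1 h2
  · rw [min_eq_right h] at h1; rw [max_eq_left h] at h2
    rw [mul_comm]
    exact key y x z h1 h2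

variable {d : ℕ}

/-- A smooth function on `ℝ^d`, `1` for `‖x‖ ≤ 1/2`, `0` for `‖x‖ ≥ 1`. -/
def eta (x : Fin d → ℝ) : ℝ := ∏ i, kap (2 * x i)

lemma eta_contDiff : ContDiff ℝ ∞ (eta (d := d)) := by
  unfold eta
  refine contDiff_prod fun i _ => ?_
  exact kap_contDiff.comp (contDiff_const.mul (contDiff_apply ℝ ℝ i))

lemma eta_nonneg (x : Fin d → ℝ) : 0 ≤ eta x := Finset.prod_nonneg fun _ _ => kap_nonneg _

lemma eta_le_one (x : Fin d → ℝ) : eta x ≤ 1 :=
  Finset.prod_le_one (fun _ _ => kap_nonneg _) fun _ _ => kap_le_one _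

lemma eta_eq_one {x : Fin d → ℝ} (h : ‖x‖ ≤ 1 / 2) : eta x = 1 := by
  unfold eta
  refine Finset.prod_eq_one fun i _ => kap_eq_one ?_
  have := (norm_le_pi_norm x i).trans h
  rw [Real.norm_eq_abs] at this
  rw [abs_mul, abs_two]
  linarith

lemma eta_eq_zero {x : Fin d → ℝ} (h : 1 ≤ ‖x‖) : eta x = 0 := by
  unfold eta
  have : ∃ i, 1 ≤ |x i| := by
    by_contra hcon
    push Not at hcon
    have : ‖x‖ < 1 := by
      rw [pi_norm_lt_iff zero_lt_one]
      intro i
      rw [Real.norm_eq_abs]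
      exact hcon i
    linarith
  obtain ⟨i, hi⟩ := this
  refine Finset.prod_eq_zero (Finset.mem_univ i) (kap_eq_zero ?_)
  rw [abs_mul, abs_two]
  linarith

lemma eta_star (x y : Fin d → ℝ) {t : ℝ} (ht : t ∈ Icc (0 : ℝ) 1) :
    eta x * eta y ≤ eta ((1 - t) • x + t • y) := by
  unfold eta
  rw [← Finset.prod_mul_distrib]
  refine Finset.prod_le_prod (fun i _ => mul_nonneg (kap_nonneg _) (kap_nonneg _)) fun i _ => ?_
  have h0 := ht.1
  have h1 := ht.2
  simp only [Pi.add_apply, Pi.smul_apply, smul_eq_mul]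
  apply kap_star
  · rcases le_total (2 * x i) (2 * y i) with h | h
    · rw [min_eq_left h]; nlinarith
    · rw [min_eq_right h]; nlinarith
  · rcases le_total (2 * x i) (2 * y i) with h | h
    · rw [max_eq_right h]; nlinarith
    · rw [max_eq_left h]; nlinarith

/-- A smooth function on `ℝ`, `1` on `|t| ≤ 1/4`, `0` for `|t| ≥ 1/2`. -/
def zet (t : ℝ) : ℝ := kap (4 * t)

lemma zet_contDiff : ContDiff ℝ ∞ zet := kap_contDiff.comp (contDiff_const.mul contDiff_id)

lemma zet_nonneg (t : ℝ) : 0 ≤ zet t := kap_nonneg _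

lemma zet_le_one (t : ℝ) : zet t ≤ 1 := kap_le_one _

lemma zet_zero : zet 0 = 1 := kap_eq_one (by norm_num)

lemma zet_eq_one {t : ℝ} (h : |t| ≤ 1 / 4) : zet t = 1 :=
  kap_eq_one (by rw [abs_mul, abs_of_pos (by norm_num : (0 : ℝ) < 4)]; linarith)

lemma zet_eq_zero {t : ℝ} (h : 1 / 2 ≤ |t|) : zet t = 0 :=
  kap_eq_zero (by rw [abs_mul, abs_of_pos (by norm_num : (0 : ℝ) < 4)]; linarith)

lemma hasCompactSupport_of_zero_off {E : Type*} [NormedAddCommGroup E] [ProperSpace E]
    {f : E → ℝ} {R : ℝ} (h : ∀ x, R ≤ ‖x‖ → f x = 0) : HasCompactSupport f := by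
  refine HasCompactSupport.intro (isCompact_closedBall 0 R) fun x hx => h x ?_
  rw [mem_closedBall_zero_iff, not_le] at hx
  exact hx.le

lemma exists_deriv_zet_bound : ∃ B : ℝ, 0 ≤ B ∧ ∀ t, |deriv zet t| ≤ B := by
  have h1 : HasCompactSupport zet := hasCompactSupport_of_zero_off (R := 1 / 2) fun x hx =>
    zet_eq_zero hx
  have h2 : Continuous (deriv zet) := zet_contDiff.continuous_deriv (by simp)
  obtain ⟨B, hB⟩ := h1.deriv.exists_bound_of_continuous h2
  refine ⟨B, (norm_nonneg _).trans (hB 0), fun t => ?_⟩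
  have := hB t
  rwa [Real.norm_eq_abs] at this

/-- The bound of the derivative of `zet`. -/
def Bz : ℝ := Classical.choose exists_deriv_zet_bound

lemma Bz_nonneg : 0 ≤ Bz := (Classical.choose_spec exists_deriv_zet_bound).1

lemma deriv_zet_le (t : ℝ) : |deriv zet t| ≤ Bz := (Classical.choose_spec exists_deriv_zet_bound).2 t

/-- The small amplitude `a`. -/
def aa : ℝ := 1 / (4 * (1 + Bz))

lemma aa_pos : 0 < aa := by
  have := Bz_nonneg
  unfold aa
  positivity

lemma aa_le : aa ≤ 1 / 4 := by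
  have := Bz_nonneg
  unfold aa
  rw [div_le_div_iff₀ (by positivity) (by norm_num)]
  linarith

lemma aa_mul_Bz : aa * Bz ≤ 1 / 4 := by
  have := Bz_nonneg
  unfold aa
  rw [one_div, inv_mul_le_iff₀ (by positivity)]
  linarith

/-! ### The map `Φ_r` -/

/-- The profile `(t, x) ↦ η(x) ζ(t)`. -/
def gprof (z : ℝ × (Fin d → ℝ)) : ℝ := eta z.2 * zet z.1

lemma gprof_contDiff : ContDiff ℝ ∞ (gprof (d := d)) :=
  (eta_contDiff.comp contDiff_snd).mul (zet_contDiff.comp contDiff_fst)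

lemma gprof_nonneg (z : ℝ × (Fin d → ℝ)) : 0 ≤ gprof z := mul_nonneg (eta_nonneg _) (zet_nonneg _)

lemma gprof_le_one (z : ℝ × (Fin d → ℝ)) : gprof z ≤ 1 :=
  mul_le_one₀ (eta_le_one _) (zet_nonneg _) (zet_le_one _)

lemma exists_fderiv_gprof_bound :
    ∃ B : ℝ, 0 ≤ B ∧ ∀ z : ℝ × (Fin d → ℝ), ‖fderiv ℝ (gprof (d := d)) z‖ ≤ B := by
  have h1 : HasCompactSupport (gprof (d := d)) :=
    hasCompactSupport_of_zero_off (R := 1) fun z hz => by
      unfold gprof
      rw [Prod.norm_def] at hz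
      rcases le_max_iff.1 hz with h | h
      · rw [zet_eq_zero (by rw [Real.norm_eq_abs] at h; linarith), mul_zero]
      · rw [eta_eq_zero h, zero_mul]
  have h2 : Continuous (fderiv ℝ (gprof (d := d))) := gprof_contDiff.continuous_fderiv (by simp)
  obtain ⟨B, hB⟩ := (h1.fderiv (𝕜 := ℝ)).exists_bound_of_continuous h2
  exact ⟨B, (norm_nonneg _).trans (hB 0), hB⟩

/-- The map `Φ_r(t,x) = (t + a r η(x/r) ζ(t/r), x)`. -/
def Phi (r : ℝ) (z : ℝ × (Fin d → ℝ)) : ℝ × (Fin d → ℝ) := (z.1 + aa * r * gprof (r⁻¹ • z), z.2)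

lemma Phi_contDiff (r : ℝ) : ContDiff ℝ ∞ (Phi (d := d) r) := by
  unfold Phi
  have h1 : ContDiff ℝ ∞ fun z : ℝ × (Fin d → ℝ) => gprof (r⁻¹ • z) :=
    gprof_contDiff.comp (contDiff_const_smul _)
  exact (contDiff_fst.add (contDiff_const.mul h1)).prodMk contDiff_snd

lemma gprof_eq_zero {r : ℝ} (hr : 0 < r) {z : ℝ × (Fin d → ℝ)} (hz : r ≤ z.1 ∨ r ≤ ‖z.2‖) :
    gprof (r⁻¹ • z) = 0 := by
  unfold gprof
  rcases hz with h | h
  · rw [zet_eq_zero, mul_zero]
    simp only [Prod.smul_fst, smul_eq_mul]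
    have : 1 ≤ r⁻¹ * z.1 := by
      rw [inv_mul_eq_div, le_div_iff₀ hr]
      linarith
    rw [abs_of_nonneg (by linarith)]
    linarith
  · rw [eta_eq_zero, zero_mul]
    simp only [Prod.smul_snd, norm_smul, norm_inv, Real.norm_eq_abs, abs_of_pos hr]
    rw [inv_mul_eq_div, le_div_iff₀ hr]
    linarith

lemma Phi_eq_self {r : ℝ} (hr : 0 < r) {z : ℝ × (Fin d → ℝ)} (hz : r ≤ z.1 ∨ r ≤ ‖z.2‖) :
    Phi r z = z := by
  unfold Phi
  rw [gprof_eq_zero hr hz]
  simp

lemma Phi_fst_ge {r : ℝ} (hr : 0 < r) (z : ℝ × (Fin d → ℝ)) : z.1 ≤ (Phi r z).1 := by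
  unfold Phi
  have := gprof_nonneg (r⁻¹ • z)
  have := aa_pos
  simp only
  have : 0 ≤ aa * r * gprof (r⁻¹ • z) := by positivity
  linarith

lemma Phi_fst_le {r : ℝ} (hr : 0 < r) {z : ℝ × (Fin d → ℝ)} (hz : z.1 ≤ r) :
    (Phi r z).1 ≤ r := by
  unfold Phi
  simp only
  have h0 := gprof_nonneg (r⁻¹ • z)
  have h1 := gprof_le_one (r⁻¹ • z)
  have ha := aa_pos
  have ha' := aa_le
  by_cases h : z.1 ≤ r / 2
  · have : aa * r * gprof (r⁻¹ • z) ≤ 1 / 4 * r * 1 := by gcongr
    linarith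
  · have : gprof (r⁻¹ • z) = 0 := by
      unfold gprof
      rw [zet_eq_zero, mul_zero]
      simp only [Prod.smul_fst, smul_eq_mul]
      push Not at h
      have : 1 / 2 ≤ r⁻¹ * z.1 := by
        rw [inv_mul_eq_div, le_div_iff₀ hr]
        linarith
      rw [abs_of_nonneg (by linarith)]
      exact this
    rw [this]
    linarith

lemma Phi_mapsTo {r R : ℝ} (hr : 0 < r) (hrR : r ≤ R) :
    MapsTo (Phi (d := d) r) (Q d R) (Q d R) := by
  intro z hz
  refine ⟨⟨hz.1.1.trans (Phi_fst_ge hr z), ?_⟩, hz.2⟩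
  by_cases h : z.1 ≤ r
  · exact (Phi_fst_le hr h).trans hrR
  · rw [Phi_eq_self hr (Or.inl (not_le.1 h).le)]
    exact hz.1.2

lemma Phi_mapsTo' {r : ℝ} (hr : 0 < r) :
    MapsTo (Phi (d := d) r) (Q d r) (Q d r) := Phi_mapsTo hr le_rfl

/-- Norm bound for the derivative of `Φ_r`, independent of `r`. -/
lemma exists_fderiv_Phi_bound : ∃ B : ℝ, 0 < B ∧ ∀ r : ℝ, 0 < r → ∀ z : ℝ × (Fin d → ℝ),
    ‖fderiv ℝ (Phi (d := d) r) z‖ ≤ B := by
  obtain ⟨B, hB0, hB⟩ := exists_fderiv_gprof_bound (d := d)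
  refine ⟨1 + aa * B, by have := aa_pos; positivity, fun r hr z => ?_⟩
  have ha := aa_pos
  have h1 : HasFDerivAt (fun z : ℝ × (Fin d → ℝ) => gprof (r⁻¹ • z))
      ((fderiv ℝ gprof (r⁻¹ • z)).comp (r⁻¹ • ContinuousLinearMap.id ℝ (ℝ × (Fin d → ℝ)))) z := by
    have h2 : HasFDerivAt (fun z : ℝ × (Fin d → ℝ) => r⁻¹ • z)
        (r⁻¹ • ContinuousLinearMap.id ℝ (ℝ × (Fin d → ℝ))) z :=
      (hasFDerivAt_id z).const_smul r⁻¹
    have h3 : HasFDerivAt (gprof (d := d)) (fderiv ℝ gprof (r⁻¹ • z)) (r⁻¹ • z) :=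
      ((gprof_contDiff.differentiable (by simp)) _).hasFDerivAt
    exact h3.comp z h2
  have h4 : HasFDerivAt (Phi (d := d) r)
      ((ContinuousLinearMap.fst ℝ ℝ (Fin d → ℝ) + (aa * r) •
        ((fderiv ℝ gprof (r⁻¹ • z)).comp (r⁻¹ • ContinuousLinearMap.id ℝ (ℝ × (Fin d → ℝ))))).prod
        (ContinuousLinearMap.snd ℝ ℝ (Fin d → ℝ))) z := by
    exact (hasFDerivAt_fst.add (h1.const_mul (aa * r))).prodMk hasFDerivAt_snd
  rw [h4.fderiv]
  refine ContinuousLinearMap.opNorm_le_bound _ (by positivity) fun v => ?_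
  rw [ContinuousLinearMap.prod_apply, Prod.norm_def]
  refine max_le ?_ ?_
  · simp only [ContinuousLinearMap.add_apply, ContinuousLinearMap.coe_fst', 
      ContinuousLinearMap.smul_apply, ContinuousLinearMap.comp_apply,
      ContinuousLinearMap.id_apply, map_smul, smul_eq_mul]
    have h5 : aa * r * (r⁻¹ * fderiv ℝ gprof (r⁻¹ • z) v) = aa * fderiv ℝ gprof (r⁻¹ • z) v := by
      field_simp
    rw [h5]
    calc ‖v.1 + aa * fderiv ℝ gprof (r⁻¹ • z) v‖ ≤ ‖v.1‖ + ‖aa * fderiv ℝ gprof (r⁻¹ • z) v‖ :=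
          norm_add_le _ _
      _ ≤ ‖v‖ + aa * (B * ‖v‖) := by
          refine add_le_add (norm_fst_le v) ?_
          rw [norm_mul, Real.norm_of_nonneg ha.le]
          refine mul_le_mul_of_nonneg_left ?_ ha.le
          exact (ContinuousLinearMap.le_opNorm _ _).trans
            (mul_le_mul_of_nonneg_right (hB _) (norm_nonneg _))
      _ = (1 + aa * B) * ‖v‖ := by ring
  · calc ‖(ContinuousLinearMap.snd ℝ ℝ (Fin d → ℝ)) v‖ ≤ ‖v‖ := norm_snd_le v
      _ ≤ (1 + aa * B) * ‖v‖ := by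
          have : 0 ≤ aa * B * ‖v‖ := by positivity
          linarith

end Pool.Agent.Steklov
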