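import Mathlib
import Pool.Agent.Lib.MP_4838e0_gt.Shell

set_option autoImplicit false

open Set Filter Topology MeasureTheory
open scoped ENNReal ContDiff

noncomputable section

namespace Pool.Agent.Steklov

variable {d : ℕ}

/-- The shell `{z ∈ Q_r : a r η(x/r) ≤ t}`. -/
def Sh (d : ℕ) (r : ℝ) : Set (ℝ × (Fin d → ℝ)) :=
  {z | z ∈ Q d r ∧ aa * r * eta (r⁻¹ • z.2) ≤ z.1}

lemma measurableSet_Q (d : ℕ) (r : ℝ) : MeasurableSet (Q d r) := (isCompact_Qd d r).measurableSet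

lemma measurableSet_Sh (d : ℕ) (r : ℝ) : MeasurableSet (Sh d r) := by
  refine (measurableSet_Q d r).inter ?_
  refine measurableSet_le ?_ measurable_fst
  have h : Continuous fun z : ℝ × (Fin d → ℝ) => aa * r * eta (r⁻¹ • z.2) := by
    have := (eta_contDiff (d := d)).continuous
    fun_prop
  exact h.measurable

lemma Phi_zero {r : ℝ} (x : Fin d → ℝ) :
    Phi r (0, x) = (aa * r * eta (r⁻¹ • x), x) := by
  unfold Phi gprof
  simp [zet_zero]

/-- The one-dimensional change of variables. -/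
lemma lintegral_vertical_le {r : ℝ} (hr : 0 < r) (x : Fin d → ℝ) (g : ℝ → ℝ≥0∞) :
    ∫⁻ t in Icc 0 r, g (Phi r (t, x)).1 ≤
      2 * ∫⁻ t in {t | t ∈ Icc 0 r ∧ aa * r * eta (r⁻¹ • x) ≤ t}, g t := by
  set φ : ℝ → ℝ := fun t => (Phi r (t, x)).1 with hφ
  set φ' : ℝ → ℝ := fun t => 1 + aa * eta (r⁻¹ • x) * deriv zet (r⁻¹ * t) with hφ'
  have hder : ∀ t, HasDerivAt φ (φ' t) t := by
    intro t
    have h1 : HasDerivAt zet (deriv zet (r⁻¹ * t)) (r⁻¹ * t) :=
      ((zet_contDiff.differentiable (by simp)) _).hasDerivAt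
    have h2 : HasDerivAt (fun t : ℝ => r⁻¹ * t) r⁻¹ t := by
      simpa using (hasDerivAt_id t).const_mul r⁻¹
    have h3 : HasDerivAt (fun t : ℝ => zet (r⁻¹ * t)) (deriv zet (r⁻¹ * t) * r⁻¹) t :=
      h1.comp t h2
    have h4 := (hasDerivAt_id t).add ((h3.const_mul (eta (r⁻¹ • x))).const_mul (aa * r))
    have h5 : φ' t = 1 + aa * r * (eta (r⁻¹ • x) * (deriv zet (r⁻¹ * t) * r⁻¹)) := by
      simp only [hφ']
      field_simp
    rw [h5]
    exact h4
  have hlow : ∀ t, 1 / 2 ≤ φ' t := by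
    intro t
    have h1 := deriv_zet_le (r⁻¹ * t)
    have h2 := aa_mul_Bz
    have h3 := aa_pos
    have h4 := eta_nonneg (r⁻¹ • x)
    have h5 := eta_le_one (r⁻¹ • x)
    have h6 : |aa * eta (r⁻¹ • x) * deriv zet (r⁻¹ * t)| ≤ 1 / 4 := by
      rw [abs_mul, abs_of_nonneg (by positivity)]
      calc aa * eta (r⁻¹ • x) * |deriv zet (r⁻¹ * t)| ≤ aa * 1 * Bz := by gcongr
        _ ≤ 1 / 4 := by linarith
    rw [abs_le] at h6
    simp only [hφ']
    linarith [h6.1]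
  have hmono : StrictMono φ := by
    refine strictMono_of_deriv_pos fun t => ?_
    rw [(hder t).deriv]
    linarith [hlow t]
  have hcv := lintegral_image_eq_lintegral_abs_deriv_mul (s := Icc 0 r) measurableSet_Icc
    (fun t _ => (hder t).hasDerivWithinAt) hmono.injective.injOn g
  calc ∫⁻ t in Icc 0 r, g (φ t) ≤ ∫⁻ t in Icc 0 r, 2 * (ENNReal.ofReal |φ' t| * g (φ t)) := by
        refine lintegral_mono fun t => ?_
        rw [← mul_assoc]
        have h1 : (1 : ℝ≥0∞) ≤ 2 * ENNReal.ofReal |φ' t| := by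
          rw [show (2 : ℝ≥0∞) = ENNReal.ofReal 2 by norm_num, ← ENNReal.ofReal_mul two_pos.le,
            ← ENNReal.ofReal_one]
          refine ENNReal.ofReal_le_ofReal ?_
          have := le_abs_self (φ' t)
          linarith [hlow t]
        calc g (φ t) = 1 * g (φ t) := (one_mul _).symm
          _ ≤ _ := by gcongr
    _ = 2 * ∫⁻ t in Icc 0 r, ENNReal.ofReal |φ' t| * g (φ t) := by
        rw [lintegral_const_mul' _ _ (by norm_num)]
    _ = 2 * ∫⁻ t in φ '' Icc 0 r, g t := by rw [hcv]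
    _ ≤ _ := by
        gcongr
        rintro _ ⟨t, ht, rfl⟩
        refine ⟨⟨?_, ?_⟩, ?_⟩
        · exact ht.1.trans (Phi_fst_ge hr (t, x))
        · exact Phi_fst_le hr (z := (t, x)) ht.2
        · have h1 : φ 0 ≤ φ t := hmono.monotone ht.1
          have h2 : φ 0 = aa * r * eta (r⁻¹ • x) := by
            simp only [hφ, Phi_zero]
          linarith

lemma lintegral_comp_Phi_le {r : ℝ} (hr : 0 < r) {G : ℝ × (Fin d → ℝ) → ℝ≥0∞}
    (hG : Measurable G) :
    ∫⁻ z in Q d r, G (Phi r z) ≤ 2 * ∫⁻ z in Sh d r, G z := by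
  have hPm : Measurable (Phi (d := d) r) := (Phi_contDiff r).continuous.measurable
  have h1 : ∫⁻ z in Q d r, G (Phi r z) =
      ∫⁻ x in Metric.closedBall 0 r, ∫⁻ t in Icc 0 r, G ((Phi r (t, x)).1, x) := by
    rw [Q, Measure.volume_eq_prod, ← Measure.prod_restrict,
      lintegral_prod_symm' (fun z => G (Phi r z)) (hG.comp hPm)]
    rfl
  have h2 : ∫⁻ z in Sh d r, G z = ∫⁻ x in Metric.closedBall 0 r,
      ∫⁻ t in {t | t ∈ Icc 0 r ∧ aa * r * eta (r⁻¹ • x) ≤ t}, G (t, x) := by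
    have hind : Measurable ((Sh d r).indicator G) := hG.indicator (measurableSet_Sh d r)
    rw [← lintegral_indicator (measurableSet_Sh d r), Measure.volume_eq_prod,
      lintegral_prod_symm' _ hind, ← lintegral_indicator Metric.isClosed_closedBall.measurableSet]
    refine lintegral_congr fun x => ?_
    by_cases hx : x ∈ Metric.closedBall (0 : Fin d → ℝ) r
    · rw [indicator_of_mem hx]
      have hm : MeasurableSet {t : ℝ | t ∈ Icc 0 r ∧ aa * r * eta (r⁻¹ • x) ≤ t} :=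
        measurableSet_Icc.inter measurableSet_Ici
      rw [← lintegral_indicator hm]
      refine lintegral_congr fun t => ?_
      by_cases ht : t ∈ {t : ℝ | t ∈ Icc 0 r ∧ aa * r * eta (r⁻¹ • x) ≤ t}
      · rw [indicator_of_mem ht, indicator_of_mem]
        exact ⟨⟨ht.1, hx⟩, ht.2⟩
      · rw [indicator_of_notMem ht, indicator_of_notMem]
        rintro ⟨⟨h3, _⟩, h4⟩
        exact ht ⟨h3, h4⟩
    · rw [indicator_of_notMem hx]
      rw [lintegral_eq_zero_iff' (by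
        exact (hind.comp (measurable_id.prodMk measurable_const)).aemeasurable)]
      refine Eventually.of_forall fun t => ?_
      simp only [Pi.zero_apply]
      rw [indicator_of_notMem]
      rintro ⟨⟨_, h3⟩, _⟩
      exact hx h3
  rw [h1, h2]
  calc _ ≤ ∫⁻ x in Metric.closedBall 0 r, 2 *
      ∫⁻ t in {t | t ∈ Icc 0 r ∧ aa * r * eta (r⁻¹ • x) ≤ t}, G (t, x) :=
        lintegral_mono fun x => lintegral_vertical_le hr x fun t => G (t, x)
    _ = _ := lintegral_const_mul' _ _ (by norm_num)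

lemma Sh_subset (d : ℕ) (r : ℝ) : Sh d r ⊆ Q d r := fun _ hz => hz.1

/-- Small half-cubes avoid the shell. -/
lemma Sh_disjoint_Q {r r' : ℝ} (hr : 0 < r) (h : r' < aa * r) : Disjoint (Sh d r) (Q d r') := by
  rw [disjoint_left]
  rintro z ⟨_, h1⟩ hz
  have ha := aa_le
  have h2 : ‖r⁻¹ • z.2‖ ≤ 1 / 2 := by
    have h3 : ‖z.2‖ ≤ r' := by simpa using hz.2
    rw [norm_smul, norm_inv, Real.norm_eq_abs, abs_of_pos hr, inv_mul_eq_div, div_le_iff₀ hr]
    nlinarith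
  rw [eta_eq_one h2, mul_one] at h1
  linarith [hz.1.2]

lemma Sh_disjoint_Sh {r r' : ℝ} (hr : 0 < r) (h : r' < aa * r) : Disjoint (Sh d r) (Sh d r') :=
  (Sh_disjoint_Q hr h).mono_right (Sh_subset d r')

lemma Q_ae_eq_Qo (d : ℕ) (r : ℝ) : (Q d r : Set (ℝ × (Fin d → ℝ))) =ᵐ[volume] Qo d r := by
  rcases le_or_gt r 0 with hr | hr
  · have h1 : volume (Q d r) = 0 := by
      rw [Q, Measure.volume_eq_prod, Measure.prod_prod, Real.volume_Icc,
        ENNReal.ofReal_of_nonpos (by linarith), zero_mul]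
    have h2 : volume (Qo d r) = 0 := measure_mono_null (Qo_subset_Q d r) h1
    exact (ae_eq_empty.2 h1).trans (ae_eq_empty.2 h2).symm
  · rw [Q, Qo, Measure.volume_eq_prod]
    refine Measure.set_prod_ae_eq ?_ ?_
    · exact Ioo_ae_eq_Icc.symm
    · rw [← Metric.ball_union_sphere]
      exact union_ae_eq_left_of_ae_eq_empty
        (ae_eq_empty.2 (Measure.addHaar_sphere_of_ne_zero _ _ hr.ne'))

lemma setLIntegral_Q_eq (r : ℝ) (G : ℝ × (Fin d → ℝ) → ℝ≥0∞) :
    ∫⁻ z in Q d r, G z = ∫⁻ z in Qo d r, G z := setLIntegral_congr (Q_ae_eq_Qo d r)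

/-- Energy of `u ∘ Φ_r`. -/
lemma exists_energy_comp_Phi (d : ℕ) : ∃ B : ℝ, 0 < B ∧ ∀ R r : ℝ, 0 < r → r < R →
    ∀ u : ℝ × (Fin d → ℝ) → ℝ, C1 d R u →
    ∫⁻ z in Q d r, ‖fderiv ℝ (u ∘ Phi r) z‖ₑ ^ 2 ≤
      ENNReal.ofReal B * ∫⁻ z in Sh d r, ‖fderiv ℝ u z‖ₑ ^ 2 := by
  obtain ⟨B, hB0, hB⟩ := exists_fderiv_Phi_bound (d := d)
  refine ⟨B ^ 2 * 2, by positivity, fun R r hr hrR u hu => ?_⟩
  have hm : Measurable fun z : ℝ × (Fin d → ℝ) => ‖fderiv ℝ u z‖ₑ ^ 2 :=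
    (measurable_enorm_fderiv u).pow_const 2
  calc ∫⁻ z in Q d r, ‖fderiv ℝ (u ∘ Phi r) z‖ₑ ^ 2
      = ∫⁻ z in Qo d r, ‖fderiv ℝ (u ∘ Phi r) z‖ₑ ^ 2 := setLIntegral_Q_eq _ _
    _ ≤ ∫⁻ z in Qo d r, ENNReal.ofReal (B ^ 2) * ‖fderiv ℝ u (Phi r z)‖ₑ ^ 2 := by
        refine setLIntegral_mono' (isOpen_Qo d r).measurableSet fun z hz => ?_
        have h1 : Phi r z ∈ Qo d R := by
          refine ⟨⟨hz.1.1.trans_le (Phi_fst_ge hr z), (Phi_fst_le hr hz.1.2.le).trans_lt hrR⟩, ?_⟩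
          exact Metric.ball_subset_ball hrR.le hz.2
        have h2 := hu.differentiableAt h1
        have h3 : DifferentiableAt ℝ (Phi (d := d) r) z :=
          ((Phi_contDiff r).differentiable (by simp)) z
        rw [fderiv_comp z h2 h3, ENNReal.ofReal_pow hB0.le, ← mul_pow]
        refine pow_le_pow_left₀ zero_le ?_ 2
        rw [← Real.enorm_of_nonneg hB0.le, ← ofReal_norm, ← ofReal_norm,
          ← ofReal_norm, ← ENNReal.ofReal_mul (norm_nonneg _)]
        refine ENNReal.ofReal_le_ofReal ?_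
        rw [Real.norm_of_nonneg hB0.le, mul_comm]
        exact (ContinuousLinearMap.opNorm_comp_le _ _).trans
          (mul_le_mul_of_nonneg_left (hB r hr z) (norm_nonneg _))
    _ = ENNReal.ofReal (B ^ 2) * ∫⁻ z in Qo d r, ‖fderiv ℝ u (Phi r z)‖ₑ ^ 2 := by
        rw [lintegral_const_mul' _ _ ENNReal.ofReal_ne_top]
    _ = ENNReal.ofReal (B ^ 2) * ∫⁻ z in Q d r, ‖fderiv ℝ u (Phi r z)‖ₑ ^ 2 := by
        rw [setLIntegral_Q_eq]
    _ ≤ ENNReal.ofReal (B ^ 2) * (2 * ∫⁻ z in Sh d r, ‖fderiv ℝ u z‖ₑ ^ 2) := by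
        gcongr
        exact lintegral_comp_Phi_le hr hm
    _ = _ := by
        rw [ENNReal.ofReal_mul (by positivity), ← mul_assoc]
        norm_num

end Pool.Agent.Steklov
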