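import Mathlib
import Pool.Agent.Lib.MP_4838e0_gt.Shell2

set_option autoImplicit false

universe u
set_option linter.unusedSectionVars false

open Set Filter Topology MeasureTheory
open scoped ENNReal ContDiff

noncomputable section

namespace Pool.Agent.Steklov

variable {d : ℕ} {Ω : Type u} [TopologicalSpace Ω] [MeasurableSpace Ω]

namespace StekData

variable (D : StekData d Ω)

lemma isFinite_v : IsFiniteMeasure D.v := ⟨lt_top_iff_ne_top.2 D.v_fin⟩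

lemma isFinite_s : IsFiniteMeasure D.s := ⟨lt_top_iff_ne_top.2 D.s_fin⟩

variable [BorelSpace Ω] [T2Space Ω] [CompactSpace Ω]

omit [MeasurableSpace Ω] [T2Space Ω] [BorelSpace Ω] in
lemma exists_bound {f : Ω → ℝ} (hf : Continuous f) : ∃ B, 0 < B ∧ ∀ x, |f x| ≤ B := by
  obtain ⟨B, hB⟩ := isCompact_univ.exists_bound_of_continuousOn hf.continuousOn
  refine ⟨max B 1, lt_max_of_lt_right one_pos, fun x => ?_⟩
  exact (hB x (mem_univ x)).trans (le_max_left _ _)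

lemma integrable_v {f : Ω → ℝ} (hf : Continuous f) : Integrable f D.v := by
  have := D.isFinite_v
  rw [← integrableOn_univ]
  exact hf.continuousOn.integrableOn_compact isCompact_univ

lemma integrable_s {f : Ω → ℝ} (hf : Continuous f) : Integrable f D.s := by
  have := D.isFinite_s
  rw [← integrableOn_univ]
  exact hf.continuousOn.integrableOn_compact isCompact_univ

lemma cont_E {ρ f h : Ω → ℝ} (hρ : Continuous ρ) (hf : f ∈ D.F) (hh : h ∈ D.F) :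
    Continuous fun x => ρ x ^ (d - 1) * D.Γ f h x :=
  (hρ.pow _).mul (D.Γ_cont f hf h hh)

lemma cont_M {ρ f h : Ω → ℝ} (hρ : Continuous ρ) (hf : f ∈ D.F) (hh : h ∈ D.F) :
    Continuous fun x => ρ x ^ d * (f x * h x) :=
  (hρ.pow _).mul ((D.F_cont f hf).mul (D.F_cont h hh))

omit [BorelSpace Ω] [T2Space Ω] [CompactSpace Ω] in
lemma Γ_add' {f h k : Ω → ℝ} (hf : f ∈ D.F) (hh : h ∈ D.F) (hk : k ∈ D.F) :
    D.Γ k (f + h) = D.Γ k f + D.Γ k h := by
  rw [D.Γ_symm k hk _ (D.F.add_mem hf hh), D.Γ_add f hf h hh k hk, D.Γ_symm f hf k hk,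
    D.Γ_symm h hh k hk]

omit [BorelSpace Ω] [T2Space Ω] [CompactSpace Ω] in
lemma Γ_smul' (a : ℝ) {f h : Ω → ℝ} (hf : f ∈ D.F) (hh : h ∈ D.F) :
    D.Γ h (a • f) = a • D.Γ h f := by
  rw [D.Γ_symm h hh _ (D.F.smul_mem a hf), D.Γ_smul a f hf h hh, D.Γ_symm f hf h hh]

/-- The energy as a bilinear form on `F`. -/
def Eb {ρ : Ω → ℝ} (hρ : Continuous ρ) : D.F →ₗ[ℝ] D.F →ₗ[ℝ] ℝ :=
  LinearMap.mk₂ ℝ (fun f h => ∫ x, ρ x ^ (d - 1) * D.Γ f h x ∂D.v)
    (fun f f' h => by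
      rw [← integral_add (D.integrable_v (D.cont_E hρ f.2 h.2))
        (D.integrable_v (D.cont_E hρ f'.2 h.2))]
      congr 1; funext x
      rw [Submodule.coe_add, D.Γ_add _ f.2 _ f'.2 _ h.2, Pi.add_apply]; ring)
    (fun a f h => by
      rw [smul_eq_mul, ← integral_const_mul]
      congr 1; funext x
      rw [Submodule.coe_smul, D.Γ_smul _ _ f.2 _ h.2, Pi.smul_apply, smul_eq_mul]; ring)
    (fun f h h' => by
      rw [← integral_add (D.integrable_v (D.cont_E hρ f.2 h.2))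
        (D.integrable_v (D.cont_E hρ f.2 h'.2))]
      congr 1; funext x
      rw [Submodule.coe_add, D.Γ_add' h.2 h'.2 f.2, Pi.add_apply]; ring)
    (fun a f h => by
      rw [smul_eq_mul, ← integral_const_mul]
      congr 1; funext x
      rw [Submodule.coe_smul, D.Γ_smul' _ h.2 f.2, Pi.smul_apply, smul_eq_mul]; ring)

/-- The boundary mass as a bilinear form on `F`. -/
def Mb {ρ : Ω → ℝ} (hρ : Continuous ρ) : D.F →ₗ[ℝ] D.F →ₗ[ℝ] ℝ :=
  LinearMap.mk₂ ℝ (fun f h => ∫ x, ρ x ^ d * ((f : Ω → ℝ) x * (h : Ω → ℝ) x) ∂D.s)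
    (fun f f' h => by
      rw [← integral_add (D.integrable_s (D.cont_M hρ f.2 h.2))
        (D.integrable_s (D.cont_M hρ f'.2 h.2))]
      congr 1; funext x
      rw [Submodule.coe_add, Pi.add_apply]; ring)
    (fun a f h => by
      rw [smul_eq_mul, ← integral_const_mul]
      congr 1; funext x
      rw [Submodule.coe_smul, Pi.smul_apply, smul_eq_mul]; ring)
    (fun f h h' => by
      rw [← integral_add (D.integrable_s (D.cont_M hρ f.2 h.2))
        (D.integrable_s (D.cont_M hρ f.2 h'.2))]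
      congr 1; funext x
      rw [Submodule.coe_add, Pi.add_apply]; ring)
    (fun a f h => by
      rw [smul_eq_mul, ← integral_const_mul]
      congr 1; funext x
      rw [Submodule.coe_smul, Pi.smul_apply, smul_eq_mul]; ring)

lemma Eb_self {ρ : Ω → ℝ} (hρ : Continuous ρ) (f : D.F) : D.Eb hρ f f = D.E ρ f := rfl

lemma Mb_self {ρ : Ω → ℝ} (hρ : Continuous ρ) (f : D.F) : D.Mb hρ f f = D.M ρ f := by
  change ∫ x, ρ x ^ d * ((f : Ω → ℝ) x * (f : Ω → ℝ) x) ∂D.s = _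
  unfold M
  congr 1; funext x; ring

lemma Eb_symm {ρ : Ω → ℝ} (hρ : Continuous ρ) (f h : D.F) : D.Eb hρ f h = D.Eb hρ h f := by
  change ∫ x, ρ x ^ (d - 1) * D.Γ f h x ∂D.v = ∫ x, ρ x ^ (d - 1) * D.Γ h f x ∂D.v
  rw [D.Γ_symm f f.2 h h.2]

lemma Mb_symm {ρ : Ω → ℝ} (hρ : Continuous ρ) (f h : D.F) : D.Mb hρ f h = D.Mb hρ h f := by
  change ∫ x, ρ x ^ d * ((f : Ω → ℝ) x * (h : Ω → ℝ) x) ∂D.s =
    ∫ x, ρ x ^ d * ((h : Ω → ℝ) x * (f : Ω → ℝ) x) ∂D.s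
  congr 1; funext x; ring

lemma ofReal_E {ρ f : Ω → ℝ} (hρ : Continuous ρ) (hpos : ∀ x, 0 ≤ ρ x) (hf : f ∈ D.F) :
    ENNReal.ofReal (D.E ρ f) = ∫⁻ x, ENNReal.ofReal (ρ x ^ (d - 1) * D.Γ f f x) ∂D.v := by
  unfold E
  refine ofReal_integral_eq_lintegral_ofReal (D.integrable_v (D.cont_E hρ hf hf)) ?_
  exact Eventually.of_forall fun x => mul_nonneg (pow_nonneg (hpos x) _) (D.Γ_nonneg f hf x)

lemma ofReal_M {ρ f : Ω → ℝ} (hρ : Continuous ρ) (hpos : ∀ x, 0 ≤ ρ x) (hf : Continuous f) :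
    ENNReal.ofReal (D.M ρ f) = ∫⁻ x, ENNReal.ofReal (ρ x ^ d * f x ^ 2) ∂D.s := by
  unfold M
  refine ofReal_integral_eq_lintegral_ofReal
    (D.integrable_s ((hρ.pow _).mul (hf.pow 2))) ?_
  exact Eventually.of_forall fun x => mul_nonneg (pow_nonneg (hpos x) _) (sq_nonneg _)

lemma ofReal_V {ρ : Ω → ℝ} (hρ : Continuous ρ) (hpos : ∀ x, 0 ≤ ρ x) :
    ENNReal.ofReal (D.V ρ) = ∫⁻ x, ENNReal.ofReal (ρ x ^ (d + 1)) ∂D.v := by
  unfold V
  refine ofReal_integral_eq_lintegral_ofReal (D.integrable_v (hρ.pow _)) ?_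
  exact Eventually.of_forall fun x => pow_nonneg (hpos x) _

lemma ofReal_L {ρ : Ω → ℝ} (hρ : Continuous ρ) (hpos : ∀ x, 0 ≤ ρ x) :
    ENNReal.ofReal (D.L ρ) = ∫⁻ x, ENNReal.ofReal (ρ x ^ d) ∂D.s := by
  unfold L
  refine ofReal_integral_eq_lintegral_ofReal (D.integrable_s (hρ.pow _)) ?_
  exact Eventually.of_forall fun x => pow_nonneg (hpos x) _

omit [BorelSpace Ω] [T2Space Ω] [CompactSpace Ω] in
lemma E_nonneg {ρ f : Ω → ℝ} (hpos : ∀ x, 0 ≤ ρ x) (hf : f ∈ D.F) : 0 ≤ D.E ρ f :=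
  integral_nonneg fun x => mul_nonneg (pow_nonneg (hpos x) _) (D.Γ_nonneg f hf x)

omit [BorelSpace Ω] [T2Space Ω] [CompactSpace Ω] in
lemma M_nonneg {ρ : Ω → ℝ} (f : Ω → ℝ) (hpos : ∀ x, 0 ≤ ρ x) : 0 ≤ D.M ρ f :=
  integral_nonneg fun x => mul_nonneg (pow_nonneg (hpos x) _) (sq_nonneg _)

end StekData

namespace HalfChart

variable {D : StekData d Ω} (H : HalfChart D)

lemma isCompact_image {r : ℝ} (hr : r ≤ H.R) : IsCompact (H.Ψ '' Q d r) :=
  (isCompact_Qd d r).image_of_continuousOn (H.cont.mono (Q_mono hr))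

lemma isClosed_image [T2Space Ω] {r : ℝ} (hr : r ≤ H.R) : IsClosed (H.Ψ '' Q d r) :=
  (H.isCompact_image hr).isClosed

lemma measurableSet_image [T2Space Ω] [BorelSpace Ω] {r : ℝ} (hr : r ≤ H.R) :
    MeasurableSet (H.Ψ '' Q d r) := (H.isClosed_image hr).measurableSet

lemma notMem_image {r : ℝ} (hr : r ≤ H.R) {z : ℝ × (Fin d → ℝ)} (hz : z ∈ Q d H.R)
    (hz' : z ∉ Q d r) : H.Ψ z ∉ H.Ψ '' Q d r := by
  rintro ⟨z', hz'', h⟩
  exact hz' (H.inj (Q_mono hr hz'') hz h ▸ hz'')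

lemma mk_zero_mem_Q {r : ℝ} {x : Fin d → ℝ} (hr : 0 ≤ r) (hx : ‖x‖ ≤ r) : ((0 : ℝ), x) ∈ Q d r :=
  ⟨⟨le_rfl, hr⟩, by simpa using hx⟩

variable [BorelSpace Ω]

lemma aemeasurable : AEMeasurable H.Ψ (volume.restrict (Q d H.R)) :=
  H.cont.aemeasurable (measurableSet_Q _ _)

lemma aemeasurable_face :
    AEMeasurable (fun x => H.Ψ (0, x)) (volume.restrict (Metric.closedBall (0 : Fin d → ℝ) H.R)) := by
  have h : ContinuousOn (fun x : Fin d → ℝ => H.Ψ (0, x)) (Metric.closedBall 0 H.R) := by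
    refine H.cont.comp (by fun_prop) fun x hx => ?_
    exact mk_zero_mem_Q H.R_pos.le (by simpa using hx)
  exact h.aemeasurable Metric.isClosed_closedBall.measurableSet

lemma lower_vol {G : Ω → ℝ≥0∞} (hG : Measurable G) :
    ENNReal.ofReal H.c * ∫⁻ z in Q d H.R, G (H.Ψ z) ≤ ∫⁻ q, G q ∂D.v := by
  have h := lintegral_mono' H.vol_lower (le_refl G)
  rwa [lintegral_smul_measure, lintegral_map' hG.aemeasurable H.aemeasurable, smul_eq_mul] at h

lemma upper_vol {G : Ω → ℝ≥0∞} (hG : Measurable G) :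
    ∫⁻ q in H.Ψ '' Q d H.R, G q ∂D.v ≤ ENNReal.ofReal H.C * ∫⁻ z in Q d H.R, G (H.Ψ z) := by
  have h := lintegral_mono' H.vol_upper (le_refl G)
  rwa [lintegral_smul_measure, lintegral_map' hG.aemeasurable H.aemeasurable, smul_eq_mul] at h

lemma lower_bd {G : Ω → ℝ≥0∞} (hG : Measurable G) :
    ENNReal.ofReal H.c * ∫⁻ x in Metric.closedBall 0 H.R, G (H.Ψ (0, x)) ≤ ∫⁻ q, G q ∂D.s := by
  have h := lintegral_mono' H.bd_lower (le_refl G)
  rwa [lintegral_smul_measure, lintegral_map' hG.aemeasurable H.aemeasurable_face,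
    smul_eq_mul] at h

lemma upper_bd {G : Ω → ℝ≥0∞} (hG : Measurable G) :
    ∫⁻ q in H.Ψ '' Q d H.R, G q ∂D.s ≤
      ENNReal.ofReal H.C * ∫⁻ x in Metric.closedBall 0 H.R, G (H.Ψ (0, x)) := by
  have h := lintegral_mono' H.bd_upper (le_refl G)
  rwa [lintegral_smul_measure, lintegral_map' hG.aemeasurable H.aemeasurable_face,
    smul_eq_mul] at h

variable [T2Space Ω]

/-- Lower volume bound on `Ψ(Q_r)`. -/
lemma lower_vol' {G : Ω → ℝ≥0∞} (hG : Measurable G) {r : ℝ} (hr : r ≤ H.R) :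
    ENNReal.ofReal H.c * ∫⁻ z in Q d r, G (H.Ψ z) ≤ ∫⁻ q in H.Ψ '' Q d r, G q ∂D.v := by
  have hm := H.measurableSet_image hr
  rw [← lintegral_indicator hm]
  refine le_trans ?_ (H.lower_vol (hG.indicator hm))
  refine mul_le_mul' le_rfl ?_
  refine le_trans ?_ (lintegral_mono_set (Q_mono hr))
  refine setLIntegral_mono' (measurableSet_Q _ _) fun z hz => ?_
  rw [indicator_of_mem (mem_image_of_mem _ hz)]

/-- Upper volume bound on `Ψ(Q_r)`. -/
lemma upper_vol' {G : Ω → ℝ≥0∞} (hG : Measurable G) {r : ℝ} (hr : r ≤ H.R) :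
    ∫⁻ q in H.Ψ '' Q d r, G q ∂D.v ≤ ENNReal.ofReal H.C * ∫⁻ z in Q d r, G (H.Ψ z) := by
  have hm := H.measurableSet_image hr
  have hm2 := H.measurableSet_image le_rfl
  have h1 : ∫⁻ q in H.Ψ '' Q d r, G q ∂D.v =
      ∫⁻ q in H.Ψ '' Q d H.R, (H.Ψ '' Q d r).indicator G q ∂D.v := by
    rw [setLIntegral_indicator hm, inter_eq_left.2 (image_mono (Q_mono hr))]
  rw [h1]
  refine (H.upper_vol (hG.indicator hm)).trans ?_
  refine mul_le_mul' le_rfl ?_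
  rw [← lintegral_indicator (measurableSet_Q _ _), ← lintegral_indicator (measurableSet_Q _ _)]
  refine lintegral_mono fun z => ?_
  by_cases hz : z ∈ Q d H.R
  · rw [indicator_of_mem hz]
    by_cases hz' : z ∈ Q d r
    · rw [indicator_of_mem hz', indicator_of_mem (mem_image_of_mem _ hz')]
    · rw [indicator_of_notMem hz', indicator_of_notMem (H.notMem_image hr hz hz')]
  · rw [indicator_of_notMem hz]
    exact zero_le

/-- Upper boundary bound on `Ψ(Q_r)`. -/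
lemma upper_bd' {G : Ω → ℝ≥0∞} (hG : Measurable G) {r : ℝ} (hr : r ≤ H.R) :
    ∫⁻ q in H.Ψ '' Q d r, G q ∂D.s ≤
      ENNReal.ofReal H.C * ∫⁻ x in Metric.closedBall 0 r, G (H.Ψ (0, x)) := by
  have hm := H.measurableSet_image hr
  have hm2 := H.measurableSet_image le_rfl
  have h1 : ∫⁻ q in H.Ψ '' Q d r, G q ∂D.s =
      ∫⁻ q in H.Ψ '' Q d H.R, (H.Ψ '' Q d r).indicator G q ∂D.s := by
    rw [setLIntegral_indicator hm, inter_eq_left.2 (image_mono (Q_mono hr))]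
  rw [h1]
  refine (H.upper_bd (hG.indicator hm)).trans ?_
  refine mul_le_mul' le_rfl ?_
  have hb : ∀ r' : ℝ, MeasurableSet (Metric.closedBall (0 : Fin d → ℝ) r') := fun r' =>
    Metric.isClosed_closedBall.measurableSet
  rw [← lintegral_indicator (hb _), ← lintegral_indicator (hb _)]
  refine lintegral_mono fun x => ?_
  by_cases hx : x ∈ Metric.closedBall (0 : Fin d → ℝ) H.R
  · rw [indicator_of_mem hx]
    by_cases hx' : x ∈ Metric.closedBall (0 : Fin d → ℝ) r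
    · rw [indicator_of_mem hx']
      exact indicator_le_self _ _ _
    · rw [indicator_of_notMem hx', indicator_of_notMem]
      refine H.notMem_image hr (mk_zero_mem_Q H.R_pos.le (by simpa using hx)) ?_
      rintro ⟨_, h⟩
      exact hx' h
  · rw [indicator_of_notMem hx]
    exact zero_le

/-! ### Replacing a function inside the chart -/

/-- Inverse of the chart. -/
def inv (z : Ω) : ℝ × (Fin d → ℝ) := by
  classical
  exact Function.invFunOn H.Ψ (Q d H.R) z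

omit [BorelSpace Ω] [T2Space Ω] in
lemma inv_apply {z : ℝ × (Fin d → ℝ)} (hz : z ∈ Q d H.R) : H.inv (H.Ψ z) = z :=
  H.inj.leftInvOn_invFunOn hz

open Classical in
/-- The function equal to `φ` in the coordinates of the chart on `Q_r` and to `f` elsewhere. -/
def pull (r : ℝ) (f : Ω → ℝ) (φ : ℝ × (Fin d → ℝ) → ℝ) : Ω → ℝ := fun q =>
  if q ∈ H.Ψ '' Q d r then φ (H.inv q) else f q

omit [BorelSpace Ω] [T2Space Ω] in
lemma pull_off {r : ℝ} (f : Ω → ℝ) (φ : ℝ × (Fin d → ℝ) → ℝ) {q : Ω} (hq : q ∉ H.Ψ '' Q d r) :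
    H.pull r f φ q = f q := by
  unfold pull
  rw [if_neg hq]

omit [BorelSpace Ω] [T2Space Ω] in
lemma pull_apply {r : ℝ} (hr : r ≤ H.R) (f : Ω → ℝ) (φ : ℝ × (Fin d → ℝ) → ℝ)
    (hφ : ∀ z ∈ Q d H.R, z ∉ Q d r → φ z = f (H.Ψ z)) {z : ℝ × (Fin d → ℝ)} (hz : z ∈ Q d H.R) :
    H.pull r f φ (H.Ψ z) = φ z := by
  unfold pull
  by_cases h : z ∈ Q d r
  · rw [if_pos (mem_image_of_mem _ h), H.inv_apply hz]
  · rw [if_neg (H.notMem_image hr hz h), hφ z hz h]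

omit [BorelSpace Ω] [T2Space Ω] in
lemma pull_mem {r : ℝ} (hr : r < H.R) {f : Ω → ℝ} (hf : f ∈ D.F) {φ : ℝ × (Fin d → ℝ) → ℝ}
    (hφ : ∀ z ∈ Q d H.R, z ∉ Q d r → φ z = f (H.Ψ z)) (hφ' : ContDiffOn ℝ ∞ φ (Q d H.R)) :
    H.pull r f φ ∈ D.F := by
  refine H.glue f hf _ r hr (fun q hq => H.pull_off f φ hq) ?_
  refine hφ'.congr fun z hz => ?_
  exact H.pull_apply hr.le f φ hφ hz

/-! ### The operators `T_r` -/

/-- `T_r f = f ∘ Φ_r` inside the chart. -/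
def T (r : ℝ) (f : Ω → ℝ) : Ω → ℝ := H.pull r f (fun z => f (H.Ψ (Phi r z)))

omit [BorelSpace Ω] [T2Space Ω] in
lemma T_cond {r : ℝ} (hr : 0 < r) (f : Ω → ℝ) :
    ∀ z ∈ Q d H.R, z ∉ Q d r → f (H.Ψ (Phi r z)) = f (H.Ψ z) := by
  intro z hz hz'
  rw [Phi_eq_self hr]
  by_contra hcon
  push Not at hcon
  exact hz' ⟨⟨hz.1.1, hcon.1.le⟩, by simpa using hcon.2.le⟩

omit [BorelSpace Ω] [T2Space Ω] in
lemma T_off {r : ℝ} (f : Ω → ℝ) {q : Ω} (hq : q ∉ H.Ψ '' Q d r) : H.T r f q = f q :=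
  H.pull_off f _ hq

omit [BorelSpace Ω] [T2Space Ω] in
lemma T_apply {r : ℝ} (hr : 0 < r) (hrR : r ≤ H.R) (f : Ω → ℝ) {z : ℝ × (Fin d → ℝ)}
    (hz : z ∈ Q d H.R) : H.T r f (H.Ψ z) = f (H.Ψ (Phi r z)) :=
  H.pull_apply hrR f _ (H.T_cond hr f) hz

omit [BorelSpace Ω] [T2Space Ω] in
lemma T_mem {r : ℝ} (hr : 0 < r) (hrR : r < H.R) {f : Ω → ℝ} (hf : f ∈ D.F) : H.T r f ∈ D.F := by
  refine H.pull_mem hrR hf (H.T_cond hr f) ?_
  exact (H.restr f hf).comp (Phi_contDiff r).contDiffOn (Phi_mapsTo hr hrR.le)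

/-- `T_r` as a linear map. -/
def Tl (r : ℝ) : (Ω → ℝ) →ₗ[ℝ] (Ω → ℝ) where
  toFun := H.T r
  map_add' f h := by
    funext q
    simp only [T, pull, Pi.add_apply]
    split_ifs <;> rfl
  map_smul' a f := by
    funext q
    simp only [T, pull, Pi.smul_apply, RingHom.id_apply]
    split_ifs <;> rfl

/-- `T_r` as a linear map of `F`. -/
def TF {r : ℝ} (hr : 0 < r) (hrR : r < H.R) : D.F →ₗ[ℝ] D.F :=
  (H.Tl r).restrict fun _ hf => H.T_mem hr hrR hf

omit [BorelSpace Ω] [T2Space Ω] in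
lemma TF_coe {r : ℝ} (hr : 0 < r) (hrR : r < H.R) (f : D.F) :
    ((H.TF hr hrR f : D.F) : Ω → ℝ) = H.T r f := rfl

end HalfChart

end Pool.Agent.Steklov
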