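import Mathlib
import Pool.Agent.Lib.MP_4838e0_gt.Transfer

set_option autoImplicit false

universe u
set_option linter.unusedSectionVars false

open Set Filter Topology MeasureTheory
open scoped ENNReal ContDiff

noncomputable section

namespace Pool.Agent.Steklov

variable {d : ℕ} {Ω : Type u} [TopologicalSpace Ω] [MeasurableSpace Ω]
  [BorelSpace Ω] [T2Space Ω] [CompactSpace Ω]

namespace HalfChart

variable {D : StekData d Ω} (H : HalfChart D)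

/-- local energy -/
def enL (A : Set (ℝ × (Fin d → ℝ))) (f : Ω → ℝ) : ℝ≥0∞ :=
  ∫⁻ z in A, ‖fderiv ℝ (f ∘ H.Ψ) z‖ₑ ^ 2

/-- local energy, as a real number -/
def en (A : Set (ℝ × (Fin d → ℝ))) (f : Ω → ℝ) : ℝ := (H.enL A f).toReal

lemma c1 {f : Ω → ℝ} (hf : f ∈ D.F) : C1 d H.R (f ∘ H.Ψ) := (H.restr f hf).of_le (by simp)

lemma weighted_lower {f : Ω → ℝ} (hf : f ∈ D.F) {w : Ω → ℝ} (hw : Continuous w)
    (hw0 : ∀ x, 0 ≤ w x) {r : ℝ} (hr : r ≤ H.R) :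
    ENNReal.ofReal (H.c ^ 2) * ∫⁻ z in Q d r, ENNReal.ofReal (w (H.Ψ z)) *
      ‖fderiv ℝ (f ∘ H.Ψ) z‖ₑ ^ 2 ≤
      ∫⁻ q in H.Ψ '' Q d r, ENNReal.ofReal (w q * D.Γ f f q) ∂D.v := by
  have hc := H.c_pos
  have hm : Measurable fun q => ENNReal.ofReal (w q * D.Γ f f q) :=
    ((hw.mul (D.Γ_cont f hf f hf)).measurable).ennreal_ofReal
  refine le_trans ?_ (H.lower_vol' hm hr)
  rw [sq, ENNReal.ofReal_mul hc.le, mul_assoc]
  refine mul_le_mul' le_rfl ?_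
  rw [setLIntegral_Q_eq, setLIntegral_Q_eq, ← lintegral_const_mul' _ _ ENNReal.ofReal_ne_top]
  refine setLIntegral_mono' (isOpen_Qo d r).measurableSet fun z hz => ?_
  have hz' : z ∈ Qo d H.R := by
    exact ⟨⟨hz.1.1, hz.1.2.trans_le hr⟩, Metric.ball_subset_ball hr hz.2⟩
  have h1 := H.energy_lower f hf z hz'
  rw [← ofReal_norm, ← ENNReal.ofReal_pow (norm_nonneg _), ← ENNReal.ofReal_mul (hw0 _),
    ← ENNReal.ofReal_mul hc.le]
  refine ENNReal.ofReal_le_ofReal ?_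
  have := mul_le_mul_of_nonneg_left h1 (hw0 (H.Ψ z))
  linarith

lemma weighted_upper {f : Ω → ℝ} (hf : f ∈ D.F) {w : Ω → ℝ} (hw : Continuous w)
    (hw0 : ∀ x, 0 ≤ w x) {r : ℝ} (hr : r ≤ H.R) :
    ∫⁻ q in H.Ψ '' Q d r, ENNReal.ofReal (w q * D.Γ f f q) ∂D.v ≤
    ENNReal.ofReal (H.C ^ 2) * ∫⁻ z in Q d r, ENNReal.ofReal (w (H.Ψ z)) *
      ‖fderiv ℝ (f ∘ H.Ψ) z‖ₑ ^ 2 := by
  have hc := H.C_pos
  have hm : Measurable fun q => ENNReal.ofReal (w q * D.Γ f f q) :=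
    ((hw.mul (D.Γ_cont f hf f hf)).measurable).ennreal_ofReal
  refine (H.upper_vol' hm hr).trans ?_
  rw [sq, ENNReal.ofReal_mul hc.le, mul_assoc]
  refine mul_le_mul' le_rfl ?_
  rw [setLIntegral_Q_eq, setLIntegral_Q_eq, ← lintegral_const_mul' _ _ ENNReal.ofReal_ne_top]
  refine setLIntegral_mono' (isOpen_Qo d r).measurableSet fun z hz => ?_
  have hz' : z ∈ Qo d H.R := by
    exact ⟨⟨hz.1.1, hz.1.2.trans_le hr⟩, Metric.ball_subset_ball hr hz.2⟩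
  have h1 := H.energy_upper f hf z hz'
  rw [← ofReal_norm, ← ENNReal.ofReal_pow (norm_nonneg _), ← ENNReal.ofReal_mul (hw0 _),
    ← ENNReal.ofReal_mul hc.le]
  refine ENNReal.ofReal_le_ofReal ?_
  have := mul_le_mul_of_nonneg_left h1 (hw0 (H.Ψ z))
  linarith

lemma enL_mono {A A' : Set (ℝ × (Fin d → ℝ))} (h : A ⊆ A') (f : Ω → ℝ) :
    H.enL A f ≤ H.enL A' f := lintegral_mono_set h

/-- the local energy is controlled by the energy -/
lemma enL_le_E {f : Ω → ℝ} (hf : f ∈ D.F) {ρ : Ω → ℝ} (hρ : Continuous ρ) {m : ℝ} (hm : 0 ≤ m)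
    (hρm : ∀ x, m ≤ ρ x) :
    ENNReal.ofReal (H.c ^ 2 * m ^ (d - 1)) * H.enL (Q d H.R) f ≤ ENNReal.ofReal (D.E ρ f) := by
  rw [D.ofReal_E hρ (fun x => hm.trans (hρm x)) hf]
  refine le_trans ?_ (setLIntegral_le_lintegral (H.Ψ '' Q d H.R) _)
  refine le_trans ?_ (H.weighted_lower hf (w := fun x => ρ x ^ (d - 1)) (hρ.pow _)
    (fun x => pow_nonneg (hm.trans (hρm x)) _) le_rfl)
  rw [ENNReal.ofReal_mul (by have := H.c_pos; positivity), mul_assoc]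
  refine mul_le_mul' le_rfl ?_
  unfold enL
  rw [← lintegral_const_mul' _ _ ENNReal.ofReal_ne_top]
  refine lintegral_mono fun z => ?_
  exact mul_le_mul' (ENNReal.ofReal_le_ofReal (pow_le_pow_left₀ hm (hρm _) _)) le_rfl

lemma enL_lt_top {f : Ω → ℝ} (hf : f ∈ D.F) {A : Set (ℝ × (Fin d → ℝ))} (hA : A ⊆ Q d H.R) :
    H.enL A f < ⊤ := by
  refine (H.enL_mono hA f).trans_lt ?_
  have h1 := H.enL_le_E hf (ρ := fun _ => 1) continuous_const (m := 1) zero_le_one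
    (fun _ => le_rfl)
  by_contra hcon
  rw [not_lt, top_le_iff] at hcon
  rw [hcon, ENNReal.mul_top] at h1
  · exact absurd h1 (by simp)
  · rw [Ne, ENNReal.ofReal_eq_zero, not_le]
    have := H.c_pos
    positivity

lemma ofReal_en {f : Ω → ℝ} (hf : f ∈ D.F) {A : Set (ℝ × (Fin d → ℝ))} (hA : A ⊆ Q d H.R) :
    ENNReal.ofReal (H.en A f) = H.enL A f := ENNReal.ofReal_toReal (H.enL_lt_top hf hA).ne

lemma en_nonneg (A : Set (ℝ × (Fin d → ℝ))) (f : Ω → ℝ) : 0 ≤ H.en A f := ENNReal.toReal_nonneg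

lemma en_mono {f : Ω → ℝ} (hf : f ∈ D.F) {A A' : Set (ℝ × (Fin d → ℝ))} (h : A ⊆ A')
    (hA : A' ⊆ Q d H.R) : H.en A f ≤ H.en A' f :=
  ENNReal.toReal_mono (H.enL_lt_top hf hA).ne (H.enL_mono h f)

lemma en_le_E {f : Ω → ℝ} (hf : f ∈ D.F) {ρ : Ω → ℝ} (hρ : Continuous ρ) {m : ℝ} (hm : 0 ≤ m)
    (hρm : ∀ x, m ≤ ρ x) : H.c ^ 2 * m ^ (d - 1) * H.en (Q d H.R) f ≤ D.E ρ f := by
  have h := H.enL_le_E hf hρ hm hρm
  rw [← H.ofReal_en hf subset_rfl, ← ENNReal.ofReal_mul (by have := H.c_pos; positivity)] at h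
  rwa [ENNReal.ofReal_le_ofReal_iff (D.E_nonneg (fun x => hm.trans (hρm x)) hf)] at h

/-- The real set integral of the energy density. -/
def EA (D : StekData d Ω) (ρ : Ω → ℝ) (A : Set Ω) (f : Ω → ℝ) : ℝ :=
  ∫ x in A, ρ x ^ (d - 1) * D.Γ f f x ∂D.v

lemma EA_add_compl {ρ : Ω → ℝ} (hρ : Continuous ρ) {A : Set Ω} (hA : MeasurableSet A)
    {f : Ω → ℝ} (hf : f ∈ D.F) : EA D ρ A f + EA D ρ Aᶜ f = D.E ρ f :=
  integral_add_compl hA (D.integrable_v (D.cont_E hρ hf hf))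

lemma EA_mono {ρ ρ' : Ω → ℝ} (hρ : Continuous ρ) (hρ' : Continuous ρ') (hpos : ∀ x, 0 ≤ ρ x)
    (hle : ∀ x, ρ x ≤ ρ' x) (A : Set Ω)
    {f : Ω → ℝ} (hf : f ∈ D.F) : EA D ρ A f ≤ EA D ρ' A f := by
  refine integral_mono (D.integrable_v (D.cont_E hρ hf hf)).integrableOn
    (D.integrable_v (D.cont_E hρ' hf hf)).integrableOn fun x => ?_
  exact mul_le_mul_of_nonneg_right (pow_le_pow_left₀ (hpos x) (hle x) _) (D.Γ_nonneg f hf x)

lemma EA_nonneg {ρ : Ω → ℝ} (hpos : ∀ x, 0 ≤ ρ x) (A : Set Ω)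
    {f : Ω → ℝ} (hf : f ∈ D.F) : 0 ≤ EA D ρ A f :=
  integral_nonneg fun x => mul_nonneg (pow_nonneg (hpos x) _) (D.Γ_nonneg f hf x)

lemma ofReal_EA {ρ : Ω → ℝ} (hρ : Continuous ρ) (hpos : ∀ x, 0 ≤ ρ x) (A : Set Ω)
    {f : Ω → ℝ} (hf : f ∈ D.F) : ENNReal.ofReal (EA D ρ A f) =
      ∫⁻ x in A, ENNReal.ofReal (ρ x ^ (d - 1) * D.Γ f f x) ∂D.v := by
  refine ofReal_integral_eq_lintegral_ofReal (D.integrable_v (D.cont_E hρ hf hf)).integrableOn ?_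
  exact Eventually.of_forall fun x => mul_nonneg (pow_nonneg (hpos x) _) (D.Γ_nonneg f hf x)

/-- (T1) The energy of `T_r f`. -/
lemma exists_T1 (d : ℕ) : ∃ B : ℝ, 0 < B ∧ ∀ {Ω : Type u} [TopologicalSpace Ω] [MeasurableSpace Ω]
    [BorelSpace Ω] [T2Space Ω] [CompactSpace Ω] {D : StekData d Ω} (H : HalfChart D)
    {f : Ω → ℝ} (_ : f ∈ D.F) {ρ : Ω → ℝ} (_ : Continuous ρ) (_ : ∀ x, 0 ≤ ρ x)
    {P : ℝ} (_ : ∀ x, ρ x ≤ P) {r : ℝ} (_ : 0 < r) (_ : r < H.R),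
    D.E ρ (H.T r f) ≤ EA D ρ (H.Ψ '' Q d r)ᶜ f + H.C ^ 2 * P ^ (d - 1) * B * H.en (Sh d r) f := by
  obtain ⟨B, hB0, hB⟩ := exists_energy_comp_Phi d
  refine ⟨B, hB0, ?_⟩
  intro Ω _ _ _ _ _ D H f hf ρ hρ hpos P hP r hr hrR
  have hne : Nonempty Ω := ⟨H.Ψ 0⟩
  have hP0 : 0 ≤ P := (hpos (H.Ψ 0)).trans (hP _)
  have hTf := H.T_mem hr hrR hf
  have hAm := H.measurableSet_image hrR.le
  have hShQ : Sh d r ⊆ Q d H.R := (Sh_subset d r).trans (Q_mono hrR.le)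
  rw [← EA_add_compl hρ hAm hTf, add_comm]
  refine add_le_add (le_of_eq ?_) ?_
  · unfold EA
    refine setIntegral_congr_fun hAm.compl fun x hx => ?_
    have := D.Γ_local _ hTf _ hf (H.Ψ '' Q d r)ᶜ (H.isClosed_image hrR.le).isOpen_compl
      (fun q hq => H.T_off f hq) hx
    simp only [this]
  · rw [← ENNReal.ofReal_le_ofReal_iff (by
      have := H.en_nonneg (Sh d r) f; have := H.C_pos; positivity), ofReal_EA hρ hpos _ hTf]
    refine (H.weighted_upper hTf (w := fun x => ρ x ^ (d - 1)) (hρ.pow _)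
      (fun x => pow_nonneg (hpos x) _) hrR.le).trans ?_
    have h1 : ∫⁻ z in Q d r, ENNReal.ofReal (ρ (H.Ψ z) ^ (d - 1)) *
        ‖fderiv ℝ (H.T r f ∘ H.Ψ) z‖ₑ ^ 2 ≤
        ENNReal.ofReal (P ^ (d - 1)) * (ENNReal.ofReal B * H.enL (Sh d r) f) := by
      calc _ ≤ ∫⁻ z in Q d r, ENNReal.ofReal (P ^ (d - 1)) *
            ‖fderiv ℝ (H.T r f ∘ H.Ψ) z‖ₑ ^ 2 := by
            refine lintegral_mono fun z => ?_
            exact mul_le_mul' (ENNReal.ofReal_le_ofReal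
              (pow_le_pow_left₀ (hpos _) (hP _) _)) le_rfl
        _ = ENNReal.ofReal (P ^ (d - 1)) * ∫⁻ z in Q d r,
            ‖fderiv ℝ (H.T r f ∘ H.Ψ) z‖ₑ ^ 2 := lintegral_const_mul' _ _ ENNReal.ofReal_ne_top
        _ = ENNReal.ofReal (P ^ (d - 1)) * ∫⁻ z in Q d r,
            ‖fderiv ℝ ((f ∘ H.Ψ) ∘ Phi r) z‖ₑ ^ 2 := by
            congr 1
            rw [setLIntegral_Q_eq, setLIntegral_Q_eq]
            refine setLIntegral_congr_fun (isOpen_Qo d r).measurableSet fun z hz => ?_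
            have h2 : (H.T r f ∘ H.Ψ) =ᶠ[𝓝 z] ((f ∘ H.Ψ) ∘ Phi r) := by
              filter_upwards [(isOpen_Qo d r).mem_nhds hz] with z' hz'
              exact H.T_apply hr hrR.le f (Q_mono hrR.le (Qo_subset_Q d r hz'))
            simp only [h2.fderiv_eq]
        _ ≤ _ := by
            refine mul_le_mul' le_rfl ?_
            exact hB H.R r hr hrR _ (H.c1 hf)
    refine (mul_le_mul' le_rfl h1).trans_eq ?_
    rw [← H.ofReal_en hf hShQ, ← ENNReal.ofReal_mul hB0.le, ← ENNReal.ofReal_mul (by positivity),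
      ← ENNReal.ofReal_mul (by positivity)]
    congr 1
    ring

/-- (T2) The boundary mass of `f - T_r f`. -/
lemma T2 {f : Ω → ℝ} (hf : f ∈ D.F) {ρ : Ω → ℝ} (hρ : Continuous ρ) (hpos : ∀ x, 0 ≤ ρ x)
    {P : ℝ} (hP : ∀ x, ρ x ≤ P) {r : ℝ} (hr : 0 < r) (hrR : r < H.R) :
    D.M ρ (f - H.T r f) ≤ H.C * P ^ d * r * H.en (Q d r) f := by
  have hne : Nonempty Ω := ⟨H.Ψ 0⟩
  have hP0 : 0 ≤ P := (hpos (H.Ψ 0)).trans (hP _)
  have hC := H.C_pos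
  have hTf := H.T_mem hr hrR hf
  have hAm := H.measurableSet_image hrR.le
  have hcont : Continuous (f - H.T r f) := (D.F_cont f hf).sub (D.F_cont _ hTf)
  have hen := H.en_nonneg (Q d r) f
  rw [← ENNReal.ofReal_le_ofReal_iff (by positivity), D.ofReal_M hρ hpos hcont]
  have hGm : Measurable fun x => ENNReal.ofReal (ρ x ^ d * (f - H.T r f) x ^ 2) :=
    ((hρ.pow _).mul (hcont.pow 2)).measurable.ennreal_ofReal
  have h1 : ∫⁻ x, ENNReal.ofReal (ρ x ^ d * (f - H.T r f) x ^ 2) ∂D.s =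
      ∫⁻ x in H.Ψ '' Q d r, ENNReal.ofReal (ρ x ^ d * (f - H.T r f) x ^ 2) ∂D.s := by
    rw [← lintegral_indicator hAm]
    refine lintegral_congr fun x => ?_
    by_cases hx : x ∈ H.Ψ '' Q d r
    · rw [indicator_of_mem hx]
    · rw [indicator_of_notMem hx, Pi.sub_apply, H.T_off f hx]
      simp
  rw [h1]
  refine (H.upper_bd' hGm hrR.le).trans ?_
  have hu := H.c1 hf
  have h2 : ∀ x ∈ Metric.ball (0 : Fin d → ℝ) r,
      ENNReal.ofReal (ρ (H.Ψ (0, x)) ^ d * (f - H.T r f) (H.Ψ (0, x)) ^ 2) ≤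
      ENNReal.ofReal (P ^ d * r) * ∫⁻ t in Icc 0 r, ‖fderiv ℝ (f ∘ H.Ψ) (t, x)‖ₑ ^ 2 := by
    intro x hx
    have hx' : ‖x‖ < r := by simpa using hx
    have hz : ((0 : ℝ), x) ∈ Q d H.R := mk_zero_mem_Q H.R_pos.le (hx'.le.trans hrR.le)
    set t := aa * r * eta (r⁻¹ • x) with ht
    have ha := aa_pos
    have ha' := aa_le
    have he0 := eta_nonneg (r⁻¹ • x)
    have he1 := eta_le_one (r⁻¹ • x)
    have ht0 : 0 ≤ t := by positivity
    have ht1 : t ≤ r := by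
      calc t ≤ 1 / 4 * r * 1 := by rw [ht]; gcongr
        _ ≤ r := by linarith
    have h3 : (f - H.T r f) (H.Ψ (0, x)) = (f ∘ H.Ψ) (0, x) - (f ∘ H.Ψ) (t, x) := by
      rw [Pi.sub_apply, H.T_apply hr hrR.le f hz, Phi_zero]
      rfl
    have h4 := vertical_weighted hu (hx'.trans hrR) ht0 (ht1.trans hrR.le) (fun _ => 1)
      measurable_const (fun _ _ => one_pos)
    simp only [div_one, ENNReal.ofReal_one, one_mul, setLIntegral_const, Real.volume_Icc,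
      sub_zero] at h4
    rw [h3, ENNReal.ofReal_mul (pow_nonneg (hpos _) _), ← enorm_sq_eq]
    have h5 : ‖(f ∘ H.Ψ) (0, x) - (f ∘ H.Ψ) (t, x)‖ₑ = ‖(f ∘ H.Ψ) (t, x) - (f ∘ H.Ψ) (0, x)‖ₑ :=
      enorm_sub_rev _ _
    rw [h5]
    calc ENNReal.ofReal (ρ (H.Ψ (0, x)) ^ d) * ‖(f ∘ H.Ψ) (t, x) - (f ∘ H.Ψ) (0, x)‖ₑ ^ 2
        ≤ ENNReal.ofReal (P ^ d) * (ENNReal.ofReal r *
          ∫⁻ t in Icc 0 r, ‖fderiv ℝ (f ∘ H.Ψ) (t, x)‖ₑ ^ 2) := by
          refine mul_le_mul' (ENNReal.ofReal_le_ofReal (pow_le_pow_left₀ (hpos _) (hP _) _)) ?_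
          refine h4.trans (mul_le_mul' (ENNReal.ofReal_le_ofReal ht1) ?_)
          exact lintegral_mono_set (Icc_subset_Icc_right ht1)
      _ = _ := by
          rw [← mul_assoc, ← ENNReal.ofReal_mul (by positivity)]
  have h6 : ∫⁻ x in Metric.closedBall (0 : Fin d → ℝ) r,
      ENNReal.ofReal (ρ (H.Ψ (0, x)) ^ d * (f - H.T r f) (H.Ψ (0, x)) ^ 2) ≤
      ENNReal.ofReal (P ^ d * r) * H.enL (Q d r) f := by
    have h7 : H.enL (Q d r) f = ∫⁻ x in Metric.closedBall (0 : Fin d → ℝ) r,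
        ∫⁻ t in Icc 0 r, ‖fderiv ℝ (f ∘ H.Ψ) (t, x)‖ₑ ^ 2 := by
      unfold enL
      rw [Q, Measure.volume_eq_prod, ← Measure.prod_restrict, lintegral_prod_symm' _
        ((measurable_enorm_fderiv _).pow_const 2)]
    have hball : (Metric.closedBall (0 : Fin d → ℝ) r) =ᵐ[volume] Metric.ball 0 r := by
      rw [← Metric.ball_union_sphere]
      exact union_ae_eq_left_of_ae_eq_empty
        (ae_eq_empty.2 (Measure.addHaar_sphere_of_ne_zero _ _ hr.ne'))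
    rw [h7, setLIntegral_congr hball, setLIntegral_congr hball,
      ← lintegral_const_mul' _ _ ENNReal.ofReal_ne_top]
    exact setLIntegral_mono' Metric.isOpen_ball.measurableSet h2
  refine (mul_le_mul' le_rfl h6).trans_eq ?_
  rw [← H.ofReal_en hf (Q_mono hrR.le), ← ENNReal.ofReal_mul (by positivity),
    ← ENNReal.ofReal_mul (by positivity)]
  congr 1
  ring

end HalfChart

end Pool.Agent.Steklov
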