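import Mathlib
import Pool.Agent.Lib.MP_4838e0_gt.Estimates

set_option autoImplicit false
set_option linter.unusedSectionVars false
set_option linter.unusedVariables false

open Set Filter Topology MeasureTheory
open scoped ENNReal ContDiff

noncomputable section

namespace Pool.Agent.Steklov

variable {d : ℕ}

/-! ### The bubble -/

/-- The vertical profile of the bubble. -/
def th (a b h : ℝ) (t : ℝ) : ℝ := (a + (b - a) * Real.smoothTransition (t / h)) * kap (2 * t)

lemma th_contDiff (a b h : ℝ) : ContDiff ℝ ∞ (th a b h) := by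
  unfold th
  refine ContDiff.mul (contDiff_const.add (contDiff_const.mul ?_)) ?_
  · exact Real.smoothTransition.contDiff.comp (contDiff_id.div_const h)
  · exact kap_contDiff.comp (contDiff_const.mul contDiff_id)

lemma mix_ge (a b : ℝ) {s : ℝ} (h0 : 0 ≤ s) (h1 : s ≤ 1) : min a b ≤ a + (b - a) * s := by
  rcases le_total a b with h | h
  · rw [min_eq_left h]; nlinarith
  · rw [min_eq_right h]; nlinarith

lemma mix_le (a b : ℝ) {s : ℝ} (h0 : 0 ≤ s) (h1 : s ≤ 1) : a + (b - a) * s ≤ max a b := by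
  rcases le_total a b with h | h
  · rw [max_eq_right h]; nlinarith
  · rw [max_eq_left h]; nlinarith

lemma th_nonneg {a b : ℝ} (ha : 0 < a) (hb : 0 < b) (h t : ℝ) : 0 ≤ th a b h t := by
  unfold th
  refine mul_nonneg ?_ (kap_nonneg _)
  exact (lt_min ha hb).le.trans
    (mix_ge a b (Real.smoothTransition.nonneg _) (Real.smoothTransition.le_one _))

lemma th_le {a b : ℝ} (ha : 0 < a) (hb : 0 < b) (h t : ℝ) : th a b h t ≤ max a b := by
  unfold th
  have h1 := mix_le a b (Real.smoothTransition.nonneg (t / h)) (Real.smoothTransition.le_one _)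
  have h2 := kap_le_one (2 * t)
  have h3 := kap_nonneg (2 * t)
  have h4 : 0 < max a b := lt_max_of_lt_left ha
  calc _ ≤ max a b * 1 := by gcongr
    _ = max a b := mul_one _

lemma th_le_of_ge {a b : ℝ} (hb : 0 < b) {h t : ℝ} (hh : 0 < h) (ht : h ≤ t) :
    th a b h t ≤ b := by
  unfold th
  rw [Real.smoothTransition.one_of_one_le ((one_le_div hh).2 ht)]
  have h2 := kap_le_one (2 * t)
  calc (a + (b - a) * 1) * kap (2 * t) = b * kap (2 * t) := by ring
    _ ≤ b * 1 := by gcongr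
    _ = b := mul_one _

lemma th_eq {a b h t : ℝ} (ht0 : 0 ≤ t) (ht : t ≤ 1 / 2) :
    th a b h t = a + (b - a) * Real.smoothTransition (t / h) := by
  unfold th
  rw [kap_eq_one, mul_one]
  rw [abs_mul, abs_two, abs_of_nonneg ht0]
  linarith

lemma th_eq_b {a b h t : ℝ} (hh : 0 < h) (hht : h ≤ t) (ht : t ≤ 1 / 2) : th a b h t = b := by
  rw [th_eq (hh.le.trans hht) ht, Real.smoothTransition.one_of_one_le ((one_le_div hh).2 hht)]
  ring

lemma th_ge {a b h t : ℝ} (ht0 : 0 ≤ t) (ht : t ≤ 1 / 2) : min a b ≤ th a b h t := by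
  rw [th_eq ht0 ht]
  exact mix_ge a b (Real.smoothTransition.nonneg _) (Real.smoothTransition.le_one _)

lemma th_zero (a b h : ℝ) : th a b h 0 = a := by
  rw [th_eq le_rfl (by norm_num), zero_div, Real.smoothTransition.zero]
  ring

lemma th_eq_zero {a b h t : ℝ} (ht : 1 ≤ t) : th a b h t = 0 := by
  unfold th
  rw [kap_eq_zero, mul_zero]
  rw [abs_mul, abs_two, abs_of_nonneg (by linarith)]
  linarith

/-- The bubble at scale `r`. -/
def bub (a b h r : ℝ) (z : ℝ × (Fin d → ℝ)) : ℝ := r⁻¹ * (th a b h (r⁻¹ * z.1) * eta (r⁻¹ • z.2))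

lemma bub_contDiff (a b h r : ℝ) : ContDiff ℝ ∞ (bub (d := d) a b h r) := by
  unfold bub
  refine contDiff_const.mul (ContDiff.mul ?_ ?_)
  · exact (th_contDiff a b h).comp (contDiff_const.mul contDiff_fst)
  · exact eta_contDiff.comp (contDiff_snd.const_smul _)

lemma bub_nonneg {a b : ℝ} (ha : 0 < a) (hb : 0 < b) (h : ℝ) {r : ℝ} (hr : 0 < r)
    (z : ℝ × (Fin d → ℝ)) : 0 ≤ bub a b h r z :=
  mul_nonneg (inv_nonneg.2 hr.le) (mul_nonneg (th_nonneg ha hb _ _) (eta_nonneg _))

lemma bub_eq_zero (a b h : ℝ) {r : ℝ} (hr : 0 < r) {z : ℝ × (Fin d → ℝ)}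
    (hz : r ≤ z.1 ∨ r ≤ ‖z.2‖) : bub a b h r z = 0 := by
  unfold bub
  rcases hz with hz | hz
  · rw [th_eq_zero, zero_mul, mul_zero]
    rw [inv_mul_eq_div, le_div_iff₀ hr]
    linarith
  · rw [eta_eq_zero, mul_zero, mul_zero]
    simp only [norm_smul, norm_inv, Real.norm_eq_abs, abs_of_pos hr]
    rw [inv_mul_eq_div, le_div_iff₀ hr]
    linarith

lemma bub_zero (a b h r : ℝ) (x : Fin d → ℝ) :
    bub a b h r (0, x) = r⁻¹ * (a * eta (r⁻¹ • x)) := by
  unfold bub
  simp [th_zero]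

/-- The constant of the trace inequality. -/
def Kd (d : ℕ) : ℝ := 3 + 50 * 2 ^ (2 * d + 1)

lemma Kd_pos (d : ℕ) : 0 < Kd d := by unfold Kd; positivity

/-- The weight used for the mean. -/
def wr (d : ℕ) (r : ℝ) (x : Fin d → ℝ) : ℝ≥0∞ := ENNReal.ofReal (eta (r⁻¹ • x) ^ d)

lemma wr_measurable (r : ℝ) : Measurable (wr d r) := by
  unfold wr
  have := (eta_contDiff (d := d)).continuous
  have h : Continuous fun x : Fin d → ℝ => eta (r⁻¹ • x) ^ d := by fun_prop
  exact h.measurable.ennreal_ofReal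

lemma wr_le_one (r : ℝ) (x : Fin d → ℝ) : wr d r x ≤ 1 := by
  unfold wr
  rw [← ENNReal.ofReal_one]
  exact ENNReal.ofReal_le_ofReal (pow_le_one₀ (eta_nonneg _) (eta_le_one _))

lemma wr_low {r : ℝ} (hr : 0 < r) (x : Fin d → ℝ) (hx : ‖x‖ < r / 2) : 1 ≤ wr d r x := by
  unfold wr
  rw [eta_eq_one, one_pow, ENNReal.ofReal_one]
  rw [norm_smul, norm_inv, Real.norm_eq_abs, abs_of_pos hr, inv_mul_eq_div, div_le_iff₀ hr]
  linarith

lemma wr_star (r : ℝ) (x y : Fin d → ℝ) (t : ℝ) (ht : t ∈ Icc (0 : ℝ) 1) :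
    wr d r x * wr d r y ≤ wr d r ((1 - t) • x + t • y) := by
  unfold wr
  rw [← ENNReal.ofReal_mul (pow_nonneg (eta_nonneg _) _), ← mul_pow]
  refine ENNReal.ofReal_le_ofReal (pow_le_pow_left₀ (mul_nonneg (eta_nonneg _) (eta_nonneg _)) ?_ _)
  refine (eta_star _ _ ht).trans_eq ?_
  congr 1
  rw [smul_add, smul_comm, smul_comm r⁻¹ t]

/-- The measure whose mean is subtracted. -/
def num (d : ℕ) (r : ℝ) : Measure (ℝ × (Fin d → ℝ)) := nu d (r / 2) r (wr d r)

lemma num_finite {r : ℝ} (hr : 0 < r) : IsFiniteMeasure (num d r) :=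
  nu_finite _ hr (wr_le_one r)

lemma num_ne_zero {r : ℝ} (hr : 0 < r) : num d r univ ≠ 0 := by
  have h1 := nu_univ_ge (d := d) (T := r / 2) hr (wr_low hr)
  refine (lt_of_lt_of_le (ENNReal.mul_pos ?_ ?_) h1).ne'
  · rw [Ne, ENNReal.ofReal_eq_zero, not_le]; positivity
  · rw [Ne, ENNReal.ofReal_eq_zero, not_le]; positivity

/-- The integral of the inverse weight. -/
lemma lintegral_inv_weight {a b h r : ℝ} (ha : 0 < a) (hb : 0 < b) (hh : 0 < h)
    (hh2 : h * b ^ (d - 1) ≤ min a b ^ (d - 1)) (hr : 0 < r) :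
    ∫⁻ τ in Icc 0 (r / 2), ENNReal.ofReal (1 / th a b h (r⁻¹ * τ) ^ (d - 1)) ≤
      ENNReal.ofReal (3 / 2 * r / b ^ (d - 1)) := by
  have hm : 0 < min a b := lt_min ha hb
  calc ∫⁻ τ in Icc 0 (r / 2), ENNReal.ofReal (1 / th a b h (r⁻¹ * τ) ^ (d - 1))
      ≤ ∫⁻ τ in Icc 0 (r / 2), (ENNReal.ofReal (1 / b ^ (d - 1)) +
          (Icc 0 (h * r)).indicator (fun _ => ENNReal.ofReal (1 / min a b ^ (d - 1))) τ) := by
        refine setLIntegral_mono' measurableSet_Icc fun τ hτ => ?_
        have h1 : 0 ≤ r⁻¹ * τ := mul_nonneg (inv_nonneg.2 hr.le) hτ.1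
        have h2 : r⁻¹ * τ ≤ 1 / 2 := by
          rw [inv_mul_eq_div, div_le_iff₀ hr]; linarith [hτ.2]
        by_cases h3 : τ ≤ h * r
        · rw [indicator_of_mem (show τ ∈ Icc 0 (h * r) from ⟨hτ.1, h3⟩)]
          refine le_trans (ENNReal.ofReal_le_ofReal ?_) le_add_self
          exact one_div_le_one_div_of_le (by positivity)
            (pow_le_pow_left₀ hm.le (th_ge h1 h2) _)
        · rw [th_eq_b hh ?_ h2]
          · exact le_self_add
          · push Not at h3
            rw [inv_mul_eq_div, le_div_iff₀ hr]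
            exact h3.le
    _ ≤ ENNReal.ofReal (1 / b ^ (d - 1)) * ENNReal.ofReal (r / 2) +
          ENNReal.ofReal (1 / min a b ^ (d - 1)) * ENNReal.ofReal (h * r) := by
        rw [lintegral_add_left measurable_const, setLIntegral_const, Real.volume_Icc, sub_zero]
        refine add_le_add le_rfl ?_
        rw [lintegral_indicator measurableSet_Icc, setLIntegral_const]
        refine mul_le_mul' le_rfl ?_
        refine (Measure.restrict_apply_le _ _).trans_eq ?_
        rw [Real.volume_Icc, sub_zero]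
    _ ≤ _ := by
        rw [← ENNReal.ofReal_mul (by positivity), ← ENNReal.ofReal_mul (by positivity),
          ← ENNReal.ofReal_add (by positivity) (by positivity)]
        refine ENNReal.ofReal_le_ofReal ?_
        have h4 : 1 / min a b ^ (d - 1) * (h * r) ≤ 1 / b ^ (d - 1) * r := by
          rw [div_mul_eq_mul_div, div_mul_eq_mul_div, div_le_div_iff₀ (by positivity)
            (by positivity)]
          nlinarith [mul_le_mul_of_nonneg_right hh2 hr.le]
        have h5 : 3 / 2 * r / b ^ (d - 1) = 1 / b ^ (d - 1) * (r / 2) + 1 / b ^ (d - 1) * r := by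
          ring
        rw [h5]
        linarith

/-- The trace inequality of the bubble. -/
lemma bubble_trace (hd : 1 ≤ d) {a b h r R : ℝ} (ha : 0 < a) (hb : 0 < b) (hh : 0 < h)
    (hh1 : h ≤ 1 / 4)
    (hh2 : h * b ^ (d - 1) ≤ min a b ^ (d - 1)) (hr : 0 < r) (hrR : r ≤ R)
    {u : ℝ × (Fin d → ℝ) → ℝ} (hu : C1 d R u) :
    ∫⁻ x in Metric.ball 0 r, ENNReal.ofReal (bub a b h r (0, x) ^ d) *
        ‖u (0, x) - ⨍ y, u y ∂(num d r)‖ₑ ^ 2 ≤
      ENNReal.ofReal (Kd d * a ^ d / b ^ (d - 1)) *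
        ∫⁻ z in Q d r, ENNReal.ofReal (bub a b h r z ^ (d - 1)) * ‖fderiv ℝ u z‖ₑ ^ 2 := by
  have hm : 0 < min a b := lt_min ha hb
  have hbound : ∀ τ ∈ Icc 0 (r / 2), 0 ≤ r⁻¹ * τ ∧ r⁻¹ * τ ≤ 1 / 2 := by
    intro τ hτ
    refine ⟨mul_nonneg (inv_nonneg.2 hr.le) hτ.1, ?_⟩
    rw [inv_mul_eq_div, div_le_iff₀ hr]; linarith [hτ.2]
  have key := trace_ineq hu (T := r / 2) (ϱ := r) (by positivity) (by linarith) hr hrR
    (fun τ => th a b h (r⁻¹ * τ) ^ (d - 1))
    (by
      have := (th_contDiff a b h).continuous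
      have h : Continuous fun τ : ℝ => th a b h (r⁻¹ * τ) ^ (d - 1) := by fun_prop
      exact h.measurable)
    (by
      intro τ hτ
      have h1 := hbound τ hτ
      exact pow_pos (hm.trans_le (th_ge h1.1 h1.2)) _)
    (θ₁ := b ^ (d - 1)) (by positivity)
    (by
      intro τ hτ
      have h1 := hbound τ ⟨by linarith [hτ.1], hτ.2.le⟩
      rw [th_eq_b hh ?_ h1.2]
      rw [inv_mul_eq_div, le_div_iff₀ hr]
      nlinarith [hτ.1])
    (wr d r) (wr_measurable r) (wr_le_one r) (wr_low hr) (wr_star r)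
  have hconst : 2 * (∫⁻ τ in Icc 0 (r / 2), ENNReal.ofReal (1 / th a b h (r⁻¹ * τ) ^ (d - 1))) +
      ENNReal.ofReal (4 / (r / 2) * (2 ^ (2 * d + 1) * (r / 2 + 2 * r) ^ 2) / b ^ (d - 1)) ≤
      ENNReal.ofReal (Kd d * r / b ^ (d - 1)) := by
    refine (add_le_add_left (mul_le_mul' le_rfl (lintegral_inv_weight ha hb hh hh2 hr)) _).trans ?_
    rw [show (2 : ℝ≥0∞) = ENNReal.ofReal 2 by norm_num, ← ENNReal.ofReal_mul two_pos.le,
      ← ENNReal.ofReal_add (by positivity) (by positivity)]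
    refine ENNReal.ofReal_le_ofReal (le_of_eq ?_)
    unfold Kd
    field_simp
    ring
  have h1 : ∀ x : Fin d → ℝ, ENNReal.ofReal (bub a b h r (0, x) ^ d) =
      ENNReal.ofReal (r⁻¹ ^ d * a ^ d) * wr d r x := by
    intro x
    unfold wr
    rw [bub_zero, ← ENNReal.ofReal_mul (by positivity)]
    congr 1
    ring
  calc ∫⁻ x in Metric.ball 0 r, ENNReal.ofReal (bub a b h r (0, x) ^ d) *
        ‖u (0, x) - ⨍ y, u y ∂(num d r)‖ₑ ^ 2
      = ENNReal.ofReal (r⁻¹ ^ d * a ^ d) * ∫⁻ x in Metric.ball 0 r, wr d r x *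
        ‖u (0, x) - ⨍ y, u y ∂(num d r)‖ₑ ^ 2 := by
        rw [← lintegral_const_mul' _ _ ENNReal.ofReal_ne_top]
        refine lintegral_congr fun x => ?_
        rw [h1, mul_assoc]
    _ ≤ ENNReal.ofReal (r⁻¹ ^ d * a ^ d) * (ENNReal.ofReal (Kd d * r / b ^ (d - 1)) *
        ∫⁻ z in Bx d 0 (r / 2) r, wr d r z.2 * ENNReal.ofReal (th a b h (r⁻¹ * z.1) ^ (d - 1)) *
          ‖fderiv ℝ u z‖ₑ ^ 2) := by
        refine mul_le_mul' le_rfl (key.trans (mul_le_mul' hconst le_rfl))
    _ ≤ ENNReal.ofReal (r⁻¹ ^ d * a ^ d) * (ENNReal.ofReal (Kd d * r / b ^ (d - 1)) *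
        (ENNReal.ofReal (r ^ (d - 1)) *
        ∫⁻ z in Q d r, ENNReal.ofReal (bub a b h r z ^ (d - 1)) * ‖fderiv ℝ u z‖ₑ ^ 2)) := by
        refine mul_le_mul' le_rfl (mul_le_mul' le_rfl ?_)
        rw [← lintegral_const_mul' _ _ ENNReal.ofReal_ne_top]
        refine le_trans ?_ (lintegral_mono_set (show Bx d 0 (r / 2) r ⊆ Q d r from ?_))
        · refine setLIntegral_mono' (isOpen_Bx _ _ _).measurableSet fun z hz => ?_
          rw [← mul_assoc]
          refine mul_le_mul' ?_ le_rfl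
          unfold wr
          rw [← ENNReal.ofReal_mul (pow_nonneg (eta_nonneg _) _),
            ← ENNReal.ofReal_mul (by positivity)]
          refine ENNReal.ofReal_le_ofReal ?_
          have h2 : r ^ (d - 1) * bub a b h r z ^ (d - 1) =
              eta (r⁻¹ • z.2) ^ (d - 1) * th a b h (r⁻¹ * z.1) ^ (d - 1) := by
            unfold bub
            rw [← mul_pow, ← mul_pow]
            congr 1
            field_simp
          rw [h2]
          refine mul_le_mul_of_nonneg_right ?_ (pow_nonneg (th_nonneg ha hb _ _) _)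
          exact pow_le_pow_of_le_one (eta_nonneg _) (eta_le_one _) (Nat.sub_le d 1)
        · exact (Bx_subset_Qo le_rfl (by linarith) le_rfl).trans (Qo_subset_Q d r)
    _ = _ := by
        rw [← mul_assoc, ← mul_assoc, ← ENNReal.ofReal_mul (by positivity),
          ← ENNReal.ofReal_mul (by have := Kd_pos d; positivity)]
        congr 2
        obtain ⟨e, rfl⟩ : ∃ e, d = e + 1 := ⟨d - 1, by omega⟩
        simp only [Nat.add_sub_cancel, inv_pow]
        field_simp
        ring

/-- The volume of the bubble. -/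
lemma bubble_volume {a b h r : ℝ} (ha : 0 < a) (hb : 0 < b) (hh : 0 < h)
    (hh3 : h * max a b ^ (d + 1) ≤ b ^ (d + 1)) (hr : 0 < r) :
    ∫⁻ z in Q d r, ENNReal.ofReal (bub (d := d) a b h r z ^ (d + 1)) ≤
      ENNReal.ofReal (2 ^ (d + 1) * b ^ (d + 1)) := by
  have hM : 0 < max a b := lt_max_of_lt_left ha
  have hvol : ∀ T : ℝ, volume (Icc 0 T ×ˢ Metric.closedBall (0 : Fin d → ℝ) r) =
      ENNReal.ofReal T * ENNReal.ofReal ((2 * r) ^ d) := by
    intro T
    rw [Measure.volume_eq_prod, Measure.prod_prod, Real.volume_Icc, sub_zero,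
      Real.volume_pi_closedBall _ hr.le, Fintype.card_fin]
  calc ∫⁻ z in Q d r, ENNReal.ofReal (bub (d := d) a b h r z ^ (d + 1))
      ≤ ∫⁻ z in Q d r, (ENNReal.ofReal (r⁻¹ ^ (d + 1) * b ^ (d + 1)) +
          (Icc 0 (h * r) ×ˢ Metric.closedBall (0 : Fin d → ℝ) r).indicator
            (fun _ => ENNReal.ofReal (r⁻¹ ^ (d + 1) * max a b ^ (d + 1))) z) := by
        refine setLIntegral_mono' (measurableSet_Q _ _) fun z hz => ?_
        have h0 := th_nonneg ha hb h (r⁻¹ * z.1)
        have h1 : bub a b h r z ^ (d + 1) ≤ r⁻¹ ^ (d + 1) * th a b h (r⁻¹ * z.1) ^ (d + 1) := by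
          unfold bub
          rw [mul_pow]
          refine mul_le_mul_of_nonneg_left ?_ (by positivity)
          refine pow_le_pow_left₀ (mul_nonneg h0 (eta_nonneg _)) ?_ _
          exact mul_le_of_le_one_right h0 (eta_le_one _)
        by_cases h3 : z.1 ≤ h * r
        · rw [indicator_of_mem (show z ∈ Icc 0 (h * r) ×ˢ Metric.closedBall (0 : Fin d → ℝ) r from
            ⟨⟨hz.1.1, h3⟩, hz.2⟩)]
          refine le_trans (ENNReal.ofReal_le_ofReal (h1.trans ?_)) le_add_self
          refine mul_le_mul_of_nonneg_left ?_ (by positivity)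
          exact pow_le_pow_left₀ h0 (th_le ha hb _ _) _
        · refine le_trans (ENNReal.ofReal_le_ofReal (h1.trans ?_)) le_self_add
          refine mul_le_mul_of_nonneg_left ?_ (by positivity)
          refine pow_le_pow_left₀ h0 (th_le_of_ge hb hh ?_) _
          push Not at h3
          rw [inv_mul_eq_div, le_div_iff₀ hr]
          exact h3.le
    _ ≤ ENNReal.ofReal (r⁻¹ ^ (d + 1) * b ^ (d + 1)) *
          (ENNReal.ofReal r * ENNReal.ofReal ((2 * r) ^ d)) +
        ENNReal.ofReal (r⁻¹ ^ (d + 1) * max a b ^ (d + 1)) *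
          (ENNReal.ofReal (h * r) * ENNReal.ofReal ((2 * r) ^ d)) := by
        rw [lintegral_add_left measurable_const, setLIntegral_const, Q, hvol]
        refine add_le_add le_rfl ?_
        rw [lintegral_indicator (measurableSet_Icc.prod Metric.isClosed_closedBall.measurableSet),
          setLIntegral_const]
        refine mul_le_mul' le_rfl ?_
        exact (Measure.restrict_apply_le _ _).trans_eq (hvol _)
    _ ≤ _ := by
        rw [← ENNReal.ofReal_mul (by positivity), ← ENNReal.ofReal_mul (by positivity),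
          ← ENNReal.ofReal_mul (by positivity), ← ENNReal.ofReal_mul (by positivity),
          ← ENNReal.ofReal_add (by positivity) (by positivity)]
        refine ENNReal.ofReal_le_ofReal ?_
        have h4 : r⁻¹ ^ (d + 1) * b ^ (d + 1) * (r * (2 * r) ^ d) = 2 ^ d * b ^ (d + 1) := by
          rw [mul_pow, inv_pow]
          field_simp
          ring
        have h5 : r⁻¹ ^ (d + 1) * max a b ^ (d + 1) * (h * r * (2 * r) ^ d) =
            2 ^ d * (h * max a b ^ (d + 1)) := by
          rw [mul_pow, inv_pow]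
          field_simp
          ring
        rw [h4, h5]
        have h6 : 2 ^ d * (h * max a b ^ (d + 1)) ≤ 2 ^ d * b ^ (d + 1) :=
          mul_le_mul_of_nonneg_left hh3 (by positivity)
        calc 2 ^ d * b ^ (d + 1) + 2 ^ d * (h * max a b ^ (d + 1))
            ≤ 2 ^ d * b ^ (d + 1) + 2 ^ d * b ^ (d + 1) := by linarith
          _ = 2 ^ (d + 1) * b ^ (d + 1) := by ring

/-- The boundary mass of the bubble. -/
lemma bubble_mass {a b h r R : ℝ} (ha : 0 < a) (hr : 0 < r) (hrR : r ≤ R) :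
    ENNReal.ofReal (a ^ d) ≤
      ∫⁻ x in Metric.closedBall (0 : Fin d → ℝ) R, ENNReal.ofReal (bub a b h r (0, x) ^ d) := by
  have hvol : volume (Metric.ball (0 : Fin d → ℝ) (r / 2)) = ENNReal.ofReal (r ^ d) := by
    rw [volume_ball_zero d (by positivity)]
    congr 2; ring
  calc ENNReal.ofReal (a ^ d) = ENNReal.ofReal (r⁻¹ ^ d * a ^ d) * ENNReal.ofReal (r ^ d) := by
        rw [← ENNReal.ofReal_mul (by positivity)]
        congr 1
        rw [inv_pow]
        field_simp
    _ = ∫⁻ x in Metric.ball (0 : Fin d → ℝ) (r / 2), ENNReal.ofReal (r⁻¹ ^ d * a ^ d) := by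
        rw [setLIntegral_const, hvol]
    _ = ∫⁻ x in Metric.ball (0 : Fin d → ℝ) (r / 2), ENNReal.ofReal (bub a b h r (0, x) ^ d) := by
        refine setLIntegral_congr_fun Metric.isOpen_ball.measurableSet fun x hx => ?_
        rw [bub_zero, eta_eq_one]
        · congr 1
          ring
        · have hx' : ‖x‖ < r / 2 := by simpa using hx
          rw [norm_smul, norm_inv, Real.norm_eq_abs, abs_of_pos hr, inv_mul_eq_div, div_le_iff₀ hr]
          linarith
    _ ≤ _ := lintegral_mono_set (Metric.ball_subset_closedBall.trans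
        (Metric.closedBall_subset_closedBall (by linarith)))

end Pool.Agent.Steklov
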