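import Mathlib

set_option autoImplicit false

open Set

namespace Pool.Agent.Steklov

variable {F : Type*} [AddCommGroup F] [Module ℝ F]

/-- A family on whose nontrivial combinations the quadratic form is negative. -/
def NegFam (q : F → ℝ) (m : ℕ) : Prop :=
  ∃ w : Fin m → F, ∀ a : Fin m → ℝ, a ≠ 0 → q (∑ i, a i • w i) < 0

lemma negFam_zero (q : F → ℝ) : NegFam q 0 :=
  ⟨fun _ => 0, fun a ha => absurd (Subsingleton.elim a 0) ha⟩

/-- If there is no negative family of size `k+1`, the form is nonnegative on the common kernel of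
`k` linear functionals. -/
theorem exists_functionals (q : F →ₗ[ℝ] F →ₗ[ℝ] ℝ) (hsymm : ∀ f h, q f h = q h f) (k : ℕ)
    (hk : ¬ NegFam (fun f => q f f) (k + 1)) :
    ∃ l : Fin k → (F →ₗ[ℝ] ℝ), ∀ f, (∀ i, l i f = 0) → 0 ≤ q f f := by
  -- the largest size
  classical
  have hex : ∃ m, ¬ NegFam (fun f => q f f) (m + 1) := ⟨k, hk⟩
  let m := Nat.find hex
  have hm1 : ¬ NegFam (fun f => q f f) (m + 1) := Nat.find_spec hex
  have hmk : m ≤ k := Nat.find_min' hex hk
  have hm : NegFam (fun f => q f f) m := by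
    rcases Nat.eq_zero_or_pos m with h0 | h0
    · rw [h0]; exact negFam_zero _
    · by_contra h
      have h2 : m - 1 + 1 = m := by omega
      exact Nat.find_min hex (show m - 1 < m by omega) (by rw [h2]; exact h)
  obtain ⟨w, hw⟩ := hm
  refine ⟨fun i => if h : i.1 < m then q (w ⟨i.1, h⟩) else 0, fun f hf => ?_⟩
  by_contra hneg
  push Not at hneg
  have hf' : ∀ j : Fin m, q (w j) f = 0 := by
    intro j
    have := hf ⟨j.1, lt_of_lt_of_le j.2 hmk⟩
    simpa using this
  apply hm1
  refine ⟨Fin.cons f w, fun a ha => ?_⟩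
  rw [Fin.sum_univ_succ]
  simp only [Fin.cons_zero, Fin.cons_succ]
  set u := ∑ i : Fin m, a i.succ • w i with hu
  have hfu : q f u = 0 := by
    rw [hu, map_sum]
    refine Finset.sum_eq_zero fun i _ => ?_
    rw [map_smul, hsymm, hf', smul_zero]
  have huf : q u f = 0 := by rw [hsymm]; exact hfu
  have hexp : q (a 0 • f + u) (a 0 • f + u) = a 0 ^ 2 * q f f + q u u := by
    simp only [map_add, map_smul, LinearMap.add_apply, LinearMap.smul_apply, smul_eq_mul, hfu, huf]
    ring
  rw [hexp]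
  by_cases ha' : (fun i : Fin m => a i.succ) = 0
  · have hu0 : u = 0 := by
      rw [hu]
      refine Finset.sum_eq_zero fun i _ => ?_
      rw [show a i.succ = 0 from congrFun ha' i, zero_smul]
    have ha0 : a 0 ≠ 0 := by
      intro h0
      apply ha
      funext i
      refine Fin.cases h0 (fun j => congrFun ha' j) i
    have : 0 < a 0 ^ 2 := by positivity
    rw [hu0]
    simp only [map_zero, add_zero]
    nlinarith
  · have h1 := hw _ ha'
    have h2 : 0 ≤ a 0 ^ 2 := sq_nonneg _
    change q u u < 0 at h1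
    nlinarith

/-- `k+1` linear functionals on `ℝ^{k+2}` have a common zero. -/
theorem exists_common_zero (N : ℕ) (l : Fin N → ((Fin (N + 1) → ℝ) →ₗ[ℝ] ℝ)) :
    ∃ a : Fin (N + 1) → ℝ, a ≠ 0 ∧ ∀ i, l i a = 0 := by
  have h := LinearMap.ker_ne_bot_of_finrank_lt (f := LinearMap.pi l) (by simp)
  obtain ⟨a, ha, ha0⟩ := (Submodule.ne_bot_iff _).1 h
  refine ⟨a, ha0, fun i => ?_⟩
  rw [LinearMap.mem_ker] at ha
  exact congrFun ha i

/-- The pigeonhole argument over the shells. -/
theorem exists_good_shell {V : Type*} [AddCommGroup V] [Module ℝ V] [FiniteDimensional ℝ V]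
    (M : V →ₗ[ℝ] V →ₗ[ℝ] ℝ) (hMs : ∀ f h, M f h = M h f) (hM : ∀ f, f ≠ 0 → 0 < M f f)
    (J : ℕ) (hJ : 0 < J) (e : Fin J → V → ℝ) (K : ℝ)
    (he : ∀ (j : Fin J) (N : ℕ) (c : Fin N → ℝ) (m : Fin N → ℝ) (b : Fin N → V),
      (∀ i, 0 < m i) → e j (∑ i, c i • b i) ≤ (∑ i, c i ^ 2 * m i) * ∑ i, e j (b i) / m i)
    (hE : ∀ f, f ≠ 0 → ∑ j, e j f ≤ K * M f f) :
    ∃ j, ∀ f, e j f ≤ K * Module.finrank ℝ V / J * M f f := by
  classical
  have hsym : LinearMap.IsSymm (M : LinearMap.BilinForm ℝ V) := ⟨fun x y => by simpa using hMs x y⟩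
  obtain ⟨b, hb⟩ := LinearMap.BilinForm.exists_orthogonal_basis hsym
  generalize hn : Module.finrank ℝ V = n at b hb
  have hbne : ∀ i, b i ≠ 0 := fun i => b.ne_zero i
  have hpos : ∀ i, 0 < M (b i) (b i) := fun i => hM _ (hbne i)
  set S : Fin J → ℝ := fun j => ∑ i, e j (b i) / M (b i) (b i) with hS
  have hsum : ∑ j, S j ≤ K * n := by
    rw [hS]
    simp only
    rw [Finset.sum_comm]
    calc ∑ i, ∑ j, e j (b i) / M (b i) (b i)
        = ∑ i, (∑ j, e j (b i)) / M (b i) (b i) := by
          refine Finset.sum_congr rfl fun i _ => ?_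
          rw [Finset.sum_div]
      _ ≤ ∑ i : Fin n, K := by
          refine Finset.sum_le_sum fun i _ => ?_
          rw [div_le_iff₀ (hpos i)]
          exact hE _ (hbne i)
      _ = K * n := by simp [mul_comm]
  obtain ⟨j, hj⟩ : ∃ j, S j ≤ K * n / J := by
    by_contra hcon
    push Not at hcon
    have : ∑ _j : Fin J, (K * n / J) < ∑ j, S j := by
      apply Finset.sum_lt_sum_of_nonempty
      · exact ⟨⟨0, hJ⟩, Finset.mem_univ _⟩
      · exact fun j _ => hcon j
    simp only [Finset.sum_const, Finset.card_univ, Fintype.card_fin, nsmul_eq_mul] at this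
    have hJ' : (J : ℝ) ≠ 0 := by positivity
    rw [mul_div_cancel₀ _ hJ'] at this
    linarith
  refine ⟨j, fun f => ?_⟩
  have hf : f = ∑ i, b.repr f i • b i := (b.sum_repr f).symm
  have hMf : M f f = ∑ i, b.repr f i ^ 2 * M (b i) (b i) := by
    conv_lhs => rw [hf]
    simp only [map_sum, LinearMap.sum_apply, map_smul, LinearMap.smul_apply, smul_eq_mul]
    refine Finset.sum_congr rfl fun i _ => ?_
    rw [Finset.sum_eq_single i]
    · ring
    · intro i' _ hne
      have h3 := hb hne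
      simp only [Function.onFun] at h3
      rw [h3]; ring
    · intro h; exact absurd (Finset.mem_univ _) h
  have h1 := he j n (fun i => b.repr f i) (fun i => M (b i) (b i)) b hpos
  rw [← hf, ← hMf] at h1
  refine h1.trans ?_
  rw [mul_comm]
  refine mul_le_mul_of_nonneg_right hj ?_
  by_cases hf0 : f = 0
  · rw [hf0]; simp
  · exact (hM f hf0).le

end Pool.Agent.Steklov
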