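import Mathlib
import Pool.Agent.Lib.MP_4838e0_gt.Bubble
import Pool.Agent.Lib.MP_4838e0_gt.LinAlg

set_option autoImplicit false

universe u
set_option linter.unusedSectionVars false
set_option linter.unusedVariables false

open Set Filter Topology MeasureTheory
open scoped ENNReal ContDiff

noncomputable section

namespace Pool.Agent.Steklov

variable {d : ℕ} {Ω : Type u} [TopologicalSpace Ω] [MeasurableSpace Ω]
  [BorelSpace Ω] [T2Space Ω] [CompactSpace Ω]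

namespace HalfChart

variable {D : StekData d Ω} (H : HalfChart D)

/-! ### The pigeonhole inequality for the local energies -/

lemma en_sum_le {A : Set (ℝ × (Fin d → ℝ))} (hA : A ⊆ Q d H.R) (N : ℕ) (c m : Fin N → ℝ)
    (b : Fin N → D.F) (hm : ∀ i, 0 < m i) :
    H.en A ((∑ i, c i • b i : D.F) : Ω → ℝ) ≤ (∑ i, c i ^ 2 * m i) * ∑ i, H.en A (b i) / m i := by
  have hS : 0 ≤ ∑ i, c i ^ 2 * m i := Finset.sum_nonneg fun i _ =>
    mul_nonneg (sq_nonneg _) (hm i).le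
  have hS2 : 0 ≤ ∑ i, H.en A (b i) / m i := Finset.sum_nonneg fun i _ =>
    div_nonneg (H.en_nonneg _ _) (hm i).le
  rw [← ENNReal.ofReal_le_ofReal_iff (mul_nonneg hS hS2), H.ofReal_en (Subtype.mem _) hA,
    ENNReal.ofReal_mul hS, ENNReal.ofReal_sum_of_nonneg fun i _ =>
      div_nonneg (H.en_nonneg _ _) (hm i).le]
  have h1 : ∀ i, ENNReal.ofReal (H.en A (b i) / m i) = ENNReal.ofReal (m i)⁻¹ * H.enL A (b i) := by
    intro i
    rw [div_eq_inv_mul, ENNReal.ofReal_mul (inv_nonneg.2 (hm i).le), H.ofReal_en (b i).2 hA]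
  simp only [h1]
  have h2 : ∑ i, ENNReal.ofReal (m i)⁻¹ * H.enL A (b i) =
      ∫⁻ z in A, ∑ i, ENNReal.ofReal (m i)⁻¹ * ‖fderiv ℝ ((b i : Ω → ℝ) ∘ H.Ψ) z‖ₑ ^ 2 := by
    rw [lintegral_finsetSum _ fun i _ => ((measurable_enorm_fderiv _).pow_const 2).const_mul _]
    refine Finset.sum_congr rfl fun i _ => ?_
    rw [lintegral_const_mul' _ _ ENNReal.ofReal_ne_top, enL]
  rw [h2, ← lintegral_const_mul' _ _ ENNReal.ofReal_ne_top]
  unfold enL
  refine lintegral_mono_ae ?_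
  have hae : ∀ᵐ z ∂(volume.restrict A), z ∈ Qo d H.R := by
    have h3 : ∀ᵐ z ∂((volume : Measure (ℝ × (Fin d → ℝ))).restrict (Q d H.R)), z ∈ Qo d H.R := by
      rw [Measure.restrict_congr_set (Q_ae_eq_Qo d H.R)]
      exact self_mem_ae_restrict (isOpen_Qo d H.R).measurableSet
    exact ae_mono (Measure.restrict_mono_set _ hA) h3
  filter_upwards [hae] with z hz
  have hd : ∀ i, HasFDerivAt ((b i : Ω → ℝ) ∘ H.Ψ) (fderiv ℝ ((b i : Ω → ℝ) ∘ H.Ψ) z) z :=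
    fun i => ((H.c1 (b i).2).differentiableAt hz).hasFDerivAt
  have h4 : HasFDerivAt (((∑ i, c i • b i : D.F) : Ω → ℝ) ∘ H.Ψ)
      (∑ i, c i • fderiv ℝ ((b i : Ω → ℝ) ∘ H.Ψ) z) z := by
    have h5 : (((∑ i, c i • b i : D.F) : Ω → ℝ) ∘ H.Ψ) =
        fun z => ∑ i, (c i • ((b i : Ω → ℝ) ∘ H.Ψ)) z := by
      funext z
      simp [Finset.sum_apply]
    rw [h5]
    exact HasFDerivAt.fun_sum fun i _ => (hd i).const_smul (c i)
  rw [h4.fderiv]
  set n : Fin N → ℝ := fun i => ‖fderiv ℝ ((b i : Ω → ℝ) ∘ H.Ψ) z‖ with hn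
  have h6 : ‖∑ i, c i • fderiv ℝ ((b i : Ω → ℝ) ∘ H.Ψ) z‖ ^ 2 ≤
      (∑ i, c i ^ 2 * m i) * ∑ i, (m i)⁻¹ * n i ^ 2 := by
    have h7 : ‖∑ i, c i • fderiv ℝ ((b i : Ω → ℝ) ∘ H.Ψ) z‖ ≤
        ∑ i, (|c i| * Real.sqrt (m i)) * ((Real.sqrt (m i))⁻¹ * n i) := by
      refine (norm_sum_le _ _).trans_eq ?_
      refine Finset.sum_congr rfl fun i _ => ?_
      have := Real.sqrt_pos.2 (hm i)
      rw [norm_smul, Real.norm_eq_abs]
      field_simp
      rfl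
    refine (pow_le_pow_left₀ (norm_nonneg _) h7 2).trans ?_
    refine (Finset.sum_mul_sq_le_sq_mul_sq _ _ _).trans_eq ?_
    congr 1
    · refine Finset.sum_congr rfl fun i _ => ?_
      rw [mul_pow, sq_abs, Real.sq_sqrt (hm i).le]
    · refine Finset.sum_congr rfl fun i _ => ?_
      rw [mul_pow, inv_pow, Real.sq_sqrt (hm i).le]
  have h8 : ∀ i, ENNReal.ofReal (m i)⁻¹ * ‖fderiv ℝ ((b i : Ω → ℝ) ∘ H.Ψ) z‖ₑ ^ 2 =
      ENNReal.ofReal ((m i)⁻¹ * n i ^ 2) := by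
    intro i
    rw [ENNReal.ofReal_mul (inv_nonneg.2 (hm i).le), ENNReal.ofReal_pow (norm_nonneg _),
      ofReal_norm]
  simp only [h8]
  rw [← ENNReal.ofReal_sum_of_nonneg fun i _ =>
    mul_nonneg (inv_nonneg.2 (hm i).le) (sq_nonneg _), ← ENNReal.ofReal_mul hS, ← ofReal_norm,
    ← ENNReal.ofReal_pow (norm_nonneg _)]
  exact ENNReal.ofReal_le_ofReal h6

/-- The sum over disjoint shells. -/
lemma sum_en_le {J : ℕ} (A : Fin J → Set (ℝ × (Fin d → ℝ))) (hA : ∀ j, A j ⊆ Q d H.R)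
    (hAm : ∀ j, MeasurableSet (A j)) (hdis : Pairwise (Function.onFun Disjoint A))
    {f : Ω → ℝ} (hf : f ∈ D.F) : ∑ j, H.en (A j) f ≤ H.en (Q d H.R) f := by
  rw [← ENNReal.ofReal_le_ofReal_iff (H.en_nonneg _ _), ENNReal.ofReal_sum_of_nonneg fun j _ =>
    H.en_nonneg _ _, H.ofReal_en hf subset_rfl]
  have h1 : ∀ j, ENNReal.ofReal (H.en (A j) f) = H.enL (A j) f := fun j => H.ofReal_en hf (hA j)
  simp only [h1]
  have h2 : ∑ j, H.enL (A j) f = H.enL (⋃ j, A j) f := by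
    unfold enL
    rw [lintegral_iUnion hAm hdis, tsum_fintype]
  rw [h2]
  exact H.enL_mono (iUnion_subset hA) f

/-! ### The bubble on `Ω` -/

/-- The bubble transported to `Ω`. -/
def bo (a b h r : ℝ) : Ω → ℝ := H.pull r 0 (bub a b h r)

lemma bo_cond (a b h : ℝ) {r : ℝ} (hr : 0 < r) :
    ∀ z ∈ Q d H.R, z ∉ Q d r → bub a b h r z = (0 : Ω → ℝ) (H.Ψ z) := by
  intro z hz hz'
  rw [Pi.zero_apply]
  apply bub_eq_zero _ _ _ hr
  by_contra hcon
  push Not at hcon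
  exact hz' ⟨⟨hz.1.1, hcon.1.le⟩, by simpa using hcon.2.le⟩

lemma bo_apply (a b h : ℝ) {r : ℝ} (hr : 0 < r) (hrR : r ≤ H.R) {z : ℝ × (Fin d → ℝ)}
    (hz : z ∈ Q d H.R) : H.bo a b h r (H.Ψ z) = bub a b h r z :=
  H.pull_apply hrR _ _ (H.bo_cond a b h hr) hz

lemma bo_off (a b h : ℝ) {r : ℝ} {q : Ω} (hq : q ∉ H.Ψ '' Q d r) : H.bo a b h r q = 0 :=
  H.pull_off _ _ hq

lemma bo_mem (a b h : ℝ) {r : ℝ} (hr : 0 < r) (hrR : r < H.R) : H.bo a b h r ∈ D.F :=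
  H.pull_mem hrR D.F.zero_mem (H.bo_cond a b h hr) (bub_contDiff a b h r).contDiffOn

lemma bo_nonneg {a b : ℝ} (ha : 0 < a) (hb : 0 < b) (h : ℝ) {r : ℝ} (hr : 0 < r)
    (hrR : r ≤ H.R) (q : Ω) : 0 ≤ H.bo a b h r q := by
  by_cases hq : q ∈ H.Ψ '' Q d r
  · obtain ⟨z, hz, rfl⟩ := hq
    rw [H.bo_apply a b h hr hrR (Q_mono hrR hz)]
    exact bub_nonneg ha hb h hr z
  · rw [H.bo_off _ _ _ hq]

/-- The mean functional. -/
def meanF {r : ℝ} (hr : 0 < r) (hrR : r ≤ H.R) : D.F →ₗ[ℝ] ℝ :=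
  have hi : ∀ f : D.F, Integrable (fun y => (f : Ω → ℝ) (H.Ψ y)) (num d r) := fun f =>
    integrable_nu (R := H.R) ((D.F_cont f f.2).comp_continuousOn H.cont) (by positivity)
      (by linarith) hrR (wr_le_one r)
  { toFun := fun f => ∫ y, (f : Ω → ℝ) (H.Ψ y) ∂(num d r)
    map_add' := fun f h => by
      rw [← integral_add (hi f) (hi h)]; rfl
    map_smul' := fun a f => by
      rw [RingHom.id_apply, smul_eq_mul, ← integral_const_mul]; rfl }

lemma meanF_apply {r : ℝ} (hr : 0 < r) (hrR : r ≤ H.R) (f : D.F) :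
    H.meanF hr hrR f = ∫ y, (f : Ω → ℝ) (H.Ψ y) ∂(num d r) := rfl

/-- The bubble mass of a function with zero mean is controlled by its energy. -/
lemma bubble_mass_le (hd : 1 ≤ d) {a b h r : ℝ} (ha : 0 < a) (hb : 0 < b) (hh : 0 < h)
    (hh1 : h ≤ 1 / 4) (hh2 : h * b ^ (d - 1) ≤ min a b ^ (d - 1)) (hr : 0 < r) (hrR : r < H.R)
    {ρ : Ω → ℝ} (hρ : Continuous ρ) (hbρ : ∀ x, H.bo a b h r x ≤ ρ x) (f : D.F)
    (hmean : H.meanF hr hrR.le f = 0) :
    H.c ^ 2 * D.M (H.bo a b h r) f ≤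
      H.C * (Kd d * a ^ d / b ^ (d - 1)) * EA D ρ (H.Ψ '' Q d r) f := by
  have hc := H.c_pos
  have hC := H.C_pos
  have hK := Kd_pos d
  have hbo := H.bo_mem a b h hr hrR
  have hboc := D.F_cont _ hbo
  have hbn := H.bo_nonneg ha hb h hr hrR.le
  have hfc := D.F_cont f f.2
  have hAm := H.measurableSet_image hrR.le
  have hρn : ∀ x, 0 ≤ ρ x := fun x => (hbn x).trans (hbρ x)
  have hEA := EA_nonneg (D := D) hρn (H.Ψ '' Q d r) f.2
  rw [← ENNReal.ofReal_le_ofReal_iff (by positivity), ENNReal.ofReal_mul (by positivity),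
    ENNReal.ofReal_mul (by positivity), D.ofReal_M hboc hbn hfc, ofReal_EA hρ hρn _ f.2]
  have hGm : Measurable fun x => ENNReal.ofReal (H.bo a b h r x ^ d * (f : Ω → ℝ) x ^ 2) :=
    ((hboc.pow _).mul (hfc.pow 2)).measurable.ennreal_ofReal
  have h1 : ∫⁻ x, ENNReal.ofReal (H.bo a b h r x ^ d * (f : Ω → ℝ) x ^ 2) ∂D.s =
      ∫⁻ x in H.Ψ '' Q d r, ENNReal.ofReal (H.bo a b h r x ^ d * (f : Ω → ℝ) x ^ 2) ∂D.s := by
    rw [← lintegral_indicator hAm]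
    refine lintegral_congr fun x => ?_
    by_cases hx : x ∈ H.Ψ '' Q d r
    · rw [indicator_of_mem hx]
    · rw [indicator_of_notMem hx, H.bo_off _ _ _ hx, zero_pow (by omega), zero_mul,
        ENNReal.ofReal_zero]
  have hball : (Metric.closedBall (0 : Fin d → ℝ) r) =ᵐ[volume] Metric.ball 0 r := by
    rw [← Metric.ball_union_sphere]
    exact union_ae_eq_left_of_ae_eq_empty
      (ae_eq_empty.2 (Measure.addHaar_sphere_of_ne_zero _ _ hr.ne'))
  have hav : ⨍ y, ((f : Ω → ℝ) ∘ H.Ψ) y ∂(num d r) = 0 := by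
    rw [average_eq]
    have : ∫ y, ((f : Ω → ℝ) ∘ H.Ψ) y ∂(num d r) = 0 := hmean
    rw [this, smul_zero]
  have h2 := bubble_trace hd ha hb hh hh1 hh2 hr hrR.le (H.c1 f.2)
  rw [hav] at h2
  have h3 : ∫⁻ x in H.Ψ '' Q d r, ENNReal.ofReal (H.bo a b h r x ^ d * (f : Ω → ℝ) x ^ 2) ∂D.s ≤
      ENNReal.ofReal H.C * (ENNReal.ofReal (Kd d * a ^ d / b ^ (d - 1)) *
        ∫⁻ z in Q d r, ENNReal.ofReal (H.bo a b h r (H.Ψ z) ^ (d - 1)) *
          ‖fderiv ℝ ((f : Ω → ℝ) ∘ H.Ψ) z‖ₑ ^ 2) := by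
    refine (H.upper_bd' hGm hrR.le).trans (mul_le_mul' le_rfl ?_)
    rw [setLIntegral_congr hball]
    refine le_trans (le_of_eq ?_) (h2.trans (le_of_eq ?_))
    · refine setLIntegral_congr_fun Metric.isOpen_ball.measurableSet fun x hx => ?_
      have hx' : ‖x‖ < r := by simpa using hx
      have hz : ((0 : ℝ), x) ∈ Q d H.R := mk_zero_mem_Q H.R_pos.le (hx'.le.trans hrR.le)
      have hbb := bub_nonneg ha hb h hr ((0 : ℝ), x)
      rw [H.bo_apply a b h hr hrR.le hz, sub_zero, ENNReal.ofReal_mul (by positivity),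
        enorm_sq_eq]
      rfl
    · congr 1
      refine setLIntegral_congr_fun (measurableSet_Q _ _) fun z hz => ?_
      rw [H.bo_apply a b h hr hrR.le (Q_mono hrR.le hz)]
  have h4 := H.weighted_lower f.2 (w := fun x => H.bo a b h r x ^ (d - 1)) (hboc.pow _)
    (fun x => pow_nonneg (hbn x) _) hrR.le
  have h5 : ∫⁻ q in H.Ψ '' Q d r, ENNReal.ofReal (H.bo a b h r q ^ (d - 1) * D.Γ f f q) ∂D.v ≤
      ∫⁻ q in H.Ψ '' Q d r, ENNReal.ofReal (ρ q ^ (d - 1) * D.Γ f f q) ∂D.v := by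
    refine lintegral_mono fun q => ENNReal.ofReal_le_ofReal ?_
    exact mul_le_mul_of_nonneg_right (pow_le_pow_left₀ (hbn q) (hbρ q) _) (D.Γ_nonneg f f.2 q)
  rw [h1]
  calc _ ≤ ENNReal.ofReal (H.c ^ 2) * (ENNReal.ofReal H.C *
        (ENNReal.ofReal (Kd d * a ^ d / b ^ (d - 1)) *
        ∫⁻ z in Q d r, ENNReal.ofReal (H.bo a b h r (H.Ψ z) ^ (d - 1)) *
          ‖fderiv ℝ ((f : Ω → ℝ) ∘ H.Ψ) z‖ₑ ^ 2)) := mul_le_mul' le_rfl h3
    _ = ENNReal.ofReal (H.C * (Kd d * a ^ d / b ^ (d - 1))) * (ENNReal.ofReal (H.c ^ 2) *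
        ∫⁻ z in Q d r, ENNReal.ofReal (H.bo a b h r (H.Ψ z) ^ (d - 1)) *
          ‖fderiv ℝ ((f : Ω → ℝ) ∘ H.Ψ) z‖ₑ ^ 2) := by
        rw [ENNReal.ofReal_mul hC.le]
        ring
    _ ≤ _ := mul_le_mul' le_rfl (h4.trans h5)

/-! ### The conformal factor -/

/-- The conformal factor `(ρ₀^d + b^d)^{1/d}`. -/
def rh (ρ₀ : Ω → ℝ) (a b h r : ℝ) : Ω → ℝ := fun q =>
  (ρ₀ q ^ d + H.bo a b h r q ^ d) ^ ((d : ℝ)⁻¹)

section rh

variable {ρ₀ : Ω → ℝ} (hρ₀ : D.Pos ρ₀) (hd : 1 ≤ d) {a b h r : ℝ} (ha : 0 < a) (hb : 0 < b)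
  (hr : 0 < r) (hrR : r < H.R)
include hρ₀ hd ha hb hr hrR

lemma rh_mem : H.rh ρ₀ a b h r ∈ D.F := by
  have hdR : (d : ℝ) ≠ 0 := by positivity
  refine H.glue ρ₀ hρ₀.1 _ r hrR (fun q hq => ?_) ?_
  · unfold rh
    rw [H.bo_off _ _ _ hq, zero_pow (by omega), add_zero, ← Real.rpow_natCast,
      ← Real.rpow_mul (hρ₀.2 q).le, mul_inv_cancel₀ hdR, Real.rpow_one]
  · have h1 : ContDiffOn ℝ ∞ (fun z => (ρ₀ (H.Ψ z) ^ d + bub a b h r z ^ d) ^ ((d : ℝ)⁻¹))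
        (Q d H.R) := by
      refine ContDiffOn.rpow_const_of_ne ?_ ?_
      · exact ((H.restr ρ₀ hρ₀.1).pow d).add ((bub_contDiff a b h r).contDiffOn.pow d)
      · intro z hz
        have h2 := hρ₀.2 (H.Ψ z)
        have h3 := bub_nonneg ha hb h hr z
        positivity
    refine h1.congr fun z hz => ?_
    simp only [Function.comp, rh]
    rw [H.bo_apply a b h hr hrR.le hz]

lemma rh_pow (q : Ω) : H.rh ρ₀ a b h r q ^ d = ρ₀ q ^ d + H.bo a b h r q ^ d := by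
  have hdR : (d : ℝ) ≠ 0 := by positivity
  have h2 := hρ₀.2 q
  have h3 := H.bo_nonneg ha hb h hr hrR.le q
  unfold rh
  rw [← Real.rpow_natCast, ← Real.rpow_mul (by positivity), inv_mul_cancel₀ hdR, Real.rpow_one]

lemma rh_pos (q : Ω) : 0 < H.rh ρ₀ a b h r q := by
  have h2 := hρ₀.2 q
  have h3 := H.bo_nonneg ha hb h hr hrR.le q
  unfold rh
  positivity

lemma le_rh (q : Ω) : ρ₀ q ≤ H.rh ρ₀ a b h r q := by
  have h1 := H.rh_pow hρ₀ hd (h := h) ha hb hr hrR q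
  have h2 := H.rh_pos hρ₀ hd (h := h) ha hb hr hrR q
  have h3 := H.bo_nonneg ha hb h hr hrR.le q
  refine le_of_pow_le_pow_left₀ (n := d) (by omega) h2.le ?_
  rw [h1]
  have : 0 ≤ H.bo a b h r q ^ d := by positivity
  linarith

lemma bo_le_rh (q : Ω) : H.bo a b h r q ≤ H.rh ρ₀ a b h r q := by
  have h1 := H.rh_pow hρ₀ hd (h := h) ha hb hr hrR q
  have h2 := H.rh_pos hρ₀ hd (h := h) ha hb hr hrR q
  refine le_of_pow_le_pow_left₀ (n := d) (by omega) h2.le ?_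
  rw [h1]
  have : 0 ≤ ρ₀ q ^ d := pow_nonneg (hρ₀.2 q).le _
  linarith

lemma rh_le (q : Ω) : H.rh ρ₀ a b h r q ≤ 2 * max (ρ₀ q) (H.bo a b h r q) := by
  have h1 := H.rh_pow hρ₀ hd (h := h) ha hb hr hrR q
  have h2 := hρ₀.2 q
  have h3 := H.bo_nonneg ha hb h hr hrR.le q
  set X := max (ρ₀ q) (H.bo a b h r q) with hX
  have hX0 : 0 < X := lt_max_of_lt_left h2
  refine le_of_pow_le_pow_left₀ (n := d) (by omega) (by positivity) ?_
  rw [h1, mul_pow]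
  have h4 : ρ₀ q ^ d ≤ X ^ d := pow_le_pow_left₀ h2.le (le_max_left _ _) _
  have h5 : H.bo a b h r q ^ d ≤ X ^ d := pow_le_pow_left₀ h3 (le_max_right _ _) _
  have h6 : (2 : ℝ) ≤ 2 ^ d := by
    calc (2 : ℝ) = 2 ^ 1 := (pow_one _).symm
      _ ≤ 2 ^ d := pow_le_pow_right₀ one_le_two hd
  have h7 : 0 < X ^ d := by positivity
  nlinarith

lemma rh_off {q : Ω} (hq : q ∉ H.Ψ '' Q d r) : H.rh ρ₀ a b h r q = ρ₀ q := by
  have hdR : (d : ℝ) ≠ 0 := by positivity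
  unfold rh
  rw [H.bo_off _ _ _ hq, zero_pow (by omega), add_zero, ← Real.rpow_natCast,
    ← Real.rpow_mul (hρ₀.2 q).le, mul_inv_cancel₀ hdR, Real.rpow_one]

lemma rh_Pos : D.Pos (H.rh ρ₀ a b h r) :=
  ⟨H.rh_mem hρ₀ hd ha hb hr hrR, H.rh_pos hρ₀ hd ha hb hr hrR⟩

/-- Mass of the new metric. -/
lemma M_rh {f : Ω → ℝ} (hf : Continuous f) :
    D.M (H.rh ρ₀ a b h r) f = D.M ρ₀ f + D.M (H.bo a b h r) f := by
  unfold StekData.M
  have h0 := D.F_cont _ hρ₀.1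
  have h1 := D.F_cont _ (H.bo_mem a b h hr hrR)
  have e0 : Integrable (fun x => ρ₀ x ^ d * f x ^ 2) D.s :=
    D.integrable_s ((h0.pow _).mul (hf.pow 2))
  have e1 : Integrable (fun x => H.bo a b h r x ^ d * f x ^ 2) D.s :=
    D.integrable_s ((h1.pow _).mul (hf.pow 2))
  rw [← integral_add e0 e1]
  congr 1
  funext x
  rw [H.rh_pow hρ₀ hd ha hb hr hrR]
  ring

/-- Boundary volume of the new metric. -/
lemma L_rh : D.L ρ₀ + H.c * a ^ d ≤ D.L (H.rh ρ₀ a b h r) := by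
  have h0 := D.F_cont _ hρ₀.1
  have h1 := D.F_cont _ (H.bo_mem a b h hr hrR)
  have hc := H.c_pos
  have hbn := H.bo_nonneg ha hb h hr hrR.le
  have h2 : D.L (H.rh ρ₀ a b h r) = D.L ρ₀ + D.L (H.bo a b h r) := by
    unfold StekData.L
    have e0 : Integrable (fun x => ρ₀ x ^ d) D.s := D.integrable_s (h0.pow _)
    have e1 : Integrable (fun x => H.bo a b h r x ^ d) D.s := D.integrable_s (h1.pow _)
    rw [← integral_add e0 e1]
    congr 1
    funext x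
    rw [H.rh_pow hρ₀ hd ha hb hr hrR]
  rw [h2]
  have hL : 0 ≤ D.L (H.bo a b h r) := integral_nonneg fun x => pow_nonneg (hbn x) _
  have h3 : H.c * a ^ d ≤ D.L (H.bo a b h r) := by
    rw [← ENNReal.ofReal_le_ofReal_iff hL, D.ofReal_L h1 hbn, ENNReal.ofReal_mul hc.le]
    have hGm : Measurable fun x => ENNReal.ofReal (H.bo a b h r x ^ d) :=
      (h1.pow _).measurable.ennreal_ofReal
    refine le_trans ?_ (H.lower_bd hGm)
    refine mul_le_mul' le_rfl ?_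
    refine (bubble_mass (d := d) (b := b) (h := h) ha hr hrR.le).trans_eq ?_
    refine setLIntegral_congr_fun Metric.isClosed_closedBall.measurableSet fun x hx => ?_
    rw [H.bo_apply a b h hr hrR.le (mk_zero_mem_Q H.R_pos.le (by simpa using hx))]
  linarith

/-- Volume of the new metric. -/
lemma V_rh (hh : 0 < h) (hh3 : h * max a b ^ (d + 1) ≤ b ^ (d + 1)) {P : ℝ} (hP : ∀ x, ρ₀ x ≤ P) :
    D.V (H.rh ρ₀ a b h r) ≤ D.V ρ₀ + 4 ^ (d + 1) * H.C * b ^ (d + 1) +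
      4 ^ (d + 1) * H.C * P ^ (d + 1) * r ^ (d + 1) := by
  have hne : Nonempty Ω := ⟨H.Ψ 0⟩
  have hP0 : 0 < P := (hρ₀.2 (H.Ψ 0)).trans_le (hP _)
  have h0 := D.F_cont _ hρ₀.1
  have hboc := D.F_cont _ (H.bo_mem a b h hr hrR)
  have hrc := D.F_cont _ (H.rh_mem hρ₀ hd (h := h) ha hb hr hrR)
  have hC := H.C_pos
  have hbn := H.bo_nonneg ha hb h hr hrR.le
  have hAm := H.measurableSet_image hrR.le
  have hV : 0 ≤ D.V ρ₀ := integral_nonneg fun x => pow_nonneg (hρ₀.2 x).le _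
  rw [← ENNReal.ofReal_le_ofReal_iff (by positivity),
    D.ofReal_V hrc fun x => (H.rh_pos hρ₀ hd ha hb hr hrR x).le,
    ENNReal.ofReal_add (by positivity) (by positivity),
    ENNReal.ofReal_add (by positivity) (by positivity), D.ofReal_V h0 fun x => (hρ₀.2 x).le]
  set G : Ω → ℝ≥0∞ := fun q => ENNReal.ofReal (2 ^ (d + 1) * (P ^ (d + 1) +
    H.bo a b h r q ^ (d + 1))) with hG
  have hGm : Measurable G :=
    (continuous_const.mul (continuous_const.add (hboc.pow _))).measurable.ennreal_ofReal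
  have h1 : ∀ q, ENNReal.ofReal (H.rh ρ₀ a b h r q ^ (d + 1)) ≤
      ENNReal.ofReal (ρ₀ q ^ (d + 1)) + (H.Ψ '' Q d r).indicator G q := by
    intro q
    by_cases hq : q ∈ H.Ψ '' Q d r
    · rw [indicator_of_mem hq]
      refine le_trans (ENNReal.ofReal_le_ofReal ?_) le_add_self
      have h2 := H.rh_le hρ₀ hd (h := h) ha hb hr hrR q
      have h3 := H.rh_pos hρ₀ hd (h := h) ha hb hr hrR q
      refine (pow_le_pow_left₀ h3.le h2 _).trans ?_
      rw [mul_pow]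
      refine mul_le_mul_of_nonneg_left ?_ (by positivity)
      rcases max_cases (ρ₀ q) (H.bo a b h r q) with ⟨h4, _⟩ | ⟨h4, _⟩
      · rw [h4]
        have h5 := pow_le_pow_left₀ (hρ₀.2 q).le (hP q) (d + 1)
        have h6 : 0 ≤ H.bo a b h r q ^ (d + 1) := pow_nonneg (hbn q) _
        linarith
      · rw [h4]
        have : 0 < P ^ (d + 1) := by positivity
        linarith
    · rw [indicator_of_notMem hq, add_zero, H.rh_off hρ₀ hd ha hb hr hrR hq]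
  refine (lintegral_mono h1).trans ?_
  have h0m : Measurable fun q => ENNReal.ofReal (ρ₀ q ^ (d + 1)) :=
    (h0.pow _).measurable.ennreal_ofReal
  rw [lintegral_add_left h0m, lintegral_indicator hAm, add_assoc]
  refine add_le_add le_rfl ((H.upper_vol' hGm hrR.le).trans ?_)
  have hvol : volume (Q d r) = ENNReal.ofReal r * ENNReal.ofReal ((2 * r) ^ d) := by
    rw [Q, Measure.volume_eq_prod, Measure.prod_prod, Real.volume_Icc, sub_zero,
      Real.volume_pi_closedBall _ hr.le, Fintype.card_fin]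
  have h2 : ∫⁻ z in Q d r, G (H.Ψ z) ≤ ENNReal.ofReal (2 ^ (d + 1) * P ^ (d + 1) *
      (r * (2 * r) ^ d)) + ENNReal.ofReal (2 ^ (d + 1) * (2 ^ (d + 1) * b ^ (d + 1))) := by
    calc ∫⁻ z in Q d r, G (H.Ψ z) = ∫⁻ z in Q d r, (ENNReal.ofReal (2 ^ (d + 1) * P ^ (d + 1)) +
          ENNReal.ofReal (2 ^ (d + 1)) * ENNReal.ofReal (bub (d := d) a b h r z ^ (d + 1))) := by
          refine setLIntegral_congr_fun (measurableSet_Q _ _) fun z hz => ?_
          have h3 := bub_nonneg ha hb h hr z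
          simp only [hG]
          rw [H.bo_apply a b h hr hrR.le (Q_mono hrR.le hz), ← ENNReal.ofReal_mul (by positivity),
            ← ENNReal.ofReal_add (by positivity) (by positivity), mul_add]
      _ = ENNReal.ofReal (2 ^ (d + 1) * P ^ (d + 1)) *
            (ENNReal.ofReal r * ENNReal.ofReal ((2 * r) ^ d)) +
          ENNReal.ofReal (2 ^ (d + 1)) *
            ∫⁻ z in Q d r, ENNReal.ofReal (bub (d := d) a b h r z ^ (d + 1)) := by
          rw [lintegral_add_left measurable_const, setLIntegral_const, hvol,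
            lintegral_const_mul' _ _ ENNReal.ofReal_ne_top]
      _ ≤ _ := by
          refine add_le_add (le_of_eq ?_) ?_
          · rw [← ENNReal.ofReal_mul (by positivity), ← ENNReal.ofReal_mul (by positivity)]
          · rw [ENNReal.ofReal_mul (p := 2 ^ (d + 1)) (by positivity)]
            exact mul_le_mul' le_rfl (bubble_volume ha hb hh hh3 hr)
  refine (mul_le_mul' le_rfl h2).trans ?_
  rw [← ENNReal.ofReal_add (by positivity) (by positivity), ← ENNReal.ofReal_mul (by positivity),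
    ← ENNReal.ofReal_add (by positivity) (by positivity)]
  refine ENNReal.ofReal_le_ofReal ?_
  have h4 : (4 : ℝ) ^ (d + 1) = 2 ^ (d + 1) * 2 ^ (d + 1) := by
    rw [← mul_pow]; norm_num
  rw [h4, mul_pow 2 r]
  have h5 : 0 ≤ 2 ^ (d + 1) * H.C * P ^ (d + 1) * r ^ (d + 1) * 2 ^ d := by positivity
  calc H.C * (2 ^ (d + 1) * P ^ (d + 1) * (r * (2 ^ d * r ^ d)) +
        2 ^ (d + 1) * (2 ^ (d + 1) * b ^ (d + 1)))
      = 2 ^ (d + 1) * H.C * P ^ (d + 1) * r ^ (d + 1) * 2 ^ d +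
        2 ^ (d + 1) * 2 ^ (d + 1) * H.C * b ^ (d + 1) := by ring
    _ ≤ (2 ^ (d + 1) * H.C * P ^ (d + 1) * r ^ (d + 1) * 2 ^ d +
        2 ^ (d + 1) * H.C * P ^ (d + 1) * r ^ (d + 1) * 2 ^ d) +
        2 ^ (d + 1) * 2 ^ (d + 1) * H.C * b ^ (d + 1) := by linarith
    _ = _ := by ring

end rh

end HalfChart

end Pool.Agent.Steklov
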