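import Mathlib
import Pool.Agent.Lib.MP_4838e0_gt.Glue

set_option autoImplicit false

universe u
set_option linter.unusedSectionVars false
set_option linter.unusedVariables false

open Set Filter Topology MeasureTheory
open scoped ENNReal ContDiff

noncomputable section

namespace Pool.Agent.Steklov

variable {d : ℕ} {Ω : Type u} [TopologicalSpace Ω] [MeasurableSpace Ω]
  [BorelSpace Ω] [T2Space Ω] [CompactSpace Ω]

/-- There is a family of `m` functions on whose span `E < s M`. -/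
def NF (D : StekData d Ω) (ρ : Ω → ℝ) (s : ℝ) (m : ℕ) : Prop :=
  NegFam (fun f : D.F => D.E ρ f - s * D.M ρ f) m

lemma M_split (D : StekData d Ω) {ρ f h : Ω → ℝ} (hρ : Continuous ρ) (hpos : ∀ x, 0 ≤ ρ x)
    (hf : Continuous f) (hh : Continuous h) {δ : ℝ} (hδ : 0 < δ) :
    D.M ρ f ≤ (1 + δ) * D.M ρ h + (1 + 1 / δ) * D.M ρ (f - h) := by
  unfold StekData.M
  rw [← integral_const_mul, ← integral_const_mul]
  have e1 : Integrable (fun x => (1 + δ) * (ρ x ^ d * h x ^ 2)) D.s :=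
    D.integrable_s (continuous_const.mul ((hρ.pow _).mul (hh.pow 2)))
  have e2 : Integrable (fun x => (1 + 1 / δ) * (ρ x ^ d * (f - h) x ^ 2)) D.s :=
    D.integrable_s (continuous_const.mul ((hρ.pow _).mul ((hf.sub hh).pow 2)))
  have e3 : Integrable (fun x => ρ x ^ d * f x ^ 2) D.s :=
    D.integrable_s ((hρ.pow _).mul (hf.pow 2))
  rw [← integral_add e1 e2]
  refine integral_mono e3 (e1.add e2) fun x => ?_
  simp only [Pi.sub_apply]
  have h1 : f x ^ 2 ≤ (1 + δ) * h x ^ 2 + (1 + 1 / δ) * (f x - h x) ^ 2 := by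
    have h2 : 0 ≤ (Real.sqrt δ * h x - (Real.sqrt δ)⁻¹ * (f x - h x)) ^ 2 := sq_nonneg _
    have hs := Real.sqrt_pos.2 hδ
    have h3 : (Real.sqrt δ * h x - (Real.sqrt δ)⁻¹ * (f x - h x)) ^ 2 =
        δ * h x ^ 2 - 2 * h x * (f x - h x) + 1 / δ * (f x - h x) ^ 2 := by
      have h4 : Real.sqrt δ ^ 2 = δ := Real.sq_sqrt hδ.le
      have h5 : (Real.sqrt δ)⁻¹ ^ 2 = 1 / δ := by rw [inv_pow, h4, one_div]
      have h6 : Real.sqrt δ * (Real.sqrt δ)⁻¹ = 1 := mul_inv_cancel₀ hs.ne'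
      calc _ = Real.sqrt δ ^ 2 * h x ^ 2 - 2 * (Real.sqrt δ * (Real.sqrt δ)⁻¹) * h x *
            (f x - h x) + (Real.sqrt δ)⁻¹ ^ 2 * (f x - h x) ^ 2 := by ring
        _ = _ := by rw [h4, h5, h6]; ring
    rw [h3] at h2
    nlinarith
  have h7 : 0 ≤ ρ x ^ d := pow_nonneg (hpos x) _
  nlinarith [mul_le_mul_of_nonneg_left h1 h7]

/-- The final arithmetic contradiction. -/
lemma arith {s s' δ Mρ Eρ M0 Mb MT ET X enj enQ c1 c2 κ κ' K EA0 MD : ℝ}
    (hs : 0 < s) (hss' : s < s') (hMρ : 0 < Mρ) (hδ : (1 + δ) * s = s + (s' - s) / 4)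
    (hδ0 : 0 < δ)
    (i : Eρ < s * Mρ) (ii : Mρ = M0 + Mb) (iii : s' * Mb ≤ X)
    (iv : ET ≤ EA0 + c1 * enj) (v : EA0 ≤ Eρ - X) (vi : s' * MT ≤ ET)
    (vii : M0 ≤ (1 + δ) * MT + (1 + 1 / δ) * MD) (viii : MD ≤ c2 * enQ)
    (ix : enQ ≤ K * Mρ) (x : enj ≤ κ * Mρ) (hc1 : 0 ≤ c1) (hc2 : 0 ≤ c2) (hX : 0 ≤ X)
    (h1 : (1 + δ) * (c1 * κ) ≤ (s' - s) / 4) (h2 : s' * ((1 + 1 / δ) * (c2 * K)) ≤ (s' - s) / 4) :
    False := by
  have hs' : 0 < s' := hs.trans hss'
  have hδi : 0 < 1 + 1 / δ := by positivity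
  have a1 : s' * M0 ≤ (1 + δ) * (s' * MT) + s' * ((1 + 1 / δ) * MD) := by
    have := mul_le_mul_of_nonneg_left vii hs'.le
    linarith
  have a2 : s' * ((1 + 1 / δ) * MD) ≤ s' * ((1 + 1 / δ) * (c2 * K)) * Mρ := by
    have b1 : MD ≤ c2 * (K * Mρ) := viii.trans (mul_le_mul_of_nonneg_left ix hc2)
    have b2 := mul_le_mul_of_nonneg_left b1 hδi.le
    have b3 := mul_le_mul_of_nonneg_left b2 hs'.le
    linarith
  have a3 : (1 + δ) * (s' * MT) ≤ (1 + δ) * (Eρ - X + c1 * (κ * Mρ)) := by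
    refine mul_le_mul_of_nonneg_left ?_ (by linarith)
    have b1 := mul_le_mul_of_nonneg_left x hc1
    linarith
  have a4 : (1 + δ) * (Eρ - X + c1 * (κ * Mρ)) = (1 + δ) * Eρ - (1 + δ) * X +
      (1 + δ) * (c1 * κ) * Mρ := by ring
  have a5 := mul_le_mul_of_nonneg_right h1 hMρ.le
  have a6 := mul_le_mul_of_nonneg_right h2 hMρ.le
  have a7 : (1 + δ) * Eρ < (1 + δ) * (s * Mρ) := mul_lt_mul_of_pos_left i (by linarith)
  have a8 : (1 + δ) * (s * Mρ) = s * Mρ + (s' - s) / 4 * Mρ := by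
    calc (1 + δ) * (s * Mρ) = ((1 + δ) * s) * Mρ := by ring
      _ = _ := by rw [hδ]; ring
  have a9 : 0 ≤ δ * X := mul_nonneg hδ0.le hX
  have a10 : 0 < (s' - s) / 4 * Mρ := mul_pos (by linarith) hMρ
  have a11 : s' * Mρ = s' * M0 + s' * Mb := by rw [ii]; ring
  nlinarith

/-- **The gluing theorem.** -/
theorem glue (hd : 1 ≤ d) {D : StekData d Ω} (H : HalfChart D) {ρ₀ : Ω → ℝ} (hρ₀ : D.Pos ρ₀)
    (k : ℕ) {s s' : ℝ} (hs : 0 < s) (hss' : s < s') (hk : ¬ NF D ρ₀ s' (k + 1))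
    {τ δ : ℝ} (hτ : 0 < τ) (hδ : 0 < δ) :
    ∃ ρ, D.Pos ρ ∧ ¬ NF D ρ s (k + 2) ∧ D.V ρ ≤ D.V ρ₀ + 4 ^ (d + 1) * H.C * τ ^ (d + 1) + δ ∧
      D.L ρ₀ + H.c ^ 3 / (H.C * Kd d) * τ ^ (d - 1) / s' ≤ D.L ρ := by
  have hs' : 0 < s' := hs.trans hss'
  have hne : Nonempty Ω := ⟨H.Ψ 0⟩
  have hc := H.c_pos
  have hC := H.C_pos
  have hR := H.R_pos
  have hK := Kd_pos d
  have hρc : Continuous ρ₀ := D.F_cont _ hρ₀.1
  have hρpos : ∀ x, 0 ≤ ρ₀ x := fun x => (hρ₀.2 x).le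
  -- bounds of `ρ₀`
  obtain ⟨P, hP0, hP'⟩ := StekData.exists_bound hρc
  have hP : ∀ x, ρ₀ x ≤ P := fun x => (le_abs_self _).trans (hP' x)
  obtain ⟨x₀, _, hx₀⟩ := isCompact_univ.exists_isMinOn (univ_nonempty (α := Ω)) hρc.continuousOn
  set m : ℝ := ρ₀ x₀ with hm
  have hm0 : 0 < m := hρ₀.2 x₀
  have hmle : ∀ x, m ≤ ρ₀ x := fun x => hx₀ (mem_univ x)
  -- functionals
  obtain ⟨l, hl⟩ := exists_functionals (D.Eb hρc - s' • D.Mb hρc)
    (fun f h => by
      simp only [LinearMap.sub_apply, LinearMap.smul_apply, D.Eb_symm hρc f h, D.Mb_symm hρc f h])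
    k (by
      intro hcon
      apply hk
      unfold NF
      convert hcon using 2 with f
      simp only [LinearMap.sub_apply, LinearMap.smul_apply, smul_eq_mul, D.Eb_self, D.Mb_self])
  obtain ⟨B, hB0, hB⟩ := HalfChart.exists_T1 d
  -- constants
  set δ₁ : ℝ := (s' - s) / (4 * s) with hδ₁
  have hδ₁0 : 0 < δ₁ := div_pos (by linarith) (by linarith)
  have hδ₁' : (1 + δ₁) * s = s + (s' - s) / 4 := by
    rw [hδ₁]; field_simp
  set K : ℝ := s / (H.c ^ 2 * m ^ (d - 1)) with hKdef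
  have hK0 : 0 < K := by positivity
  set c1 : ℝ := H.C ^ 2 * P ^ (d - 1) * B with hc1
  have hc1' : 0 < c1 := by positivity
  set Y : ℝ := s' * ((1 + 1 / δ₁) * (H.C * P ^ d * K)) with hY
  have hY0 : 0 < Y := by positivity
  set r₁ : ℝ := min (H.R / 2) ((s' - s) / 4 / Y) with hr₁
  have hr₁0 : 0 < r₁ := lt_min (by positivity) (div_pos (by linarith) hY0)
  have hr₁R : r₁ < H.R := (min_le_left _ _).trans_lt (by linarith)
  have hr₁Y : Y * r₁ ≤ (s' - s) / 4 := by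
    have := min_le_right (H.R / 2) ((s' - s) / 4 / Y)
    rw [← hr₁, le_div_iff₀ hY0] at this
    linarith
  obtain ⟨J, hJ⟩ := exists_nat_gt (max 1 ((1 + δ₁) * (c1 * (K * ((k : ℝ) + 2))) / ((s' - s) / 4)))
  have hJ1 : (1 : ℝ) < J := (le_max_left _ _).trans_lt hJ
  have hJ0 : 0 < J := by
    have : (0 : ℝ) < J := one_pos.trans hJ1
    exact_mod_cast this
  have hJ2 : (1 + δ₁) * (c1 * (K * ((k : ℝ) + 2) / J)) ≤ (s' - s) / 4 := by
    have h1 := ((le_max_right _ _).trans_lt hJ).le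
    rw [div_le_iff₀ (by linarith)] at h1
    have h2 : (1 + δ₁) * (c1 * (K * ((k : ℝ) + 2) / J)) =
      (1 + δ₁) * (c1 * (K * ((k : ℝ) + 2))) / J := by ring
    rw [h2, div_le_iff₀ (by linarith)]
    linarith
  have ha := aa_pos
  have ha' := aa_le
  set r : ℕ → ℝ := fun j => r₁ * (aa / 2) ^ j with hr
  have hr0 : ∀ j, 0 < r j := fun j => by simp only [hr]; positivity
  have hrle : ∀ {i j : ℕ}, i ≤ j → r j ≤ r i := by
    intro i j hij
    simp only [hr]
    exact mul_le_mul_of_nonneg_left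
      (pow_le_pow_of_le_one (by positivity) (by linarith) hij) hr₁0.le
  have hrr₁ : ∀ j, r j ≤ r₁ := fun j => by
    have := hrle (Nat.zero_le j)
    simpa [hr] using this
  have hrR : ∀ j, r j < H.R := fun j => (hrr₁ j).trans_lt hr₁R
  have hrlt : ∀ {i j : ℕ}, i < j → r j < aa * r i := by
    intro i j hij
    have h1 : r j ≤ r (i + 1) := hrle hij
    have h2 : r (i + 1) = r i * (aa / 2) := by simp only [hr]; ring
    have h3 := mul_pos ha (hr0 i)
    rw [h2] at h1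
    linarith
  set r' : ℝ := min (r J) (min 1 (δ / (4 ^ (d + 1) * H.C * P ^ (d + 1)))) with hr'
  have hr'0 : 0 < r' := lt_min (hr0 J) (lt_min one_pos (by positivity))
  have hr'J : r' ≤ r J := min_le_left _ _
  have hr'1 : r' ≤ 1 := (min_le_right _ _).trans (min_le_left _ _)
  have hr'δ : 4 ^ (d + 1) * H.C * P ^ (d + 1) * r' ^ (d + 1) ≤ δ := by
    have h1 : r' ≤ δ / (4 ^ (d + 1) * H.C * P ^ (d + 1)) :=
      (min_le_right _ _).trans (min_le_right _ _)
    rw [le_div_iff₀ (by positivity)] at h1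
    have h2 : r' ^ (d + 1) ≤ r' := by
      calc r' ^ (d + 1) ≤ r' ^ 1 := pow_le_pow_of_le_one hr'0.le hr'1 (by omega)
        _ = r' := pow_one _
    calc 4 ^ (d + 1) * H.C * P ^ (d + 1) * r' ^ (d + 1) ≤ 4 ^ (d + 1) * H.C * P ^ (d + 1) * r' := by
          gcongr
      _ ≤ δ := by linarith
  have hr'R : r' < H.R := hr'J.trans_lt (hrR J)
  -- the bubble
  set θ : ℝ := (H.c ^ 2 * τ ^ (d - 1) / (s' * (H.C * Kd d))) ^ ((d : ℝ)⁻¹) with hθ
  have hθ0 : 0 < θ := by positivity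
  have hθd : θ ^ d = H.c ^ 2 * τ ^ (d - 1) / (s' * (H.C * Kd d)) := by
    have hdR : (d : ℝ) ≠ 0 := by positivity
    rw [hθ, ← Real.rpow_natCast, ← Real.rpow_mul (by positivity), inv_mul_cancel₀ hdR,
      Real.rpow_one]
  have hmn : 0 < min θ τ := lt_min hθ0 hτ
  have hmx : 0 < max θ τ := lt_max_of_lt_left hθ0
  set h : ℝ := min (1 / 4) (min (min θ τ ^ (d - 1) / τ ^ (d - 1))
    (τ ^ (d + 1) / max θ τ ^ (d + 1))) with hh
  have hh0 : 0 < h := lt_min (by norm_num) (lt_min (by positivity) (by positivity))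
  have hh1 : h ≤ 1 / 4 := min_le_left _ _
  have hh2 : h * τ ^ (d - 1) ≤ min θ τ ^ (d - 1) := by
    rw [← le_div_iff₀ (by positivity)]
    exact (min_le_right _ _).trans (min_le_left _ _)
  have hh3 : h * max θ τ ^ (d + 1) ≤ τ ^ (d + 1) := by
    rw [← le_div_iff₀ (by positivity)]
    exact (min_le_right _ _).trans (min_le_right _ _)
  set ρ := H.rh ρ₀ θ τ h r' with hρ
  have hρP : D.Pos ρ := H.rh_Pos hρ₀ hd hθ0 hτ hr'0 hr'R
  have hρcont : Continuous ρ := D.F_cont _ hρP.1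
  have hρn : ∀ x, 0 ≤ ρ x := fun x => (hρP.2 x).le
  have hle : ∀ x, ρ₀ x ≤ ρ x := H.le_rh hρ₀ hd hθ0 hτ hr'0 hr'R
  refine ⟨ρ, hρP, ?_, ?_, ?_⟩
  · rintro ⟨w, hw⟩
    set L : (Fin (k + 2) → ℝ) →ₗ[ℝ] D.F := Fintype.linearCombination ℝ w with hL
    have hLa : ∀ a, L a = ∑ i, a i • w i := fun a => Fintype.linearCombination_apply ℝ w a
    have hneg : ∀ a, a ≠ 0 → D.E ρ (L a) < s * D.M ρ (L a) := by
      intro a ha
      have := hw a ha
      simp only [← hLa] at this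
      linarith
    have hMpos : ∀ a, a ≠ 0 → 0 < D.M ρ (L a) := by
      intro a ha
      have h1 := hneg a ha
      have h2 := D.E_nonneg hρn (L a).2
      have h3 : 0 < s * D.M ρ (L a) := h2.trans_lt h1
      exact (mul_pos_iff_of_pos_left hs).1 h3
    -- energy bound in the chart
    have henQ : ∀ a, a ≠ 0 → H.en (Q d H.R) (L a) ≤ K * D.M ρ (L a) := by
      intro a ha
      have h1 := H.en_le_E (L a).2 hρcont hm0.le (fun x => (hmle x).trans (hle x))
      have h2 := (hneg a ha).le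
      rw [hKdef, div_mul_eq_mul_div, le_div_iff₀ (by positivity)]
      linarith
    -- good shell
    obtain ⟨j, hj⟩ := exists_good_shell ((D.Mb hρcont).compl₁₂ L L)
      (fun a b => by
        simp only [LinearMap.compl₁₂_apply]
        exact D.Mb_symm hρcont _ _)
      (fun a ha => by
        simp only [LinearMap.compl₁₂_apply]
        rw [D.Mb_self]
        exact hMpos a ha)
      J hJ0 (fun j a => H.en (Sh d (r j)) (L a)) K
      (fun j N c m b hm => by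
        simp only [map_sum, map_smul]
        exact H.en_sum_le ((Sh_subset d _).trans (Q_mono (hrR j).le)) N c m (fun i => L (b i)) hm)
      (fun a ha => by
        simp only [LinearMap.compl₁₂_apply]
        rw [D.Mb_self]
        refine (H.sum_en_le (fun j : Fin J => Sh d (r j))
          (fun j => (Sh_subset d _).trans (Q_mono (hrR j).le))
          (fun j => measurableSet_Sh d _) ?_ (L a).2).trans (henQ a ha)
        intro i j hij
        rcases lt_or_gt_of_ne hij with h1 | h1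
        · exact Sh_disjoint_Sh (hr0 _) (hrlt h1)
        · exact (Sh_disjoint_Sh (hr0 _) (hrlt h1)).symm)
    -- the function
    obtain ⟨a, ha0, haz⟩ := exists_common_zero (k + 1) (Fin.cons ((H.meanF hr'0 hr'R.le).comp L)
      (fun i => (l i).comp ((H.TF (hr0 j) (hrR j)).comp L)) :
        Fin (k + 1) → ((Fin (k + 1 + 1) → ℝ) →ₗ[ℝ] ℝ))
    have hmean : H.meanF hr'0 hr'R.le (L a) = 0 := by
      have := haz 0
      simpa using this
    have hlz : ∀ i, l i (H.TF (hr0 j) (hrR j) (L a)) = 0 := by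
      intro i
      have := haz i.succ
      simpa using this
    set f : D.F := L a with hf
    have hfc : Continuous (f : Ω → ℝ) := D.F_cont _ f.2
    have hTf := H.T_mem (hr0 j) (hrR j) f.2
    have hsub : H.Ψ '' Q d r' ⊆ H.Ψ '' Q d (r j) :=
      image_mono (Q_mono (hr'J.trans (hrle j.2.le)))
    have hAm := H.measurableSet_image (hrR j).le
    refine arith (δ := δ₁) (Mρ := D.M ρ f) (Eρ := D.E ρ f) (M0 := D.M ρ₀ f)
      (Mb := D.M (H.bo θ τ h r') f) (MT := D.M ρ₀ (H.T (r j) f)) (ET := D.E ρ₀ (H.T (r j) f))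
      (X := HalfChart.EA D ρ (H.Ψ '' Q d r') f) (enj := H.en (Sh d (r j)) f)
      (enQ := H.en (Q d H.R) f) (c1 := c1) (c2 := H.C * P ^ d * r₁)
      (κ := K * ((k : ℝ) + 2) / J) (κ' := 0) (K := K)
      (EA0 := HalfChart.EA D ρ₀ (H.Ψ '' Q d (r j))ᶜ f) (MD := D.M ρ₀ ((f : Ω → ℝ) - H.T (r j) f))
      hs hss' (hMpos a ha0) hδ₁' hδ₁0 (hneg a ha0) (H.M_rh hρ₀ hd hθ0 hτ hr'0 hr'R hfc) ?_
      ?_ ?_ ?_ ?_ ?_ (henQ a ha0) ?_ hc1'.le (by positivity)
      (HalfChart.EA_nonneg hρn _ f.2) hJ2 ?_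
    · have h1 := H.bubble_mass_le hd hθ0 hτ hh0 hh1 hh2 hr'0 hr'R hρcont
        (H.bo_le_rh hρ₀ hd hθ0 hτ hr'0 hr'R) f hmean
      rw [hθd] at h1
      have h2 : H.C * (Kd d * (H.c ^ 2 * τ ^ (d - 1) / (s' * (H.C * Kd d))) / τ ^ (d - 1)) =
          H.c ^ 2 / s' := by
        field_simp
      rw [h2, div_mul_eq_mul_div, le_div_iff₀ hs'] at h1
      have h3 : 0 < H.c ^ 2 := by positivity
      refine le_of_mul_le_mul_left ?_ h3
      linarith
    · exact hB H f.2 hρc hρpos hP (hr0 j) (hrR j)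
    · have h1 := HalfChart.EA_add_compl hρcont hAm f.2
      have h2 := HalfChart.EA_mono (D := D) hρc hρcont hρpos hle (H.Ψ '' Q d (r j))ᶜ f.2
      have h3 : HalfChart.EA D ρ (H.Ψ '' Q d r') f ≤ HalfChart.EA D ρ (H.Ψ '' Q d (r j)) f := by
        refine setIntegral_mono_set (D.integrable_v (D.cont_E hρcont f.2 f.2)).integrableOn ?_
          hsub.eventuallyLE
        exact Eventually.of_forall fun x => mul_nonneg (pow_nonneg (hρn x) _)
          (D.Γ_nonneg f f.2 x)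
      linarith
    · have h1 := hl _ hlz
      simp only [LinearMap.sub_apply, LinearMap.smul_apply, smul_eq_mul, D.Eb_self, D.Mb_self,
        H.TF_coe] at h1
      linarith
    · exact M_split D hρc hρpos hfc (D.F_cont _ hTf) hδ₁0
    · refine (H.T2 f.2 hρc hρpos hP (hr0 j) (hrR j)).trans ?_
      have h1 := H.en_mono f.2 (Q_mono (d := d) (hrR j).le) subset_rfl
      have h2 := H.en_nonneg (Q d (r j)) f
      have h3 := hrr₁ j
      have h4 := hr0 j
      gcongr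
    · have h1 := hj a
      simp only [LinearMap.compl₁₂_apply, Module.finrank_fin_fun] at h1
      rw [D.Mb_self] at h1
      push_cast at h1
      exact h1
    · have h1 : s' * ((1 + 1 / δ₁) * (H.C * P ^ d * r₁ * K)) = Y * r₁ := by rw [hY]; ring
      rw [h1]
      exact hr₁Y
  · refine (H.V_rh hρ₀ hd hθ0 hτ hr'0 hr'R hh0 hh3 hP).trans ?_
    linarith
  · have h1 := H.L_rh hρ₀ hd (b := τ) (h := h) hθ0 hτ hr'0 hr'R
    rw [hθd] at h1
    have h2 : H.c * (H.c ^ 2 * τ ^ (d - 1) / (s' * (H.C * Kd d))) =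
        H.c ^ 3 / (H.C * Kd d) * τ ^ (d - 1) / s' := by
      field_simp
    rw [h2] at h1
    exact h1

end Pool.Agent.Steklov
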