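import Mathlib
import Pool.Agent.Lib.MP_4838e0_gt.Glue2

set_option autoImplicit false

universe u
set_option linter.unusedSectionVars false
set_option linter.unusedVariables false

open Set Filter Topology MeasureTheory
open scoped ENNReal ContDiff

noncomputable section

namespace Pool.Agent.Steklov

variable {d : ℕ} {Ω : Type u} [TopologicalSpace Ω] [MeasurableSpace Ω]
  [BorelSpace Ω] [T2Space Ω] [CompactSpace Ω]

namespace HalfChart

variable {D : StekData d Ω} (H : HalfChart D)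

/-- The boundary mass of a function not vanishing at `Ψ 0` is positive. -/
lemma M_pos {ρ f : Ω → ℝ} (hρ : Continuous ρ) (hpos : ∀ x, 0 < ρ x) (hf : Continuous f)
    (h0 : f (H.Ψ 0) ≠ 0) : 0 < D.M ρ f := by
  have hc := H.c_pos
  have hR := H.R_pos
  have hn := D.M_nonneg f (fun x => (hpos x).le)
  refine lt_of_le_of_ne hn fun hcon => ?_
  have h1 := D.ofReal_M hρ (fun x => (hpos x).le) hf
  rw [← hcon, ENNReal.ofReal_zero] at h1
  have hGm : Measurable fun x => ENNReal.ofReal (ρ x ^ d * f x ^ 2) :=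
    ((hρ.pow _).mul (hf.pow 2)).measurable.ennreal_ofReal
  have h2 := H.lower_bd hGm
  rw [← h1, nonpos_iff_eq_zero, mul_eq_zero] at h2
  have h3 : ∫⁻ x in Metric.closedBall 0 H.R,
      ENNReal.ofReal (ρ (H.Ψ (0, x)) ^ d * f (H.Ψ (0, x)) ^ 2) = 0 := by
    rcases h2 with h2 | h2
    · rw [ENNReal.ofReal_eq_zero] at h2; linarith
    · exact h2
  have hcont : ContinuousOn (fun x : Fin d → ℝ => H.Ψ (0, x)) (Metric.closedBall 0 H.R) := by
    refine H.cont.comp (by fun_prop) fun x hx => ?_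
    exact mk_zero_mem_Q H.R_pos.le (by simpa using hx)
  have hcf : ContinuousOn (fun x : Fin d → ℝ => f (H.Ψ (0, x))) (Metric.closedBall 0 H.R) :=
    hf.comp_continuousOn hcont
  have h4 : ∀ᶠ x in 𝓝 (0 : Fin d → ℝ), f (H.Ψ (0, x)) ≠ 0 := by
    have h5 : ContinuousAt (fun x : Fin d → ℝ => f (H.Ψ (0, x))) 0 :=
      hcf.continuousAt (Metric.closedBall_mem_nhds _ hR)
    exact h5.eventually_ne h0
  obtain ⟨ε, hε, hball⟩ := Metric.eventually_nhds_iff_ball.1 h4
  have hm1 : MeasurableSet (Metric.closedBall (0 : Fin d → ℝ) H.R) :=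
    Metric.isClosed_closedBall.measurableSet
  have h6 : AEMeasurable (fun x => ENNReal.ofReal (ρ (H.Ψ (0, x)) ^ d * f (H.Ψ (0, x)) ^ 2))
      (volume.restrict (Metric.closedBall (0 : Fin d → ℝ) H.R)) :=
    hGm.comp_aemeasurable H.aemeasurable_face
  rw [lintegral_eq_zero_iff' h6] at h3
  have h7 : ∀ᵐ x ∂(volume.restrict (Metric.ball (0 : Fin d → ℝ) (min ε H.R))), False := by
    have h8 : Metric.ball (0 : Fin d → ℝ) (min ε H.R) ⊆ Metric.closedBall 0 H.R :=
      (Metric.ball_subset_ball (min_le_right _ _)).trans Metric.ball_subset_closedBall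
    have h9 := ae_mono (Measure.restrict_mono_set volume h8) h3
    filter_upwards [h9, self_mem_ae_restrict (μ := (volume : Measure (Fin d → ℝ)))
      Metric.isOpen_ball.measurableSet] with x hx hx'
    simp only [Pi.zero_apply, ENNReal.ofReal_eq_zero] at hx
    have h10 := hball x (Metric.ball_subset_ball (min_le_left _ _) hx')
    have h11 : 0 < ρ (H.Ψ (0, x)) ^ d := pow_pos (hpos _) _
    have h12 : 0 < f (H.Ψ (0, x)) ^ 2 := by positivity
    have := mul_pos h11 h12
    linarith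
  rw [ae_iff, not_false_eq_true, Set.ofPred_true, Measure.restrict_apply_univ] at h7
  exact (Metric.measure_ball_pos volume (0 : Fin d → ℝ) (lt_min hε hR)).ne' h7

include H in
lemma V_pos {ρ : Ω → ℝ} (hρ : Continuous ρ) (hpos : ∀ x, 0 < ρ x) : 0 < D.V ρ := by
  have hc := H.c_pos
  have hR := H.R_pos
  have hne : Nonempty Ω := ⟨H.Ψ 0⟩
  obtain ⟨x₀, _, hx₀⟩ := isCompact_univ.exists_isMinOn (univ_nonempty (α := Ω)) hρ.continuousOn
  have hGm : Measurable fun x => ENNReal.ofReal (ρ x ^ (d + 1)) :=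
    (hρ.pow _).measurable.ennreal_ofReal
  rw [← ENNReal.ofReal_pos, D.ofReal_V hρ fun x => (hpos x).le]
  refine lt_of_lt_of_le ?_ (H.lower_vol hGm)
  refine ENNReal.mul_pos ?_ ?_
  · rw [Ne, ENNReal.ofReal_eq_zero, not_le]; exact hc
  · refine ne_of_gt (lt_of_lt_of_le ?_ (lintegral_mono fun z => ENNReal.ofReal_le_ofReal
      (pow_le_pow_left₀ (hpos x₀).le (hx₀ (mem_univ (H.Ψ z))) (d + 1))))
    rw [setLIntegral_const]
    refine ENNReal.mul_pos ?_ ?_
    · rw [Ne, ENNReal.ofReal_eq_zero, not_le]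
      have := hpos x₀
      positivity
    · have hvol : volume (Q d H.R) = ENNReal.ofReal H.R * ENNReal.ofReal ((2 * H.R) ^ d) := by
        rw [Q, Measure.volume_eq_prod, Measure.prod_prod, Real.volume_Icc, sub_zero,
          Real.volume_pi_closedBall _ hR.le, Fintype.card_fin]
      rw [hvol]
      refine (ENNReal.mul_pos ?_ ?_).ne'
      · rw [Ne, ENNReal.ofReal_eq_zero, not_le]; exact hR
      · rw [Ne, ENNReal.ofReal_eq_zero, not_le]; positivity

include H in
lemma L_pos {ρ : Ω → ℝ} (hρ : Continuous ρ) (hpos : ∀ x, 0 < ρ x) : 0 < D.L ρ := by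
  have := H.M_pos hρ hpos (f := fun _ => 1) continuous_const one_ne_zero
  unfold StekData.M at this
  unfold StekData.L
  simpa using this

end HalfChart

/-- Standing hypothesis on the boundary set `S`. -/
structure Bdry (D : StekData d Ω) (S : Set Ω) : Prop where
  null : D.s Sᶜ = 0
  chart : ∀ p ∈ S, ∃ H : HalfChart D, H.Ψ 0 = p
  nonempty : S.Nonempty

variable {D : StekData d Ω} {S : Set Ω}

lemma NF_mono {ρ : Ω → ℝ} {s : ℝ} {m : ℕ} (h : NF D ρ s (m + 1)) : NF D ρ s m := by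
  obtain ⟨w, hw⟩ := h
  refine ⟨fun i => w i.succ, fun a ha => ?_⟩
  have h1 := hw (Fin.cons 0 a) (by
    intro hcon
    apply ha
    funext i
    have := congrFun hcon i.succ
    simpa using this)
  rw [Fin.sum_univ_succ] at h1
  simpa using h1

lemma sig_ge (hS : Bdry D S) {ρ : Ω → ℝ} (hρ : D.Pos ρ) {s : ℝ} (hs : 0 ≤ s) {k : ℕ}
    (h : ¬ NF D ρ s (k + 1)) : ENNReal.ofReal s ≤ D.sig S ρ k := by
  unfold StekData.sig
  refine le_iInf₂ fun W hW => ?_
  obtain ⟨hWF, hfr, hnd⟩ := hW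
  have hfin : FiniteDimensional ℝ W := Module.finite_of_finrank_pos (by omega)
  let b : Module.Basis (Fin (k + 1)) ℝ W := Module.finBasisOfFinrankEq ℝ W hfr
  unfold NF NegFam at h
  push Not at h
  obtain ⟨a, ha, hq⟩ := h fun i => ⟨b i, hWF (b i).2⟩
  set f : W := ∑ i, a i • b i with hf
  have hf0 : f ≠ 0 := by
    intro hcon
    apply ha
    have := Fintype.linearIndependent_iff.1 b.linearIndependent a hcon
    funext i
    exact this i
  have hfe : ((∑ i, a i • (⟨b i, hWF (b i).2⟩ : D.F) : D.F) : Ω → ℝ) = (f : Ω → ℝ) := by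
    rw [hf]
    simp
  rw [hfe] at hq
  have hf0' : (f : Ω → ℝ) ≠ 0 := fun hcon => hf0 (Subtype.ext hcon)
  have hM : 0 < D.M ρ f := by
    have h1 : ∃ x ∈ S, (f : Ω → ℝ) x ≠ 0 := by
      by_contra hcon
      push Not at hcon
      exact hf0' (hnd f f.2 hcon)
    obtain ⟨p, hp, hfp⟩ := h1
    obtain ⟨H, rfl⟩ := hS.chart p hp
    exact H.M_pos (D.F_cont _ hρ.1) hρ.2 (D.F_cont _ (hWF f.2)) hfp
  refine le_trans ?_ (le_iSup₂_of_le (f : Ω → ℝ) f.2 (le_iSup_of_le hf0' le_rfl))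
  rw [ENNReal.le_div_iff_mul_le (Or.inl (by rw [Ne, ENNReal.ofReal_eq_zero, not_le]; exact hM))
    (Or.inl ENNReal.ofReal_ne_top), ← ENNReal.ofReal_mul hs]
  exact ENNReal.ofReal_le_ofReal (by linarith)

lemma sig_le (hS : Bdry D S) {ρ : Ω → ℝ} (hρ : D.Pos ρ) {s : ℝ} (hs : 0 ≤ s) {k : ℕ}
    (h : NF D ρ s (k + 1)) : D.sig S ρ k ≤ ENNReal.ofReal s := by
  obtain ⟨w, hw⟩ := h
  simp only at hw
  have hρn : ∀ x, 0 ≤ ρ x := fun x => (hρ.2 x).le
  have hE0 : D.E ρ 0 = 0 := by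
    have h0 := D.Γ_smul 0 0 D.F.zero_mem 0 D.F.zero_mem
    rw [zero_smul, zero_smul] at h0
    unfold StekData.E
    rw [h0]
    simp
  have hM0 : D.M ρ 0 = 0 := by
    unfold StekData.M
    simp
  have hcoe : ∀ a : Fin (k + 1) → ℝ, ((∑ i, a i • w i : D.F) : Ω → ℝ) =
      ∑ i, a i • (w i : Ω → ℝ) := by
    intro a
    simp
  have hli : LinearIndependent ℝ fun i => (w i : Ω → ℝ) := by
    rw [Fintype.linearIndependent_iff]
    intro a hsum
    by_contra hcon
    push Not at hcon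
    obtain ⟨i, hi⟩ := hcon
    have h1 := hw a (fun h => hi (congrFun h i))
    rw [hcoe, hsum, hE0, hM0] at h1
    simp at h1
  set W : Submodule ℝ (Ω → ℝ) := Submodule.span ℝ (Set.range fun i => (w i : Ω → ℝ)) with hW
  have hneg : ∀ f ∈ W, f ≠ 0 → D.E ρ f < s * D.M ρ f := by
    intro f hf hf0
    rw [hW, Submodule.mem_span_range_iff_exists_fun] at hf
    obtain ⟨a, rfl⟩ := hf
    have ha : a ≠ 0 := by
      rintro rfl
      apply hf0
      simp
    have h1 := hw a ha
    rw [hcoe] at h1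
    linarith
  have hWF : W ≤ D.F := by
    rw [hW, Submodule.span_le]
    rintro _ ⟨i, rfl⟩
    exact (w i).2
  have htest : D.IsTest S k W := by
    refine ⟨hWF, ?_, ?_⟩
    · rw [hW, finrank_span_eq_card hli, Fintype.card_fin]
    · intro f hf hfS
      by_contra hf0
      have h1 := hneg f hf hf0
      have h2 : D.M ρ f = 0 := by
        unfold StekData.M
        have h3 : (fun x => ρ x ^ d * f x ^ 2) =ᵐ[D.s] 0 := by
          have h4 : ∀ᵐ x ∂D.s, x ∈ S := by
            rw [ae_iff]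
            exact hS.null
          filter_upwards [h4] with x hx
          rw [hfS x hx]
          simp
        rw [integral_congr_ae h3]
        simp
      rw [h2, mul_zero] at h1
      exact absurd (D.E_nonneg hρn (hWF hf)) (not_le.2 h1)
  unfold StekData.sig
  refine iInf₂_le_of_le W htest ?_
  refine iSup₂_le fun f hf => iSup_le fun hf0 => ?_
  refine ENNReal.div_le_of_le_mul ?_
  rw [← ENNReal.ofReal_mul hs]
  exact ENNReal.ofReal_le_ofReal (hneg f hf hf0).le

lemma not_NF_of_lt (hS : Bdry D S) {ρ : Ω → ℝ} (hρ : D.Pos ρ) {s : ℝ} (hs : 0 ≤ s) {k : ℕ}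
    (h : ENNReal.ofReal s < D.sig S ρ k) : ¬ NF D ρ s (k + 1) :=
  fun hcon => absurd (sig_le hS hρ hs hcon) (not_le.2 h)

lemma sig_mono (hS : Bdry D S) {ρ : Ω → ℝ} (hρ : D.Pos ρ) (k : ℕ) :
    D.sig S ρ k ≤ D.sig S ρ (k + 1) := by
  refine ENNReal.le_of_forall_pos_nnreal_lt fun s hs hlt => ?_
  rw [← ENNReal.ofReal_coe_nnreal] at hlt ⊢
  refine sig_ge hS hρ s.2 fun hcon => ?_
  exact not_NF_of_lt hS hρ s.2 hlt (NF_mono hcon)

lemma conf_mono (hS : Bdry D S) (k : ℕ) : D.conf S k ≤ D.conf S (k + 1) := by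
  unfold StekData.conf
  refine iSup₂_mono fun ρ hρ => ?_
  unfold StekData.sigBar
  gcongr
  exact sig_mono hS hρ k

/-- Constants are test functions: the `0`-th eigenvalue vanishes. -/
lemma sig_zero (hS : Bdry D S) {ρ : Ω → ℝ} (hρ : D.Pos ρ) : D.sig S ρ 0 = 0 := by
  obtain ⟨p, hp⟩ := hS.nonempty
  obtain ⟨H, rfl⟩ := hS.chart p hp
  have hL := H.L_pos (D.F_cont _ hρ.1) hρ.2
  have hE : ∀ c : ℝ, D.E ρ (fun _ => c) = 0 := by
    intro c
    have h1 : (fun _ : Ω => c) = c • (fun _ : Ω => (1 : ℝ)) := by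
      funext x; simp
    have h2 : D.Γ (fun _ => c) (fun _ => c) = 0 := by
      rw [h1, D.Γ_smul c _ (D.F_const 1) _ (by rw [← h1]; exact D.F_const c),
        D.Γ_smul' c (D.F_const 1) (D.F_const 1)]
      funext x
      simp [D.Γ_one x]
    unfold StekData.E
    rw [h2]
    simp
  refine le_antisymm ?_ zero_le
  refine ENNReal.le_of_forall_pos_le_add fun ε hε _ => ?_
  rw [zero_add, ← ENNReal.ofReal_coe_nnreal]
  refine sig_le hS hρ ε.2 ⟨fun _ => ⟨fun _ => 1, D.F_const 1⟩, fun a ha => ?_⟩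
  have ha0 : a 0 ≠ 0 := by
    intro h
    apply ha
    funext i
    have hi : i = 0 := by
      ext
      have := i.2
      simp only [Fin.val_zero]
      omega
    rw [hi, h]
    rfl
  have h1 : ((∑ i : Fin 1, a i • (⟨fun _ => 1, D.F_const 1⟩ : D.F) : D.F) : Ω → ℝ) =
      fun _ => a 0 := by
    funext x
    simp
  have h2 : D.M ρ (fun _ => a 0) = a 0 ^ 2 * D.L ρ := by
    unfold StekData.M StekData.L
    rw [← integral_const_mul]
    congr 1
    funext x
    ring
  simp only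
  rw [h1, hE, h2]
  have h3 : 0 < a 0 ^ 2 := by positivity
  have hε' : (0 : ℝ) < (ε : ℝ) := hε
  have h4 : (0 : ℝ) < (ε : ℝ) * (a 0 ^ 2 * D.L ρ) := mul_pos hε' (mul_pos h3 hL)
  rw [zero_sub, neg_lt_zero]
  exact h4

lemma conf_zero (hS : Bdry D S) : D.conf S 0 = 0 := by
  unfold StekData.conf
  simp only [ENNReal.iSup_eq_zero]
  intro ρ hρ
  unfold StekData.sigBar
  rw [sig_zero hS hρ, zero_mul, zero_mul]

end Pool.Agent.Steklov
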