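import Mathlib
import Pool.Agent.Lib.MP_4838e0_gt.Fin2
import Pool.Agent.Lib.MP_4838e0_gt.Sig

set_option autoImplicit false

universe u
set_option linter.unusedSectionVars false
set_option linter.unusedVariables false

open Set Filter Topology MeasureTheory
open scoped ENNReal ContDiff

noncomputable section

namespace Pool.Agent.Steklov

variable {d : ℕ} {Ω : Type u} [TopologicalSpace Ω] [MeasurableSpace Ω]
  [BorelSpace Ω] [T2Space Ω] [CompactSpace Ω]

/-- The weighted boundary measure. -/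
def mu (D : StekData d Ω) (ρ : Ω → ℝ) : Measure Ω :=
  D.s.withDensity fun x => ENNReal.ofReal (ρ x ^ d)

lemma mu_univ (D : StekData d Ω) {ρ : Ω → ℝ} (hρ : Continuous ρ) (hpos : ∀ x, 0 ≤ ρ x) :
    mu D ρ univ = ENNReal.ofReal (D.L ρ) := by
  unfold mu
  rw [withDensity_apply _ MeasurableSet.univ, Measure.restrict_univ, D.ofReal_L hρ hpos]

lemma mu_finite (D : StekData d Ω) {ρ : Ω → ℝ} (hρ : Continuous ρ) (hpos : ∀ x, 0 ≤ ρ x) :
    IsFiniteMeasure (mu D ρ) := ⟨by rw [mu_univ D hρ hpos]; exact ENNReal.ofReal_lt_top⟩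

namespace HalfChart

variable {D : StekData d Ω} (H : HalfChart D)

lemma inv_continuousOn : ContinuousOn H.inv (H.Ψ '' Q d H.R) := by
  rw [continuousOn_iff_isClosed]
  intro t ht
  refine ⟨H.Ψ '' (Q d H.R ∩ t), ?_, ?_⟩
  · exact (((isCompact_Qd d H.R).inter_right ht).image_of_continuousOn
      (H.cont.mono inter_subset_left)).isClosed
  · ext x
    constructor
    · rintro ⟨hx, z, hz, rfl⟩
      rw [mem_preimage, H.inv_apply hz] at hx
      exact ⟨⟨z, ⟨hz, hx⟩, rfl⟩, z, hz, rfl⟩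
    · rintro ⟨⟨z, ⟨hz, hzt⟩, rfl⟩, _⟩
      refine ⟨?_, z, hz, rfl⟩
      rw [mem_preimage, H.inv_apply hz]
      exact hzt

/-- The boundary mass measure in the chart. -/
def mm (ρ : Ω → ℝ) (r : ℝ) : Measure (ℝ × (Fin d → ℝ)) :=
  ((mu D ρ).restrict (H.Ψ '' Q d r)).map H.inv

lemma mm_aemeasurable (ρ : Ω → ℝ) {r : ℝ} (hr : r ≤ H.R) :
    AEMeasurable H.inv ((mu D ρ).restrict (H.Ψ '' Q d r)) :=
  (H.inv_continuousOn.mono (image_mono (Q_mono hr))).aemeasurable (H.measurableSet_image hr)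

lemma mm_apply (ρ : Ω → ℝ) {r : ℝ} (hr : r ≤ H.R) {A : Set (ℝ × (Fin d → ℝ))}
    (hA : MeasurableSet A) : H.mm ρ r A = mu D ρ (H.Ψ '' (Q d r ∩ A)) := by
  unfold mm
  rw [Measure.map_apply_of_aemeasurable (H.mm_aemeasurable ρ hr) hA,
    Measure.restrict_apply' (H.measurableSet_image hr)]
  congr 1
  ext x
  constructor
  · rintro ⟨hx, z, hz, rfl⟩
    rw [mem_preimage, H.inv_apply (Q_mono hr hz)] at hx
    exact ⟨z, ⟨hz, hx⟩, rfl⟩
  · rintro ⟨z, ⟨hz, hzA⟩, rfl⟩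
    refine ⟨?_, z, hz, rfl⟩
    rw [mem_preimage, H.inv_apply (Q_mono hr hz)]
    exact hzA

lemma mm_univ (ρ : Ω → ℝ) {r : ℝ} (hr : r ≤ H.R) :
    H.mm ρ r univ = mu D ρ (H.Ψ '' Q d r) := by
  rw [H.mm_apply ρ hr MeasurableSet.univ, inter_univ]

lemma mm_supp (ρ : Ω → ℝ) {r : ℝ} (hr0 : 0 ≤ r) (hr : r ≤ H.R) :
    H.mm ρ r (Metric.closedBall 0 r)ᶜ = 0 := by
  rw [H.mm_apply ρ hr Metric.isClosed_closedBall.measurableSet.compl]
  have : Q d r ∩ (Metric.closedBall 0 r)ᶜ = ∅ := by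
    rw [← disjoint_iff_inter_eq_empty, disjoint_compl_right_iff_subset]
    intro z hz
    rw [mem_closedBall_zero_iff, Prod.norm_def]
    refine max_le ?_ ?_
    · rw [Real.norm_eq_abs, abs_of_nonneg hz.1.1]
      exact hz.1.2
    · simpa using hz.2
  rw [this, image_empty, measure_empty]

/-- Small balls have small mass. -/
lemma mm_small {ρ : Ω → ℝ} (hρ : Continuous ρ) (hpos : ∀ x, 0 ≤ ρ x) {P : ℝ}
    (hP : ∀ x, ρ x ≤ P) {r : ℝ} (hr : r ≤ H.R) (z₀ : ℝ × (Fin d → ℝ)) {r₀ : ℝ} (hr₀ : 0 ≤ r₀) :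
    H.mm ρ r (Metric.closedBall z₀ r₀) ≤ ENNReal.ofReal (P ^ d * H.C * (2 * r₀) ^ d) := by
  have hne : Nonempty Ω := ⟨H.Ψ 0⟩
  have hP0 : 0 ≤ P := (hpos (H.Ψ 0)).trans (hP _)
  have hC := H.C_pos
  set A := Metric.closedBall z₀ r₀ with hA
  rw [H.mm_apply ρ hr Metric.isClosed_closedBall.measurableSet]
  have hcl : IsClosed (H.Ψ '' (Q d r ∩ A)) :=
    (((isCompact_Qd d r).inter_right Metric.isClosed_closedBall).image_of_continuousOn
      (H.cont.mono (inter_subset_left.trans (Q_mono hr)))).isClosed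
  have hm := hcl.measurableSet
  have h1 : mu D ρ (H.Ψ '' (Q d r ∩ A)) ≤ ENNReal.ofReal (P ^ d) * D.s (H.Ψ '' (Q d r ∩ A)) := by
    unfold mu
    rw [withDensity_apply _ hm]
    refine (lintegral_mono fun x => ENNReal.ofReal_le_ofReal
      (pow_le_pow_left₀ (hpos x) (hP x) d)).trans_eq ?_
    rw [setLIntegral_const]
  have h2 : D.s (H.Ψ '' (Q d r ∩ A)) ≤ ENNReal.ofReal H.C * ENNReal.ofReal ((2 * r₀) ^ d) := by
    have h3 : D.s (H.Ψ '' (Q d r ∩ A)) =
        ∫⁻ q in H.Ψ '' Q d r, (H.Ψ '' (Q d r ∩ A)).indicator (fun _ => 1) q ∂D.s := by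
      rw [setLIntegral_indicator hm, inter_eq_left.2 (image_mono inter_subset_left),
        setLIntegral_const, one_mul]
    rw [h3]
    refine (H.upper_bd' (measurable_const.indicator hm) hr).trans (mul_le_mul' le_rfl ?_)
    calc ∫⁻ x in Metric.closedBall (0 : Fin d → ℝ) r,
          (H.Ψ '' (Q d r ∩ A)).indicator (fun _ => (1 : ℝ≥0∞)) (H.Ψ (0, x))
        ≤ ∫⁻ x in Metric.closedBall (0 : Fin d → ℝ) r,
          (Metric.closedBall z₀.2 r₀).indicator (fun _ => (1 : ℝ≥0∞)) x := by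
          refine setLIntegral_mono' Metric.isClosed_closedBall.measurableSet fun x hx => ?_
          by_cases h : H.Ψ (0, x) ∈ H.Ψ '' (Q d r ∩ A)
          · rw [indicator_of_mem h, indicator_of_mem]
            obtain ⟨z, ⟨hz, hzA⟩, he⟩ := h
            have hx' : ‖x‖ ≤ r := by simpa using hx
            have hr' : 0 ≤ r := (norm_nonneg _).trans hx'
            have h4 := H.inj (Q_mono hr hz)
              (mk_zero_mem_Q H.R_pos.le (hx'.trans hr)) he
            rw [h4, hA, Metric.mem_closedBall, Prod.dist_eq] at hzA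
            exact (le_max_right _ _).trans hzA
          · rw [indicator_of_notMem h]
            exact zero_le
      _ ≤ ∫⁻ x, (Metric.closedBall z₀.2 r₀).indicator (fun _ => (1 : ℝ≥0∞)) x :=
          setLIntegral_le_lintegral _ _
      _ = volume (Metric.closedBall z₀.2 r₀) := by
          rw [lintegral_indicator Metric.isClosed_closedBall.measurableSet, setLIntegral_const,
            one_mul]
      _ = ENNReal.ofReal ((2 * r₀) ^ d) := by
          rw [Real.volume_pi_closedBall _ hr₀, Fintype.card_fin]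
  refine (h1.trans (mul_le_mul' le_rfl h2)).trans_eq ?_
  rw [← ENNReal.ofReal_mul hC.le, ← ENNReal.ofReal_mul (by positivity)]
  congr 1
  ring

/-- The conformally invariant energy of a function supported in the chart. -/
lemma conf_energy_le {φ : ℝ × (Fin d → ℝ) → ℝ} (hφ : ContDiff ℝ ∞ φ)
    (hφ0 : ∀ z, H.R / 2 ≤ ‖z‖ → φ z = 0) :
    H.pull (H.R / 2) 0 φ ∈ D.F ∧
    ∫⁻ q, ENNReal.ofReal (D.Γ (H.pull (H.R / 2) 0 φ) (H.pull (H.R / 2) 0 φ) q) ^
      (((d : ℝ) + 1) / 2) ∂D.v ≤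
      ENNReal.ofReal H.C * (ENNReal.ofReal H.C ^ (((d : ℝ) + 1) / 2) *
        ∫⁻ z, ‖fderiv ℝ φ z‖ₑ ^ (d + 1)) := by
  have hR := H.R_pos
  have hC := H.C_pos
  have hR2 : H.R / 2 < H.R := by linarith
  have hcond : ∀ z ∈ Q d H.R, z ∉ Q d (H.R / 2) → φ z = (0 : Ω → ℝ) (H.Ψ z) := by
    intro z hz hz'
    rw [Pi.zero_apply]
    apply hφ0
    by_contra hcon
    push Not at hcon
    rw [Prod.norm_def] at hcon
    have h1 := (le_max_left _ _).trans_lt hcon
    have h2 := (le_max_right _ _).trans_lt hcon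
    rw [Real.norm_eq_abs, abs_lt] at h1
    exact hz' ⟨⟨hz.1.1, h1.2.le⟩, by simpa using h2.le⟩
  set f := H.pull (H.R / 2) 0 φ with hf
  have hfF : f ∈ D.F := H.pull_mem hR2 D.F.zero_mem hcond hφ.contDiffOn
  refine ⟨hfF, ?_⟩
  have hn : (0 : ℝ) < ((d : ℝ) + 1) / 2 := by positivity
  have hAm := H.measurableSet_image hR2.le
  have hΓm : Measurable fun q => ENNReal.ofReal (D.Γ f f q) :=
    (D.Γ_cont f hfF f hfF).measurable.ennreal_ofReal
  have hGm : Measurable fun q => ENNReal.ofReal (D.Γ f f q) ^ (((d : ℝ) + 1) / 2) :=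
    hΓm.pow_const _
  have hΓ0 : D.Γ (0 : Ω → ℝ) 0 = 0 := by
    have h0 := D.Γ_smul 0 0 D.F.zero_mem 0 D.F.zero_mem
    rwa [zero_smul, zero_smul] at h0
  have h1 : ∫⁻ q, ENNReal.ofReal (D.Γ f f q) ^ (((d : ℝ) + 1) / 2) ∂D.v =
      ∫⁻ q in H.Ψ '' Q d (H.R / 2), ENNReal.ofReal (D.Γ f f q) ^ (((d : ℝ) + 1) / 2) ∂D.v := by
    rw [← lintegral_indicator hAm]
    refine lintegral_congr fun q => ?_
    by_cases hq : q ∈ H.Ψ '' Q d (H.R / 2)
    · rw [indicator_of_mem hq]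
    · rw [indicator_of_notMem hq]
      have h2 := D.Γ_local f hfF 0 D.F.zero_mem (H.Ψ '' Q d (H.R / 2))ᶜ
        (H.isClosed_image hR2.le).isOpen_compl (fun q hq => H.pull_off _ _ hq) hq
      rw [h2, hΓ0, Pi.zero_apply, ENNReal.ofReal_zero, ENNReal.zero_rpow_of_pos hn]
  rw [h1]
  refine (H.upper_vol' hGm hR2.le).trans (mul_le_mul' le_rfl ?_)
  rw [setLIntegral_Q_eq]
  calc ∫⁻ z in Qo d (H.R / 2), ENNReal.ofReal (D.Γ f f (H.Ψ z)) ^ (((d : ℝ) + 1) / 2)
      ≤ ∫⁻ z in Qo d (H.R / 2), ENNReal.ofReal H.C ^ (((d : ℝ) + 1) / 2) *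
          ‖fderiv ℝ φ z‖ₑ ^ (d + 1) := by
        refine setLIntegral_mono' (isOpen_Qo d _).measurableSet fun z hz => ?_
        have hz' : z ∈ Qo d H.R :=
          ⟨⟨hz.1.1, hz.1.2.trans hR2⟩, Metric.ball_subset_ball hR2.le hz.2⟩
        have h3 := H.energy_upper f hfF z hz'
        have h4 : (f ∘ H.Ψ) =ᶠ[𝓝 z] φ := by
          filter_upwards [(isOpen_Qo d _).mem_nhds hz'] with w hw
          exact H.pull_apply hR2.le _ _ hcond (Qo_subset_Q _ _ hw)
        rw [h4.fderiv_eq] at h3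
        have h5 : ENNReal.ofReal (D.Γ f f (H.Ψ z)) ≤
            ENNReal.ofReal H.C * ‖fderiv ℝ φ z‖ₑ ^ 2 := by
          rw [← ofReal_norm, ← ENNReal.ofReal_pow (norm_nonneg _), ← ENNReal.ofReal_mul hC.le]
          exact ENNReal.ofReal_le_ofReal h3
        refine (ENNReal.rpow_le_rpow h5 hn.le).trans_eq ?_
        rw [ENNReal.mul_rpow_of_nonneg _ _ hn.le]
        congr 1
        rw [← ENNReal.rpow_natCast, ← ENNReal.rpow_mul, ← ENNReal.rpow_natCast]
        congr 1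
        push_cast
        ring
    _ ≤ ∫⁻ z, ENNReal.ofReal H.C ^ (((d : ℝ) + 1) / 2) * ‖fderiv ℝ φ z‖ₑ ^ (d + 1) :=
        setLIntegral_le_lintegral _ _
    _ = _ := by
        rw [lintegral_const_mul' _ _ (ENNReal.rpow_ne_top_of_nonneg hn.le ENNReal.ofReal_ne_top)]

end HalfChart

/-- Hölder's inequality for the energy. -/
lemma E_le_holder (hd : 1 ≤ d) (D : StekData d Ω) {ρ : Ω → ℝ} (hρ : D.Pos ρ) {f : Ω → ℝ}
    (hf : f ∈ D.F) :
    ENNReal.ofReal (D.E ρ f) ≤ ENNReal.ofReal (D.V ρ) ^ (((d : ℝ) - 1) / ((d : ℝ) + 1)) *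
      (∫⁻ q, ENNReal.ofReal (D.Γ f f q) ^ (((d : ℝ) + 1) / 2) ∂D.v) ^ (2 / ((d : ℝ) + 1)) := by
  have hρc := D.F_cont _ hρ.1
  have hρn : ∀ x, 0 ≤ ρ x := fun x => (hρ.2 x).le
  have hdR : (1 : ℝ) ≤ d := by exact_mod_cast hd
  rw [D.ofReal_E hρc hρn hf, D.ofReal_V hρc hρn]
  have hm1 : Measurable fun x => ENNReal.ofReal (ρ x ^ (d + 1)) :=
    (hρc.pow _).measurable.ennreal_ofReal
  have hΓm : Measurable fun q => ENNReal.ofReal (D.Γ f f q) :=
    (D.Γ_cont f hf f hf).measurable.ennreal_ofReal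
  have hm2 : Measurable fun q => ENNReal.ofReal (D.Γ f f q) ^ (((d : ℝ) + 1) / 2) :=
    hΓm.pow_const _
  have h := ENNReal.lintegral_mul_norm_pow_le (μ := D.v) hm1.aemeasurable hm2.aemeasurable
    (p := ((d : ℝ) - 1) / ((d : ℝ) + 1)) (q := 2 / ((d : ℝ) + 1))
    (div_nonneg (by linarith) (by linarith)) (by positivity)
    (by rw [← add_div]; rw [div_eq_one_iff_eq (by linarith)]; ring)
  refine le_trans (le_of_eq ?_) h
  refine lintegral_congr fun x => ?_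
  have h1 : (ENNReal.ofReal (D.Γ f f x) ^ (((d : ℝ) + 1) / 2)) ^ (2 / ((d : ℝ) + 1)) =
      ENNReal.ofReal (D.Γ f f x) := by
    rw [← ENNReal.rpow_mul]
    have : ((d : ℝ) + 1) / 2 * (2 / ((d : ℝ) + 1)) = 1 := by
      field_simp
    rw [this, ENNReal.rpow_one]
  have h2 : ENNReal.ofReal (ρ x ^ (d + 1)) ^ (((d : ℝ) - 1) / ((d : ℝ) + 1)) =
      ENNReal.ofReal (ρ x ^ (d - 1)) := by
    have hx := hρ.2 x
    rw [ENNReal.ofReal_rpow_of_pos (by positivity), ← Real.rpow_natCast, ← Real.rpow_mul hx.le,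
      ← Real.rpow_natCast]
    congr 2
    rw [Nat.cast_sub hd]
    push_cast
    field_simp
  rw [h1, h2, ← ENNReal.ofReal_mul (pow_nonneg (hρn x) _)]

/-- Functions with disjoint supports. -/
lemma NF_of_disjoint (D : StekData d Ω) {ρ : Ω → ℝ} (hρ : D.Pos ρ) {s : ℝ} {k : ℕ}
    (f : Fin (k + 1) → D.F)
    (hdis : ∀ i j, i ≠ j → ∀ x, (f i : Ω → ℝ) x * (f j : Ω → ℝ) x = 0)
    (hE : ∀ i, ((k : ℝ) + 1) * D.E ρ (f i) < s * D.M ρ (f i)) : NF D ρ s (k + 1) := by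
  have hρc := D.F_cont _ hρ.1
  have hρn : ∀ x, 0 ≤ ρ x := fun x => (hρ.2 x).le
  refine ⟨f, fun a ha => ?_⟩
  have hM : D.M ρ ((∑ i, a i • f i : D.F) : Ω → ℝ) = ∑ i, a i ^ 2 * D.M ρ (f i) := by
    rw [← D.Mb_self hρc]
    simp only [map_sum, LinearMap.sum_apply, map_smul, LinearMap.smul_apply, smul_eq_mul]
    refine Finset.sum_congr rfl fun i _ => ?_
    rw [Finset.sum_eq_single i]
    · rw [D.Mb_self hρc]; ring
    · intro j _ hne
      have : D.Mb hρc (f j) (f i) = 0 := by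
        change ∫ x, ρ x ^ d * ((f j : Ω → ℝ) x * (f i : Ω → ℝ) x) ∂D.s = 0
        simp only [hdis j i hne, mul_zero, integral_zero]
      rw [this]; ring
    · intro h; exact absurd (Finset.mem_univ _) h
  have hEs : D.E ρ ((∑ i, a i • f i : D.F) : Ω → ℝ) ≤ ((k : ℝ) + 1) * ∑ i, a i ^ 2 * D.E ρ (f i) := by
    have hcs : ∀ u w : D.F, 2 * D.Eb hρc u w ≤ D.Eb hρc u u + D.Eb hρc w w := by
      intro u w
      have h1 : 0 ≤ D.Eb hρc (u - w) (u - w) := by
        rw [D.Eb_self hρc]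
        exact D.E_nonneg hρn (u - w).2
      simp only [map_sub, LinearMap.sub_apply] at h1
      have h2 := D.Eb_symm hρc u w
      linarith
    rw [← D.Eb_self hρc]
    have h3 : ∀ i, a i ^ 2 * D.E ρ (f i) = D.Eb hρc (a i • f i) (a i • f i) := by
      intro i
      simp only [map_smul, LinearMap.smul_apply, smul_eq_mul]
      rw [D.Eb_self hρc]; ring
    simp only [h3]
    rw [map_sum]
    have h4 : ∀ i, D.Eb hρc (a i • f i) (∑ j, a j • f j) ≤
        ∑ j, (D.Eb hρc (a i • f i) (a i • f i) + D.Eb hρc (a j • f j) (a j • f j)) / 2 := by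
      intro i
      rw [map_sum]
      refine Finset.sum_le_sum fun j _ => ?_
      linarith [hcs (a i • f i) (a j • f j)]
    refine (Finset.sum_le_sum fun i _ => (D.Eb_symm hρc _ _).le.trans (h4 i)).trans_eq ?_
    set w : Fin (k + 1) → ℝ := fun i => D.Eb hρc (a i • f i) (a i • f i) with hw
    have h5 : ∀ i, ∑ j, (w i + w j) / 2 = ((k : ℝ) + 1) * w i / 2 + (∑ j, w j) / 2 := by
      intro i
      rw [← Finset.sum_div, Finset.sum_add_distrib, Finset.sum_const, Finset.card_univ,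
        Fintype.card_fin, nsmul_eq_mul]
      push_cast
      ring
    change ∑ i, ∑ j, (w i + w j) / 2 = ((k : ℝ) + 1) * ∑ i, w i
    simp only [h5]
    rw [Finset.sum_add_distrib, Finset.sum_const, Finset.card_univ, Fintype.card_fin,
      nsmul_eq_mul, ← Finset.sum_div, ← Finset.mul_sum]
    push_cast
    ring
  obtain ⟨i₀, hi₀⟩ : ∃ i, a i ≠ 0 := by
    by_contra hcon
    push Not at hcon
    exact ha (funext hcon)
  have hlt : ((k : ℝ) + 1) * ∑ i, a i ^ 2 * D.E ρ (f i) < s * ∑ i, a i ^ 2 * D.M ρ (f i) := by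
    rw [Finset.mul_sum, Finset.mul_sum]
    refine Finset.sum_lt_sum (fun i _ => ?_) ⟨i₀, Finset.mem_univ _, ?_⟩
    · have := mul_le_mul_of_nonneg_left (hE i).le (sq_nonneg (a i))
      linarith
    · have h1 : 0 < a i₀ ^ 2 := by positivity
      have := mul_lt_mul_of_pos_left (hE i₀) h1
      linarith
  simp only
  rw [hM]
  linarith

end Pool.Agent.Steklov
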