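import Mathlib
import Pool.Agent.Lib.MP_4838e0_gt.Sig

set_option autoImplicit false

universe u
set_option linter.unusedSectionVars false
set_option linter.unusedVariables false

open Set Filter Topology MeasureTheory
open scoped ENNReal ContDiff

noncomputable section

namespace Pool.Agent.Steklov

variable {d : ℕ} {Ω : Type u} [TopologicalSpace Ω] [MeasurableSpace Ω]
  [BorelSpace Ω] [T2Space Ω] [CompactSpace Ω]

variable {D : StekData d Ω} {S : Set Ω}

/-- The strict inequality, when the conformal eigenvalue is positive and finite. -/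
theorem conf_lt (hd : 1 ≤ d) (hS : Bdry D S) {k : ℕ} (h0 : 0 < D.conf S k)
    (hfin : D.conf S k ≠ ⊤) : D.conf S k < D.conf S (k + 1) := by
  obtain ⟨p₀, hp₀⟩ := hS.nonempty
  obtain ⟨H, rfl⟩ := hS.chart p₀ hp₀
  have hc := H.c_pos
  have hC := H.C_pos
  have hK := Kd_pos d
  set A : ℝ := (D.conf S k).toReal with hA
  have hA0 : 0 < A := ENNReal.toReal_pos h0.ne' hfin
  have hAe : D.conf S k = ENNReal.ofReal A := (ENNReal.ofReal_toReal hfin).symm
  set CV : ℝ := 4 ^ (d + 1) * H.C with hCV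
  have hCV0 : 0 < CV := by positivity
  set CL : ℝ := H.c ^ 3 / (H.C * Kd d) with hCL
  have hCL0 : 0 < CL := by positivity
  have hdR : (1 : ℝ) ≤ d := by exact_mod_cast hd
  set q : ℝ := (1 - (d : ℝ)) / ((d : ℝ) + 1) with hq
  have hq0 : q ≤ 0 := div_nonpos_of_nonpos_of_nonneg (by linarith) (by linarith)
  have hq1 : -1 ≤ q := by
    rw [hq, le_div_iff₀ (by linarith)]
    linarith
  -- choice of `τ`
  set τ : ℝ := Real.sqrt (CL / (2 * (A * CV))) with hτ
  have hτ0 : 0 < τ := Real.sqrt_pos.2 (by positivity)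
  have hτ2 : τ ^ 2 = CL / (2 * (A * CV)) := Real.sq_sqrt (by positivity)
  have hgain : A * (1 + CV * τ ^ (d + 1)) < A + CL * τ ^ (d - 1) := by
    obtain ⟨e, rfl⟩ : ∃ e, d = e + 1 := ⟨d - 1, by omega⟩
    have h1 : A * (CV * τ ^ (e + 1 + 1)) = CL / 2 * τ ^ e := by
      calc A * (CV * τ ^ (e + 1 + 1)) = A * CV * τ ^ 2 * τ ^ e := by ring
        _ = CL / 2 * τ ^ e := by
          rw [hτ2]; field_simp
    have h2 : 0 < CL * τ ^ e := by positivity
    simp only [Nat.add_sub_cancel]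
    nlinarith
  set Z : ℝ := 1 + CV * τ ^ (d + 1) with hZ
  have hZ1 : 1 ≤ Z := by
    have : 0 < CV * τ ^ (d + 1) := by positivity
    linarith
  -- slack
  obtain ⟨A', hA'0, hA'A, hA'⟩ : ∃ A', 0 < A' ∧ A' < A ∧ A * Z < A' + CL * τ ^ (d - 1) := by
    refine ⟨A - min (A / 2) ((A + CL * τ ^ (d - 1) - A * Z) / 2), ?_, ?_, ?_⟩
    · have := min_le_left (A / 2) ((A + CL * τ ^ (d - 1) - A * Z) / 2)
      linarith
    · have : 0 < min (A / 2) ((A + CL * τ ^ (d - 1) - A * Z) / 2) :=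
        lt_min (by linarith) (by linarith)
      linarith
    · have := min_le_right (A / 2) ((A + CL * τ ^ (d - 1) - A * Z) / 2)
      linarith
  obtain ⟨ρ₀, hρ₀, hlt⟩ : ∃ ρ₀, D.Pos ρ₀ ∧ ENNReal.ofReal A' < D.sigBar S ρ₀ k := by
    have h1 : ENNReal.ofReal A' < D.conf S k := by
      rw [hAe]
      exact (ENNReal.ofReal_lt_ofReal_iff hA0).2 hA'A
    unfold StekData.conf at h1
    obtain ⟨ρ₀, h2⟩ := lt_iSup_iff.1 h1
    obtain ⟨h3, h4⟩ := lt_iSup_iff.1 h2
    exact ⟨ρ₀, h3, h4⟩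
  have hρc := D.F_cont _ hρ₀.1
  have hV0 := H.V_pos hρc hρ₀.2
  have hL0 := H.L_pos hρc hρ₀.2
  set V₀ := D.V ρ₀ with hV₀
  set L₀ := D.L ρ₀ with hL₀
  have hVq : 0 < V₀ ^ q := Real.rpow_pos_of_pos hV0 q
  set X₀ : ℝ := V₀ ^ q * L₀ with hX₀
  have hX0 : 0 < X₀ := by positivity
  have hsb : D.sigBar S ρ₀ k = D.sig S ρ₀ k * ENNReal.ofReal X₀ := by
    unfold StekData.sigBar
    rw [← hV₀, ← hL₀, ← hq, ENNReal.ofReal_rpow_of_pos hV0, mul_assoc,
      ← ENNReal.ofReal_mul hVq.le]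
  obtain ⟨s', hs'0, hs'X, hs'⟩ : ∃ s' : ℝ, 0 < s' ∧ A' < s' * X₀ ∧
      ENNReal.ofReal s' < D.sig S ρ₀ k := by
    have h1 : ENNReal.ofReal (A' / X₀) < D.sig S ρ₀ k := by
      rw [ENNReal.ofReal_div_of_pos hX0]
      refine ENNReal.div_lt_of_lt_mul ?_
      rwa [← hsb]
    obtain ⟨s', h2, h3, h4⟩ := ENNReal.lt_iff_exists_real_btwn.1 h1
    have h5 : A' / X₀ < s' := by
      by_contra hcon
      push Not at hcon
      exact absurd (ENNReal.ofReal_le_ofReal hcon) (not_le.2 h3)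
    have h6 : 0 < A' / X₀ := by positivity
    refine ⟨s', h6.trans h5, ?_, h4⟩
    rwa [div_lt_iff₀ hX0] at h5
  have hNF : ¬ NF D ρ₀ s' (k + 1) := not_NF_of_lt hS hρ₀ hs'0.le hs'
  -- the limit
  set Y₀ : ℝ := L₀ + CL * τ ^ (d - 1) * V₀ ^ (-q) / s' with hY₀
  have hY0 : 0 < Y₀ := by positivity
  set g : ℝ → ℝ := fun t => (s' - t) * (V₀ * Z + t) ^ q * Y₀ with hg
  have hg0 : A < g 0 := by
    have h1 : g 0 = Z ^ q * (s' * X₀ + CL * τ ^ (d - 1)) := by
      simp only [hg, sub_zero, add_zero]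
      rw [Real.mul_rpow hV0.le (by linarith), hY₀, hX₀]
      have h2 : V₀ ^ q * V₀ ^ (-q) = 1 := by
        rw [← Real.rpow_add hV0, add_neg_cancel, Real.rpow_zero]
      calc s' * (V₀ ^ q * Z ^ q) * (L₀ + CL * τ ^ (d - 1) * V₀ ^ (-q) / s')
          = Z ^ q * (s' * (V₀ ^ q * L₀) + CL * τ ^ (d - 1) * (V₀ ^ q * V₀ ^ (-q))) := by
            field_simp
        _ = _ := by rw [h2, mul_one]
    rw [h1]
    have h3 : Z⁻¹ ≤ Z ^ q := by
      rw [← Real.rpow_neg_one]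
      exact Real.rpow_le_rpow_of_exponent_le hZ1 hq1
    have h4 : 0 < s' * X₀ + CL * τ ^ (d - 1) := by positivity
    calc A < Z⁻¹ * (A' + CL * τ ^ (d - 1)) := by
          rw [inv_mul_eq_div, lt_div_iff₀ (by linarith)]
          exact hA'
      _ ≤ Z⁻¹ * (s' * X₀ + CL * τ ^ (d - 1)) := by
          refine mul_le_mul_of_nonneg_left (by linarith) (inv_nonneg.2 (by linarith))
      _ ≤ Z ^ q * (s' * X₀ + CL * τ ^ (d - 1)) := mul_le_mul_of_nonneg_right h3 h4.le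
  have hgc : ContinuousAt g 0 := by
    have h1 : ContinuousAt (fun t : ℝ => (V₀ * Z + t) ^ q) 0 := by
      refine ContinuousAt.rpow_const (by fun_prop) (Or.inl ?_)
      have : 0 < V₀ * Z := mul_pos hV0 (by linarith)
      rw [add_zero]
      exact this.ne'
    exact ((continuousAt_const.sub continuousAt_id).mul h1).mul continuousAt_const
  obtain ⟨t, ht0, hts, htg⟩ : ∃ t, 0 < t ∧ t < s' ∧ A < g t := by
    have h1 : ∀ᶠ t in 𝓝 (0 : ℝ), A < g t := hgc.eventually (lt_mem_nhds hg0)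
    obtain ⟨ε, hε, hball⟩ := Metric.eventually_nhds_iff.1 h1
    refine ⟨min (ε / 2) (s' / 2), lt_min (by linarith) (by linarith), ?_, ?_⟩
    · exact (min_le_right _ _).trans_lt (by linarith)
    · apply hball
      rw [Real.dist_eq, sub_zero, abs_of_pos (lt_min (by linarith) (by linarith))]
      exact (min_le_left _ _).trans_lt (by linarith)
  -- glue
  have hd1 : (0 : ℝ) < (d : ℝ) + 1 := by linarith
  set τ' : ℝ := τ * V₀ ^ (((d : ℝ) + 1)⁻¹) with hτ'
  have hτ'0 : 0 < τ' := by positivity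
  have hτ'1 : τ' ^ (d + 1) = τ ^ (d + 1) * V₀ := by
    rw [hτ', mul_pow]
    congr 1
    rw [← Real.rpow_natCast, ← Real.rpow_mul hV0.le]
    push_cast
    rw [inv_mul_cancel₀ hd1.ne', Real.rpow_one]
  have hτ'2 : τ' ^ (d - 1) = τ ^ (d - 1) * V₀ ^ (-q) := by
    rw [hτ', mul_pow]
    congr 1
    rw [← Real.rpow_natCast, ← Real.rpow_mul hV0.le]
    congr 1
    rw [hq, Nat.cast_sub hd]
    push_cast
    rw [inv_mul_eq_div, ← neg_div]
    congr 1
    ring
  obtain ⟨ρ, hρP, hρNF, hρV, hρL⟩ := glue hd H hρ₀ k (s := s' - t) (s' := s') (by linarith)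
    (by linarith) hNF hτ'0 ht0
  have hVρ := H.V_pos (D.F_cont _ hρP.1) hρP.2
  have hLρ := H.L_pos (D.F_cont _ hρP.1) hρP.2
  have hV1 : D.V ρ ≤ V₀ * Z + t := by
    refine hρV.trans (le_of_eq ?_)
    rw [hτ'1, hZ]
    ring
  have hL1 : Y₀ ≤ D.L ρ := by
    refine le_trans (le_of_eq ?_) hρL
    rw [hτ'2, hY₀]
    ring
  have hsig := sig_ge hS hρP (s := s' - t) (by linarith) hρNF
  have hbar : ENNReal.ofReal (g t) ≤ D.sigBar S ρ (k + 1) := by
    unfold StekData.sigBar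
    rw [← hq, ENNReal.ofReal_rpow_of_pos hVρ]
    have h1 : (V₀ * Z + t) ^ q ≤ D.V ρ ^ q := Real.rpow_le_rpow_of_nonpos hVρ hV1 hq0
    have h2 : 0 < V₀ * Z + t := hVρ.trans_le hV1
    simp only [hg]
    rw [ENNReal.ofReal_mul (mul_nonneg (by linarith) (Real.rpow_pos_of_pos h2 q).le),
      ENNReal.ofReal_mul (by linarith)]
    exact mul_le_mul' (mul_le_mul' hsig (ENNReal.ofReal_le_ofReal h1))
      (ENNReal.ofReal_le_ofReal hL1)
  rw [hAe]
  refine lt_of_lt_of_le ((ENNReal.ofReal_lt_ofReal_iff (hA0.trans htg)).2 htg) (hbar.trans ?_)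
  unfold StekData.conf
  exact le_iSup₂_of_le ρ hρP le_rfl

end Pool.Agent.Steklov
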