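import Mathlib
import Pool.Agent.Lib.MP_4838e0_gt.Opt

set_option autoImplicit false

universe u
set_option linter.unusedSectionVars false
set_option linter.unusedVariables false

open Set Filter Topology MeasureTheory
open scoped ENNReal ContDiff

noncomputable section

namespace Pool.Agent.Steklov

variable {d : ℕ} {Ω : Type u} [TopologicalSpace Ω] [MeasurableSpace Ω]
  [BorelSpace Ω] [T2Space Ω] [CompactSpace Ω]

/-- Standing hypotheses: half charts at the points of `S`, box charts elsewhere. -/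
structure Atlas (D : StekData d Ω) (S : Set Ω) : Prop extends Bdry D S where
  closed : IsClosed S
  box : ∀ p ∉ S, ∃ H : BoxChart D, H.Ψ 0 = p

variable {D : StekData d Ω} {S : Set Ω}

/-- A Poincaré inequality holds on `U` (for the volume and for the boundary measure). -/
def Good (D : StekData d Ω) (U : Set Ω) : Prop :=
  ∃ C : ℝ≥0∞, C ≠ ⊤ ∧ ∀ f ∈ D.F, ∃ c : ℝ,
    ∫⁻ x in U, ‖f x - c‖ₑ ^ 2 ∂D.v ≤ C * ENNReal.ofReal (D.E (fun _ => 1) f) ∧
    ∫⁻ x in U, ‖f x - c‖ₑ ^ 2 ∂D.s ≤ C * ENNReal.ofReal (D.E (fun _ => 1) f)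

lemma Good.mono {U U' : Set Ω} (h : Good D U) (hU : U' ⊆ U) : Good D U' := by
  obtain ⟨C, hC, h⟩ := h
  refine ⟨C, hC, fun f hf => ?_⟩
  obtain ⟨c, h1, h2⟩ := h f hf
  exact ⟨c, (lintegral_mono_set hU).trans h1, (lintegral_mono_set hU).trans h2⟩

/-- Poincaré inequality on an open convex set. -/
lemma poincare_one {K : Set (ℝ × (Fin d → ℝ))} (hKc : Convex ℝ K) (hKo : IsOpen K)
    (hKb : Bornology.IsBounded K) (hKn : K.Nonempty) :
    ∃ C : ℝ≥0∞, C ≠ ⊤ ∧ ∀ u : ℝ × (Fin d → ℝ) → ℝ, ContDiffOn ℝ 1 u K →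
      IntegrableOn u K → ∃ c : ℝ,
        ∫⁻ z in K, ‖u z - c‖ₑ ^ 2 ≤ C * ∫⁻ z in K, ‖fderiv ℝ u z‖ₑ ^ 2 := by
  obtain ⟨l, hl⟩ := Metric.isBounded_iff.1 hKb
  have hν0 : volume K ≠ 0 := (hKo.measure_pos volume hKn).ne'
  have hνt : volume K ≠ ⊤ := hKb.measure_lt_top.ne
  refine ⟨(volume K)⁻¹ * (ENNReal.ofReal (l ^ 2) * (2 ^ Module.finrank ℝ (ℝ × (Fin d → ℝ)) *
    volume K)), ?_, fun u hu hui => ?_⟩
  · refine ENNReal.mul_ne_top (ENNReal.inv_ne_top.2 hν0) (ENNReal.mul_ne_top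
      ENNReal.ofReal_ne_top (ENNReal.mul_ne_top (by simp) hνt))
  · have hν : volume.restrict K = (volume.restrict K).withDensity
        (fun _ : ℝ × (Fin d → ℝ) => (1 : ℝ≥0∞)) := withDensity_one.symm
    have : IsFiniteMeasure (volume.restrict K) :=
      ⟨by rw [Measure.restrict_apply_univ]; exact hKb.measure_lt_top⟩
    have h1 := poincare_mean (volume : Measure (ℝ × (Fin d → ℝ))) hKc hKo (l := l)
      (fun x hx y hy => by rw [← dist_eq_norm]; exact hl hx hy) hu (w := fun _ => 1)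
      measurable_const (fun _ _ _ _ _ _ => by simp) (volume.restrict K) hν
      (by rwa [Measure.restrict_apply_univ]) hui
    refine ⟨⨍ y in K, u y, ?_⟩
    simp only [one_mul, Measure.restrict_apply_univ] at h1
    refine h1.trans_eq ?_
    ring

lemma HalfChart.good (H : HalfChart D) :
    Good D (H.Ψ '' (Ico 0 H.R ×ˢ Metric.ball 0 H.R)) := by
  have hR := H.R_pos
  have hc := H.c_pos
  obtain ⟨K, hK, hP⟩ := poincare_one (d := d) (K := Qo d H.R)
    ((convex_Ioo 0 H.R).prod (convex_ball 0 H.R)) (isOpen_Qo d H.R)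
    ((isCompact_Qd d H.R).isBounded.subset (Qo_subset_Q d H.R))
    ⟨(H.R / 2, 0), ⟨by simp only [mem_Ioo]; constructor <;> linarith, by simpa using hR⟩⟩
  set c' : ℝ≥0∞ := ENNReal.ofReal ((H.c ^ 2)⁻¹) with hc'
  -- energy
  have hen : ∀ f ∈ D.F, ∫⁻ z in Qo d H.R, ‖fderiv ℝ (f ∘ H.Ψ) z‖ₑ ^ 2 ≤
      c' * ENNReal.ofReal (D.E (fun _ => 1) f) := by
    intro f hf
    have h1 := H.enL_le_E hf (ρ := fun _ => 1) continuous_const (m := 1) zero_le_one
      (fun _ => le_rfl)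
    rw [one_pow, mul_one] at h1
    have h2 := mul_le_mul' (le_refl c') h1
    rw [← mul_assoc, hc', ← ENNReal.ofReal_mul (by positivity),
      inv_mul_cancel₀ (by positivity), ENNReal.ofReal_one, one_mul] at h2
    rw [← setLIntegral_Q_eq]
    exact h2
  have hint : ∀ f ∈ D.F, IntegrableOn (f ∘ H.Ψ) (Qo d H.R) := by
    intro f hf
    have h1 : IntegrableOn (f ∘ H.Ψ) (Q d H.R) :=
      ((D.F_cont f hf).comp_continuousOn H.cont).integrableOn_compact (isCompact_Qd d H.R)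
    exact h1.mono_set (Qo_subset_Q d H.R)
  refine ⟨(ENNReal.ofReal H.C * (K * c')) + ENNReal.ofReal H.C * (2 * ENNReal.ofReal H.R * c' +
    ENNReal.ofReal (4 / H.R) * (K * c')), ?_, fun f hf => ?_⟩
  · refine ENNReal.add_ne_top.2 ⟨?_, ?_⟩
    · exact ENNReal.mul_ne_top ENNReal.ofReal_ne_top (ENNReal.mul_ne_top hK ENNReal.ofReal_ne_top)
    · refine ENNReal.mul_ne_top ENNReal.ofReal_ne_top (ENNReal.add_ne_top.2 ⟨?_, ?_⟩)
      · exact ENNReal.mul_ne_top (ENNReal.mul_ne_top (by norm_num) ENNReal.ofReal_ne_top)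
          ENNReal.ofReal_ne_top
      · exact ENNReal.mul_ne_top ENNReal.ofReal_ne_top
          (ENNReal.mul_ne_top hK ENNReal.ofReal_ne_top)
  have hu := H.c1 hf
  obtain ⟨c, hcP⟩ := hP (f ∘ H.Ψ) (ContDiffOn.mono hu (Qo_subset_Q d H.R)) (hint f hf)
  have hfc := D.F_cont f hf
  have hGm : Measurable fun x => ‖f x - c‖ₑ ^ 2 := by
    exact ((hfc.measurable.sub_const c).enorm).pow_const 2
  have hE1 : ∫⁻ z in Qo d H.R, ‖(f ∘ H.Ψ) z - c‖ₑ ^ 2 ≤
      K * c' * ENNReal.ofReal (D.E (fun _ => 1) f) := by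
    refine hcP.trans ?_
    rw [mul_assoc]
    exact mul_le_mul' le_rfl (hen f hf)
  have hsub : H.Ψ '' (Ico 0 H.R ×ˢ Metric.ball 0 H.R) ⊆ H.Ψ '' Q d H.R :=
    image_mono (prod_mono Ico_subset_Icc_self Metric.ball_subset_closedBall)
  refine ⟨c, ?_, ?_⟩
  · calc ∫⁻ x in H.Ψ '' (Ico 0 H.R ×ˢ Metric.ball 0 H.R), ‖f x - c‖ₑ ^ 2 ∂D.v
        ≤ ∫⁻ x in H.Ψ '' Q d H.R, ‖f x - c‖ₑ ^ 2 ∂D.v := lintegral_mono_set hsub
      _ ≤ ENNReal.ofReal H.C * ∫⁻ z in Q d H.R, ‖f (H.Ψ z) - c‖ₑ ^ 2 := H.upper_vol hGm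
      _ ≤ ENNReal.ofReal H.C * (K * c' * ENNReal.ofReal (D.E (fun _ => 1) f)) := by
          rw [setLIntegral_Q_eq]
          exact mul_le_mul' le_rfl hE1
      _ = ENNReal.ofReal H.C * (K * c') * ENNReal.ofReal (D.E (fun _ => 1) f) := by ring
      _ ≤ _ := mul_le_mul' le_self_add le_rfl
  · have hball : (Metric.closedBall (0 : Fin d → ℝ) H.R) =ᵐ[volume] Metric.ball 0 H.R := by
      rw [← Metric.ball_union_sphere]
      exact union_ae_eq_left_of_ae_eq_empty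
        (ae_eq_empty.2 (Measure.addHaar_sphere_of_ne_zero _ _ hR.ne'))
    have h3 := trace_split hu (T := H.R) (ϱ := H.R) hR le_rfl le_rfl (fun _ => 1)
      measurable_const (fun _ _ => one_pos) (fun _ => 1) measurable_const c
    simp only [one_mul, div_one, ENNReal.ofReal_one, setLIntegral_const, Real.volume_Icc,
      sub_zero] at h3
    have h4 : ∫⁻ z in Bx d 0 H.R H.R, ‖fderiv ℝ (f ∘ H.Ψ) z‖ₑ ^ 2 ≤
        c' * ENNReal.ofReal (D.E (fun _ => 1) f) :=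
      (lintegral_mono_set (Bx_subset_Qo le_rfl le_rfl le_rfl)).trans (hen f hf)
    have h5 : ∫⁻ z in Bx d (H.R / 2) H.R H.R, ‖(f ∘ H.Ψ) z - c‖ₑ ^ 2 ≤
        K * c' * ENNReal.ofReal (D.E (fun _ => 1) f) :=
      (lintegral_mono_set (Bx_subset_Qo (by positivity) le_rfl le_rfl)).trans hE1
    calc ∫⁻ x in H.Ψ '' (Ico 0 H.R ×ˢ Metric.ball 0 H.R), ‖f x - c‖ₑ ^ 2 ∂D.s
        ≤ ∫⁻ x in H.Ψ '' Q d H.R, ‖f x - c‖ₑ ^ 2 ∂D.s := lintegral_mono_set hsub
      _ ≤ ENNReal.ofReal H.C * ∫⁻ x in Metric.closedBall 0 H.R, ‖f (H.Ψ (0, x)) - c‖ₑ ^ 2 :=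
          H.upper_bd hGm
      _ ≤ ENNReal.ofReal H.C * (2 * ENNReal.ofReal H.R *
            (c' * ENNReal.ofReal (D.E (fun _ => 1) f)) + ENNReal.ofReal (4 / H.R) *
            (K * c' * ENNReal.ofReal (D.E (fun _ => 1) f))) := by
          rw [setLIntegral_congr hball]
          refine mul_le_mul' le_rfl (h3.trans ?_)
          exact add_le_add (mul_le_mul' le_rfl h4) (mul_le_mul' le_rfl h5)
      _ = ENNReal.ofReal H.C * (2 * ENNReal.ofReal H.R * c' +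
            ENNReal.ofReal (4 / H.R) * (K * c')) * ENNReal.ofReal (D.E (fun _ => 1) f) := by ring
      _ ≤ _ := mul_le_mul' le_add_self le_rfl

lemma BoxChart.good (H : BoxChart D) (hS : Bdry D S) :
    Good D (H.Ψ '' Metric.ball 0 H.R ∩ Sᶜ) := by
  have hR := H.R_pos
  have hc := H.c_pos
  set B : Set (ℝ × (Fin d → ℝ)) := Metric.ball 0 H.R with hB
  set Bc : Set (ℝ × (Fin d → ℝ)) := Metric.closedBall 0 H.R with hBc
  have hBm : MeasurableSet B := Metric.isOpen_ball.measurableSet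
  have hBcm : MeasurableSet Bc := Metric.isClosed_closedBall.measurableSet
  have hae : (Bc : Set (ℝ × (Fin d → ℝ))) =ᵐ[volume] B := by
    rw [hBc, hB, ← Metric.ball_union_sphere]
    exact union_ae_eq_left_of_ae_eq_empty
      (ae_eq_empty.2 (Measure.addHaar_sphere_of_ne_zero _ _ hR.ne'))
  obtain ⟨K, hK, hP⟩ := poincare_one (d := d) (K := B)
    (convex_ball 0 H.R) Metric.isOpen_ball Metric.isBounded_ball ⟨0, by simpa [hB] using hR⟩
  have hΨm : AEMeasurable H.Ψ (volume.restrict Bc) := H.cont.aemeasurable hBcm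
  set c' : ℝ≥0∞ := ENNReal.ofReal ((H.c ^ 2)⁻¹) with hc'
  have hen : ∀ f ∈ D.F, ∫⁻ z in B, ‖fderiv ℝ (f ∘ H.Ψ) z‖ₑ ^ 2 ≤
      c' * ENNReal.ofReal (D.E (fun _ => 1) f) := by
    intro f hf
    have hm : Measurable fun q => ENNReal.ofReal (D.Γ f f q) :=
      (D.Γ_cont f hf f hf).measurable.ennreal_ofReal
    have h0 := lintegral_mono' H.vol_lower (le_refl fun q => ENNReal.ofReal (D.Γ f f q))
    rw [lintegral_smul_measure, lintegral_map' hm.aemeasurable hΨm, smul_eq_mul] at h0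
    have hEe : ENNReal.ofReal (D.E (fun _ => 1) f) = ∫⁻ q, ENNReal.ofReal (D.Γ f f q) ∂D.v := by
      rw [D.ofReal_E continuous_const (fun _ => zero_le_one) hf]
      simp
    rw [← hEe] at h0
    have h1 : ENNReal.ofReal H.c * ∫⁻ z in B, ‖fderiv ℝ (f ∘ H.Ψ) z‖ₑ ^ 2 ≤
        ∫⁻ z in Bc, ENNReal.ofReal (D.Γ f f (H.Ψ z)) := by
      rw [setLIntegral_congr hae, ← lintegral_const_mul' _ _ ENNReal.ofReal_ne_top]
      refine setLIntegral_mono' hBm fun z hz => ?_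
      rw [← ofReal_norm, ← ENNReal.ofReal_pow (norm_nonneg _), ← ENNReal.ofReal_mul hc.le]
      exact ENNReal.ofReal_le_ofReal (H.energy_lower f hf z hz)
    calc ∫⁻ z in B, ‖fderiv ℝ (f ∘ H.Ψ) z‖ₑ ^ 2
        = c' * (ENNReal.ofReal H.c * (ENNReal.ofReal H.c *
          ∫⁻ z in B, ‖fderiv ℝ (f ∘ H.Ψ) z‖ₑ ^ 2)) := by
          rw [← mul_assoc (ENNReal.ofReal H.c), ← ENNReal.ofReal_mul hc.le, ← mul_assoc, hc',
            ← ENNReal.ofReal_mul (by positivity), ← sq, inv_mul_cancel₀ (by positivity),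
            ENNReal.ofReal_one, one_mul]
      _ ≤ c' * ENNReal.ofReal (D.E (fun _ => 1) f) :=
          mul_le_mul' le_rfl ((mul_le_mul' le_rfl h1).trans h0)
  refine ⟨ENNReal.ofReal H.C * (K * c'), ?_, fun f hf => ?_⟩
  · exact ENNReal.mul_ne_top ENNReal.ofReal_ne_top (ENNReal.mul_ne_top hK ENNReal.ofReal_ne_top)
  have hfc := D.F_cont f hf
  have hint : IntegrableOn (f ∘ H.Ψ) B := by
    have h1 : IntegrableOn (f ∘ H.Ψ) Bc :=
      (hfc.comp_continuousOn H.cont).integrableOn_compact (isCompact_closedBall _ _)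
    exact h1.mono_set Metric.ball_subset_closedBall
  have hu : ContDiffOn ℝ 1 (f ∘ H.Ψ) B :=
    ((H.restr f hf).of_le (by simp)).mono Metric.ball_subset_closedBall
  obtain ⟨c, hcP⟩ := hP (f ∘ H.Ψ) hu hint
  have hGm : Measurable fun x => ‖f x - c‖ₑ ^ 2 := by
    exact ((hfc.measurable.sub_const c).enorm).pow_const 2
  refine ⟨c, ?_, ?_⟩
  · have h0 := lintegral_mono' H.vol_upper (le_refl fun x => ‖f x - c‖ₑ ^ 2)
    rw [lintegral_smul_measure, lintegral_map' hGm.aemeasurable hΨm, smul_eq_mul] at h0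
    calc ∫⁻ x in H.Ψ '' B ∩ Sᶜ, ‖f x - c‖ₑ ^ 2 ∂D.v
        ≤ ∫⁻ x in H.Ψ '' Bc, ‖f x - c‖ₑ ^ 2 ∂D.v :=
          lintegral_mono_set (inter_subset_left.trans (image_mono Metric.ball_subset_closedBall))
      _ ≤ ENNReal.ofReal H.C * ∫⁻ z in Bc, ‖f (H.Ψ z) - c‖ₑ ^ 2 := h0
      _ ≤ ENNReal.ofReal H.C * (K * (c' * ENNReal.ofReal (D.E (fun _ => 1) f))) := by
          rw [setLIntegral_congr hae]
          exact mul_le_mul' le_rfl (hcP.trans (mul_le_mul' le_rfl (hen f hf)))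
      _ = _ := by ring
  · have h0 : ∫⁻ x in H.Ψ '' B ∩ Sᶜ, ‖f x - c‖ₑ ^ 2 ∂D.s ≤
        ∫⁻ x in Sᶜ, ‖f x - c‖ₑ ^ 2 ∂D.s := lintegral_mono_set inter_subset_right
    rw [Measure.restrict_eq_zero.2 hS.null, lintegral_zero_measure] at h0
    exact h0.trans zero_le

/-- Nonempty open sets have positive volume. -/
lemma Atlas.v_pos (hA : Atlas D S) {W : Set Ω} (hW : IsOpen W) (hne : W.Nonempty) :
    0 < D.v W := by
  have key : ∀ (Ψ : ℝ × (Fin d → ℝ) → Ω) (K U : Set (ℝ × (Fin d → ℝ))) (c : ℝ), 0 < c →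
      MeasurableSet K → ContinuousOn Ψ K → IsOpen U → U ⊆ K → (U ∩ Ψ ⁻¹' W).Nonempty →
      ENNReal.ofReal c • ((volume : Measure (ℝ × (Fin d → ℝ))).restrict K).map Ψ ≤ D.v →
      0 < D.v W := by
    intro Ψ K U c hc hKm hΨ hU hUK hne hle
    have h1 : IsOpen (U ∩ Ψ ⁻¹' W) := (hΨ.mono hUK).isOpen_inter_preimage hU hW
    have h2 : 0 < volume (U ∩ Ψ ⁻¹' W) := h1.measure_pos volume hne
    refine lt_of_lt_of_le ?_ (hle W)
    rw [Measure.smul_apply, smul_eq_mul, Measure.map_apply_of_aemeasurable (hΨ.aemeasurable hKm)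
      hW.measurableSet]
    refine ENNReal.mul_pos ?_ ?_
    · rw [Ne, ENNReal.ofReal_eq_zero, not_le]; exact hc
    · refine (lt_of_lt_of_le h2 ?_).ne'
      rw [Measure.restrict_apply' hKm]
      exact measure_mono fun z hz => ⟨hz.2, hUK hz.1⟩
  obtain ⟨p, hp⟩ := hne
  by_cases hpS : p ∈ S
  · obtain ⟨H, rfl⟩ := hA.chart p hpS
    have hR := H.R_pos
    refine key H.Ψ (Q d H.R) (Qo d H.R) H.c H.c_pos (measurableSet_Q _ _) H.cont
      (isOpen_Qo _ _) (Qo_subset_Q _ _) ?_ H.vol_lower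
    have h0 : (0 : ℝ × (Fin d → ℝ)) ∈ Q d H.R := ⟨⟨le_rfl, hR.le⟩, by simpa using hR.le⟩
    have h1 : H.Ψ ⁻¹' W ∈ 𝓝[Q d H.R] (0 : ℝ × (Fin d → ℝ)) := (H.cont 0 h0) (hW.mem_nhds hp)
    obtain ⟨ε, hε, hball⟩ := Metric.mem_nhdsWithin_iff.1 h1
    have h2 : ((min (ε / 2) (H.R / 2), 0) : ℝ × (Fin d → ℝ)) ∈ Qo d H.R := by
      refine ⟨⟨lt_min (by linarith) (by linarith), ?_⟩, by simpa using hR⟩
      exact (min_le_right _ _).trans_lt (by linarith)
    refine ⟨_, h2, hball ⟨?_, Qo_subset_Q _ _ h2⟩⟩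
    rw [mem_ball_zero_iff, Prod.norm_def]
    simp only [norm_zero]
    refine max_lt ?_ hε
    rw [Real.norm_eq_abs, abs_of_pos h2.1.1]
    exact (min_le_left _ _).trans_lt (by linarith)
  · obtain ⟨H, rfl⟩ := hA.box p hpS
    have hR := H.R_pos
    refine key H.Ψ (Metric.closedBall 0 H.R) (Metric.ball 0 H.R) H.c H.c_pos
      Metric.isClosed_closedBall.measurableSet H.cont
      Metric.isOpen_ball Metric.ball_subset_closedBall ?_ H.vol_lower
    exact ⟨0, by simpa using hR, hp⟩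

/-- Gluing of Poincaré inequalities. -/
lemma Good.union (hA : Atlas D S) {U U' : Set Ω} (hU : Good D U) (hU' : Good D U')
    (hUo : IsOpen U) (hUo' : IsOpen U') (hne : (U ∩ U').Nonempty) : Good D (U ∪ U') := by
  have hvf := D.isFinite_v
  have hsf := D.isFinite_s
  obtain ⟨C, hC, h⟩ := hU
  obtain ⟨C', hC', h'⟩ := hU'
  set W := U ∩ U' with hW
  have hWo : IsOpen W := hUo.inter hUo'
  have hWp : D.v W ≠ 0 := (hA.v_pos hWo hne).ne'
  have hWt : D.v W ≠ ⊤ := measure_ne_top _ _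
  -- constant: `C + 2 C' + 2 (v W)⁻¹ (2 C + 2 C') (v univ + s univ)`
  set N : ℝ≥0∞ := D.v univ + D.s univ with hN
  have hNt : N ≠ ⊤ := ENNReal.add_ne_top.2 ⟨D.v_fin, D.s_fin⟩
  set Z : ℝ≥0∞ := (D.v W)⁻¹ * (2 * C + 2 * C') with hZ
  have hZt : Z ≠ ⊤ := ENNReal.mul_ne_top (ENNReal.inv_ne_top.2 hWp)
    (ENNReal.add_ne_top.2 ⟨ENNReal.mul_ne_top (by norm_num) hC,
      ENNReal.mul_ne_top (by norm_num) hC'⟩)
  refine ⟨C + (2 * C' + 2 * (Z * N)), ?_, fun f hf => ?_⟩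
  · exact ENNReal.add_ne_top.2 ⟨hC, ENNReal.add_ne_top.2
      ⟨ENNReal.mul_ne_top (by norm_num) hC', ENNReal.mul_ne_top (by norm_num)
        (ENNReal.mul_ne_top hZt hNt)⟩⟩
  obtain ⟨c, hv, hs⟩ := h f hf
  obtain ⟨c', hv', hs'⟩ := h' f hf
  have hfc := D.F_cont f hf
  set e := ENNReal.ofReal (D.E (fun _ => 1) f) with he
  have hGm : ∀ c : ℝ, Measurable fun x => ‖f x - c‖ₑ ^ 2 := fun c =>
    ((hfc.measurable.sub_const c).enorm).pow_const 2
  -- compare the constants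
  have hcc : ‖c - c'‖ₑ ^ 2 ≤ Z * e := by
    have h1 : D.v W * ‖c - c'‖ₑ ^ 2 ≤ (2 * C + 2 * C') * e := by
      calc D.v W * ‖c - c'‖ₑ ^ 2 = ∫⁻ x in W, ‖c - c'‖ₑ ^ 2 ∂D.v := by
            rw [setLIntegral_const, mul_comm]
        _ ≤ ∫⁻ x in W, (2 * ‖f x - c‖ₑ ^ 2 + 2 * ‖f x - c'‖ₑ ^ 2) ∂D.v :=
            lintegral_mono fun x => enorm_sub_sq_le _ _ _
        _ = 2 * (∫⁻ x in W, ‖f x - c‖ₑ ^ 2 ∂D.v) + 2 * ∫⁻ x in W, ‖f x - c'‖ₑ ^ 2 ∂D.v := by
            rw [lintegral_add_left ((hGm c).const_mul 2), lintegral_const_mul _ (hGm c),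
              lintegral_const_mul _ (hGm c')]
        _ ≤ 2 * (C * e) + 2 * (C' * e) := by
            refine add_le_add (mul_le_mul' le_rfl ?_) (mul_le_mul' le_rfl ?_)
            · exact (lintegral_mono_set inter_subset_left).trans hv
            · exact (lintegral_mono_set inter_subset_right).trans hv'
        _ = _ := by ring
    calc ‖c - c'‖ₑ ^ 2 = (D.v W)⁻¹ * (D.v W * ‖c - c'‖ₑ ^ 2) := by
          rw [← mul_assoc, ENNReal.inv_mul_cancel hWp hWt, one_mul]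
      _ ≤ (D.v W)⁻¹ * ((2 * C + 2 * C') * e) := mul_le_mul' le_rfl h1
      _ = _ := by rw [hZ]; ring
  have key : ∀ (μ : Measure Ω), μ univ ≤ N → ∫⁻ x in U, ‖f x - c‖ₑ ^ 2 ∂μ ≤ C * e →
      ∫⁻ x in U', ‖f x - c'‖ₑ ^ 2 ∂μ ≤ C' * e →
      ∫⁻ x in U ∪ U', ‖f x - c‖ₑ ^ 2 ∂μ ≤ (C + (2 * C' + 2 * (Z * N))) * e := by
    intro μ hμ h1 h2
    have h3 : ∫⁻ x in U', ‖f x - c‖ₑ ^ 2 ∂μ ≤ 2 * (C' * e) + 2 * (Z * e * N) := by
      calc ∫⁻ x in U', ‖f x - c‖ₑ ^ 2 ∂μ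
          ≤ ∫⁻ x in U', (2 * ‖f x - c'‖ₑ ^ 2 + 2 * ‖c - c'‖ₑ ^ 2) ∂μ := by
            refine lintegral_mono fun x => ?_
            have h4 := enorm_sub_sq_le (f x) c' c
            rw [enorm_sub_rev c' (f x), enorm_sub_rev c' c] at h4
            exact h4
        _ = 2 * (∫⁻ x in U', ‖f x - c'‖ₑ ^ 2 ∂μ) + 2 * ‖c - c'‖ₑ ^ 2 * μ U' := by
            rw [lintegral_add_left ((hGm c').const_mul 2), lintegral_const_mul _ (hGm c'),
              setLIntegral_const]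
        _ ≤ 2 * (C' * e) + 2 * (Z * e) * N := by
            refine add_le_add (mul_le_mul' le_rfl h2) (mul_le_mul' (mul_le_mul' le_rfl hcc) ?_)
            exact (measure_mono (subset_univ _)).trans hμ
        _ = _ := by ring
    calc ∫⁻ x in U ∪ U', ‖f x - c‖ₑ ^ 2 ∂μ
        ≤ ∫⁻ x in U, ‖f x - c‖ₑ ^ 2 ∂μ + ∫⁻ x in U', ‖f x - c‖ₑ ^ 2 ∂μ :=
          lintegral_union_le _ _ _
      _ ≤ C * e + (2 * (C' * e) + 2 * (Z * e * N)) := add_le_add h1 h3
      _ = _ := by ring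
  exact ⟨c, key D.v le_self_add hv hv', key D.s le_add_self hs hs'⟩

/-- Every point has an open neighbourhood with a Poincaré inequality. -/
lemma Atlas.exists_good (hA : Atlas D S) (p : Ω) : ∃ U, IsOpen U ∧ p ∈ U ∧ Good D U := by
  by_cases hpS : p ∈ S
  · obtain ⟨H, rfl⟩ := hA.chart p hpS
    exact ⟨_, H.open_image H.R H.R_pos le_rfl, ⟨0, ⟨⟨le_rfl, H.R_pos⟩, by
      simpa using H.R_pos⟩, rfl⟩, H.good⟩
  · obtain ⟨H, rfl⟩ := hA.box p hpS
    exact ⟨_, H.open_image.inter hA.closed.isOpen_compl, ⟨⟨0, by simpa using H.R_pos, rfl⟩, hpS⟩,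
      H.good hA.toBdry⟩

/-- Global Poincaré inequality. -/
theorem Atlas.good_univ [PreconnectedSpace Ω] (hA : Atlas D S) : Good D univ := by
  obtain ⟨p₀, _⟩ := hA.nonempty
  set T : Set Ω := {q | ∃ U, IsOpen U ∧ p₀ ∈ U ∧ q ∈ U ∧ Good D U} with hT
  have hTo : IsOpen T := by
    rw [isOpen_iff_forall_mem_open]
    rintro q ⟨U, hU, hp, hq, hg⟩
    exact ⟨U, fun x hx => ⟨U, hU, hp, hx, hg⟩, hU, hq⟩
  have hTc : IsClosed T := by
    rw [← closure_subset_iff_isClosed]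
    intro q hq
    obtain ⟨V, hV, hqV, hgV⟩ := hA.exists_good q
    obtain ⟨x, hxV, U, hU, hp, hxU, hg⟩ := mem_closure_iff.1 hq V hV hqV
    exact ⟨U ∪ V, hU.union hV, Or.inl hp, Or.inr hqV, hg.union hA hgV hU hV ⟨x, hxU, hxV⟩⟩
  have hTu : T = univ := by
    refine IsClopen.eq_univ ⟨hTc, hTo⟩ ?_
    obtain ⟨V, hV, hpV, hgV⟩ := hA.exists_good p₀
    exact ⟨p₀, V, hV, hpV, hpV, hgV⟩
  have hU : ∀ q, ∃ U, IsOpen U ∧ p₀ ∈ U ∧ q ∈ U ∧ Good D U := fun q => by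
    have : q ∈ T := hTu ▸ mem_univ q
    exact this
  choose U hUo hUp hUq hUg using hU
  obtain ⟨t, ht⟩ := isCompact_univ.elim_finite_subcover U hUo
    (fun q _ => mem_iUnion.2 ⟨q, hUq q⟩)
  have key : ∀ t : Finset Ω, Good D (U p₀ ∪ ⋃ i ∈ t, U i) ∧ IsOpen (U p₀ ∪ ⋃ i ∈ t, U i) := by
    classical
    intro t
    induction t using Finset.induction_on with
    | empty => simpa using ⟨hUg p₀, hUo p₀⟩
    | insert a t ha ih =>
      have h1 : U p₀ ∪ ⋃ i ∈ insert a t, U i = (U p₀ ∪ ⋃ i ∈ t, U i) ∪ U a := by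
        rw [Finset.set_biUnion_insert]
        ext x
        simp only [mem_union]
        tauto
      rw [h1]
      exact ⟨ih.1.union hA (hUg a) ih.2 (hUo a) ⟨p₀, Or.inl (hUp p₀), hUp a⟩, ih.2.union (hUo a)⟩
  refine (key t).1.mono ?_
  exact ht.trans subset_union_right

/-- Positivity of the first conformal eigenvalue. -/
theorem Atlas.conf_one_pos [PreconnectedSpace Ω] (hA : Atlas D S) : 0 < D.conf S 1 := by
  have hsf := D.isFinite_s
  obtain ⟨p₀, hp₀⟩ := hA.nonempty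
  obtain ⟨H, rfl⟩ := hA.chart p₀ hp₀
  obtain ⟨C, hC, h⟩ := hA.good_univ
  have hone : D.Pos (fun _ => 1) := ⟨D.F_const 1, fun _ => one_pos⟩
  set s : ℝ := (C.toReal + 1)⁻¹ with hs
  have hs0 : 0 < s := by
    have : 0 ≤ C.toReal := ENNReal.toReal_nonneg
    positivity
  have hNF : ¬ NF D (fun _ => 1) s (1 + 1) := by
    rintro ⟨w, hw⟩
    simp only at hw
    have hc1 : Continuous (fun _ : Ω => (1 : ℝ)) := continuous_const
    let l : D.F →ₗ[ℝ] ℝ := D.Mb hc1 ⟨fun _ => 1, D.F_const 1⟩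
    have hl : ∀ f : D.F, l f = ∫ x, (f : Ω → ℝ) x ∂D.s := by
      intro f
      change ∫ x, (1 : ℝ) ^ d * ((1 : ℝ) * (f : Ω → ℝ) x) ∂D.s = _
      simp
    obtain ⟨a, ha0, haz⟩ := exists_common_zero 1
      (fun _ => l.comp (Fintype.linearCombination ℝ w))
    have hz := haz 0
    simp only [LinearMap.comp_apply, Fintype.linearCombination_apply] at hz
    set f : D.F := ∑ i, a i • w i with hf
    rw [hl] at hz
    have hneg := hw a ha0
    obtain ⟨c, _, hcs⟩ := h f f.2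
    have hfc : Continuous (f : Ω → ℝ) := D.F_cont _ f.2
    have hE0 : 0 ≤ D.E (fun _ => 1) f := D.E_nonneg (fun _ => zero_le_one) f.2
    -- `M f ≤ ∫ (f - c)^2 ≤ C E f`
    have h1 : D.M (fun _ => 1) f ≤ C.toReal * D.E (fun _ => 1) f := by
      have h2 : D.M (fun _ => 1) f ≤ ∫ x, ((f : Ω → ℝ) x - c) ^ 2 ∂D.s := by
        have e1 : Integrable (fun x => (f : Ω → ℝ) x ^ 2) D.s := D.integrable_s (hfc.pow 2)
        have e2 : Integrable (fun x => 2 * c * (f : Ω → ℝ) x) D.s :=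
          D.integrable_s (continuous_const.mul hfc)
        have e3 : Integrable (fun _ : Ω => c ^ 2) D.s := D.integrable_s continuous_const
        have h3 : ∫ x, ((f : Ω → ℝ) x - c) ^ 2 ∂D.s =
            ∫ x, (f : Ω → ℝ) x ^ 2 ∂D.s - 2 * c * ∫ x, (f : Ω → ℝ) x ∂D.s +
              ∫ _, c ^ 2 ∂D.s := by
          have e4 : Integrable (fun x => (f : Ω → ℝ) x ^ 2 - 2 * c * (f : Ω → ℝ) x) D.s := e1.sub e2
          rw [← integral_const_mul, ← integral_sub e1 e2, ← integral_add e4 e3]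
          congr 1
          funext x
          ring
        have h4 : D.M (fun _ => 1) f = ∫ x, (f : Ω → ℝ) x ^ 2 ∂D.s := by
          unfold StekData.M
          simp
        rw [h3, hz, h4]
        have h5 : 0 ≤ ∫ _, c ^ 2 ∂D.s := integral_nonneg fun _ => sq_nonneg c
        linarith
      refine h2.trans ?_
      have e5 : Integrable (fun x => ((f : Ω → ℝ) x - c) ^ 2) D.s :=
        D.integrable_s ((hfc.sub continuous_const).pow 2)
      rw [← ENNReal.ofReal_le_ofReal_iff (mul_nonneg ENNReal.toReal_nonneg hE0),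
        ENNReal.ofReal_mul ENNReal.toReal_nonneg, ENNReal.ofReal_toReal hC,
        ofReal_integral_eq_lintegral_ofReal e5
          (Eventually.of_forall fun x => sq_nonneg _)]
      refine le_trans (le_of_eq ?_) hcs
      rw [Measure.restrict_univ]
      refine lintegral_congr fun x => ?_
      rw [enorm_sq_eq]
    have h6 : 0 ≤ C.toReal := ENNReal.toReal_nonneg
    have h7 : s * D.M (fun _ => 1) f ≤ D.E (fun _ => 1) f := by
      rw [hs, inv_mul_le_iff₀ (by positivity)]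
      nlinarith
    linarith
  have h1 := sig_ge hA.toBdry hone hs0.le hNF
  have h2 : 0 < D.sigBar S (fun _ => 1) 1 := by
    unfold StekData.sigBar
    have hV := H.V_pos (D.F_cont _ hone.1) hone.2
    have hL := H.L_pos (D.F_cont _ hone.1) hone.2
    refine ENNReal.mul_pos (ENNReal.mul_pos ?_ ?_).ne' ?_
    · exact (lt_of_lt_of_le (ENNReal.ofReal_pos.2 hs0) h1).ne'
    · rw [ENNReal.ofReal_rpow_of_pos hV]
      exact (ENNReal.ofReal_pos.2 (Real.rpow_pos_of_pos hV _)).ne'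
    · exact (ENNReal.ofReal_pos.2 hL).ne'
  refine h2.trans_le ?_
  unfold StekData.conf
  exact le_iSup₂_of_le _ hone le_rfl

end Pool.Agent.Steklov
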