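import Mathlib
import Pool.Agent.Lib.MP_4838e0_gt.Fin3
import Pool.Agent.Lib.MP_4838e0_gt.Pos

set_option autoImplicit false

universe u
set_option linter.unusedSectionVars false
set_option linter.unusedVariables false

open Set Filter Topology MeasureTheory
open scoped ENNReal ContDiff

noncomputable section

namespace Pool.Agent.Steklov

variable {d : ℕ} {Ω : Type u} [TopologicalSpace Ω] [MeasurableSpace Ω]
  [BorelSpace Ω] [T2Space Ω] [CompactSpace Ω]

variable {D : StekData d Ω} {S : Set Ω}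

lemma measurableSet_Ub (z : ℕ → ℝ × (Fin d → ℝ)) (r : ℕ → ℝ) (j : ℕ) :
    MeasurableSet (Ub z r j) := by
  induction j with
  | zero => exact MeasurableSet.empty
  | succ j ih => exact ih.union Metric.isClosed_closedBall.measurableSet

/-- Test functions concentrated in one chart. -/
theorem HalfChart.tests (hd : 1 ≤ d) (H : HalfChart D) (k : ℕ) :
    ∃ C₁ c₁ : ℝ, 0 < C₁ ∧ 0 < c₁ ∧ ∀ ρ, D.Pos ρ → mu D ρ (H.Ψ '' Q d (H.R / 4)) ≠ 0 →
      ∃ f : ℕ → D.F, (∀ i j, i ≤ k → j ≤ k → i ≠ j → ∀ x, (f i : Ω → ℝ) x * (f j : Ω → ℝ) x = 0) ∧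
        ∀ j ≤ k, D.E ρ (f j) ≤ C₁ * D.V ρ ^ (((d : ℝ) - 1) / ((d : ℝ) + 1)) ∧
          c₁ * (mu D ρ (H.Ψ '' Q d (H.R / 4))).toReal ≤ D.M ρ (f j) := by
  have hR := H.R_pos
  have hC := H.C_pos
  have hR4 : H.R / 4 ≤ H.R := by linarith
  have hR40 : 0 < H.R / 4 := by linarith
  have hdR : (1 : ℝ) ≤ d := by exact_mod_cast hd
  have hn : (0 : ℝ) < ((d : ℝ) + 1) / 2 := by positivity
  have hfr : Module.finrank ℝ (ℝ × (Fin d → ℝ)) = d + 1 := by
    rw [Module.finrank_prod, Module.finrank_self, Module.finrank_fin_fun, add_comm]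
  obtain ⟨t, ht⟩ := exists_cover (ℝ × (Fin d → ℝ))
  obtain ⟨Ce, hCe, hen⟩ := exists_tst_energy (volume : Measure (ℝ × (Fin d → ℝ))) k
  rw [hfr] at hen
  set CE : ℝ≥0∞ := ENNReal.ofReal H.C * (ENNReal.ofReal H.C ^ (((d : ℝ) + 1) / 2) * Ce) with hCE
  have hCEt : CE ≠ ⊤ := ENNReal.mul_ne_top ENNReal.ofReal_ne_top (ENNReal.mul_ne_top
    (ENNReal.rpow_ne_top_of_nonneg hn.le ENNReal.ofReal_ne_top) hCe)
  set C₁ : ℝ := (CE ^ (2 / ((d : ℝ) + 1))).toReal + 1 with hC₁
  set c : ℝ := 1 / (2 * (((k : ℝ) + 1) * (t.card + 1))) with hc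
  have hc0 : 0 < c := by positivity
  have hc1 : c ≤ 1 / 2 := by
    rw [hc]
    apply one_div_le_one_div_of_le (by norm_num)
    have h1 : (1 : ℝ) ≤ (k : ℝ) + 1 := by linarith [(Nat.cast_nonneg k : (0 : ℝ) ≤ k)]
    have h2 : (1 : ℝ) ≤ (t.card : ℝ) + 1 := by
      linarith [(Nat.cast_nonneg t.card : (0 : ℝ) ≤ t.card)]
    nlinarith
  have hc2 : ((k : ℝ) + 1) * (t.card * c) ≤ 1 / 2 := by
    rw [hc]
    have h1 : (0 : ℝ) < (k : ℝ) + 1 := by positivity
    have h2 : (0 : ℝ) < (t.card : ℝ) + 1 := by positivity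
    have h3 : ((k : ℝ) + 1) * (t.card * (1 / (2 * (((k : ℝ) + 1) * (t.card + 1))))) =
        (t.card / (t.card + 1)) / 2 := by
      field_simp
    rw [h3]
    have h4 : (t.card : ℝ) / (t.card + 1) ≤ 1 := by
      rw [div_le_one h2]; linarith
    linarith
  refine ⟨C₁, c, by have : 0 ≤ (CE ^ (2 / ((d : ℝ) + 1))).toReal := ENNReal.toReal_nonneg
                    linarith, hc0, fun ρ hρ hmu => ?_⟩
  have hρc := D.F_cont _ hρ.1
  have hρn : ∀ x, 0 ≤ ρ x := fun x => (hρ.2 x).le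
  obtain ⟨P, hP0, hP'⟩ := StekData.exists_bound hρc
  have hP : ∀ x, ρ x ≤ P := fun x => (le_abs_self _).trans (hP' x)
  have hmf := mu_finite D hρc hρn
  set m : Measure (ℝ × (Fin d → ℝ)) := H.mm ρ (H.R / 4) with hm
  have hmfin : IsFiniteMeasure m := ⟨by
    rw [hm, H.mm_univ ρ hR4]; exact measure_lt_top _ _⟩
  have hM0 : m.real univ = (mu D ρ (H.Ψ '' Q d (H.R / 4))).toReal := by
    rw [Measure.real, hm, H.mm_univ ρ hR4]
  have hM0pos : 0 < m.real univ := by
    rw [hM0]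
    exact ENNReal.toReal_pos hmu (measure_ne_top _ _)
  have hsmall : ∃ r₀, 0 < r₀ ∧ ∀ z, m.real (Metric.closedBall z r₀) < c * m.real univ := by
    set a : ℝ := c * m.real univ / (2 * (P ^ d * H.C)) with ha
    have ha0 : 0 < a := by positivity
    refine ⟨min 1 a / 2, by positivity, fun z => ?_⟩
    have h1 := H.mm_small hρc hρn hP hR4 z (r₀ := min 1 a / 2) (by positivity)
    have h2 : m.real (Metric.closedBall z (min 1 a / 2)) ≤
        P ^ d * H.C * (2 * (min 1 a / 2)) ^ d := by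
      rw [Measure.real]
      refine ENNReal.toReal_le_of_le_ofReal (by positivity) h1
    have h3 : (2 * (min 1 a / 2)) ^ d ≤ a := by
      have h4 : 2 * (min 1 a / 2) = min 1 a := by ring
      have h5 : 0 ≤ min 1 a := by positivity
      rw [h4]
      calc min 1 a ^ d ≤ min 1 a ^ 1 := pow_le_pow_of_le_one h5 (min_le_left _ _) hd
        _ = min 1 a := pow_one _
        _ ≤ a := min_le_right _ _
    have h6 : P ^ d * H.C * a = c * m.real univ / 2 := by
      rw [ha]; field_simp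
    have h7 : P ^ d * H.C * (2 * (min 1 a / 2)) ^ d ≤ P ^ d * H.C * a :=
      mul_le_mul_of_nonneg_left h3 (by positivity)
    have h8 : 0 < c * m.real univ := by positivity
    linarith
  obtain ⟨z, r, hzr⟩ := greedy t ht m hM0pos hR40 (H.mm_supp ρ hR40.le hR4) k hc0 hc1 hc2 hsmall
  -- the test functions
  have hφ0 : ∀ j w, H.R / 2 ≤ ‖w‖ → tst (H.R / 4) z r j w = 0 := by
    intro j w hw
    exact tst_zero_of_big hR40 j (by linarith)
  have hce := fun j => H.conf_energy_le (tst_contDiff (H.R / 4) z r j) (hφ0 j)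
  have hcond : ∀ j, ∀ w ∈ Q d H.R, w ∉ Q d (H.R / 2) → tst (H.R / 4) z r j w =
      (0 : Ω → ℝ) (H.Ψ w) := by
    intro j w hw hw'
    rw [Pi.zero_apply]
    apply hφ0
    by_contra hcon
    push Not at hcon
    rw [Prod.norm_def] at hcon
    have h1 := (le_max_left _ _).trans_lt hcon
    have h2 := (le_max_right _ _).trans_lt hcon
    rw [Real.norm_eq_abs, abs_lt] at h1
    exact hw' ⟨⟨hw.1.1, h1.2.le⟩, by simpa using h2.le⟩
  have hR2 : H.R / 2 ≤ H.R := by linarith
  refine ⟨fun j => ⟨H.pull (H.R / 2) 0 (tst (H.R / 4) z r j), (hce j).1⟩, ?_, ?_⟩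
  · intro i j hi hj hij x
    simp only
    by_cases hx : x ∈ H.Ψ '' Q d (H.R / 2)
    · obtain ⟨w, hw, rfl⟩ := hx
      rw [H.pull_apply hR2 _ _ (hcond i) (Q_mono hR2 hw),
        H.pull_apply hR2 _ _ (hcond j) (Q_mono hR2 hw)]
      exact tst_mul_tst hij (hzr i (by omega)).1 (hzr j (by omega)).1 w
    · rw [H.pull_off _ _ hx, Pi.zero_apply, zero_mul]
  · intro j hj
    simp only
    set f := H.pull (H.R / 2) 0 (tst (H.R / 4) z r j) with hf
    have hfF : f ∈ D.F := (hce j).1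
    have hfc := D.F_cont _ hfF
    have hrj : ∀ l ≤ j, 0 < r l := fun l hl => (hzr l (by omega)).1
    refine ⟨?_, ?_⟩
    · have h1 := E_le_holder hd D hρ hfF
      have hVpos := H.V_pos hρc hρ.2
      have h2 : ∫⁻ q, ENNReal.ofReal (D.Γ f f q) ^ (((d : ℝ) + 1) / 2) ∂D.v ≤ CE := by
        refine (hce j).2.trans ?_
        exact mul_le_mul' le_rfl (mul_le_mul' le_rfl (hen _ z r hR40 j hj hrj))
      have h3 : (∫⁻ q, ENNReal.ofReal (D.Γ f f q) ^ (((d : ℝ) + 1) / 2) ∂D.v) ^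
          (2 / ((d : ℝ) + 1)) ≤ ENNReal.ofReal C₁ := by
        refine (ENNReal.rpow_le_rpow h2 (by positivity)).trans ?_
        have h4 : CE ^ (2 / ((d : ℝ) + 1)) ≠ ⊤ :=
          ENNReal.rpow_ne_top_of_nonneg (by positivity) hCEt
        rw [← ENNReal.ofReal_toReal h4]
        exact ENNReal.ofReal_le_ofReal (by rw [hC₁]; linarith)
      have hC₁0 : 0 ≤ C₁ := by
        have : 0 ≤ (CE ^ (2 / ((d : ℝ) + 1))).toReal := ENNReal.toReal_nonneg
        linarith
      have h5 := h1.trans (mul_le_mul' le_rfl h3)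
      rw [ENNReal.ofReal_rpow_of_pos hVpos,
        ← ENNReal.ofReal_mul (Real.rpow_pos_of_pos hVpos _).le,
        ENNReal.ofReal_le_ofReal_iff (mul_nonneg (Real.rpow_pos_of_pos hVpos _).le hC₁0)] at h5
      linarith
    · rw [← hM0]
      refine (hzr j (by omega)).2.trans ?_
      set A := Metric.closedBall (z j) (r j) \ Ub z r j with hA
      have hAm : MeasurableSet A :=
        Metric.isClosed_closedBall.measurableSet.diff (measurableSet_Ub z r j)
      rw [Measure.real, hm, H.mm_apply ρ hR4 hAm]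
      refine ENNReal.toReal_le_of_le_ofReal (D.M_nonneg f hρn) ?_
      rw [D.ofReal_M hρc hρn hfc]
      have hset : H.Ψ '' (Q d (H.R / 4) ∩ A) ⊆ {x | f x = 1} := by
        rintro _ ⟨w, ⟨hw, hwA⟩, rfl⟩
        change f (H.Ψ w) = 1
        rw [hf, H.pull_apply hR2 _ _ (hcond j) (Q_mono hR4 hw)]
        refine tst_eq_one hR40 hrj ?_ hwA
        rw [Prod.norm_def]
        refine max_le ?_ (by simpa using hw.2)
        rw [Real.norm_eq_abs, abs_of_nonneg hw.1.1]
        exact hw.1.2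
      have hcl : MeasurableSet {x | f x = 1} := (isClosed_eq hfc continuous_const).measurableSet
      calc mu D ρ (H.Ψ '' (Q d (H.R / 4) ∩ A)) ≤ mu D ρ {x | f x = 1} := measure_mono hset
        _ = ∫⁻ x in {x | f x = 1}, ENNReal.ofReal (ρ x ^ d) ∂D.s := by
            unfold mu
            rw [withDensity_apply _ hcl]
        _ = ∫⁻ x in {x | f x = 1}, ENNReal.ofReal (ρ x ^ d * f x ^ 2) ∂D.s := by
            refine setLIntegral_congr_fun hcl fun x hx => ?_
            have hx' : f x = 1 := hx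
            rw [hx']
            simp
        _ ≤ _ := setLIntegral_le_lintegral _ _

/-- Finiteness of the conformal eigenvalues. -/
theorem conf_lt_top (hd : 1 ≤ d) (hA : Atlas D S) (k : ℕ) : D.conf S k < ⊤ := by
  have hch : ∀ p : S, ∃ H : HalfChart D, H.Ψ 0 = p := fun p => hA.chart p p.2
  choose Hc hHc using hch
  have hScomp : IsCompact S := hA.closed.isCompact
  obtain ⟨t, ht⟩ := hScomp.elim_nhds_subcover'
    (fun p hp => (Hc ⟨p, hp⟩).Ψ '' (Ico 0 ((Hc ⟨p, hp⟩).R / 4) ×ˢ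
      Metric.ball 0 ((Hc ⟨p, hp⟩).R / 4)))
    (fun p hp => by
      have hR := (Hc ⟨p, hp⟩).R_pos
      refine ((Hc ⟨p, hp⟩).open_image _ (by linarith) (by linarith)).mem_nhds ?_
      refine ⟨0, ⟨⟨le_rfl, by change (0 : ℝ) < _; linarith⟩, ?_⟩, hHc ⟨p, hp⟩⟩
      simpa using hR)
  choose C₁ c₁ hC₁ hc₁ htest using fun p : S => (Hc p).tests hd k
  set N : ℝ := t.card + 1 with hN
  have hN0 : 0 < N := by positivity
  have hdR : (1 : ℝ) ≤ d := by exact_mod_cast hd
  set K : S → ℝ := fun p => (((k : ℝ) + 1) * C₁ p + 1) * N / c₁ p with hK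
  have hbound : ∀ ρ, D.Pos ρ → D.sigBar S ρ k ≤ ∑ p ∈ t, ENNReal.ofReal (K p) := by
    intro ρ hρ
    have hρc := D.F_cont _ hρ.1
    have hρn : ∀ x, 0 ≤ ρ x := fun x => (hρ.2 x).le
    obtain ⟨p₀, hp₀⟩ := hA.nonempty
    obtain ⟨H₀, _⟩ := hA.chart p₀ hp₀
    have hV := H₀.V_pos hρc hρ.2
    have hL := H₀.L_pos hρc hρ.2
    have hmf := mu_finite D hρc hρn
    -- total mass is covered
    have hnull : mu D ρ Sᶜ = 0 := by
      unfold mu
      exact (withDensity_absolutelyContinuous _ _) hA.null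
    have hcov : mu D ρ univ ≤ ∑ p ∈ t, mu D ρ ((Hc p).Ψ '' Q d ((Hc p).R / 4)) := by
      calc mu D ρ univ = mu D ρ (S ∪ Sᶜ) := by rw [union_compl_self]
        _ ≤ mu D ρ S + mu D ρ Sᶜ := measure_union_le _ _
        _ = mu D ρ S := by rw [hnull, add_zero]
        _ ≤ mu D ρ (⋃ p ∈ t, (Hc p).Ψ '' Q d ((Hc p).R / 4)) := by
            refine measure_mono (ht.trans (iUnion₂_mono fun p hp => ?_))
            exact image_mono (prod_mono Ico_subset_Icc_self Metric.ball_subset_closedBall)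
        _ ≤ _ := measure_biUnion_finset_le _ _
    obtain ⟨p, hp, hpm⟩ : ∃ p ∈ t, D.L ρ ≤ N * (mu D ρ ((Hc p).Ψ '' Q d ((Hc p).R / 4))).toReal := by
      by_contra hcon
      push Not at hcon
      rw [mu_univ D hρc hρn] at hcov
      have h1 : D.L ρ ≤ ∑ p ∈ t, (mu D ρ ((Hc p).Ψ '' Q d ((Hc p).R / 4))).toReal := by
        rw [← ENNReal.toReal_sum fun p _ => measure_ne_top _ _]
        rw [← ENNReal.ofReal_le_iff_le_toReal]
        · exact hcov
        · exact ENNReal.sum_ne_top.2 fun p _ => measure_ne_top _ _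
      have h2 : N * ∑ p ∈ t, (mu D ρ ((Hc p).Ψ '' Q d ((Hc p).R / 4))).toReal ≤
          ∑ _p ∈ t, D.L ρ := by
        rw [Finset.mul_sum]
        exact Finset.sum_le_sum fun p hp => (hcon p hp).le
      rw [Finset.sum_const, nsmul_eq_mul] at h2
      have h3 := mul_le_mul_of_nonneg_left h1 hN0.le
      have h4 : N * D.L ρ = t.card * D.L ρ + D.L ρ := by rw [hN]; ring
      linarith
    have hmne : mu D ρ ((Hc p).Ψ '' Q d ((Hc p).R / 4)) ≠ 0 := by
      intro h
      rw [h, ENNReal.toReal_zero, mul_zero] at hpm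
      linarith
    obtain ⟨f, hdis, hf⟩ := htest p ρ hρ hmne
    have hc := hc₁ p
    have hC := hC₁ p
    set pw : ℝ := ((d : ℝ) - 1) / ((d : ℝ) + 1) with hpw
    have hVp : 0 < D.V ρ ^ pw := Real.rpow_pos_of_pos hV _
    set s : ℝ := (((k : ℝ) + 1) * C₁ p + 1) * N * D.V ρ ^ pw / (c₁ p * D.L ρ) with hs
    have hs0 : 0 < s := by positivity
    have hNF : NF D ρ s (k + 1) := by
      refine NF_of_disjoint D hρ (fun i => f i) (fun i j hij => ?_) fun i => ?_
      · exact hdis i j (by omega) (by omega) (fun h => hij (Fin.ext h))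
      · obtain ⟨h1, h2⟩ := hf i (by omega)
        have h3 : c₁ p * D.L ρ ≤ N * D.M ρ (f i) := by
          have h4 := mul_le_mul_of_nonneg_left hpm hc.le
          have h5 := mul_le_mul_of_nonneg_left h2 hN0.le
          linarith
        have h6 : (((k : ℝ) + 1) * C₁ p + 1) * D.V ρ ^ pw ≤ s * D.M ρ (f i) := by
          rw [hs, div_mul_eq_mul_div, le_div_iff₀ (by positivity)]
          have h7 : 0 < (((k : ℝ) + 1) * C₁ p + 1) * D.V ρ ^ pw := by positivity
          have := mul_le_mul_of_nonneg_left h3 h7.le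
          linarith
        have h8 : ((k : ℝ) + 1) * D.E ρ (f i) ≤ ((k : ℝ) + 1) * (C₁ p * D.V ρ ^ pw) :=
          mul_le_mul_of_nonneg_left h1 (by positivity)
        linarith
    have hsig := sig_le hA.toBdry hρ hs0.le hNF
    have hexp : (1 - (d : ℝ)) / ((d : ℝ) + 1) = -pw := by
      rw [hpw, ← neg_div]
      congr 1
      ring
    refine le_trans ?_ (Finset.single_le_sum (f := fun p => ENNReal.ofReal (K p))
      (fun _ _ => zero_le) hp)
    unfold StekData.sigBar
    rw [hexp, ENNReal.ofReal_rpow_of_pos hV]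
    refine (mul_le_mul' (mul_le_mul' hsig le_rfl) le_rfl).trans (le_of_eq ?_)
    rw [← ENNReal.ofReal_mul hs0.le, ← ENNReal.ofReal_mul (by positivity)]
    congr 1
    have h9 : D.V ρ ^ pw * D.V ρ ^ (-pw) = 1 := by
      rw [← Real.rpow_add hV, add_neg_cancel, Real.rpow_zero]
    calc s * D.V ρ ^ (-pw) * D.L ρ
        = (((k : ℝ) + 1) * C₁ p + 1) * N * (D.V ρ ^ pw * D.V ρ ^ (-pw)) / c₁ p := by
          rw [hs]; field_simp
      _ = K p := by rw [h9, mul_one]
  refine lt_of_le_of_lt (iSup₂_le hbound) ?_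
  exact ENNReal.sum_lt_top.2 fun p _ => ENNReal.ofReal_lt_top

/-- **The abstract theorem.** -/
theorem abstract_main [PreconnectedSpace Ω] (hd : 1 ≤ d) (hA : Atlas D S) (k : ℕ) :
    D.conf S k < D.conf S (k + 1) := by
  rcases Nat.eq_zero_or_pos k with rfl | hk
  · rw [conf_zero hA.toBdry]
    exact hA.conf_one_pos
  · refine conf_lt hd hA.toBdry ?_ (conf_lt_top hd hA k).ne
    have hmono : ∀ j, D.conf S 1 ≤ D.conf S (j + 1) := by
      intro j
      induction j with
      | zero => exact le_rfl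
      | succ j ih => exact ih.trans (conf_mono hA.toBdry _)
    have h1 := hmono (k - 1)
    rw [Nat.sub_add_cancel hk] at h1
    exact hA.conf_one_pos.trans_le h1

end Pool.Agent.Steklov
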