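import Mathlib
import Pool.Agent.Lib.MP_4838e0_gt.Fin4
import Pool.Agent.Lib.MP_4838e0_gt.BridgeB
import Pool.Agent.Lib.MP_4838e0_gt.BridgeA

set_option autoImplicit false

universe u
set_option linter.unusedSectionVars false
set_option linter.unusedVariables false

open Set Filter Topology MeasureTheory Manifold ContDiff Bundle
open scoped ENNReal

noncomputable section

namespace Pool.Agent.Steklov

lemma smul_measure_mono_asm {X : Type*} [MeasurableSpace X] {a b : ℝ≥0∞} (h : a ≤ b)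
    (μ : Measure X) : a • μ ≤ b • μ := by
  rw [Measure.le_iff]
  intro s _
  rw [Measure.smul_apply, Measure.smul_apply, smul_eq_mul, smul_eq_mul]
  gcongr

variable {d : ℕ} {Ω : Type u} [TopologicalSpace Ω] [ChartedSpace (EuclideanHalfSpace (d + 1)) Ω]
  [IsManifold (𝓡∂ (d + 1)) ∞ Ω]

/-- The smooth functions. -/
def smoothFns (d : ℕ) (Ω : Type u) [TopologicalSpace Ω]
    [ChartedSpace (EuclideanHalfSpace (d + 1)) Ω] : Submodule ℝ (Ω → ℝ) where
  carrier := {f | ContMDiff (𝓡∂ (d + 1)) 𝓘(ℝ, ℝ) ∞ f}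
  add_mem' := fun ha hb => ContMDiff.add ha hb
  zero_mem' := contMDiff_const
  smul_mem' := fun c f hf => by
    have h1 : ContMDiff (𝓡∂ (d + 1)) 𝓘(ℝ, ℝ) ∞ (fun _ : Ω => c) := contMDiff_const
    have h2 : ContMDiff (𝓡∂ (d + 1)) 𝓘(ℝ, ℝ) ∞ f := hf
    exact h1.smul h2

lemma GG_one (g : RMetric d Ω) (x : Ω) : GG g (fun _ => 1) (fun _ => 1) x = 0 := by
  unfold GG
  rw [grad_spec]
  have h : mfderiv (𝓡∂ (d + 1)) 𝓘(ℝ, ℝ) (fun _ : Ω => (1 : ℝ)) x = 0 := mfderiv_const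
  rw [h]
  rfl

variable [MeasurableSpace Ω] [BorelSpace Ω] [T2Space Ω] [CompactSpace Ω]

/-- The abstract data of a Riemannian manifold with boundary. -/
def stek (g : RMetric d Ω) : StekData d Ω where
  v := riemVol g
  s := riemBd g
  F := smoothFns d Ω
  Γ := GG g
  v_fin := riemVol_finite g
  s_fin := riemBd_finite g
  F_cont := fun f hf => ContMDiff.continuous hf
  F_const := fun c => contMDiff_const
  Γ_cont := fun f hf h hh => GG_cont g hf hh
  Γ_add := fun f hf h hh k hk => GG_add g hf hh hk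
  Γ_smul := fun a f hf h hh => GG_smul g a hf hh
  Γ_symm := fun f _ h _ => GG_symm g f h
  Γ_nonneg := fun f _ p => GG_nonneg g f p
  Γ_local := fun f _ h _ U hU hfh => GG_local g f h U hU hfh
  Γ_one := GG_one g

lemma chartMap_zero (p : Ω) : chartMap (d := d) p 0 = p := by
  unfold chartMap
  have h : zToE (0 : ℝ × (Fin d → ℝ)) = 0 := by
    unfold zToE
    ext i
    refine Fin.cases ?_ (fun j => ?_) i <;> simp
  rw [h, add_zero]
  exact extChartAt_to_inv p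

lemma exists_halfChart (g : RMetric d Ω) (p : Ω) (hp : p ∈ (𝓡∂ (d + 1)).boundary Ω) :
    ∃ H : HalfChart (stek g), H.Ψ 0 = p := by
  obtain ⟨RA, hRA, hA⟩ := exists_halfChartA g p hp
  obtain ⟨RB, hRB, hB⟩ := exists_halfChartB g p hp
  have hR : 0 < min RA RB := lt_min hRA hRB
  obtain ⟨c, C, hc⟩ := hA (min RA RB) hR (min_le_left _ _)
  obtain ⟨c', hc', C', hC', h1, h2, h3, h4⟩ := hB (min RA RB) hR (min_le_right _ _)
  refine ⟨{
    Ψ := chartMap p
    R := min RA RB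
    c := min c c'
    C := max C C'
    R_pos := hR
    c_pos := lt_min hc.c_pos hc'
    C_pos := lt_max_of_lt_left hc.C_pos
    inj := hc.inj
    cont := hc.cont
    open_image := hc.open_image
    restr := hc.restr
    glue := hc.glue
    energy_lower := fun f hf z hz => le_trans
      (mul_le_mul_of_nonneg_right (min_le_left _ _) (sq_nonneg _)) (hc.energy_lower f hf z hz)
    energy_upper := fun f hf z hz => (hc.energy_upper f hf z hz).trans
      (mul_le_mul_of_nonneg_right (le_max_left _ _) (sq_nonneg _))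
    vol_lower := (smul_measure_mono_asm (ENNReal.ofReal_le_ofReal (min_le_right _ _)) _).trans h1
    vol_upper := h2.trans (smul_measure_mono_asm (ENNReal.ofReal_le_ofReal (le_max_right _ _)) _)
    bd_lower := (smul_measure_mono_asm (ENNReal.ofReal_le_ofReal (min_le_right _ _)) _).trans h3
    bd_upper := h4.trans (smul_measure_mono_asm (ENNReal.ofReal_le_ofReal (le_max_right _ _)) _) },
    chartMap_zero p⟩

lemma exists_boxChart (g : RMetric d Ω) (p : Ω) (hp : p ∉ (𝓡∂ (d + 1)).boundary Ω) :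
    ∃ H : BoxChart (stek g), H.Ψ 0 = p := by
  obtain ⟨RA, hRA, hA⟩ := exists_boxChartA g p hp
  obtain ⟨RB, hRB, hB⟩ := exists_boxChartB g p hp
  have hR : 0 < min RA RB := lt_min hRA hRB
  obtain ⟨c, hc⟩ := hA (min RA RB) hR (min_le_left _ _)
  obtain ⟨c', hc', C', hC', h1, h2⟩ := hB (min RA RB) hR (min_le_right _ _)
  refine ⟨{
    Ψ := chartMap p
    R := min RA RB
    c := min c c'
    C := C'
    R_pos := hR
    c_pos := lt_min hc.c_pos hc'
    C_pos := hC'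
    cont := hc.cont
    open_image := hc.open_image
    restr := hc.restr
    energy_lower := fun f hf z hz => le_trans
      (mul_le_mul_of_nonneg_right (min_le_left _ _) (sq_nonneg _)) (hc.energy_lower f hf z hz)
    vol_lower := (smul_measure_mono_asm (ENNReal.ofReal_le_ofReal (min_le_right _ _)) _).trans h1
    vol_upper := h2 }, chartMap_zero p⟩

lemma stek_atlas (g : RMetric d Ω) (hne : ((𝓡∂ (d + 1)).boundary Ω).Nonempty) :
    Atlas (stek g) ((𝓡∂ (d + 1)).boundary Ω) where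
  null := riemBd_compl_boundary g
  chart := fun p hp => exists_halfChart g p hp
  nonempty := hne
  closed := ModelWithCorners.isClosed_boundary (n := ∞) (by simp)
  box := fun p hp => exists_boxChart g p hp

/-! ### Translation of the eigenvalues -/

lemma isTestSpace_iff (g : RMetric d Ω) (k : ℕ) (V : Submodule ℝ (Ω → ℝ)) :
    IsTestSpace d k V ↔ (stek g).IsTest ((𝓡∂ (d + 1)).boundary Ω) k V := Iff.rfl

lemma energy_eq (hd : 1 ≤ d) (g h : RMetric d Ω) {ρ : Ω → ℝ}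
    (hρ : ContMDiff (𝓡∂ (d + 1)) 𝓘(ℝ, ℝ) ∞ ρ) (hpos : ∀ x, 0 < ρ x)
    (hgh : ∀ x v w, h.inner x v w = ρ x ^ 2 * g.inner x v w) {f : Ω → ℝ}
    (hf : ContMDiff (𝓡∂ (d + 1)) 𝓘(ℝ, ℝ) ∞ f) :
    energy h f = ENNReal.ofReal ((stek g).E ρ f) := by
  have hρc := hρ.continuous
  rw [(stek g).ofReal_E hρc (fun x => (hpos x).le) hf]
  unfold energy
  rw [riemVol_conformal g h ρ hρ hpos hgh]
  have hm : Measurable fun x => ENNReal.ofReal (ρ x ^ (d + 1)) :=
    (hρc.pow _).measurable.ennreal_ofReal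
  have hG : ∀ x, h.inner x (grad h f x) (grad h f x) = (ρ x ^ 2)⁻¹ * GG g f f x := fun x =>
    GG_conformal g h ρ hpos hgh f x
  simp only [hG]
  have hGc := GG_cont g hf hf
  have hm2 : Measurable fun x => ENNReal.ofReal ((ρ x ^ 2)⁻¹ * GG g f f x) := by
    have : Continuous fun x => (ρ x ^ 2)⁻¹ * GG g f f x :=
      ((hρc.pow 2).inv₀ fun x => (pow_pos (hpos x) 2).ne').mul hGc
    exact this.measurable.ennreal_ofReal
  rw [lintegral_withDensity_eq_lintegral_mul _ hm hm2]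
  refine lintegral_congr fun x => ?_
  have hx := hpos x
  simp only [Pi.mul_apply]
  rw [← ENNReal.ofReal_mul (by positivity)]
  congr 1
  change ρ x ^ (d + 1) * ((ρ x ^ 2)⁻¹ * GG g f f x) = ρ x ^ (d - 1) * GG g f f x
  obtain ⟨e, rfl⟩ : ∃ e, d = e + 1 := ⟨d - 1, by omega⟩
  simp only [Nat.add_sub_cancel]
  field_simp
  ring

lemma bdMass_eq (g h : RMetric d Ω) {ρ : Ω → ℝ}
    (hρ : ContMDiff (𝓡∂ (d + 1)) 𝓘(ℝ, ℝ) ∞ ρ) (hpos : ∀ x, 0 < ρ x)
    (hgh : ∀ x v w, h.inner x v w = ρ x ^ 2 * g.inner x v w) {f : Ω → ℝ}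
    (hf : ContMDiff (𝓡∂ (d + 1)) 𝓘(ℝ, ℝ) ∞ f) :
    bdMass h f = ENNReal.ofReal ((stek g).M ρ f) := by
  have hρc := hρ.continuous
  rw [(stek g).ofReal_M hρc (fun x => (hpos x).le) hf.continuous]
  unfold bdMass
  rw [riemBd_conformal g h ρ hρ hpos hgh]
  have hm : Measurable fun x => ENNReal.ofReal (ρ x ^ d) :=
    (hρc.pow _).measurable.ennreal_ofReal
  have hm2 : Measurable fun x => ENNReal.ofReal (f x ^ 2) :=
    (hf.continuous.pow 2).measurable.ennreal_ofReal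
  rw [lintegral_withDensity_eq_lintegral_mul _ hm hm2]
  refine lintegral_congr fun x => ?_
  have hx := hpos x
  simp only [Pi.mul_apply]
  rw [← ENNReal.ofReal_mul (by positivity)]

lemma vol_eq (g h : RMetric d Ω) {ρ : Ω → ℝ}
    (hρ : ContMDiff (𝓡∂ (d + 1)) 𝓘(ℝ, ℝ) ∞ ρ) (hpos : ∀ x, 0 < ρ x)
    (hgh : ∀ x v w, h.inner x v w = ρ x ^ 2 * g.inner x v w) :
    riemVol h univ = ENNReal.ofReal ((stek g).V ρ) := by
  rw [(stek g).ofReal_V hρ.continuous (fun x => (hpos x).le), riemVol_conformal g h ρ hρ hpos hgh,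
    withDensity_apply _ MeasurableSet.univ, Measure.restrict_univ]
  rfl

lemma bd_eq (g h : RMetric d Ω) {ρ : Ω → ℝ}
    (hρ : ContMDiff (𝓡∂ (d + 1)) 𝓘(ℝ, ℝ) ∞ ρ) (hpos : ∀ x, 0 < ρ x)
    (hgh : ∀ x v w, h.inner x v w = ρ x ^ 2 * g.inner x v w) :
    riemBd h univ = ENNReal.ofReal ((stek g).L ρ) := by
  rw [(stek g).ofReal_L hρ.continuous (fun x => (hpos x).le), riemBd_conformal g h ρ hρ hpos hgh,
    withDensity_apply _ MeasurableSet.univ, Measure.restrict_univ]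
  rfl

lemma steklov_eq (hd : 1 ≤ d) (g h : RMetric d Ω) {ρ : Ω → ℝ}
    (hρ : ContMDiff (𝓡∂ (d + 1)) 𝓘(ℝ, ℝ) ∞ ρ) (hpos : ∀ x, 0 < ρ x)
    (hgh : ∀ x v w, h.inner x v w = ρ x ^ 2 * g.inner x v w) (k : ℕ) :
    steklov h k = (stek g).sig ((𝓡∂ (d + 1)).boundary Ω) ρ k := by
  unfold steklov StekData.sig
  refine iInf_congr fun V => iInf_congr_Prop (isTestSpace_iff g k V) fun hV => ?_
  refine iSup_congr fun f => iSup_congr fun hf => iSup_congr fun hf0 => ?_
  have hfs : ContMDiff (𝓡∂ (d + 1)) 𝓘(ℝ, ℝ) ∞ f := hV.1 hf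
  rw [energy_eq hd g h hρ hpos hgh hfs, bdMass_eq g h hρ hpos hgh hfs]

lemma steklovBar_eq (hd : 1 ≤ d) (g h : RMetric d Ω) {ρ : Ω → ℝ}
    (hρ : ContMDiff (𝓡∂ (d + 1)) 𝓘(ℝ, ℝ) ∞ ρ) (hpos : ∀ x, 0 < ρ x)
    (hgh : ∀ x v w, h.inner x v w = ρ x ^ 2 * g.inner x v w) (k : ℕ) :
    steklovBar h k = (stek g).sigBar ((𝓡∂ (d + 1)).boundary Ω) ρ k := by
  unfold steklovBar StekData.sigBar
  rw [steklov_eq hd g h hρ hpos hgh, vol_eq g h hρ hpos hgh, bd_eq g h hρ hpos hgh]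

lemma confSteklov_eq (hd : 1 ≤ d) (g : RMetric d Ω) (k : ℕ) :
    confSteklov g k = (stek g).conf ((𝓡∂ (d + 1)).boundary Ω) k := by
  unfold confSteklov StekData.conf
  refine le_antisymm ?_ ?_
  · refine iSup₂_le fun h hh => ?_
    obtain ⟨ρ, hρ, hpos, hgh⟩ := hh
    rw [steklovBar_eq hd g h hρ hpos hgh]
    exact le_iSup₂_of_le ρ ⟨hρ, hpos⟩ le_rfl
  · refine iSup₂_le fun ρ hρ => ?_
    obtain ⟨h, hgh⟩ := exists_conformal_metric g ρ hρ.1 hρ.2
    rw [← steklovBar_eq hd g h hρ.1 hρ.2 hgh]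
    exact le_iSup₂_of_le h ⟨ρ, hρ.1, hρ.2, hgh⟩ le_rfl

/-- **Strict monotonicity of the conformal Steklov eigenvalues.** -/
theorem confSteklov_lt [ConnectedSpace Ω] (hd : 1 ≤ d)
    (hne : ((𝓡∂ (d + 1)).boundary Ω).Nonempty) (g : RMetric d Ω) (k : ℕ) :
    confSteklov g k < confSteklov g (k + 1) := by
  rw [confSteklov_eq hd, confSteklov_eq hd]
  exact abstract_main hd (stek_atlas g hne) k

end Pool.Agent.Steklov
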